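import Pool.Agent.Helper685.Sol.AlgE1

namespace Pool.Agent.Helper685.Sol

theorem exists_paModel {M : Type} {S : Str M} (hS : IsPA S) :
    ∃ _i : PALib.PAModel M, (0 : M) = S.zero ∧ (∀ x : M, x + 1 = S.succ x) ∧
      (∀ x y : M, x + y = S.add x y) ∧ (∀ x y : M, x * y = S.mul x y) := by
  let := S.toLA
  have := models_PA hS
  obtain ⟨i, hi⟩ := PALib.exists_paModel M
  refine ⟨i, ?_, ?_, ?_, ?_⟩
  · have := congrArg (fun s : PALib.LA.Structure M =>
      @FirstOrder.Language.Structure.funMap _ _ s 0 PALib.ArithFunc.zero ![]) hi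
    exact this
  · intro x
    have := congrArg (fun s : PALib.LA.Structure M =>
      @FirstOrder.Language.Structure.funMap _ _ s 1 PALib.ArithFunc.succ ![x]) hi
    exact this
  · intro x y
    have := congrArg (fun s : PALib.LA.Structure M =>
      @FirstOrder.Language.Structure.funMap _ _ s 2 PALib.ArithFunc.add ![x, y]) hi
    exact this
  · intro x y
    have := congrArg (fun s : PALib.LA.Structure M =>
      @FirstOrder.Language.Structure.funMap _ _ s 2 PALib.ArithFunc.mul ![x, y]) hi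
    exact this


theorem bridge {M : Type} {S : Str M} (hS : IsPA S) :
    ∃ _i : PALib.PAModel M, (0 : M) = S.zero ∧ (∀ x : M, x + 1 = S.succ x) ∧
      (∀ x y : M, x + y = S.add x y) ∧ (∀ x y : M, x * y = S.mul x y) ∧
      (∀ x y : M, S.le x y ↔ x ≤ y) ∧ (∀ x y : M, S.lt x y ↔ x < y) ∧
      (∀ n : ℕ, S.num n = (n : M)) ∧
      (∀ c d i y : M, S.Ent c d i y ↔ PALib.val c d i = y) := by
  obtain ⟨i, h0, h1, h2, h3⟩ := exists_paModel hS
  have hle : ∀ x y : M, S.le x y ↔ x ≤ y := by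
    intro x y
    unfold Str.le
    rw [le_iff_exists_add']
    constructor
    · rintro ⟨z, hz⟩
      exact ⟨z, by rw [h2, hz]⟩
    · rintro ⟨z, hz⟩
      exact ⟨z, by rw [← h2, hz]⟩
  have hlt : ∀ x y : M, S.lt x y ↔ x < y := by
    intro x y
    rw [← PALib.succ_le_iff, ← hle]
    unfold Str.lt Str.le
    rw [h1]
  refine ⟨i, h0, h1, h2, h3, hle, hlt, ?_, ?_⟩
  · intro n
    induction n with
    | zero => rw [Nat.cast_zero]; exact h0.symm
    | succ n ih => rw [Nat.cast_succ, h1, ← ih]; rfl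
  · intro c d i y
    rw [PALib.val_eq_iff]
    unfold Str.Ent Str.md
    rw [hlt]
    simp only [← h1, ← h2, ← h3]

theorem fin_def {M : Type} [PALib.PAModel M] (v : ℕ → M) (L : ℕ) :
    ∃ f : M → M, PALib.DefF (fun w => f (w 0)) ∧ ∀ j < L, f (j : M) = v j := by
  classical
  induction L with
  | zero => exact ⟨fun _ => 0, PALib.DefF.const 0, fun j hj => absurd hj (Nat.not_lt_zero j)⟩
  | succ L ih =>
    obtain ⟨f, hf, hfv⟩ := ih
    refine ⟨fun x => if x = (L : M) then v L else f x, ?_, ?_⟩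
    · have h1 : PALib.Def (M := M) (fun w => (w 1 = (L : M) ∧ w 0 = v L) ∨
          (¬ w 1 = (L : M) ∧ w 0 = f (w 1))) := by
        apply PALib.Def.or
        · apply PALib.Def.and
          · exact PALib.Def.eq (PALib.DefF.var 1) (PALib.DefF.const _)
          · exact PALib.Def.eq (PALib.DefF.var 0) (PALib.DefF.const _)
        · apply PALib.Def.and
          · exact PALib.Def.not (PALib.Def.eq (PALib.DefF.var 1) (PALib.DefF.const _))
          · exact hf
      refine PALib.Def.congr h1 ?_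
      intro w
      show _ ↔ w 0 = if w 1 = (L : M) then v L else f (w 1)
      by_cases h : w 1 = (L : M)
      · rw [if_pos h]
        simp [h]
      · rw [if_neg h]
        simp [h]
    · intro j hj
      show (if (j : M) = (L : M) then v L else f (j : M)) = v j
      by_cases h : j = L
      · rw [h, if_pos rfl]
      · rw [if_neg (fun h' => h (Nat.cast_injective h'))]
        exact hfv j (by omega)

theorem le_cast {M : Type} [PALib.PAModel M] {x : M} {n : ℕ} :
    x ≤ (n : M) ↔ ∃ k ≤ n, x = (k : M) := by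
  constructor
  · induction n with
    | zero =>
      intro h
      rw [Nat.cast_zero] at h
      exact ⟨0, le_rfl, by rw [Nat.cast_zero]; exact le_antisymm h zero_le⟩
    | succ n ih =>
      intro h
      rcases h.lt_or_eq with h | h
      · rw [Nat.cast_succ, PALib.lt_succ_iff] at h
        obtain ⟨k, hk, rfl⟩ := ih h
        exact ⟨k, by omega, rfl⟩
      · exact ⟨n + 1, le_rfl, h⟩
  · rintro ⟨k, hk, rfl⟩
    exact_mod_cast hk

/-- The ordered semiring structure of a model of `PA`. -/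
theorem exists_alg {M : Type} {S : Str M} (hS : IsPA S) :
    ∃ (_ : CommSemiring M) (_ : LinearOrder M) (_ : IsStrictOrderedRing M)
      (_ : CanonicallyOrderedAdd M), (0 : M) = S.zero ∧ (∀ x : M, x + 1 = S.succ x) ∧
      (∀ x y : M, x + y = S.add x y) ∧ (∀ x y : M, x * y = S.mul x y) ∧
      (∀ x y : M, x < y + 1 ↔ x ≤ y) ∧ (∀ x y : M, S.le x y ↔ x ≤ y) ∧
      (∀ x y : M, S.lt x y ↔ x < y) ∧ (∀ n : ℕ, S.num n = (n : M)) := by
  obtain ⟨i, h0, h1, h2, h3, hle, hlt, hn, -⟩ := bridge hS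
  exact ⟨inferInstance, inferInstance, inferInstance, inferInstance, h0, h1, h2, h3,
    fun x y => PALib.lt_succ_iff, hle, hlt, hn⟩

theorem ent_exists {M : Type} {S : Str M} (hS : IsPA S) (c d i : M) : ∃ y, S.Ent c d i y := by
  obtain ⟨_, -, -, -, -, -, -, -, he⟩ := bridge hS
  exact ⟨_, (he c d i _).2 rfl⟩

theorem ent_unique {M : Type} {S : Str M} (hS : IsPA S) {c d i y y' : M} (h : S.Ent c d i y)
    (h' : S.Ent c d i y') : y = y' := by
  obtain ⟨_, -, -, -, -, -, -, -, he⟩ := bridge hS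
  rw [he] at h h'
  exact h.symm.trans h' 

/-- every sequence is coded up to a standard bound -/
theorem beta {M : Type} {S : Str M} (hS : IsPA S) (v : ℕ → M) (L : ℕ) :
    ∃ c d, ∀ j < L, S.Ent c d (S.num j) (v j) := by
  obtain ⟨_, -, -, -, -, -, -, hn, he⟩ := bridge hS
  obtain ⟨f, hf, hfv⟩ := fin_def v L
  obtain ⟨a, b, hab⟩ := PALib.exists_val hf (L : M)
  refine ⟨a, b, fun j hj => ?_⟩
  rw [he, hn, hab (j : M) (by exact_mod_cast hj)]
  exact hfv j hj

theorem ent_le {M : Type} {S : Str M} (hS : IsPA S) {c d i y : M} (h : S.Ent c d i y) :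
    S.le y c := by
  obtain ⟨_, -, -, h2, -, -, -, -, -⟩ := bridge hS
  obtain ⟨⟨q, hq⟩, -⟩ := h
  exact ⟨_, hq.symm⟩

theorem num_inj {M : Type} {S : Str M} (hS : IsPA S) {m n : ℕ} (h : S.num m = S.num n) :
    m = n := by
  obtain ⟨_, -, -, -, -, -, -, hn, -⟩ := bridge hS
  rw [hn, hn] at h
  exact Nat.cast_injective h

theorem num_add {M : Type} {S : Str M} (hS : IsPA S) (m n : ℕ) :
    S.num (m + n) = S.add (S.num m) (S.num n) := by
  obtain ⟨_, -, -, h2, -, -, -, hn, -⟩ := bridge hS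
  rw [hn, hn, hn, ← h2, Nat.cast_add]

theorem num_mul {M : Type} {S : Str M} (hS : IsPA S) (m n : ℕ) :
    S.num (m * n) = S.mul (S.num m) (S.num n) := by
  obtain ⟨_, -, -, -, h3, -, -, hn, -⟩ := bridge hS
  rw [hn, hn, hn, ← h3, Nat.cast_mul]

theorem le_num {M : Type} {S : Str M} (hS : IsPA S) {x : M} {n : ℕ} :
    S.le x (S.num n) ↔ ∃ k ≤ n, x = S.num k := by
  obtain ⟨_, -, -, -, -, hle, -, hn, -⟩ := bridge hS
  rw [hle, hn, le_cast]
  simp only [hn]

theorem lt_num {M : Type} {S : Str M} (hS : IsPA S) {x : M} {n : ℕ} :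
    S.lt x (S.num n) ↔ ∃ k < n, x = S.num k := by
  obtain ⟨_, -, -, -, -, hle, hlt, hn, -⟩ := bridge hS
  rw [hlt, hn]
  simp only [hn]
  constructor
  · intro h
    obtain ⟨k, hk, rfl⟩ := le_cast.1 h.le
    exact ⟨k, by exact_mod_cast h, rfl⟩
  · rintro ⟨k, hk, rfl⟩
    exact_mod_cast hk

theorem ent_num {M : Type} {S : Str M} (hS : IsPA S) (c d i y : ℕ) :
    S.Ent (S.num c) (S.num d) (S.num i) (S.num y) ↔ y = c % ((i + 1) * d + 1) := by
  obtain ⟨_, -, -, -, -, -, -, hn, he⟩ := bridge hS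
  rw [he, hn, hn, hn, hn]
  have key : PALib.val (c : M) (d : M) (i : M) = ((c % ((i + 1) * d + 1) : ℕ) : M) := by
    apply PALib.val_eq
    · refine ⟨((c / ((i + 1) * d + 1) : ℕ) : M), ?_⟩
      have h := Nat.div_add_mod c ((i + 1) * d + 1)
      have h' : (c : M) = (((i + 1) * d + 1) * (c / ((i + 1) * d + 1)) +
        c % ((i + 1) * d + 1) : ℕ) := by rw [h]
      rw [h']
      push_cast
      ring
    · have h : c % ((i + 1) * d + 1) < (i + 1) * d + 1 := Nat.mod_lt _ (Nat.succ_pos _)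
      exact_mod_cast h
  rw [key]
  constructor
  · intro h
    exact (Nat.cast_injective h).symm
  · rintro rfl
    rfl

end Pool.Agent.Helper685.Sol
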