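import Mathlib

/-! Peano arithmetic: the language, the theory, definability with parameters, the beta function,
and the ordered semiring structure of an arbitrary model (after Pool/Agent/Helper687/Arith). -/

universe u

namespace Pool.Agent.Helper685.PALib

open FirstOrder FirstOrder.Language


/-! ### The language of arithmetic and Peano arithmetic -/

/-- The function symbols of arithmetic: zero, successor, addition and multiplication. -/
inductive ArithFunc : ℕ → Type
  | zero : ArithFunc 0
  | succ : ArithFunc 1
  | add : ArithFunc 2
  | mul : ArithFunc 2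

/-- The language `0, S, +, ·` of arithmetic (with equality, no relation symbols). -/
def LA : FirstOrder.Language.{0, 0} := ⟨ArithFunc, fun _ => Empty⟩

/-- The term `0`. -/
def O {α : Type*} : LA.Term α := Term.func (ArithFunc.zero : LA.Functions 0) ![]

/-- The term `S t`. -/
def Sc {α : Type*} (t : LA.Term α) : LA.Term α := Term.func (ArithFunc.succ : LA.Functions 1) ![t]

/-- The term `s + t`. -/
def Pl {α : Type*} (s t : LA.Term α) : LA.Term α :=
  Term.func (ArithFunc.add : LA.Functions 2) ![s, t]

/-- The term `s · t`. -/
def Ti {α : Type*} (s t : LA.Term α) : LA.Term α :=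
  Term.func (ArithFunc.mul : LA.Functions 2) ![s, t]

/-- The instance of the induction scheme for the formula `φ` with parameters `y_0, ..., y_{n-1}`
and induction variable `x`:
`∀ y_0 ... y_{n-1}, φ(0) ∧ (∀ x, φ(x) → φ(S x)) → ∀ x, φ(x)`. -/
noncomputable def inductionAxiom {n : ℕ} (φ : LA.Formula (Fin n ⊕ Fin 1)) : LA.Sentence :=
  let atZero : LA.Formula (Fin n) := φ.subst (Sum.elim (fun i => Term.var i) (fun _ => O))
  let atSucc : LA.Formula (Fin n ⊕ Fin 1) :=
    φ.subst (Sum.elim (fun i => Term.var (Sum.inl i)) (fun i => Sc (Term.var (Sum.inr i))))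
  Formula.iAlls (Fin n) (((atZero ⊓ Formula.iAlls (Fin 1) (φ.imp atSucc)).imp
    (Formula.iAlls (Fin 1) φ)).relabel (Sum.inr : Fin n → Empty ⊕ Fin n))

/-- The axioms of first-order Peano arithmetic:
`S x ≠ 0`, `S x = S y → x = y`, `x + 0 = x`, `x + S y = S (x + y)`, `x · 0 = 0`,
`x · S y = x · y + x`, and all instances of induction. -/
inductive IsAxiom : LA.Sentence → Prop
  | succ_ne : IsAxiom (∀' ∼(Sc (&0) =' O))
  | succ_inj : IsAxiom (∀' ∀' ((Sc (&0) =' Sc (&1)) ⟹ (&0 =' &1)))
  | add_zero : IsAxiom (∀' (Pl (&0) O =' &0))
  | add_succ : IsAxiom (∀' ∀' (Pl (&0) (Sc (&1)) =' Sc (Pl (&0) (&1))))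
  | mul_zero : IsAxiom (∀' (Ti (&0) O =' O))
  | mul_succ : IsAxiom (∀' ∀' (Ti (&0) (Sc (&1)) =' Pl (Ti (&0) (&1)) (&0)))
  | induction {n : ℕ} (φ : LA.Formula (Fin n ⊕ Fin 1)) : IsAxiom (inductionAxiom φ)

/-- First-order Peano arithmetic. -/
def PA : LA.Theory := {φ | IsAxiom φ}

/-- The interpretation of the symbols of arithmetic in a commutative semiring, in particular in
`ℕ`: `0`, `x + 1`, `x + y` and `x · y`. -/
instance standard {M : Type u} [CommSemiring M] : LA.Structure M where
  funMap := fun {n} (f : ArithFunc n) => match n, f with
    | _, .zero => fun _ => 0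
    | _, .succ => fun x => x 0 + 1
    | _, .add => fun x => x 0 + x 1
    | _, .mul => fun x => x 0 * x 1
  RelMap := fun r => r.elim



/-! ### Definability with parameters -/

section definability

variable {M : Type u} [LA.Structure M]

/-- `a` followed by the sequence `v`. -/
def cns (a : M) (v : ℕ → M) : ℕ → M
  | 0 => a
  | n + 1 => v n

/-- Predicates on sequences which are definable with parameters. -/
def Def (R : (ℕ → M) → Prop) : Prop :=
  ∃ φ : LA.Formula (M ⊕ ℕ), ∀ v : ℕ → M, φ.Realize (Sum.elim id v) ↔ R v

/-- variable shift used for quantification -/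
def shft : M ⊕ ℕ → (M ⊕ ℕ) ⊕ Fin 1
  | .inl p => .inl (.inl p)
  | .inr 0 => .inr 0
  | .inr (n + 1) => .inl (.inr n)

/-- universal quantification over variable `0`, shifting the others down -/
def qall (φ : LA.Formula (M ⊕ ℕ)) : LA.Formula (M ⊕ ℕ) :=
  (BoundedFormula.relabel (n := 1) (shft (M := M)) φ : LA.BoundedFormula (M ⊕ ℕ) 1).all

theorem realize_qall (φ : LA.Formula (M ⊕ ℕ)) (v : ℕ → M) :
    (qall φ).Realize (Sum.elim id v) ↔ ∀ a : M, φ.Realize (Sum.elim id (cns a v)) := by
  unfold qall Formula.Realize
  rw [BoundedFormula.realize_all]
  refine forall_congr' fun a => ?_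
  rw [BoundedFormula.realize_relabel]
  have h1 : (Sum.elim (Sum.elim id v) ((Fin.snoc default a : Fin 1 → M) ∘ Fin.castAdd 0) ∘ shft)
      = Sum.elim id (cns a v) := by
    funext s
    rcases s with p' | n
    · rfl
    · cases n with
      | zero => rfl
      | succ n => rfl
  rw [h1]
  have h2 : ((Fin.snoc default a : Fin 1 → M) ∘ Fin.natAdd 1 : Fin 0 → M) = default :=
    Subsingleton.elim _ _
  exact iff_of_eq (congrArg (BoundedFormula.Realize φ (Sum.elim id (cns a v))) h2)

theorem realize_ren (φ : LA.Formula (M ⊕ ℕ)) (ρ : ℕ → ℕ) (v : ℕ → M) :
    (φ.relabel (Sum.map id ρ)).Realize (Sum.elim id v) ↔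
      φ.Realize (Sum.elim id (fun n => v (ρ n))) := by
  rw [Formula.realize_relabel]
  have : Sum.elim id v ∘ Sum.map id ρ = Sum.elim id (fun n => v (ρ n)) := by
    funext s; rcases s with p' | n <;> rfl
  rw [this]

namespace Def

theorem congr {R S : (ℕ → M) → Prop} (hR : Def R) (h : ∀ v, R v ↔ S v) : Def S := by
  obtain ⟨φ, hφ⟩ := hR
  exact ⟨φ, fun v => (hφ v).trans (h v)⟩

theorem bot : Def (M := M) (fun _ => False) := ⟨⊥, fun _ => Formula.realize_bot⟩

theorem imp {R S : (ℕ → M) → Prop} (hR : Def R) (hS : Def S) :
    Def (fun v => R v → S v) := by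
  obtain ⟨φ, hφ⟩ := hR
  obtain ⟨ψ, hψ⟩ := hS
  exact ⟨φ.imp ψ, fun v => by rw [Formula.realize_imp, hφ, hψ]⟩

theorem not {R : (ℕ → M) → Prop} (hR : Def R) : Def (fun v => ¬ R v) :=
  imp hR bot

theorem and {R S : (ℕ → M) → Prop} (hR : Def R) (hS : Def S) :
    Def (fun v => R v ∧ S v) :=
  congr (not (imp hR (not hS))) (fun v => by tauto)

theorem or {R S : (ℕ → M) → Prop} (hR : Def R) (hS : Def S) :
    Def (fun v => R v ∨ S v) :=
  congr (imp (not hR) hS) (fun v => by tauto)

theorem iff {R S : (ℕ → M) → Prop} (hR : Def R) (hS : Def S) :
    Def (fun v => R v ↔ S v) :=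
  congr (and (imp hR hS) (imp hS hR)) (fun v => by tauto)

theorem all {S : (ℕ → M) → M → Prop}
    (hR : Def (fun v => S (fun n => v (n + 1)) (v 0))) :
    Def (fun v => ∀ a, S v a) := by
  obtain ⟨φ, hφ⟩ := hR
  refine ⟨qall φ, fun v => ?_⟩
  rw [realize_qall]
  refine forall_congr' fun a => ?_
  rw [hφ]
  exact Iff.rfl

theorem ex {S : (ℕ → M) → M → Prop}
    (hR : Def (fun v => S (fun n => v (n + 1)) (v 0))) :
    Def (fun v => ∃ a, S v a) :=
  congr (not (all (S := fun v a => ¬ S v a) (not hR))) (fun v => by simp)

theorem ren {R : (ℕ → M) → Prop} (ρ : ℕ → ℕ) (hR : Def R) :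
    Def (fun v => R (fun n => v (ρ n))) := by
  obtain ⟨φ, hφ⟩ := hR
  exact ⟨φ.relabel (Sum.map id ρ), fun v => by rw [realize_ren, hφ]⟩

theorem const (p : Prop) : Def (M := M) (fun _ => p) := by
  by_cases h : p
  · exact congr (not bot) (fun _ => by simp [h])
  · exact congr bot (fun _ => by simp [h])

end Def

/-- Functions on sequences with definable graph. -/
def DefF (f : (ℕ → M) → M) : Prop := Def (fun v => v 0 = f (fun n => v (n + 1)))

namespace DefF

theorem ren {f : (ℕ → M) → M} (ρ : ℕ → ℕ) (h : DefF f) : DefF (fun v => f (fun n => v (ρ n))) :=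
  Def.ren (fun n => match n with | 0 => 0 | n + 1 => ρ n + 1) h

theorem var (n : ℕ) : DefF (M := M) (fun v => v n) :=
  ⟨(Term.var (Sum.inr 0)).equal (Term.var (Sum.inr (n + 1))), fun _ => Formula.realize_equal⟩

theorem const (c : M) : DefF (M := M) (fun _ => c) :=
  ⟨(Term.var (Sum.inr 0)).equal (Term.var (Sum.inl c)), fun _ => Formula.realize_equal⟩

end DefF

namespace Def

/-- Substitution in a unary relation. -/
theorem sub1 {R : M → Prop} (h : Def (fun v => R (v 0))) {f : (ℕ → M) → M} (hf : DefF f) :
    Def (fun v => R (f v)) :=
  congr (ex (S := fun v a => a = f v ∧ R a) (and hf h)) (fun v => by simp)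

/-- Substitution in a binary relation. -/
theorem sub2 {R : M → M → Prop} (h : Def (fun v => R (v 0) (v 1))) {f g : (ℕ → M) → M}
    (hf : DefF f) (hg : DefF g) : Def (fun v => R (f v) (g v)) := by
  have h1 : Def (fun v : ℕ → M => v 0 = f (fun n => v (n + 2))) :=
    Def.ren (fun n => match n with | 0 => 0 | n + 1 => n + 2) hf
  have h2 : Def (fun v : ℕ → M => v 1 = g (fun n => v (n + 2))) :=
    Def.ren (fun n => match n with | 0 => 1 | n + 1 => n + 2) hg
  refine congr (ex (S := fun v b => ∃ a, a = f v ∧ b = g v ∧ R a b) (ex (S := fun v a =>
    a = f (fun n => v (n + 1)) ∧ v 0 = g (fun n => v (n + 1)) ∧ R a (v 0)) (and h1 (and h2 h))))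
    (fun v => by simp)

/-- Substitution in a ternary relation. -/
theorem sub3 {R : M → M → M → Prop} (h : Def (fun v => R (v 0) (v 1) (v 2)))
    {f g k : (ℕ → M) → M} (hf : DefF f) (hg : DefF g) (hk : DefF k) :
    Def (fun v => R (f v) (g v) (k v)) := by
  have h1 : Def (fun v : ℕ → M => v 0 = f (fun n => v (n + 3))) :=
    Def.ren (fun n => match n with | 0 => 0 | n + 1 => n + 3) hf
  have h2 : Def (fun v : ℕ → M => v 1 = g (fun n => v (n + 3))) :=
    Def.ren (fun n => match n with | 0 => 1 | n + 1 => n + 3) hg
  have h3 : Def (fun v : ℕ → M => v 2 = k (fun n => v (n + 3))) :=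
    Def.ren (fun n => match n with | 0 => 2 | n + 1 => n + 3) hk
  refine congr (ex (S := fun v c => ∃ b, ∃ a, a = f v ∧ b = g v ∧ c = k v ∧ R a b c)
    (ex (S := fun v b => ∃ a, a = f (fun n => v (n + 1)) ∧ b = g (fun n => v (n + 1)) ∧
      v 0 = k (fun n => v (n + 1)) ∧ R a b (v 0)) (ex (S := fun v a =>
    a = f (fun n => v (n + 2)) ∧ v 0 = g (fun n => v (n + 2)) ∧ v 1 = k (fun n => v (n + 2)) ∧
      R a (v 0) (v 1)) (and h1 (and h2 (and h3 h))))))
    (fun v => by simp)

/-- Substitution in a quaternary relation. -/
theorem sub4 {R : M → M → M → M → Prop} (h : Def (fun v => R (v 0) (v 1) (v 2) (v 3)))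
    {f g k l : (ℕ → M) → M} (hf : DefF f) (hg : DefF g) (hk : DefF k) (hl : DefF l) :
    Def (fun v => R (f v) (g v) (k v) (l v)) := by
  have h1 : Def (fun v : ℕ → M => v 0 = f (fun n => v (n + 4))) :=
    Def.ren (fun n => match n with | 0 => 0 | n + 1 => n + 4) hf
  have h2 : Def (fun v : ℕ → M => v 1 = g (fun n => v (n + 4))) :=
    Def.ren (fun n => match n with | 0 => 1 | n + 1 => n + 4) hg
  have h3 : Def (fun v : ℕ → M => v 2 = k (fun n => v (n + 4))) :=
    Def.ren (fun n => match n with | 0 => 2 | n + 1 => n + 4) hk
  have h4 : Def (fun v : ℕ → M => v 3 = l (fun n => v (n + 4))) :=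
    Def.ren (fun n => match n with | 0 => 3 | n + 1 => n + 4) hl
  refine congr (ex (S := fun v d => ∃ c, ∃ b, ∃ a, a = f v ∧ b = g v ∧ c = k v ∧ d = l v ∧
      R a b c d)
    (ex (S := fun v c => ∃ b, ∃ a, a = f (fun n => v (n + 1)) ∧ b = g (fun n => v (n + 1)) ∧
      c = k (fun n => v (n + 1)) ∧ v 0 = l (fun n => v (n + 1)) ∧ R a b c (v 0))
    (ex (S := fun v b => ∃ a, a = f (fun n => v (n + 2)) ∧ b = g (fun n => v (n + 2)) ∧
      v 0 = k (fun n => v (n + 2)) ∧ v 1 = l (fun n => v (n + 2)) ∧ R a b (v 0) (v 1))
    (ex (S := fun v a =>
    a = f (fun n => v (n + 3)) ∧ v 0 = g (fun n => v (n + 3)) ∧ v 1 = k (fun n => v (n + 3)) ∧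
      v 2 = l (fun n => v (n + 3)) ∧ R a (v 0) (v 1) (v 2))
      (and h1 (and h2 (and h3 (and h4 h))))))))
    (fun v => by simp)

theorem var_eq (m n : ℕ) : Def (M := M) (fun v => v m = v n) :=
  ⟨(Term.var (Sum.inr m)).equal (Term.var (Sum.inr n)), fun _ => Formula.realize_equal⟩

theorem eq {f g : (ℕ → M) → M} (hf : DefF f) (hg : DefF g) : Def (fun v => f v = g v) :=
  sub2 (R := fun a b => a = b) (var_eq 0 1) hf hg

end Def

namespace DefF

/-- A function with definable graph, applied to a definable function. -/
theorem app1 {F : M → M} (h : Def (fun v => v 0 = F (v 1))) {f : (ℕ → M) → M} (hf : DefF f) :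
    DefF (fun v => F (f v)) :=
  Def.sub2 (R := fun a b => a = F b) h (var 0) (hf.ren (fun n => n + 1))

theorem app2 {F : M → M → M} (h : Def (fun v => v 0 = F (v 1) (v 2))) {f g : (ℕ → M) → M}
    (hf : DefF f) (hg : DefF g) : DefF (fun v => F (f v) (g v)) :=
  Def.sub3 (R := fun a b c => a = F b c) h (var 0) (hf.ren (fun n => n + 1))
    (hg.ren (fun n => n + 1))

theorem app3 {F : M → M → M → M} (h : Def (fun v => v 0 = F (v 1) (v 2) (v 3)))
    {f g k : (ℕ → M) → M} (hf : DefF f) (hg : DefF g) (hk : DefF k) :
    DefF (fun v => F (f v) (g v) (k v)) :=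
  Def.sub4 (R := fun a b c d => a = F b c d) h (var 0) (hf.ren (fun n => n + 1))
    (hg.ren (fun n => n + 1)) (hk.ren (fun n => n + 1))

end DefF

end definability

section semiring

variable {M : Type u} [CommSemiring M]

@[simp] lemma realize_O {α : Type*} (v : α → M) : (O : LA.Term α).realize v = 0 := rfl
@[simp] lemma realize_Sc {α : Type*} (v : α → M) (t : LA.Term α) :
    (Sc t).realize v = t.realize v + 1 := rfl
@[simp] lemma realize_Pl {α : Type*} (v : α → M) (s t : LA.Term α) :
    (Pl s t).realize v = s.realize v + t.realize v := rfl
@[simp] lemma realize_Ti {α : Type*} (v : α → M) (s t : LA.Term α) :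
    (Ti s t).realize v = s.realize v * t.realize v := rfl

namespace DefF

theorem add {f g : (ℕ → M) → M} (hf : DefF f) (hg : DefF g) : DefF (fun v => f v + g v) :=
  app2 (F := fun a b => a + b) ⟨(Term.var (Sum.inr 0)).equal
    (Pl (Term.var (Sum.inr 1)) (Term.var (Sum.inr 2))), fun _ => Formula.realize_equal⟩ hf hg

theorem mul {f g : (ℕ → M) → M} (hf : DefF f) (hg : DefF g) : DefF (fun v => f v * g v) :=
  app2 (F := fun a b => a * b) ⟨(Term.var (Sum.inr 0)).equal
    (Ti (Term.var (Sum.inr 1)) (Term.var (Sum.inr 2))), fun _ => Formula.realize_equal⟩ hf hg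

end DefF

end semiring

/-! ### Models of Peano arithmetic as ordered semirings -/

/-- A model of Peano arithmetic, presented as an ordered semiring with induction for all sets
definable with parameters. -/
class PAModel (M : Type u) extends CommSemiring M, LinearOrder M, IsStrictOrderedRing M,
    CanonicallyOrderedAdd M where
  lt_add_one_iff' : ∀ x y : M, x < y + 1 ↔ x ≤ y
  ind' : ∀ P : M → Prop, Def (fun v => P (v 0)) → P 0 → (∀ x, P x → P (x + 1)) → ∀ x, P x

set_option linter.unreachableTactic false
set_option linter.unusedTactic false

section model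

variable {M : Type u} [PAModel M]

lemma lt_succ_iff {x y : M} : x < y + 1 ↔ x ≤ y := PAModel.lt_add_one_iff' x y

lemma succ_le_iff {x y : M} : x + 1 ≤ y ↔ x < y := by
  rw [← not_lt, lt_succ_iff, not_le]

lemma lt_succ_iff' {x y : M} : x < y + 1 ↔ x < y ∨ x = y := by
  rw [lt_succ_iff, le_iff_lt_or_eq]

lemma lt_iff_exists (x y : M) : x < y ↔ ∃ z, x + (z + 1) = y := by
  constructor
  · intro h
    obtain ⟨z, hz⟩ := exists_add_of_le (succ_le_iff.mpr h)
    exact ⟨z, by rw [hz]; ring⟩
  · rintro ⟨z, rfl⟩
    rw [← succ_le_iff, ← add_assoc, add_right_comm]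
    exact le_self_add

lemma zero_lt_succ' (x : M) : 0 < x + 1 := lt_succ_iff.mpr zero_le

lemma exists_pred {x : M} (h : 0 < x) : ∃ y, x = y + 1 := by
  obtain ⟨z, hz⟩ := (lt_iff_exists 0 x).mp h
  exact ⟨z, by rw [← hz, zero_add]⟩

lemma pos_of_ne {x : M} (h : x ≠ 0) : 0 < x := lt_of_le_of_ne zero_le (Ne.symm h)

lemma lt_one_iff' {x : M} : x < 1 ↔ x = 0 := by
  rw [← zero_add (1 : M), lt_succ_iff]
  exact ⟨fun h => le_antisymm h zero_le, fun h => h.le⟩

theorem Def.lt {f g : (ℕ → M) → M} (hf : DefF f) (hg : DefF g) : Def (fun v => f v < g v) := by
  have h : Def (M := M) (fun v => v 0 < v 1) := by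
    refine Def.congr (R := fun v => ∃ z, v 0 + (z + 1) = v 1) ?_
      (fun v => (lt_iff_exists _ _).symm)
    apply Def.ex
    apply Def.eq
    · exact (DefF.var 1).add ((DefF.var 0).add (DefF.const 1))
    · exact DefF.var 2
  exact Def.sub2 h hf hg

theorem Def.le {f g : (ℕ → M) → M} (hf : DefF f) (hg : DefF g) : Def (fun v => f v ≤ g v) :=
  Def.congr (Def.not (Def.lt hg hf)) (fun v => not_lt)

theorem ind {P : M → Prop} (hP : Def (fun v => P (v 0))) (h0 : P 0) (hs : ∀ x, P x → P (x + 1))
    (x : M) : P x :=
  PAModel.ind' P hP h0 hs x

theorem strong_ind {P : M → Prop} (hP : Def (fun v => P (v 0)))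
    (h : ∀ x, (∀ y < x, P y) → P x) (x : M) : P x := by
  have key : ∀ x : M, ∀ y < x, P y := by
    intro x
    refine ind (P := fun x => ∀ y, y < x → P y) ?_ ?_ ?_ x
    · apply Def.all
      apply Def.imp
      · exact Def.lt (DefF.var 0) (DefF.var 1)
      · exact Def.sub1 hP (DefF.var 0)
    · intro y hy
      exact absurd hy (not_lt.mpr zero_le)
    · intro x ih y hy
      exact h y (fun z hz => ih z (lt_of_lt_of_le hz (lt_succ_iff.mp hy)))
  exact h x (key x)

theorem least {P : M → Prop} (hP : Def (fun v => P (v 0))) (h : ∃ x, P x) :
    ∃ x, P x ∧ ∀ y < x, ¬ P y := by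
  by_contra hno
  push Not at hno
  obtain ⟨x, hx⟩ := h
  refine strong_ind (P := fun x => ¬ P x) (Def.not hP) (fun x ih hx => ?_) x hx
  obtain ⟨y, hy, hy'⟩ := hno x hx
  exact ih y hy hy'

open Classical in
/-- The unique element with the property `P`, or zero. -/
noncomputable def the (P : M → Prop) : M := if h : ∃! x, P x then h.choose else 0

lemma the_spec {P : M → Prop} (h : ∃! x, P x) : P (the P) := by
  rw [the, dif_pos h]
  exact h.choose_spec.1

lemma the_neg {P : M → Prop} (h : ¬ ∃! x, P x) : the P = 0 := by
  rw [the, dif_neg h]

lemma the_eq {P : M → Prop} {x : M} (h : P x) (hu : ∀ y, P y → y = x) : the P = x :=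
  hu _ (the_spec ⟨x, h, hu⟩)

theorem DefF.the {Q : (ℕ → M) → M → Prop} (h : Def (fun v => Q (fun n => v (n + 1)) (v 0))) :
    DefF (fun v => the (fun x => Q v x)) := by
  have h1 : Def (fun v => Q (fun n => v (n + 2)) (v 0)) :=
    Def.ren (fun n => match n with | 0 => 0 | n + 1 => n + 2) h
  have h2 : Def (fun v => Q (fun n => v (n + 2)) (v 1)) :=
    Def.ren (fun n => match n with | 0 => 1 | n + 1 => n + 2) h
  have h3 : Def (fun v => Q (fun n => v (n + 3)) (v 1)) :=
    Def.ren (fun n => match n with | 0 => 1 | n + 1 => n + 3) h
  have h4 : Def (fun v => Q (fun n => v (n + 3)) (v 0)) :=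
    Def.ren (fun n => match n with | 0 => 0 | n + 1 => n + 3) h
  have hE : Def (fun v => ∃ x, Q (fun n => v (n + 1)) x ∧ ∀ y, Q (fun n => v (n + 1)) y → y = x) :=
    Def.ex (Def.and h1 (Def.all (Def.imp h4 (Def.var_eq 0 1))))
  refine Def.congr (R := fun v => ((∃ x, Q (fun n => v (n + 1)) x ∧
    ∀ y, Q (fun n => v (n + 1)) y → y = x) ∧ Q (fun n => v (n + 1)) (v 0)) ∨
    (¬ (∃ x, Q (fun n => v (n + 1)) x ∧ ∀ y, Q (fun n => v (n + 1)) y → y = x) ∧ v 0 = 0)) ?_ ?_
  · apply Def.or
    · apply Def.and hE h
    · apply Def.and (Def.not hE)
      exact Def.eq (DefF.var 0) (DefF.const 0)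
  · intro v
    constructor
    · rintro (⟨h1, h2⟩ | ⟨h1, h2⟩)
      · exact ExistsUnique.unique h1 h2 (the_spec h1)
      · exact h2.trans (the_neg h1).symm
    · intro h1
      by_cases h2 : ∃! x, Q (fun n => v (n + 1)) x
      · left
        refine ⟨h2, ?_⟩
        rw [h1]
        exact the_spec h2
      · right
        refine ⟨h2, ?_⟩
        rw [h1]
        exact the_neg h2

/-! ### The beta function -/

lemma rem_unique {a m q r q' r' : M} (h : a = q * m + r) (hr : r < m) (h' : a = q' * m + r')
    (hr' : r' < m) : q = q' ∧ r = r' := by
  have key : ∀ {q r q' r' : M}, a = q * m + r → r < m → a = q' * m + r' → r' < m → ¬ q < q' := by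
    intro q r q' r' h hr h' hr' hlt
    obtain ⟨z, rfl⟩ := (lt_iff_exists _ _).mp hlt
    have h1 : a < a := by
      calc a = q * m + r := h
        _ < q * m + m := by gcongr
        _ ≤ q * m + m + (z * m + r') := le_self_add
        _ = (q + (z + 1)) * m + r' := by ring
        _ = a := h'.symm
    exact lt_irrefl _ h1
  have hq : q = q' := le_antisymm (not_lt.mp (key h' hr' h hr)) (not_lt.mp (key h hr h' hr'))
  refine ⟨hq, ?_⟩
  rw [h, hq] at h'
  exact add_left_cancel h'

lemma exists_rem (a : M) {m : M} (hm : 0 < m) : ∃ r, (∃ q, a = q * m + r) ∧ r < m := by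
  refine ind (P := fun a => ∃ r, (∃ q, a = q * m + r) ∧ r < m) ?_ ?_ ?_ a
  · (repeat' first
      | assumption
      | with_reducible exact DefF.var _
      | with_reducible exact DefF.const _
      | with_reducible exact Def.const _
      | with_reducible apply Def.and
      | with_reducible apply Def.or
      | with_reducible apply Def.iff
      | with_reducible apply Def.not
      | with_reducible apply Def.ex
      | with_reducible apply Def.all
      | with_reducible apply Def.imp
      | with_reducible apply Def.eq
      | with_reducible apply Def.lt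
      | with_reducible apply Def.le
      | with_reducible apply DefF.add
      | with_reducible apply DefF.mul
      | with_reducible apply DefF.the)
  · exact ⟨0, ⟨0, by ring⟩, hm⟩
  · rintro a ⟨r, ⟨q, rfl⟩, hr⟩
    rcases (succ_le_iff.mpr hr).lt_or_eq with h | h
    · exact ⟨r + 1, ⟨q, by ring⟩, h⟩
    · exact ⟨0, ⟨q + 1, by rw [← h]; ring⟩, hm⟩

/-- The `i`-th entry of the sequence coded by `a` and `b`: the remainder of `a` on division by
`(i + 1) b + 1`. -/
noncomputable def val (a b i : M) : M :=
  the (fun r => (∃ q, a = q * ((i + 1) * b + 1) + r) ∧ r < (i + 1) * b + 1)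

lemma val_spec (a b i : M) : (∃ q, a = q * ((i + 1) * b + 1) + val a b i) ∧
    val a b i < (i + 1) * b + 1 := by
  obtain ⟨r, ⟨q, hq⟩, hr⟩ := exists_rem a (zero_lt_succ' ((i + 1) * b))
  refine the_spec (P := fun r => (∃ q, a = q * ((i + 1) * b + 1) + r) ∧ r < (i + 1) * b + 1)
    ⟨r, ⟨⟨q, hq⟩, hr⟩, ?_⟩
  rintro r' ⟨⟨q', hq'⟩, hr'⟩
  exact (rem_unique hq' hr' hq hr).2

lemma val_eq {a b i r : M} (h : ∃ q, a = q * ((i + 1) * b + 1) + r) (hr : r < (i + 1) * b + 1) :
    val a b i = r := by
  obtain ⟨q, hq⟩ := h
  obtain ⟨⟨q', hq'⟩, hr'⟩ := val_spec a b i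
  exact (rem_unique hq' hr' hq hr).2

lemma val_eq_iff (a b i r : M) : val a b i = r ↔ (∃ q, a = q * ((i + 1) * b + 1) + r) ∧
    r < (i + 1) * b + 1 := by
  constructor
  · rintro rfl
    exact val_spec a b i
  · rintro ⟨h1, h2⟩
    exact val_eq h1 h2

theorem DefF.val {f g k : (ℕ → M) → M} (hf : DefF f) (hg : DefF g) (hk : DefF k) :
    DefF (fun v => val (f v) (g v) (k v)) := by
  have h : Def (M := M) (fun v => v 0 = PALib.val (v 1) (v 2) (v 3)) := by
    refine Def.congr (R := fun v => (∃ q, v 1 = q * ((v 3 + 1) * v 2 + 1) + v 0) ∧
      v 0 < (v 3 + 1) * v 2 + 1) ?_ (fun v => by rw [eq_comm (a := v 0), val_eq_iff])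
    (repeat' first
        | assumption
        | with_reducible exact DefF.var _
        | with_reducible exact DefF.const _
        | with_reducible exact Def.const _
        | with_reducible apply Def.and
        | with_reducible apply Def.or
        | with_reducible apply Def.iff
        | with_reducible apply Def.not
        | with_reducible apply Def.ex
        | with_reducible apply Def.all
        | with_reducible apply Def.imp
        | with_reducible apply Def.eq
        | with_reducible apply Def.lt
        | with_reducible apply Def.le
        | with_reducible apply DefF.add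
        | with_reducible apply DefF.mul
        | with_reducible apply DefF.the)
  exact DefF.app3 h hf hg hk


/-- Inverses modulo `q`. -/
def Cop (m q : M) : Prop := ∃ x y, x * m = y * q + 1

lemma Cop.mul {m m' q : M} (h : Cop m q) (h' : Cop m' q) : Cop (m * m') q := by
  obtain ⟨x, y, hx⟩ := h
  obtain ⟨x', y', hx'⟩ := h'
  refine ⟨x * x', y * y' * q + y + y', ?_⟩
  calc x * x' * (m * m') = (x * m) * (x' * m') := by ring
    _ = _ := by rw [hx, hx']; ring

lemma cop_succ {i j b c d : M} (hj : j = i + d) (hb : b = d * c) (hc : 0 < c) :
    Cop ((i + 1) * b + 1) ((j + 1) * b + 1) := by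
  obtain ⟨c', rfl⟩ := exists_pred hc
  -- A X + 1 = B Y
  set A := (i + 1) * b + 1 with hA
  set B := (j + 1) * b + 1 with hB
  set X := (c' + 1) * (j + 1) * (j + 1) with hX
  set Y := (c' + 1) * (i + 1) * (j + 1) + 1 with hY
  have h1 : A * X + 1 = B * Y := by
    rw [hA, hB, hX, hY, hj, hb]
    ring
  have h2 : 0 < A * X := by
    rw [hA, hX]
    apply mul_pos (zero_lt_succ' _)
    exact mul_pos (mul_pos (zero_lt_succ' _) (zero_lt_succ' _)) (zero_lt_succ' _)
  obtain ⟨t, ht⟩ := exists_pred h2
  refine ⟨X * X * A, Y * t, ?_⟩
  calc X * X * A * A = (A * X) * (A * X) := by ring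
    _ = (t + 1) * (t + 1) := by rw [ht]
    _ = (t + 1 + 1) * t + 1 := by ring
    _ = (B * Y) * t + 1 := by rw [← h1, ht]
    _ = _ := by ring

lemma crt_step {m q : M} (h : Cop m q) (hq : 0 < q) (a r : M) : ∃ x z, a + m * x = z * q + r := by
  obtain ⟨x, y, hx⟩ := h
  obtain ⟨q', rfl⟩ := exists_pred hq
  refine ⟨x * (r + a * q'), a + y * (r + a * q'), ?_⟩
  calc a + m * (x * (r + a * q')) = a + (x * m) * (r + a * q') := by ring
    _ = _ := by rw [hx]; ring

lemma exists_multiple (n : M) : ∃ b, 0 < b ∧ ∀ i, 0 < i → i ≤ n → ∃ c, b = i * c := by
  refine ind (P := fun n => ∃ b, 0 < b ∧ ∀ i, 0 < i → i ≤ n → ∃ c, b = i * c) ?_ ?_ ?_ n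
  · (repeat' first
      | assumption
      | with_reducible exact DefF.var _
      | with_reducible exact DefF.const _
      | with_reducible exact Def.const _
      | with_reducible apply DefF.val
      | with_reducible apply Def.and
      | with_reducible apply Def.or
      | with_reducible apply Def.iff
      | with_reducible apply Def.not
      | with_reducible apply Def.ex
      | with_reducible apply Def.all
      | with_reducible apply Def.imp
      | with_reducible apply Def.eq
      | with_reducible apply Def.lt
      | with_reducible apply Def.le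
      | with_reducible apply DefF.add
      | with_reducible apply DefF.mul
      | with_reducible apply DefF.the)
  · refine ⟨1, zero_lt_one, fun i h0 h1 => ?_⟩
    exact absurd h0 (not_lt.mpr h1)
  · rintro n ⟨b, hb, h⟩
    refine ⟨b * (n + 1), mul_pos hb (zero_lt_succ' _), fun i h0 h1 => ?_⟩
    rcases h1.lt_or_eq with h1 | h1
    · obtain ⟨c, hc⟩ := h i h0 (lt_succ_iff.mp h1)
      exact ⟨c * (n + 1), by rw [hc]; ring⟩
    · exact ⟨b, by rw [h1]; ring⟩

lemma exists_bound {f : M → M} (hf : DefF (fun v => f (v 0))) (n : M) :
    ∃ B, ∀ i < n, f i < B := by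
  have hf' : Def (fun v : ℕ → M => v 0 = f (v 1)) := hf
  refine ind (P := fun n => ∃ B, ∀ i, i < n → f i < B) ?_ ?_ ?_ n
  · have h1 : DefF (fun v : ℕ → M => f (v 0)) := DefF.app1 hf' (DefF.var 0)
    (repeat' first
        | assumption
        | with_reducible exact DefF.var _
        | with_reducible exact DefF.const _
        | with_reducible exact Def.const _
        | with_reducible apply DefF.val
        | with_reducible apply Def.and
        | with_reducible apply Def.or
        | with_reducible apply Def.iff
        | with_reducible apply Def.not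
        | with_reducible apply Def.ex
        | with_reducible apply Def.all
        | with_reducible apply Def.imp
        | with_reducible apply Def.eq
        | with_reducible apply Def.lt
        | with_reducible apply Def.le
        | with_reducible apply DefF.add
        | with_reducible apply DefF.mul
        | with_reducible apply DefF.the)
  · exact ⟨0, fun i hi => absurd hi (not_lt.mpr zero_le)⟩
  · rintro n ⟨B, hB⟩
    refine ⟨B + f n + 1, fun i hi => ?_⟩
    rw [lt_succ_iff]
    rcases lt_succ_iff'.mp hi with h | h
    · exact (hB i h).le.trans le_self_add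
    · rw [h]
      exact le_add_self

/-- Every definable function is coded on every initial segment. -/
theorem exists_val {f : M → M} (hf : DefF (fun v => f (v 0))) (n : M) :
    ∃ a b, ∀ i < n, val a b i = f i := by
  have hf' : Def (fun v : ℕ → M => v 0 = f (v 1)) := hf
  obtain ⟨B, hB⟩ := exists_bound hf n
  obtain ⟨b₀, hb₀, hdiv⟩ := exists_multiple n
  set b := b₀ * (B + 1) with hb
  have hfb : ∀ i < n, ∀ k, f i < (k + 1) * b + 1 := by
    intro i hi k
    rw [lt_succ_iff]
    obtain ⟨b₁, hb₁⟩ := exists_pred hb₀
    calc f i ≤ B := (hB i hi).le
      _ ≤ B + (1 + b₁ * (B + 1) + k * ((b₁ + 1) * (B + 1))) := le_self_add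
      _ = (k + 1) * b := by rw [hb, hb₁]; ring
  have hcop : ∀ k j, k < j → j < n → Cop ((k + 1) * b + 1) ((j + 1) * b + 1) := by
    intro k j hkj hj
    obtain ⟨d, hd⟩ := exists_add_of_le hkj.le
    have hd0 : 0 < d := by
      apply pos_of_ne
      rintro rfl
      rw [add_zero] at hd
      exact hkj.ne' hd
    obtain ⟨c, hc⟩ := hdiv d hd0 (by rw [hd] at hj; exact (le_add_self.trans hj.le))
    have hc0 : 0 < c := by
      apply pos_of_ne
      rintro rfl
      rw [mul_zero] at hc
      exact hb₀.ne' hc
    exact cop_succ hd (c := c * (B + 1)) (by rw [hb, hc]; ring) (mul_pos hc0 (zero_lt_succ' _))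
  have key : ∀ k, k ≤ n → ∃ a m, (∀ i, i < k → ∃ y, m = ((i + 1) * b + 1) * y) ∧
      (∀ j, k ≤ j → j < n → ∃ x y, x * m = y * ((j + 1) * b + 1) + 1) ∧
      ∀ i, i < k → ∃ q, a = q * ((i + 1) * b + 1) + f i := by
    intro k
    refine ind (P := fun k => k ≤ n → ∃ a m, (∀ i, i < k → ∃ y, m = ((i + 1) * b + 1) * y) ∧
      (∀ j, k ≤ j → j < n → ∃ x y, x * m = y * ((j + 1) * b + 1) + 1) ∧
      ∀ i, i < k → ∃ q, a = q * ((i + 1) * b + 1) + f i) ?_ ?_ ?_ k
    · have h1 : ∀ k : ℕ, DefF (fun v : ℕ → M => f (v k)) := fun k => DefF.app1 hf' (DefF.var k)
      (repeat' first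
          | assumption
          | exact h1 _
          | with_reducible exact DefF.var _
          | with_reducible exact DefF.const _
          | with_reducible exact Def.const _
          | with_reducible apply DefF.val
          | with_reducible apply Def.and
          | with_reducible apply Def.or
          | with_reducible apply Def.iff
          | with_reducible apply Def.not
          | with_reducible apply Def.ex
          | with_reducible apply Def.all
          | with_reducible apply Def.imp
          | with_reducible apply Def.eq
          | with_reducible apply Def.lt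
          | with_reducible apply Def.le
          | with_reducible apply DefF.add
          | with_reducible apply DefF.mul
          | with_reducible apply DefF.the)
    · intro _
      refine ⟨0, 1, fun i hi => absurd hi (not_lt.mpr zero_le), fun j _ _ => ⟨1, 0, by ring⟩,
        fun i hi => absurd hi (not_lt.mpr zero_le)⟩
    · intro k ih hk
      have hkn : k < n := succ_le_iff.mp hk
      obtain ⟨a, m, h1, h2, h3⟩ := ih hkn.le
      obtain ⟨x, z, hxz⟩ := crt_step (h2 k le_rfl hkn) (zero_lt_succ' _) a (f k)
      refine ⟨a + m * x, m * ((k + 1) * b + 1), ?_, ?_, ?_⟩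
      · intro i hi
        rcases lt_succ_iff'.mp hi with h | h
        · obtain ⟨y, hy⟩ := h1 i h
          exact ⟨y * ((k + 1) * b + 1), by rw [hy]; ring⟩
        · exact ⟨m, by rw [h]; ring⟩
      · intro j hj hjn
        have hkj : k < j := succ_le_iff.mp hj
        exact Cop.mul (h2 j hkj.le hjn) (hcop k j hkj hjn)
      · intro i hi
        rcases lt_succ_iff'.mp hi with h | h
        · obtain ⟨y, hy⟩ := h1 i h
          obtain ⟨q, hq⟩ := h3 i h
          refine ⟨q + y * x, ?_⟩
          rw [hq, hy]
          ring
        · exact ⟨z, by rw [h]; exact hxz⟩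
  obtain ⟨a, m, _, _, h⟩ := key n le_rfl
  exact ⟨a, b, fun i hi => val_eq (h i hi) (hfb i hi i)⟩




end model

section raw

variable {M : Type u} [LA.Structure M]

/-- The interpretations of the function symbols. -/
def rz : M := (O : LA.Term Empty).realize Empty.elim
def rs (x : M) : M := Structure.funMap (L := LA) (ArithFunc.succ : LA.Functions 1) ![x]
def ra (x y : M) : M := Structure.funMap (L := LA) (ArithFunc.add : LA.Functions 2) ![x, y]
def rm (x y : M) : M := Structure.funMap (L := LA) (ArithFunc.mul : LA.Functions 2) ![x, y]

lemma vec0 {α : Type*} (f : Fin 0 → α) : f = ![] := Subsingleton.elim _ _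

lemma vec1 {α : Type*} (f : Fin 1 → α) : f = ![f 0] := by
  funext i
  rw [Subsingleton.elim i 0]
  rfl

lemma vec2 {α : Type*} (f : Fin 2 → α) : f = ![f 0, f 1] := by
  funext i
  fin_cases i <;> rfl

lemma real_O {α : Type*} (v : α → M) : (O : LA.Term α).realize v = rz := by
  show Structure.funMap (L := LA) (ArithFunc.zero : LA.Functions 0) _ =
    Structure.funMap (L := LA) (ArithFunc.zero : LA.Functions 0) _
  congr 1
  exact Subsingleton.elim _ _

lemma real_Sc {α : Type*} (v : α → M) (t : LA.Term α) : (Sc t).realize v = rs (t.realize v) := by
  show Structure.funMap (L := LA) (ArithFunc.succ : LA.Functions 1) _ =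
    Structure.funMap (L := LA) (ArithFunc.succ : LA.Functions 1) _
  congr 1
  exact vec1 _

lemma real_Pl {α : Type*} (v : α → M) (s t : LA.Term α) :
    (Pl s t).realize v = ra (s.realize v) (t.realize v) := by
  show Structure.funMap (L := LA) (ArithFunc.add : LA.Functions 2) _ =
    Structure.funMap (L := LA) (ArithFunc.add : LA.Functions 2) _
  congr 1
  exact vec2 _

lemma real_Ti {α : Type*} (v : α → M) (s t : LA.Term α) :
    (Ti s t).realize v = rm (s.realize v) (t.realize v) := by
  show Structure.funMap (L := LA) (ArithFunc.mul : LA.Functions 2) _ =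
    Structure.funMap (L := LA) (ArithFunc.mul : LA.Functions 2) _
  congr 1
  exact vec2 _

theorem DefF.rz : DefF (M := M) (fun _ => PALib.rz) := DefF.const _

theorem DefF.rs {f : (ℕ → M) → M} (hf : DefF f) : DefF (fun v => rs (f v)) :=
  DefF.app1 (F := PALib.rs) ⟨(Term.var (Sum.inr 0)).equal (Sc (Term.var (Sum.inr 1))),
    fun _ => by rw [Formula.realize_equal, real_Sc]; rfl⟩ hf

theorem DefF.ra {f g : (ℕ → M) → M} (hf : DefF f) (hg : DefF g) :
    DefF (fun v => ra (f v) (g v)) :=
  DefF.app2 (F := PALib.ra) ⟨(Term.var (Sum.inr 0)).equal
    (Pl (Term.var (Sum.inr 1)) (Term.var (Sum.inr 2))),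
    fun _ => by rw [Formula.realize_equal, real_Pl]; rfl⟩ hf hg

theorem DefF.rm {f g : (ℕ → M) → M} (hf : DefF f) (hg : DefF g) :
    DefF (fun v => rm (f v) (g v)) :=
  DefF.app2 (F := PALib.rm) ⟨(Term.var (Sum.inr 0)).equal
    (Ti (Term.var (Sum.inr 1)) (Term.var (Sum.inr 2))),
    fun _ => by rw [Formula.realize_equal, real_Ti]; rfl⟩ hf hg

lemma realize_inductionAxiom {n : ℕ} (φ : LA.Formula (Fin n ⊕ Fin 1)) :
    M ⊨ inductionAxiom φ ↔ ∀ y : Fin n → M, φ.Realize (Sum.elim y (fun _ => rz)) →
      (∀ x : M, φ.Realize (Sum.elim y (fun _ => x)) → φ.Realize (Sum.elim y (fun _ => rs x))) →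
      ∀ x : M, φ.Realize (Sum.elim y (fun _ => x)) := by
  have e1 : ∀ (y : Fin n → M) (i : Fin 1 → M), (Sum.elim y i) = Sum.elim y (fun _ => i 0) := by
    intro y i
    congr 1
    funext j
    rw [Subsingleton.elim j 0]
  unfold inductionAxiom Sentence.Realize
  rw [Formula.realize_iAlls]
  refine forall_congr' fun y => ?_
  rw [Formula.realize_relabel]
  have e2 : (Sum.elim (default : Empty → M) y) ∘ (Sum.inr : Fin n → Empty ⊕ Fin n) = y := by
    funext i
    rfl
  rw [e2, Formula.realize_imp, Formula.realize_inf, Formula.realize_iAlls, Formula.realize_iAlls]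
  have e3 : Formula.Realize (BoundedFormula.subst φ (Sum.elim (fun i => Term.var i)
      (fun _ => O)) : LA.Formula (Fin n)) y ↔ φ.Realize (Sum.elim y (fun _ => rz)) := by
    unfold Formula.Realize
    rw [BoundedFormula.realize_subst]
    have : (fun a => Term.realize y ((Sum.elim (fun i => Term.var i) (fun _ => O) :
        Fin n ⊕ Fin 1 → LA.Term (Fin n)) a)) = Sum.elim y (fun _ => rz) := by
      funext s
      rcases s with s | s
      · rfl
      · exact real_O _
    rw [this]
  have e4 : ∀ x : M, Formula.Realize (BoundedFormula.subst φ (Sum.elim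
      (fun i => Term.var (Sum.inl i)) (fun i => Sc (Term.var (Sum.inr i)))) :
      LA.Formula (Fin n ⊕ Fin 1)) (Sum.elim y (fun _ => x)) ↔
      φ.Realize (Sum.elim y (fun _ => rs x)) := by
    intro x
    unfold Formula.Realize
    rw [BoundedFormula.realize_subst]
    have : (fun a => Term.realize (Sum.elim y (fun _ => x)) ((Sum.elim
        (fun i => Term.var (Sum.inl i)) (fun i => Sc (Term.var (Sum.inr i))) :
        Fin n ⊕ Fin 1 → LA.Term (Fin n ⊕ Fin 1)) a)) = Sum.elim y (fun _ => rs x) := by
      funext s
      rcases s with s | s
      · rfl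
      · exact real_Sc _ _
    rw [this]
  constructor
  · intro h h0 hs x
    refine h ⟨e3.mpr h0, fun i => ?_⟩ (fun _ => x)
    rw [e1, Formula.realize_imp, e4]
    exact hs (i 0)
  · rintro h ⟨h0, hs⟩ i
    rw [e1]
    refine h (e3.mp h0) (fun x hx => ?_) (i 0)
    have := hs (fun _ => x)
    rw [Formula.realize_imp, e4] at this
    exact this hx

/-- Induction for sets definable with parameters. -/
theorem raw_ind [M ⊨ PA] {P : M → Prop} (hP : Def (fun v => P (v 0))) (h0 : P rz)
    (hs : ∀ x, P x → P (rs x)) (x : M) : P x := by
  classical
  obtain ⟨φ, hφ⟩ := hP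
  obtain ⟨e⟩ : Nonempty (Fin φ.freeVarFinset.card ≃ φ.freeVarFinset) :=
    ⟨φ.freeVarFinset.equivFin.symm⟩
  -- the free variable with index `0` is the induction variable, the others are parameters
  let f : φ.freeVarFinset → Fin φ.freeVarFinset.card ⊕ Fin 1 := fun a =>
    if a.1 = Sum.inr 0 then Sum.inr 0 else Sum.inl (e.symm a)
  let ψ : LA.Formula (Fin φ.freeVarFinset.card ⊕ Fin 1) := φ.restrictFreeVar f
  let v0 : ℕ → M := fun _ => x
  let y : Fin φ.freeVarFinset.card → M := fun i => Sum.elim id v0 (e i).1
  have key : ∀ z : M, ψ.Realize (Sum.elim y (fun _ => z)) ↔ P z := by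
    intro z
    let w : ℕ → M := fun n => if n = 0 then z else x
    rw [show P z ↔ φ.Realize (Sum.elim id w) from (hφ w).symm]
    refine BoundedFormula.realize_restrictFreeVar (Sum.elim id w) ?_
    rintro ⟨a, ha⟩
    show Sum.elim y (fun _ => z) (if a = Sum.inr 0 then Sum.inr 0 else
      Sum.inl (e.symm ⟨a, ha⟩)) = Sum.elim id w a
    split_ifs with h
    · rw [h]
      rfl
    · show Sum.elim id v0 (e (e.symm ⟨a, ha⟩)).1 = _
      rw [Equiv.apply_symm_apply]
      rcases a with a | a
      · rfl
      · show x = if a = 0 then z else x
        rw [if_neg (fun h1 => h (by rw [h1]))]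
  have hax : M ⊨ inductionAxiom ψ :=
    Theory.realize_sentence_of_mem PA (IsAxiom.induction ψ)
  rw [realize_inductionAxiom] at hax
  have h1 := hax y ((key _).mpr h0) (fun x hx => (key _).mpr (hs x ((key _).mp hx))) x
  exact (key x).mp h1

section axioms

variable [M ⊨ PA]

lemma rs_ne (x : M) : rs x ≠ rz := by
  have h : M ⊨ (∀' ∼(Sc (&0) =' O) : LA.Sentence) :=
    Theory.realize_sentence_of_mem PA IsAxiom.succ_ne
  simp only [Sentence.Realize, Formula.Realize, BoundedFormula.realize_all,
    BoundedFormula.realize_not, BoundedFormula.realize_bdEqual, real_Sc, real_O] at h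
  exact h x

lemma rs_inj {x y : M} (hxy : rs x = rs y) : x = y := by
  have h : M ⊨ (∀' ∀' ((Sc (&0) =' Sc (&1)) ⟹ (&0 =' &1)) : LA.Sentence) :=
    Theory.realize_sentence_of_mem PA IsAxiom.succ_inj
  simp only [Sentence.Realize, Formula.Realize, BoundedFormula.realize_all,
    BoundedFormula.realize_imp, BoundedFormula.realize_bdEqual, real_Sc] at h
  exact h x y hxy

lemma ra_rz (x : M) : ra x rz = x := by
  have h : M ⊨ (∀' (Pl (&0) O =' &0) : LA.Sentence) :=
    Theory.realize_sentence_of_mem PA IsAxiom.add_zero
  simp only [Sentence.Realize, Formula.Realize, BoundedFormula.realize_all,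
    BoundedFormula.realize_bdEqual, real_Pl, real_O] at h
  exact h x

lemma ra_rs (x y : M) : ra x (rs y) = rs (ra x y) := by
  have h : M ⊨ (∀' ∀' (Pl (&0) (Sc (&1)) =' Sc (Pl (&0) (&1))) : LA.Sentence) :=
    Theory.realize_sentence_of_mem PA IsAxiom.add_succ
  simp only [Sentence.Realize, Formula.Realize, BoundedFormula.realize_all,
    BoundedFormula.realize_bdEqual, real_Pl, real_Sc] at h
  exact h x y

lemma rm_rz (x : M) : rm x rz = rz := by
  have h : M ⊨ (∀' (Ti (&0) O =' O) : LA.Sentence) :=
    Theory.realize_sentence_of_mem PA IsAxiom.mul_zero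
  simp only [Sentence.Realize, Formula.Realize, BoundedFormula.realize_all,
    BoundedFormula.realize_bdEqual, real_Ti, real_O] at h
  exact h x

lemma rm_rs (x y : M) : rm x (rs y) = ra (rm x y) x := by
  have h : M ⊨ (∀' ∀' (Ti (&0) (Sc (&1)) =' Pl (Ti (&0) (&1)) (&0)) : LA.Sentence) :=
    Theory.realize_sentence_of_mem PA IsAxiom.mul_succ
  simp only [Sentence.Realize, Formula.Realize, BoundedFormula.realize_all,
    BoundedFormula.realize_bdEqual, real_Ti, real_Pl, real_Sc] at h
  exact h x y

end axioms

end raw

/-! ### The algebra of models of PA -/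

section algebra

variable {M : Type u} [LA.Structure M] [M ⊨ PA]


lemma rz_ra (x : M) : ra rz x = x := by
  refine raw_ind (P := fun x => ra rz x = x) ?_ ?_ ?_ x
  · (repeat' first
      | assumption
      | with_reducible exact DefF.var _
      | with_reducible exact DefF.const _
      | with_reducible exact Def.const _
      | with_reducible apply DefF.val
      | with_reducible apply DefF.pow2
      | with_reducible apply Def.mem
      | with_reducible apply DefF.cls
      | with_reducible apply DefF.cnt
      | with_reducible apply DefF.card
      | with_reducible apply DefF.ins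
      | with_reducible apply DefF.un
      | with_reducible apply DefF.ico
      | with_reducible apply DefF.fst
      | with_reducible apply DefF.snd
      | with_reducible apply DefF.ap
      | with_reducible apply DefF.img
      | with_reducible apply Def.emb
      | with_reducible apply Def.good
      | with_reducible apply DefF.pull
      | with_reducible apply Def.ehom
      | with_reducible apply DefF.del
      | with_reducible apply DefF.rs
      | with_reducible apply DefF.ra
      | with_reducible apply DefF.rm
      | with_reducible apply Def.and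
      | with_reducible apply Def.or
      | with_reducible apply Def.iff
      | with_reducible apply Def.not
      | with_reducible apply Def.ex
      | with_reducible apply Def.all
      | with_reducible apply Def.imp
      | with_reducible apply Def.eq
      | with_reducible apply Def.lt
      | with_reducible apply Def.le
      | with_reducible apply DefF.add
      | with_reducible apply DefF.mul
      | with_reducible apply DefF.the)
  · exact ra_rz _
  · intro x ih
    rw [ra_rs, ih]

lemma rs_ra (x y : M) : ra (rs x) y = rs (ra x y) := by
  refine raw_ind (P := fun y => ra (rs x) y = rs (ra x y)) ?_ ?_ ?_ y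
  · (repeat' first
      | assumption
      | with_reducible exact DefF.var _
      | with_reducible exact DefF.const _
      | with_reducible exact Def.const _
      | with_reducible apply DefF.val
      | with_reducible apply DefF.pow2
      | with_reducible apply Def.mem
      | with_reducible apply DefF.cls
      | with_reducible apply DefF.cnt
      | with_reducible apply DefF.card
      | with_reducible apply DefF.ins
      | with_reducible apply DefF.un
      | with_reducible apply DefF.ico
      | with_reducible apply DefF.fst
      | with_reducible apply DefF.snd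
      | with_reducible apply DefF.ap
      | with_reducible apply DefF.img
      | with_reducible apply Def.emb
      | with_reducible apply Def.good
      | with_reducible apply DefF.pull
      | with_reducible apply Def.ehom
      | with_reducible apply DefF.del
      | with_reducible apply DefF.rs
      | with_reducible apply DefF.ra
      | with_reducible apply DefF.rm
      | with_reducible apply Def.and
      | with_reducible apply Def.or
      | with_reducible apply Def.iff
      | with_reducible apply Def.not
      | with_reducible apply Def.ex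
      | with_reducible apply Def.all
      | with_reducible apply Def.imp
      | with_reducible apply Def.eq
      | with_reducible apply Def.lt
      | with_reducible apply Def.le
      | with_reducible apply DefF.add
      | with_reducible apply DefF.mul
      | with_reducible apply DefF.the)
  · rw [ra_rz, ra_rz]
  · intro y ih
    rw [ra_rs, ih, ra_rs]

lemma ra_comm (x y : M) : ra x y = ra y x := by
  refine raw_ind (P := fun y => ra x y = ra y x) ?_ ?_ ?_ y
  · (repeat' first
      | assumption
      | with_reducible exact DefF.var _
      | with_reducible exact DefF.const _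
      | with_reducible exact Def.const _
      | with_reducible apply DefF.val
      | with_reducible apply DefF.pow2
      | with_reducible apply Def.mem
      | with_reducible apply DefF.cls
      | with_reducible apply DefF.cnt
      | with_reducible apply DefF.card
      | with_reducible apply DefF.ins
      | with_reducible apply DefF.un
      | with_reducible apply DefF.ico
      | with_reducible apply DefF.fst
      | with_reducible apply DefF.snd
      | with_reducible apply DefF.ap
      | with_reducible apply DefF.img
      | with_reducible apply Def.emb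
      | with_reducible apply Def.good
      | with_reducible apply DefF.pull
      | with_reducible apply Def.ehom
      | with_reducible apply DefF.del
      | with_reducible apply DefF.rs
      | with_reducible apply DefF.ra
      | with_reducible apply DefF.rm
      | with_reducible apply Def.and
      | with_reducible apply Def.or
      | with_reducible apply Def.iff
      | with_reducible apply Def.not
      | with_reducible apply Def.ex
      | with_reducible apply Def.all
      | with_reducible apply Def.imp
      | with_reducible apply Def.eq
      | with_reducible apply Def.lt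
      | with_reducible apply Def.le
      | with_reducible apply DefF.add
      | with_reducible apply DefF.mul
      | with_reducible apply DefF.the)
  · rw [ra_rz, rz_ra]
  · intro y ih
    rw [ra_rs, ih, rs_ra]

lemma ra_assoc (x y z : M) : ra (ra x y) z = ra x (ra y z) := by
  refine raw_ind (P := fun z => ra (ra x y) z = ra x (ra y z)) ?_ ?_ ?_ z
  · (repeat' first
      | assumption
      | with_reducible exact DefF.var _
      | with_reducible exact DefF.const _
      | with_reducible exact Def.const _
      | with_reducible apply DefF.val
      | with_reducible apply DefF.pow2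
      | with_reducible apply Def.mem
      | with_reducible apply DefF.cls
      | with_reducible apply DefF.cnt
      | with_reducible apply DefF.card
      | with_reducible apply DefF.ins
      | with_reducible apply DefF.un
      | with_reducible apply DefF.ico
      | with_reducible apply DefF.fst
      | with_reducible apply DefF.snd
      | with_reducible apply DefF.ap
      | with_reducible apply DefF.img
      | with_reducible apply Def.emb
      | with_reducible apply Def.good
      | with_reducible apply DefF.pull
      | with_reducible apply Def.ehom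
      | with_reducible apply DefF.del
      | with_reducible apply DefF.rs
      | with_reducible apply DefF.ra
      | with_reducible apply DefF.rm
      | with_reducible apply Def.and
      | with_reducible apply Def.or
      | with_reducible apply Def.iff
      | with_reducible apply Def.not
      | with_reducible apply Def.ex
      | with_reducible apply Def.all
      | with_reducible apply Def.imp
      | with_reducible apply Def.eq
      | with_reducible apply Def.lt
      | with_reducible apply Def.le
      | with_reducible apply DefF.add
      | with_reducible apply DefF.mul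
      | with_reducible apply DefF.the)
  · rw [ra_rz, ra_rz]
  · intro z ih
    rw [ra_rs, ih, ra_rs, ra_rs]

lemma rz_rm (x : M) : rm rz x = rz := by
  refine raw_ind (P := fun x => rm rz x = rz) ?_ ?_ ?_ x
  · (repeat' first
      | assumption
      | with_reducible exact DefF.var _
      | with_reducible exact DefF.const _
      | with_reducible exact Def.const _
      | with_reducible apply DefF.val
      | with_reducible apply DefF.pow2
      | with_reducible apply Def.mem
      | with_reducible apply DefF.cls
      | with_reducible apply DefF.cnt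
      | with_reducible apply DefF.card
      | with_reducible apply DefF.ins
      | with_reducible apply DefF.un
      | with_reducible apply DefF.ico
      | with_reducible apply DefF.fst
      | with_reducible apply DefF.snd
      | with_reducible apply DefF.ap
      | with_reducible apply DefF.img
      | with_reducible apply Def.emb
      | with_reducible apply Def.good
      | with_reducible apply DefF.pull
      | with_reducible apply Def.ehom
      | with_reducible apply DefF.del
      | with_reducible apply DefF.rs
      | with_reducible apply DefF.ra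
      | with_reducible apply DefF.rm
      | with_reducible apply Def.and
      | with_reducible apply Def.or
      | with_reducible apply Def.iff
      | with_reducible apply Def.not
      | with_reducible apply Def.ex
      | with_reducible apply Def.all
      | with_reducible apply Def.imp
      | with_reducible apply Def.eq
      | with_reducible apply Def.lt
      | with_reducible apply Def.le
      | with_reducible apply DefF.add
      | with_reducible apply DefF.mul
      | with_reducible apply DefF.the)
  · exact rm_rz _
  · intro x ih
    rw [rm_rs, ih, ra_rz]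

lemma rs_rm (x y : M) : rm (rs x) y = ra (rm x y) y := by
  refine raw_ind (P := fun y => rm (rs x) y = ra (rm x y) y) ?_ ?_ ?_ y
  · (repeat' first
      | assumption
      | with_reducible exact DefF.var _
      | with_reducible exact DefF.const _
      | with_reducible exact Def.const _
      | with_reducible apply DefF.val
      | with_reducible apply DefF.pow2
      | with_reducible apply Def.mem
      | with_reducible apply DefF.cls
      | with_reducible apply DefF.cnt
      | with_reducible apply DefF.card
      | with_reducible apply DefF.ins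
      | with_reducible apply DefF.un
      | with_reducible apply DefF.ico
      | with_reducible apply DefF.fst
      | with_reducible apply DefF.snd
      | with_reducible apply DefF.ap
      | with_reducible apply DefF.img
      | with_reducible apply Def.emb
      | with_reducible apply Def.good
      | with_reducible apply DefF.pull
      | with_reducible apply Def.ehom
      | with_reducible apply DefF.del
      | with_reducible apply DefF.rs
      | with_reducible apply DefF.ra
      | with_reducible apply DefF.rm
      | with_reducible apply Def.and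
      | with_reducible apply Def.or
      | with_reducible apply Def.iff
      | with_reducible apply Def.not
      | with_reducible apply Def.ex
      | with_reducible apply Def.all
      | with_reducible apply Def.imp
      | with_reducible apply Def.eq
      | with_reducible apply Def.lt
      | with_reducible apply Def.le
      | with_reducible apply DefF.add
      | with_reducible apply DefF.mul
      | with_reducible apply DefF.the)
  · rw [rm_rz, rm_rz, ra_rz]
  · intro y ih
    rw [rm_rs, ih, rm_rs, ra_rs, ra_rs, ra_assoc, ra_assoc, ra_comm y x]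

lemma rm_comm (x y : M) : rm x y = rm y x := by
  refine raw_ind (P := fun y => rm x y = rm y x) ?_ ?_ ?_ y
  · (repeat' first
      | assumption
      | with_reducible exact DefF.var _
      | with_reducible exact DefF.const _
      | with_reducible exact Def.const _
      | with_reducible apply DefF.val
      | with_reducible apply DefF.pow2
      | with_reducible apply Def.mem
      | with_reducible apply DefF.cls
      | with_reducible apply DefF.cnt
      | with_reducible apply DefF.card
      | with_reducible apply DefF.ins
      | with_reducible apply DefF.un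
      | with_reducible apply DefF.ico
      | with_reducible apply DefF.fst
      | with_reducible apply DefF.snd
      | with_reducible apply DefF.ap
      | with_reducible apply DefF.img
      | with_reducible apply Def.emb
      | with_reducible apply Def.good
      | with_reducible apply DefF.pull
      | with_reducible apply Def.ehom
      | with_reducible apply DefF.del
      | with_reducible apply DefF.rs
      | with_reducible apply DefF.ra
      | with_reducible apply DefF.rm
      | with_reducible apply Def.and
      | with_reducible apply Def.or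
      | with_reducible apply Def.iff
      | with_reducible apply Def.not
      | with_reducible apply Def.ex
      | with_reducible apply Def.all
      | with_reducible apply Def.imp
      | with_reducible apply Def.eq
      | with_reducible apply Def.lt
      | with_reducible apply Def.le
      | with_reducible apply DefF.add
      | with_reducible apply DefF.mul
      | with_reducible apply DefF.the)
  · rw [rm_rz, rz_rm]
  · intro y ih
    rw [rm_rs, ih, rs_rm]

lemma rm_ra (x y z : M) : rm x (ra y z) = ra (rm x y) (rm x z) := by
  refine raw_ind (P := fun z => rm x (ra y z) = ra (rm x y) (rm x z)) ?_ ?_ ?_ z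
  · (repeat' first
      | assumption
      | with_reducible exact DefF.var _
      | with_reducible exact DefF.const _
      | with_reducible exact Def.const _
      | with_reducible apply DefF.val
      | with_reducible apply DefF.pow2
      | with_reducible apply Def.mem
      | with_reducible apply DefF.cls
      | with_reducible apply DefF.cnt
      | with_reducible apply DefF.card
      | with_reducible apply DefF.ins
      | with_reducible apply DefF.un
      | with_reducible apply DefF.ico
      | with_reducible apply DefF.fst
      | with_reducible apply DefF.snd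
      | with_reducible apply DefF.ap
      | with_reducible apply DefF.img
      | with_reducible apply Def.emb
      | with_reducible apply Def.good
      | with_reducible apply DefF.pull
      | with_reducible apply Def.ehom
      | with_reducible apply DefF.del
      | with_reducible apply DefF.rs
      | with_reducible apply DefF.ra
      | with_reducible apply DefF.rm
      | with_reducible apply Def.and
      | with_reducible apply Def.or
      | with_reducible apply Def.iff
      | with_reducible apply Def.not
      | with_reducible apply Def.ex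
      | with_reducible apply Def.all
      | with_reducible apply Def.imp
      | with_reducible apply Def.eq
      | with_reducible apply Def.lt
      | with_reducible apply Def.le
      | with_reducible apply DefF.add
      | with_reducible apply DefF.mul
      | with_reducible apply DefF.the)
  · rw [ra_rz, rm_rz, ra_rz]
  · intro z ih
    rw [ra_rs, rm_rs, ih, rm_rs, ra_assoc]

lemma rm_assoc (x y z : M) : rm (rm x y) z = rm x (rm y z) := by
  refine raw_ind (P := fun z => rm (rm x y) z = rm x (rm y z)) ?_ ?_ ?_ z
  · (repeat' first
      | assumption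
      | with_reducible exact DefF.var _
      | with_reducible exact DefF.const _
      | with_reducible exact Def.const _
      | with_reducible apply DefF.val
      | with_reducible apply DefF.pow2
      | with_reducible apply Def.mem
      | with_reducible apply DefF.cls
      | with_reducible apply DefF.cnt
      | with_reducible apply DefF.card
      | with_reducible apply DefF.ins
      | with_reducible apply DefF.un
      | with_reducible apply DefF.ico
      | with_reducible apply DefF.fst
      | with_reducible apply DefF.snd
      | with_reducible apply DefF.ap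
      | with_reducible apply DefF.img
      | with_reducible apply Def.emb
      | with_reducible apply Def.good
      | with_reducible apply DefF.pull
      | with_reducible apply Def.ehom
      | with_reducible apply DefF.del
      | with_reducible apply DefF.rs
      | with_reducible apply DefF.ra
      | with_reducible apply DefF.rm
      | with_reducible apply Def.and
      | with_reducible apply Def.or
      | with_reducible apply Def.iff
      | with_reducible apply Def.not
      | with_reducible apply Def.ex
      | with_reducible apply Def.all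
      | with_reducible apply Def.imp
      | with_reducible apply Def.eq
      | with_reducible apply Def.lt
      | with_reducible apply Def.le
      | with_reducible apply DefF.add
      | with_reducible apply DefF.mul
      | with_reducible apply DefF.the)
  · rw [rm_rz, rm_rz, rm_rz]
  · intro z ih
    rw [rm_rs, ih, rm_rs, rm_ra]

lemma rm_one (x : M) : rm x (rs rz) = x := by rw [rm_rs, rm_rz, rz_ra]

lemma ra_one (x : M) : ra x (rs rz) = rs x := by rw [ra_rs, ra_rz]

lemma ra_cancel {x y z : M} (h : ra x z = ra y z) : x = y := by
  revert h
  refine raw_ind (P := fun z => ra x z = ra y z → x = y) ?_ ?_ ?_ z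
  · (repeat' first
      | assumption
      | with_reducible exact DefF.var _
      | with_reducible exact DefF.const _
      | with_reducible exact Def.const _
      | with_reducible apply DefF.val
      | with_reducible apply DefF.pow2
      | with_reducible apply Def.mem
      | with_reducible apply DefF.cls
      | with_reducible apply DefF.cnt
      | with_reducible apply DefF.card
      | with_reducible apply DefF.ins
      | with_reducible apply DefF.un
      | with_reducible apply DefF.ico
      | with_reducible apply DefF.fst
      | with_reducible apply DefF.snd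
      | with_reducible apply DefF.ap
      | with_reducible apply DefF.img
      | with_reducible apply Def.emb
      | with_reducible apply Def.good
      | with_reducible apply DefF.pull
      | with_reducible apply Def.ehom
      | with_reducible apply DefF.del
      | with_reducible apply DefF.rs
      | with_reducible apply DefF.ra
      | with_reducible apply DefF.rm
      | with_reducible apply Def.and
      | with_reducible apply Def.or
      | with_reducible apply Def.iff
      | with_reducible apply Def.not
      | with_reducible apply Def.ex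
      | with_reducible apply Def.all
      | with_reducible apply Def.imp
      | with_reducible apply Def.eq
      | with_reducible apply Def.lt
      | with_reducible apply Def.le
      | with_reducible apply DefF.add
      | with_reducible apply DefF.mul
      | with_reducible apply DefF.the)
  · intro h
    rwa [ra_rz, ra_rz] at h
  · intro z ih h
    rw [ra_rs, ra_rs] at h
    exact ih (rs_inj h)

lemma cases_rs (x : M) : x = rz ∨ ∃ y, x = rs y := by
  refine raw_ind (P := fun x => x = rz ∨ ∃ y, x = rs y) ?_ ?_ ?_ x
  · apply Def.or
    · exact Def.eq (DefF.var 0) DefF.rz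
    · (repeat' first
        | assumption
        | with_reducible exact DefF.var _
        | with_reducible exact DefF.const _
        | with_reducible exact Def.const _
        | with_reducible apply DefF.val
        | with_reducible apply DefF.pow2
        | with_reducible apply Def.mem
        | with_reducible apply DefF.cls
        | with_reducible apply DefF.cnt
        | with_reducible apply DefF.card
        | with_reducible apply DefF.ins
        | with_reducible apply DefF.un
        | with_reducible apply DefF.ico
        | with_reducible apply DefF.fst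
        | with_reducible apply DefF.snd
        | with_reducible apply DefF.ap
        | with_reducible apply DefF.img
        | with_reducible apply Def.emb
        | with_reducible apply Def.good
        | with_reducible apply DefF.pull
        | with_reducible apply Def.ehom
        | with_reducible apply DefF.del
        | with_reducible apply DefF.rs
        | with_reducible apply DefF.ra
        | with_reducible apply DefF.rm
        | with_reducible apply Def.and
        | with_reducible apply Def.or
        | with_reducible apply Def.iff
        | with_reducible apply Def.not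
        | with_reducible apply Def.ex
        | with_reducible apply Def.all
        | with_reducible apply Def.imp
        | with_reducible apply Def.eq
        | with_reducible apply Def.lt
        | with_reducible apply Def.le
        | with_reducible apply DefF.add
        | with_reducible apply DefF.mul
        | with_reducible apply DefF.the)
  · exact Or.inl rfl
  · intro x _
    exact Or.inr ⟨x, rfl⟩

lemma ra_eq_rz {x y : M} (h : ra x y = rz) : y = rz := by
  rcases cases_rs y with h1 | ⟨z, rfl⟩
  · exact h1
  · rw [ra_rs] at h
    exact absurd h (rs_ne _)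

lemma raw_total (x y : M) : (∃ z, ra x z = y) ∨ ∃ z, ra y z = x := by
  refine raw_ind (P := fun x => (∃ z, ra x z = y) ∨ ∃ z, ra y z = x) ?_ ?_ ?_ x
  · (repeat' first
      | assumption
      | with_reducible exact DefF.var _
      | with_reducible exact DefF.const _
      | with_reducible exact Def.const _
      | with_reducible apply DefF.val
      | with_reducible apply DefF.pow2
      | with_reducible apply Def.mem
      | with_reducible apply DefF.cls
      | with_reducible apply DefF.cnt
      | with_reducible apply DefF.card
      | with_reducible apply DefF.ins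
      | with_reducible apply DefF.un
      | with_reducible apply DefF.ico
      | with_reducible apply DefF.fst
      | with_reducible apply DefF.snd
      | with_reducible apply DefF.ap
      | with_reducible apply DefF.img
      | with_reducible apply Def.emb
      | with_reducible apply Def.good
      | with_reducible apply DefF.pull
      | with_reducible apply Def.ehom
      | with_reducible apply DefF.del
      | with_reducible apply DefF.rs
      | with_reducible apply DefF.ra
      | with_reducible apply DefF.rm
      | with_reducible apply Def.and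
      | with_reducible apply Def.or
      | with_reducible apply Def.iff
      | with_reducible apply Def.not
      | with_reducible apply Def.ex
      | with_reducible apply Def.all
      | with_reducible apply Def.imp
      | with_reducible apply Def.eq
      | with_reducible apply Def.lt
      | with_reducible apply Def.le
      | with_reducible apply DefF.add
      | with_reducible apply DefF.mul
      | with_reducible apply DefF.the)
  · exact Or.inl ⟨y, rz_ra y⟩
  · rintro x (⟨z, hz⟩ | ⟨z, hz⟩)
    · rcases cases_rs z with rfl | ⟨w, rfl⟩
      · right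
        rw [ra_rz] at hz
        exact ⟨rs rz, by rw [← hz, ra_rs, ra_rz]⟩
      · left
        exact ⟨w, by rw [rs_ra, ← ra_rs, hz]⟩
    · right
      exact ⟨rs z, by rw [ra_rs, hz]⟩

/-- The semiring structure of a model. -/
@[reducible] def rawSemiring (M : Type u) [LA.Structure M] [M ⊨ PA] : CommSemiring M where
  zero := rz
  one := rs rz
  add := ra
  mul := rm
  add_assoc := ra_assoc
  zero_add := rz_ra
  add_zero := ra_rz
  add_comm := ra_comm
  left_distrib := rm_ra
  right_distrib := fun x y z => by
    show rm (ra x y) z = ra (rm x z) (rm y z)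
    rw [rm_comm, rm_ra, rm_comm z x, rm_comm z y]
  zero_mul := rz_rm
  mul_zero := rm_rz
  mul_assoc := rm_assoc
  one_mul := fun x => by
    show rm (rs rz) x = x
    rw [rm_comm, rm_one]
  mul_one := rm_one
  mul_comm := rm_comm
  nsmul := @nsmulRec M ⟨rz⟩ ⟨ra⟩
  npow := @npowRec M ⟨rs rz⟩ ⟨rm⟩

lemma standard_rawSemiring (M : Type u) [inst : LA.Structure M] [M ⊨ PA] :
    @standard M (rawSemiring M) = inst := by
  have h1 : ∀ {n : ℕ} (f : LA.Functions n) (x : Fin n → M),
      @Structure.funMap LA M (@standard M (rawSemiring M)) n f x =
        @Structure.funMap LA M inst n f x := by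
    intro n f x
    cases (f : ArithFunc n) with
    | zero =>
      show rz = _
      show Structure.funMap (L := LA) (ArithFunc.zero : LA.Functions 0) _ = _
      congr 1
      exact Subsingleton.elim _ _
    | succ =>
      show ra (x 0) (rs rz) = _
      rw [ra_one]
      show Structure.funMap (L := LA) (ArithFunc.succ : LA.Functions 1) _ = _
      congr 1
      exact (vec1 x).symm
    | add =>
      show ra (x 0) (x 1) = _
      show Structure.funMap (L := LA) (ArithFunc.add : LA.Functions 2) _ = _
      congr 1
      exact (vec2 x).symm
    | mul =>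
      show rm (x 0) (x 1) = _
      show Structure.funMap (L := LA) (ArithFunc.mul : LA.Functions 2) _ = _
      congr 1
      exact (vec2 x).symm
  apply Structure.ext
  · funext n f x
    exact h1 f x
  · funext n r
    exact r.elim

open Classical in
/-- The order of a model. -/
@[reducible] noncomputable def rawOrder (M : Type u) [LA.Structure M] [M ⊨ PA] : LinearOrder M where
  le x y := ∃ z, ra x z = y
  le_refl x := ⟨rz, ra_rz x⟩
  le_trans := by
    rintro x y z ⟨a, rfl⟩ ⟨b, rfl⟩
    exact ⟨ra a b, (ra_assoc _ _ _).symm⟩
  le_antisymm := by
    rintro x y ⟨a, rfl⟩ ⟨b, h⟩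
    rw [ra_assoc] at h
    have h1 : ra (ra a b) x = ra rz x := by rw [ra_comm, h, rz_ra]
    have h2 := ra_cancel h1
    rw [ra_comm] at h2
    rw [ra_eq_rz h2, ra_rz]
  le_total := raw_total
  toDecidableLE := inferInstance

theorem exists_paModel (M : Type u) [inst : LA.Structure M] [hPA : M ⊨ PA] :
    ∃ i : PAModel M, @standard M i.toCommSemiring = inst := by
  let i1 : CommSemiring M := rawSemiring M
  let i2 : LinearOrder M := rawOrder M
  have hle : ∀ x y : M, x ≤ y ↔ ∃ z, x + z = y := fun x y => Iff.rfl
  have hcanc : ∀ {x y z : M}, x + z = y + z → x = y := fun {x y z} h => ra_cancel h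
  have hlt : ∀ x y : M, x < y ↔ ∃ z, x + (z + 1) = y := by
    intro x y
    rw [lt_iff_le_and_ne, hle]
    constructor
    · rintro ⟨⟨z, rfl⟩, hne⟩
      rcases cases_rs z with h | ⟨w, rfl⟩
      · exfalso
        apply hne
        rw [h]
        exact (ra_rz x).symm
      · exact ⟨w, by show ra x (ra w (rs rz)) = ra x (rs w); rw [ra_one]⟩
    · rintro ⟨z, rfl⟩
      refine ⟨⟨z + 1, rfl⟩, fun h => ?_⟩
      have h1 : (z + 1) + x = 0 + x := by rw [add_comm, ← h, zero_add]
      have h2 : z + 1 = 0 := hcanc h1
      have h3 : ra z (rs rz) = rz := h2
      rw [ra_one] at h3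
      exact rs_ne _ h3
  have i3 : IsOrderedCancelAddMonoid M := {
    add_le_add_left := by
      rintro x y ⟨z, rfl⟩ w
      exact ⟨z, by show x + w + z = x + z + w; ring⟩
    le_of_add_le_add_left := by
      rintro x y z ⟨w, h⟩
      refine ⟨w, ?_⟩
      have h1 : x + y + w = x + z := h
      have h2 : (y + w) + x = z + x := by rw [add_comm z x, ← h1]; ring
      exact hcanc h2 }
  have i4 : IsStrictOrderedRing M := {
    i3 with
    zero_le_one := ⟨1, by show (0 : M) + 1 = 1; rw [zero_add]⟩
    exists_pair_ne := ⟨0, 1, fun h => rs_ne (rz : M) h.symm⟩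
    mul_lt_mul_of_pos_left := by
      intro a ha b c hbc
      obtain ⟨z, rfl⟩ := (hlt _ _).mp hbc
      obtain ⟨a', rfl⟩ := (hlt _ _).mp ha
      show (0 + (a' + 1)) * b < (0 + (a' + 1)) * (b + (z + 1))
      rw [hlt]
      exact ⟨a' * z + a' + z, by ring⟩
    mul_lt_mul_of_pos_right := by
      intro a ha b c hbc
      obtain ⟨z, rfl⟩ := (hlt _ _).mp hbc
      obtain ⟨a', rfl⟩ := (hlt _ _).mp ha
      show b * (0 + (a' + 1)) < (b + (z + 1)) * (0 + (a' + 1))
      rw [hlt]
      exact ⟨a' * z + a' + z, by ring⟩ }
  have i5 : CanonicallyOrderedAdd M := {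
    exists_add_of_le := by
      rintro x y ⟨z, rfl⟩
      exact ⟨z, rfl⟩
    le_add_self := fun x y => ⟨y, add_comm _ _⟩
    le_self_add := fun x y => ⟨y, rfl⟩ }
  have hst : @standard M i1 = inst := standard_rawSemiring M
  let i6 : PAModel M := {
    i1, i2, i4, i5 with
    lt_add_one_iff' := by
      intro x y
      rw [hlt, hle]
      constructor
      · rintro ⟨z, h⟩
        exact ⟨z, hcanc (z := 1) (by rw [← h]; ring)⟩
      · rintro ⟨z, rfl⟩
        exact ⟨z, by ring⟩
    ind' := by
      intro P hP h0 hs x
      have hP' : @Def M inst (fun v => P (v 0)) := by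
        rw [← hst]
        exact hP
      refine raw_ind (P := P) hP' h0 (fun x hx => ?_) x
      have := hs x hx
      rwa [show x + 1 = rs x from ra_one x] at this }
  exact ⟨i6, hst⟩

end algebra

end Pool.Agent.Helper685.PALib
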