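import Pool.Agent.Helper685.Sol.Syn
import Pool.Agent.Helper685.Sol.PALib

/-! # Arithmetic in models of PA -/

namespace Pool.Agent.Helper685.Sol

/-- `a ≤ b` in `S`. -/
def Str.le {M : Type} (S : Str M) (a b : M) : Prop := ∃ z, S.add z a = b

/-- `a < b` in `S`. -/
def Str.lt {M : Type} (S : Str M) (a b : M) : Prop := ∃ z, S.add z (S.succ a) = b

/-- the modulus `1 + (i+1) d` -/
def Str.md {M : Type} (S : Str M) (d i : M) : M := S.succ (S.mul (S.succ i) d)

/-- The `i`-th entry of the sequence coded by `c, d` (beta function) is `y`. -/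
def Str.Ent {M : Type} (S : Str M) (c d i y : M) : Prop :=
  (∃ q, c = S.add (S.mul q (S.md d i)) y) ∧ S.lt y (S.md d i)

open FirstOrder FirstOrder.Language in
/-- the Mathlib structure of `S` -/
@[reducible] def Str.toLA {M : Type} (S : Str M) : PALib.LA.Structure M where
  funMap := fun {n} (f : PALib.ArithFunc n) => match n, f with
    | _, .zero => fun _ => S.zero
    | _, .succ => fun x => S.succ (x 0)
    | _, .add => fun x => S.add (x 0) (x 1)
    | _, .mul => fun x => S.mul (x 0) (x 1)
  RelMap := fun r => r.elim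


end Pool.Agent.Helper685.Sol
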