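import Pool.Agent.Helper685.Sol.AlgDefs

namespace Pool.Agent.Helper685.Sol

section translate

open FirstOrder FirstOrder.Language

/-- translation of terms -/
def trF : {l : ℕ} → PALib.ArithFunc l → (Fin l → Tm) → Tm
  | _, .zero, _ => .zero
  | _, .succ, x => .succ (x 0)
  | _, .add, x => .add (x 0) (x 1)
  | _, .mul, x => .mul (x 0) (x 1)

/-- translation of terms -/
def trT {β : Type} (h : β → ℕ) : PALib.LA.Term β → Tm
  | .var a => .var (h a)
  | .func (l := l) f ts => trF (l := l) f (fun i => trT h (ts i))

theorem val_trT {M : Type} (S : Str M) {β : Type} (h : β → ℕ) (v : ℕ → M)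
    (t : PALib.LA.Term β) :
    (trT h t).val S v = @Term.realize PALib.LA M S.toLA β (fun a => v (h a)) t := by
  induction t with
  | var a => rfl
  | func f ts ih =>
    letI := S.toLA
    rw [Term.realize_func]
    have e : (fun i => Term.realize (fun a => v (h a)) (ts i)) = fun i => (trT h (ts i)).val S v :=
      funext fun i => (ih i).symm
    rw [e]
    cases (f : PALib.ArithFunc _) <;> rfl

/-- the variable assignment under a quantifier -/
def lft {α : Type} {k : ℕ} (h : α ⊕ Fin k → ℕ) : α ⊕ Fin (k + 1) → ℕ
  | .inl a => h (.inl a) + 1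
  | .inr i => if hi : (i : ℕ) < k then h (.inr ⟨i, hi⟩) + 1 else 0

/-- translation of formulas -/
def tr {α : Type} : {k : ℕ} → PALib.LA.BoundedFormula α k → (α ⊕ Fin k → ℕ) → Fm
  | _, .falsum, _ => .neg (.eq .zero .zero)
  | _, .equal s t, h => .eq (trT h s) (trT h t)
  | _, .rel r _, _ => (show Empty from r).elim
  | _, .imp f g, h => .neg (.and (tr f h) (.neg (tr g h)))
  | _, .all f, h => .neg (.ex (.neg (tr f (lft h))))

theorem sat_tr {M : Type} (S : Str M) {α : Type} {k : ℕ} (φ : PALib.LA.BoundedFormula α k)
    (h : α ⊕ Fin k → ℕ) (v : ℕ → M) :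
    (tr φ h).sat S v ↔ @BoundedFormula.Realize PALib.LA M S.toLA α k φ (fun a => v (h (.inl a)))
      (fun i => v (h (.inr i))) := by
  letI := S.toLA
  induction φ generalizing v with
  | falsum => simp [tr, Fm.sat, BoundedFormula.Realize]
  | equal s t =>
    have e : (fun a => v (h a)) = Sum.elim (fun a => v (h (.inl a))) (fun i => v (h (.inr i))) := by
      funext s; rcases s with s | s <;> rfl
    simp only [tr, Fm.sat, val_trT, e]
    rfl
  | rel r _ => exact (show Empty from r).elim
  | imp f g ih1 ih2 =>
    simp only [tr, Fm.sat, ih1, ih2, BoundedFormula.realize_imp]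
    tauto
  | all f ih =>
    simp only [tr, Fm.sat, ih, BoundedFormula.realize_all, not_exists, not_not]
    refine forall_congr' fun a => ?_
    have e1 : (fun b => cns a v (lft h (.inl b))) = fun b => v (h (.inl b)) := rfl
    have e2 : (fun i => cns a v (lft h (.inr i))) =
        (Fin.snoc (fun i => v (h (.inr i))) a : Fin _ → M) := by
      funext i
      show cns a v (if hi : (i : ℕ) < _ then h (.inr ⟨i, hi⟩) + 1 else 0) =
        if hi : (i : ℕ) < _ then _ else _
      split_ifs with hi
      · rfl
      · rfl
    rw [e1, e2]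

end translate

open FirstOrder FirstOrder.Language in
theorem models_PA {M : Type} {S : Str M} (hS : IsPA S) :
    letI := S.toLA; M ⊨ PALib.PA := by
  letI := S.toLA
  show M ⊨ PALib.PA
  have hz : (PALib.rz : M) = S.zero := rfl
  have hs : ∀ x : M, PALib.rs x = S.succ x := fun _ => rfl
  have ha : ∀ x y : M, PALib.ra x y = S.add x y := fun _ _ => rfl
  have hm : ∀ x y : M, PALib.rm x y = S.mul x y := fun _ _ => rfl
  refine ⟨fun φ hφ => ?_⟩
  cases hφ with
  | succ_ne =>
    simp only [Sentence.Realize, Formula.Realize, BoundedFormula.realize_all,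
      BoundedFormula.realize_not, BoundedFormula.realize_bdEqual, PALib.real_Sc, PALib.real_O]
    exact fun x => hS.succ_ne_zero _
  | succ_inj =>
    simp only [Sentence.Realize, Formula.Realize, BoundedFormula.realize_all,
      BoundedFormula.realize_imp, BoundedFormula.realize_bdEqual, PALib.real_Sc]
    exact fun x y => hS.succ_inj _ _
  | add_zero =>
    simp only [Sentence.Realize, Formula.Realize, BoundedFormula.realize_all,
      BoundedFormula.realize_bdEqual, PALib.real_Pl, PALib.real_O]
    exact fun x => hS.add_zero _
  | add_succ =>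
    simp only [Sentence.Realize, Formula.Realize, BoundedFormula.realize_all,
      BoundedFormula.realize_bdEqual, PALib.real_Pl, PALib.real_Sc]
    exact fun x y => hS.add_succ _ _
  | mul_zero =>
    simp only [Sentence.Realize, Formula.Realize, BoundedFormula.realize_all,
      BoundedFormula.realize_bdEqual, PALib.real_Ti, PALib.real_O]
    exact fun x => hS.mul_zero _
  | mul_succ =>
    simp only [Sentence.Realize, Formula.Realize, BoundedFormula.realize_all,
      BoundedFormula.realize_bdEqual, PALib.real_Ti, PALib.real_Pl, PALib.real_Sc]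
    exact fun x y => hS.mul_succ _ _
  | induction φ =>
    rename_i n
    rw [PALib.realize_inductionAxiom]
    intro y h0 hs' x
    let h : (Fin n ⊕ Fin 1) ⊕ Fin 0 → ℕ := fun s => match s with
      | .inl (.inl j) => (j : ℕ) + 1
      | .inl (.inr _) => 0
      | .inr _ => 0
    let v : ℕ → M := fun j => if hj : j < n then y ⟨j, hj⟩ else S.zero
    have key : ∀ z : M, (tr φ h).sat S (cns z v) ↔ φ.Realize (Sum.elim y (fun _ => z)) := by
      intro z
      rw [sat_tr]
      have e1 : (fun a => cns z v (h (.inl a))) = Sum.elim y (fun _ => z) := by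
        funext s
        rcases s with s | s
        · show v (s : ℕ) = y s
          simp only [v, s.2, dif_pos]
        · rfl
      rw [e1]
      unfold Formula.Realize
      exact iff_of_eq (congrArg _ (Subsingleton.elim _ _))
    have := hS.ind (tr φ h) v ((key _).mpr h0)
      (fun x hx => (key _).mpr (hs' x ((key _).mp hx))) x
    exact (key x).mp this


end Pool.Agent.Helper685.Sol
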