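import Pool.Agent.Helper685.Sol.Compact

namespace Pool.Agent.Helper685.Sol

theorem amalg_step {n : ℕ} (hn : 1 ≤ n) {m : ℕ} {M N : Type} {S : Str M} {a : ℕ → M}
    {S' : Str N} {b : ℕ → N} (h : Le n m S a S' b) (d : ℕ) :
    ∀ g : Fm, QS n g → g.FvLt (m + d) → g.sat S a →
      ∃ b' : ℕ → N, (∀ i < m, b' i = b i) ∧ g.sat S' b' := by
  induction d with
  | zero => intro g h1 h2 h3; exact ⟨b, fun _ _ => rfl, h g h1 h2 h3⟩
  | succ d ih =>
    intro g h1 h2 h3
    let ρ : ℕ → ℕ := fun i => if i = m + d then 0 else i + 1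
    obtain ⟨n', rfl⟩ := Nat.exists_eq_add_of_le' hn
    have hq : QS (n' + 1) (Fm.ex (g.ren ρ)) := QS.ex (h1.ren ρ)
    have hfv : (Fm.ex (g.ren ρ)).FvLt (m + d) := by
      show (g.ren ρ).FvLt (m + d + 1)
      refine Fm.fvLt_ren (k := m + (d + 1)) ?_ h2
      intro i hi
      show (if i = m + d then 0 else i + 1) < m + d + 1
      split <;> omega
    have hs : (Fm.ex (g.ren ρ)).sat S a := by
      refine ⟨a (m + d), ?_⟩
      rw [Fm.sat_ren]
      refine (Fm.sat_congr S (k := m + (d + 1)) ?_ h2).1 h3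
      intro i hi
      show a i = cns (a (m + d)) a (if i = m + d then 0 else i + 1)
      split
      · rename_i hh
        rw [hh]
        rfl
      · rfl
    obtain ⟨b', hb', x, hx⟩ := ih _ hq hfv hs
    rw [Fm.sat_ren] at hx
    refine ⟨fun i => cns x b' (ρ i), ?_, hx⟩
    intro i hi
    show cns x b' (if i = m + d then 0 else i + 1) = b i
    rw [if_neg (by omega)]
    exact hb' i hi

/-- Amalgamation. -/
theorem amalg {n m m' : ℕ} (hn : 1 ≤ n) (hm : m ≤ m') {M N : Type} {S : Str M} {a : ℕ → M}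
    {S' : Str N} {b : ℕ → N} (hS' : IsPA S') (h : Le n m S a S' b) :
    ∃ (N' : Type) (T : Str N') (c : ℕ → N'), IsPA T ∧
      (∀ f : Fm, f.FvLt m → (f.sat S' b ↔ f.sat T c)) ∧ Le n m' S a T c := by
  classical
  let G : Fm → Prop := fun f =>
    (f.FvLt m ∧ f.sat S' b) ∨ (QS n f ∧ f.FvLt m' ∧ f.sat S a)
  let F : ℕ → Fm := fun i =>
    if hh : ∃ f : Fm, Encodable.encode f = i ∧ G f then hh.choose else .eq .zero .zero
  have hF : ∀ i, G (F i) := by
    intro i
    by_cases hh : ∃ f : Fm, Encodable.encode f = i ∧ G f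
    · have h1 : F i = hh.choose := dif_pos hh
      rw [h1]
      exact hh.choose_spec.2
    · have h1 : F i = .eq .zero .zero := dif_neg hh
      rw [h1]
      exact Or.inl ⟨⟨trivial, trivial⟩, rfl⟩
  have hG : ∀ f, G f → F (Encodable.encode f) = f := by
    intro f hf
    have hh : ∃ f' : Fm, Encodable.encode f' = Encodable.encode f ∧ G f' := ⟨f, rfl, hf⟩
    have h1 : F (Encodable.encode f) = hh.choose := dif_pos hh
    rw [h1]
    exact Encodable.encode_injective hh.choose_spec.1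
  have hconj : ∀ k : ℕ, ∃ g : Fm, QS n g ∧ g.FvLt m' ∧ g.sat S a ∧
      ∀ b' : ℕ → N, (∀ i < m, b' i = b i) → g.sat S' b' → ∀ i < k, (F i).sat S' b' := by
    intro k
    induction k with
    | zero =>
      refine ⟨.eq .zero .zero, (QS.qf (QF.eq _ _)).mono (Nat.zero_le n), ⟨trivial, trivial⟩, rfl,
        fun b' _ _ i hi => absurd hi (Nat.not_lt_zero i)⟩
    | succ k ih =>
      obtain ⟨g, h1, h2, h3, h4⟩ := ih
      rcases hF k with hk | hk
      · refine ⟨g, h1, h2, h3, fun b' hb' hg i hi => ?_⟩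
        rcases Nat.lt_succ_iff_lt_or_eq.1 hi with hi' | rfl
        · exact h4 b' hb' hg i hi'
        · exact (Fm.sat_congr S' (fun j hj => (hb' j hj).symm) hk.1).1 hk.2
      · refine ⟨.and g (F k), h1.and' hk.1, ⟨h2, hk.2.1⟩, ⟨h3, hk.2.2⟩,
          fun b' hb' hg i hi => ?_⟩
        rcases Nat.lt_succ_iff_lt_or_eq.1 hi with hi' | rfl
        · exact h4 b' hb' hg.1 i hi'
        · exact hg.2
  obtain ⟨d, hd⟩ := Nat.exists_eq_add_of_le hm
  obtain ⟨N', T, hT, c, hc⟩ := compactness F (by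
    intro k
    obtain ⟨g, h1, h2, h3, h4⟩ := hconj (k + 1)
    rw [hd] at h2
    obtain ⟨b', hb', hg⟩ := amalg_step hn h d g h1 h2 h3
    exact ⟨N, S', hS', b', fun i hi => h4 b' hb' hg i (Nat.lt_succ_of_le hi)⟩)
  have hsat : ∀ f, G f → f.sat T c := by
    intro f hf
    have h1 := hc (Encodable.encode f)
    rw [hG f hf] at h1
    exact h1
  refine ⟨N', T, c, hT, ?_, ?_⟩
  · intro f hf
    constructor
    · intro h1
      exact hsat f (Or.inl ⟨hf, h1⟩)
    · intro h1
      by_contra h2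
      exact hsat (.neg f) (Or.inl ⟨hf, h2⟩) h1
  · intro f h1 h2 h3
    exact hsat f (Or.inr ⟨h1, h2, h3⟩)

end Pool.Agent.Helper685.Sol
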