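import Pool.Agent.Helper685.Sol.Use

namespace Pool.Agent.Helper685.Sol

theorem sb_one {E : Set (Set ℕ)} : SigB 1 E ↔ IsOp E := by
  constructor
  · rintro ⟨c, hc, rfl⟩
    cases c with
    | op E => exact hc
    | un c => cases (c 0)
  · intro h
    exact ⟨.op E, h, rfl⟩

theorem sb_succ {n : ℕ} {E : Set (Set ℕ)} : SigB (n + 2) E ↔
    ∃ F : ℕ → Set (Set ℕ), (∀ i, SigB (n + 1) (F i)) ∧ E = {X | ∃ i, X ∉ F i} := by
  constructor
  · rintro ⟨c, hc, rfl⟩
    cases c with
    | un c => exact ⟨fun i => (c i).set, fun i => ⟨c i, hc i, rfl⟩, rfl⟩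
  · rintro ⟨F, hF, rfl⟩
    choose c hc1 hc2 using hF
    refine ⟨.un c, hc1, ?_⟩
    ext X
    simp only [BC.set, hc2]

theorem sb_compl {n : ℕ} {E : Set (Set ℕ)} (h : SigB (n + 1) E) : SigB (n + 2) Eᶜ := by
  rw [sb_succ]
  refine ⟨fun _ => E, fun _ => h, ?_⟩
  ext X
  constructor
  · intro hX
    exact ⟨0, hX⟩
  · rintro ⟨_, hX⟩
    exact hX

theorem sb_iUnion_nat {n : ℕ} {E : ℕ → Set (Set ℕ)} (h : ∀ i, SigB (n + 1) (E i)) :
    SigB (n + 1) {X | ∃ i, X ∈ E i} := by
  cases n with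
  | zero =>
    rw [sb_one]
    rintro X ⟨i, hi⟩
    obtain ⟨L, hL⟩ := (sb_one.1 (h i)) X hi
    exact ⟨L, fun Y hY => ⟨i, hL Y hY⟩⟩
  | succ n =>
    choose F hF1 hF2 using fun i => sb_succ.1 (h i)
    rw [sb_succ]
    refine ⟨fun k => F k.unpair.1 k.unpair.2, fun k => hF1 _ _, ?_⟩
    ext X
    constructor
    · rintro ⟨i, hi⟩
      rw [hF2] at hi
      obtain ⟨j, hj⟩ := hi
      exact ⟨Nat.pair i j, by simpa using hj⟩
    · rintro ⟨k, hk⟩
      refine ⟨k.unpair.1, ?_⟩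
      rw [hF2]
      exact ⟨k.unpair.2, hk⟩

theorem sb_iUnion {ι : Type} [Countable ι] [Nonempty ι] {n : ℕ} {E : ι → Set (Set ℕ)}
    (h : ∀ i, SigB (n + 1) (E i)) : SigB (n + 1) {X | ∃ i, X ∈ E i} := by
  obtain ⟨f, hf⟩ := exists_surjective_nat ι
  have h1 := sb_iUnion_nat (E := fun k => E (f k)) (fun k => h (f k))
  have e : {X | ∃ i, X ∈ E i} = {X | ∃ k, X ∈ E (f k)} := by
    ext X
    constructor
    · rintro ⟨i, hi⟩
      obtain ⟨k, rfl⟩ := hf i
      exact ⟨k, hi⟩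
    · rintro ⟨k, hk⟩
      exact ⟨f k, hk⟩
  rw [e]
  exact h1

/-- basic clopen sets -/
def sbB (p : Finset ℕ × Finset ℕ) : Set (Set ℕ) := {X | ∀ x ∈ p.1, (x ∈ X ↔ x ∈ p.2)}

theorem sb_exists_basic {E : Set (Set ℕ)} (h : IsOp E) {X : Set ℕ} (hX : X ∈ E) :
    ∃ p : Finset ℕ × Finset ℕ, X ∈ sbB p ∧ sbB p ⊆ E := by
  classical
  obtain ⟨L, hL⟩ := h X hX
  refine ⟨(L, L.filter (fun x => x ∈ X)), ?_, ?_⟩
  · intro x hx
    simp only [Finset.mem_filter]
    exact ⟨fun h => ⟨hx, h⟩, fun h => h.2⟩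
  · intro Y hY
    apply hL
    intro x hx
    have := hY x hx
    simp only [Finset.mem_filter] at this
    rw [this]
    exact ⟨fun h => h.2, fun h => ⟨hx, h⟩⟩

theorem sb_basic_compl_open (p : Finset ℕ × Finset ℕ) : IsOp (sbB p)ᶜ := by
  intro X hX
  refine ⟨p.1, fun Y hY hY' => hX ?_⟩
  intro x hx
  rw [← hY x hx]
  exact hY' x hx

theorem sb_univ_open : IsOp (Set.univ : Set (Set ℕ)) := fun X _ => ⟨∅, fun Y _ => trivial⟩

theorem sb_mono {n : ℕ} : ∀ {E : Set (Set ℕ)}, SigB (n + 1) E → SigB (n + 2) E := by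
  induction n with
  | zero =>
    intro E hE
    rw [sb_one] at hE
    classical
    obtain ⟨f, hf⟩ := exists_surjective_nat (Finset ℕ × Finset ℕ)
    rw [sb_succ]
    refine ⟨fun k => if sbB (f k) ⊆ E then (sbB (f k))ᶜ else Set.univ, ?_, ?_⟩
    · intro k
      rw [sb_one]
      by_cases h : sbB (f k) ⊆ E
      · simp only [h, if_true]
        exact sb_basic_compl_open _
      · simp only [h, if_false]
        exact sb_univ_open
    · ext X
      constructor
      · intro hX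
        obtain ⟨p, hp1, hp2⟩ := sb_exists_basic hE hX
        obtain ⟨k, rfl⟩ := hf p
        refine ⟨k, ?_⟩
        simp only [hp2, if_true]
        intro h
        exact h hp1
      · rintro ⟨k, hk⟩
        by_cases h : sbB (f k) ⊆ E
        · simp only [h, if_true] at hk
          apply h
          by_contra hcon
          exact hk hcon
        · simp only [h, if_false] at hk
          exact absurd (Set.mem_univ X) hk
  | succ n ih =>
    intro E hE
    obtain ⟨F, hF1, hF2⟩ := sb_succ.1 hE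
    exact sb_succ.2 ⟨F, fun i => ih (hF1 i), hF2⟩

theorem sb_of_open (n : ℕ) {E : Set (Set ℕ)} (h : IsOp E) : SigB (n + 1) E := by
  induction n with
  | zero => exact sb_one.2 h
  | succ n ih => exact sb_mono ih

theorem sb_univ (n : ℕ) : SigB (n + 1) Set.univ := sb_of_open n sb_univ_open

theorem sb_empty (n : ℕ) : SigB (n + 1) ∅ := sb_of_open n (fun X hX => absurd hX (Set.notMem_empty X))

theorem sb_union {n : ℕ} {E F : Set (Set ℕ)} (hE : SigB (n + 1) E) (hF : SigB (n + 1) F) :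
    SigB (n + 1) (E ∪ F) := by
  have h := sb_iUnion (ι := Bool) (E := fun b => if b then E else F) (n := n) (by
    intro b
    cases b
    · simpa using hF
    · simpa using hE)
  have e : E ∪ F = {X | ∃ b : Bool, X ∈ (if b then E else F : Set (Set ℕ))} := by
    ext X
    constructor
    · rintro (h | h)
      · exact ⟨true, by simpa using h⟩
      · exact ⟨false, by simpa using h⟩
    · rintro ⟨b, hb⟩
      cases b
      · right; simpa using hb
      · left; simpa using hb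
  rw [e]
  exact h

theorem sb_inter {n : ℕ} {E F : Set (Set ℕ)} (hE : SigB (n + 1) E) (hF : SigB (n + 1) F) :
    SigB (n + 1) (E ∩ F) := by
  cases n with
  | zero =>
    rw [sb_one] at hE hF ⊢
    classical
    rintro X ⟨h1, h2⟩
    obtain ⟨L1, hL1⟩ := hE X h1
    obtain ⟨L2, hL2⟩ := hF X h2
    refine ⟨L1 ∪ L2, fun Y hY => ⟨hL1 Y ?_, hL2 Y ?_⟩⟩
    · intro x hx
      exact hY x (Finset.mem_union_left _ hx)
    · intro x hx
      exact hY x (Finset.mem_union_right _ hx)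
  | succ n =>
    obtain ⟨E', hE1, rfl⟩ := sb_succ.1 hE
    obtain ⟨F', hF1, rfl⟩ := sb_succ.1 hF
    rw [sb_succ]
    refine ⟨fun k => E' k.unpair.1 ∪ F' k.unpair.2, fun k => sb_union (hE1 _) (hF1 _), ?_⟩
    ext X
    constructor
    · rintro ⟨⟨i, hi⟩, ⟨j, hj⟩⟩
      refine ⟨Nat.pair i j, ?_⟩
      show X ∉ E' (Nat.unpair (Nat.pair i j)).1 ∪ F' (Nat.unpair (Nat.pair i j)).2
      rw [Nat.unpair_pair]
      rintro (h | h)
      · exact hi h
      · exact hj h
    · rintro ⟨k, hk⟩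
      exact ⟨⟨k.unpair.1, fun h => hk (Or.inl h)⟩, ⟨k.unpair.2, fun h => hk (Or.inr h)⟩⟩

theorem sb_finset_inter {n : ℕ} {E : ℕ → Set (Set ℕ)} (L : Finset ℕ)
    (h : ∀ x ∈ L, SigB (n + 1) (E x)) : SigB (n + 1) {X | ∀ x ∈ L, X ∈ E x} := by
  classical
  induction L using Finset.induction_on with
  | empty =>
    have e : {X : Set ℕ | ∀ x ∈ (∅ : Finset ℕ), X ∈ E x} = Set.univ := by
      ext X
      simp
    rw [e]
    exact sb_univ n
  | insert a L ha ih =>
    have e : {X : Set ℕ | ∀ x ∈ insert a L, X ∈ E x} = E a ∩ {X | ∀ x ∈ L, X ∈ E x} := by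
      ext X
      constructor
      · intro hX
        exact ⟨hX a (Finset.mem_insert_self _ _), fun x hx => hX x (Finset.mem_insert_of_mem hx)⟩
      · rintro ⟨h1, h2⟩ x hx
        rcases Finset.mem_insert.1 hx with rfl | hx
        · exact h1
        · exact h2 x hx
    rw [e]
    exact sb_inter (h a (Finset.mem_insert_self _ _))
      (ih (fun x hx => h x (Finset.mem_insert_of_mem hx)))

theorem sb_Phi_open (e a i : ℕ) : IsOp {Y | i ∈ Phi e Y a} := by
  intro X hX
  have hX' : i ∈ (match (Encodable.decode e : Option OCode) with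
    | some c => c.eval X a
    | none => Part.none) := by
    have h0 : i ∈ Phi e X a := hX
    rw [Phi_eq] at h0
    exact h0
  cases hd : (Encodable.decode e : Option OCode) with
  | none =>
    rw [hd] at hX'
    exact absurd hX' (Part.notMem_none i)
  | some c =>
    rw [hd] at hX'
    obtain ⟨L, hL⟩ := OCode.use c X a i hX'
    refine ⟨L, fun Y hY => ?_⟩
    show i ∈ Phi e Y a
    rw [Phi_eq, hd]
    exact hL Y hY

theorem sb_jump_open (x : ℕ) : IsOp {X | x ∈ jump X} := by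
  intro X hX
  have hX' : (Phi x X x).Dom := hX
  obtain ⟨y, hy⟩ := Part.dom_iff_mem.1 hX'
  obtain ⟨L, hL⟩ := sb_Phi_open x x y X hy
  refine ⟨L, fun Y hY => ?_⟩
  exact Part.dom_iff_mem.2 ⟨y, hL Y hY⟩

theorem sb_jump {n : ℕ} : ∀ {E : Set (Set ℕ)}, SigB (n + 1) E → SigB (n + 2) {X | jump X ∈ E} := by
  induction n with
  | zero =>
    intro E hE
    rw [sb_one] at hE
    classical
    have h1 : ∀ (x : ℕ) (A : Finset ℕ), SigB (0 + 2) {X | x ∈ jump X ↔ x ∈ A} := by
      intro x A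
      by_cases h : x ∈ A
      · have e : {X | x ∈ jump X ↔ x ∈ A} = {X | x ∈ jump X} := by
          ext X
          simp [h]
        rw [e]
        exact sb_mono (sb_one.2 (sb_jump_open x))
      · have e : {X | x ∈ jump X ↔ x ∈ A} = {X | x ∈ jump X}ᶜ := by
          ext X
          simp [h]
        rw [e]
        exact sb_compl (sb_one.2 (sb_jump_open x))
    have h2 : ∀ p : Finset ℕ × Finset ℕ, SigB (0 + 2) {X | jump X ∈ sbB p} := by
      intro p
      exact sb_finset_inter (n := 1) (E := fun x => {X | x ∈ jump X ↔ x ∈ p.2}) p.1 (fun x _ => h1 x p.2)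
    have h3 := sb_iUnion (n := 1) (E := fun p : Finset ℕ × Finset ℕ =>
      if sbB p ⊆ E then {X | jump X ∈ sbB p} else ∅) (by
        intro p
        by_cases h : sbB p ⊆ E
        · simp only [h, if_true]
          exact h2 p
        · simp only [h, if_false]
          exact sb_empty 1)
    have e : {X | jump X ∈ E} = {X | ∃ p : Finset ℕ × Finset ℕ,
        X ∈ (if sbB p ⊆ E then {X | jump X ∈ sbB p} else ∅ : Set (Set ℕ))} := by
      ext X
      constructor
      · intro hX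
        obtain ⟨p, hp1, hp2⟩ := sb_exists_basic hE hX
        refine ⟨p, ?_⟩
        simp only [hp2, if_true]
        exact hp1
      · rintro ⟨p, hp⟩
        by_cases h : sbB p ⊆ E
        · simp only [h, if_true] at hp
          exact h hp
        · simp only [h, if_false] at hp
          exact absurd hp (Set.notMem_empty X)
    rw [e]
    exact h3
  | succ n ih =>
    intro E hE
    obtain ⟨F, hF1, rfl⟩ := sb_succ.1 hE
    exact sb_succ.2 ⟨fun i => {X | jump X ∈ F i}, fun i => ih (hF1 i), rfl⟩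

theorem sb_iter {E : Set (Set ℕ)} (hE : IsOp E) (k : ℕ) : SigB (k + 1) {X | jump^[k] X ∈ E} := by
  induction k with
  | zero => exact sb_one.2 hE
  | succ k ih =>
    have := sb_jump ih
    exact this

/-- The jump classes: the set of oracles whose `(n-1)`-st jump makes program `e` output `i` on
input `a` is in `Σ⁰ₙ`. -/
theorem sigB_Phi (e n a i : ℕ) (hn : 1 ≤ n) :
    SigB n {X | i ∈ Phi e (jump^[n - 1] X) a} := by
  obtain ⟨k, rfl⟩ := Nat.exists_eq_add_of_le' hn
  rw [Nat.add_sub_cancel]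
  exact sb_iter (sb_Phi_open e a i) k

theorem sigB_E0 (e n s0 : ℕ) (hn : 1 ≤ n) : SigB n (E0 e n s0) := by
  have h1 : ∀ i, SigB n {X | i ∈ Phi e (jump^[n - 1] X) (Nat.pair n 0)} := fun i =>
    sigB_Phi e n (Nat.pair n 0) i hn
  unfold E0
  generalize hJ : (fun X : Set ℕ => Phi e (jump^[n - 1] X) (Nat.pair n 0)) = J at *
  obtain ⟨k, hk⟩ := Nat.exists_eq_add_of_le' hn
  have h2 : ∀ i, SigB (k + 1) ({X | i ∈ J X} ∩ {X | 0 ∈ Phi i X s0}) := by
    intro i
    apply sb_inter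
    · rw [← hk, ← hJ]; exact h1 i
    · exact sb_of_open k (sb_Phi_open i s0 0)
  have h3 := sb_iUnion_nat h2
  rw [← hk, ← hJ] at h3
  exact h3

theorem sigB_E1 (e n s1 : ℕ) (hn : 1 ≤ n) : SigB n (E1 e n s1) := by
  have h1 : ∀ s i, SigB n {X | i ∈ Phi e (jump^[n - 1] X) (Nat.pair n s)} := fun s i =>
    sigB_Phi e n (Nat.pair n s) i hn
  unfold E1
  generalize hJ : (fun (s : ℕ) (X : Set ℕ) => Phi e (jump^[n - 1] X) (Nat.pair n s)) = J at *
  obtain ⟨k, hk⟩ := Nat.exists_eq_add_of_le' hn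
  have h1' : ∀ s i, SigB (k + 1) {X | i ∈ J s X} := by
    intro s i
    rw [← hk, ← hJ]; exact h1 s i
  classical
  have h2 : ∀ p : ℕ × ℕ × ℕ, SigB (k + 1) (if p.1 ≠ p.2.1 then
      ({X | p.1 ∈ J 0 X} ∩ ({X | p.2.1 ∈ J p.2.2 X} ∩ {X | 0 ∈ Phi p.2.1 X s1})) else ∅) := by
    intro p
    by_cases h : p.1 ≠ p.2.1
    · simp only [h, ne_eq, not_false_eq_true, if_true]
      exact sb_inter (h1' _ _) (sb_inter (h1' _ _) (sb_of_open k (sb_Phi_open _ s1 0)))
    · simp only [h, ne_eq, if_false]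
      exact sb_empty k
  have h3 := sb_iUnion h2
  have e1 : {X | ∃ i i' s, i ≠ i' ∧ i ∈ J 0 X ∧ i' ∈ J s X ∧ 0 ∈ Phi i' X s1} =
      {X | ∃ p : ℕ × ℕ × ℕ, X ∈ (if p.1 ≠ p.2.1 then
      ({X | p.1 ∈ J 0 X} ∩ ({X | p.2.1 ∈ J p.2.2 X} ∩ {X | 0 ∈ Phi p.2.1 X s1})) else ∅ : Set (Set ℕ))} := by
    ext X
    constructor
    · rintro ⟨i, i', s, hne, ha, hb, hc⟩
      refine ⟨(i, i', s), ?_⟩
      rw [if_pos hne]
      exact ⟨ha, hb, hc⟩
    · rintro ⟨p, hp⟩
      by_cases h : p.1 ≠ p.2.1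
      · rw [if_pos h] at hp
        exact ⟨p.1, p.2.1, p.2.2, h, hp.1, hp.2.1, hp.2.2⟩
      · rw [if_neg h] at hp
        exact absurd hp (Set.notMem_empty X)
  rw [← e1, ← hk, ← hJ] at h3
  exact h3

end Pool.Agent.Helper685.Sol
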