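import Pool.Agent.Helper685.Sol.Syn

namespace Pool.Agent.Helper685.Sol

section ultra
variable (M : ℕ → Type) (S : ∀ k, Str (M k)) (U : Ultrafilter ℕ)

/-- equality almost everywhere -/
def upS : Setoid (∀ k, M k) where
  r a b := ∀ᶠ k in (U : Filter ℕ), a k = b k
  iseqv := by
    refine ⟨fun a => Filter.Eventually.of_forall fun _ => rfl, fun {a b} h => ?_, fun {a b c} h1 h2 => ?_⟩
    · filter_upwards [h] with k hk using hk.symm
    · filter_upwards [h1, h2] with k hk1 hk2 using hk1.trans hk2

/-- the universe of the ultraproduct -/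
def CUP : Type := Quotient (upS M U)

def upk (a : ∀ k, M k) : CUP M U := Quotient.mk (upS M U) a

theorem upk_eq (a b : ∀ k, M k) : upk M U a = upk M U b ↔ ∀ᶠ k in (U : Filter ℕ), a k = b k :=
  Quotient.eq (r := upS M U)

/-- the ultraproduct -/
def upT : Str (CUP M U) where
  zero := upk M U (fun k => (S k).zero)
  succ := Quotient.lift (fun a => upk M U (fun k => (S k).succ (a k))) (by
    intro a b h
    rw [upk_eq]
    have h' : ∀ᶠ k in (U : Filter ℕ), a k = b k := h
    filter_upwards [h'] with k hk
    rw [hk])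
  add := Quotient.lift₂ (fun a b => upk M U (fun k => (S k).add (a k) (b k))) (by
    intro a b a' b' h h2
    rw [upk_eq]
    have h' : ∀ᶠ k in (U : Filter ℕ), a k = a' k := h
    have h2' : ∀ᶠ k in (U : Filter ℕ), b k = b' k := h2
    filter_upwards [h', h2'] with k hk hk2
    rw [hk, hk2])
  mul := Quotient.lift₂ (fun a b => upk M U (fun k => (S k).mul (a k) (b k))) (by
    intro a b a' b' h h2
    rw [upk_eq]
    have h' : ∀ᶠ k in (U : Filter ℕ), a k = a' k := h
    have h2' : ∀ᶠ k in (U : Filter ℕ), b k = b' k := h2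
    filter_upwards [h', h2'] with k hk hk2
    rw [hk, hk2])

theorem upT_zero : (upT M S U).zero = upk M U (fun k => (S k).zero) := rfl
theorem upT_succ (a : ∀ k, M k) : (upT M S U).succ (upk M U a) = upk M U (fun k => (S k).succ (a k)) := rfl
theorem upT_add (a b : ∀ k, M k) : (upT M S U).add (upk M U a) (upk M U b)
    = upk M U (fun k => (S k).add (a k) (b k)) := rfl
theorem upT_mul (a b : ∀ k, M k) : (upT M S U).mul (upk M U a) (upk M U b)
    = upk M U (fun k => (S k).mul (a k) (b k)) := rfl

theorem up_surj (x : CUP M U) : ∃ a, x = upk M U a := by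
  induction x using Quotient.ind with
  | _ a => exact ⟨a, rfl⟩

theorem up_val (t : Tm) (w : ℕ → ∀ k, M k) :
    t.val (upT M S U) (fun i => upk M U (w i)) = upk M U (fun k => t.val (S k) (fun i => w i k)) := by
  induction t with
  | var i => rfl
  | zero => rfl
  | succ t ih => simp only [Tm.val]; rw [ih, upT_succ]
  | add s t ih1 ih2 => simp only [Tm.val]; rw [ih1, ih2, upT_add]
  | mul s t ih1 ih2 => simp only [Tm.val]; rw [ih1, ih2, upT_mul]

theorem up_cns (x : ∀ k, M k) (w : ℕ → ∀ k, M k) :
    cns (upk M U x) (fun i => upk M U (w i)) = fun i => upk M U (cns x w i) := by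
  funext i
  cases i <;> rfl

theorem up_cns' (x : ∀ k, M k) (w : ℕ → ∀ k, M k) (k : ℕ) :
    (fun i => cns x w i k) = cns (x k) (fun i => w i k) := by
  funext i
  cases i <;> rfl

theorem up_los (f : Fm) : ∀ (w : ℕ → ∀ k, M k), f.sat (upT M S U) (fun i => upk M U (w i)) ↔
    ∀ᶠ k in (U : Filter ℕ), f.sat (S k) (fun i => w i k) := by
  induction f with
  | eq s t =>
    intro w
    simp only [Fm.sat]
    rw [up_val, up_val, upk_eq]
  | neg f ih =>
    intro w
    simp only [Fm.sat]
    rw [ih, Ultrafilter.eventually_not]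
  | and f g ih1 ih2 =>
    intro w
    simp only [Fm.sat]
    rw [ih1, ih2, Filter.eventually_and]
  | ex f ih =>
    intro w
    simp only [Fm.sat]
    constructor
    · rintro ⟨a, ha⟩
      obtain ⟨x, rfl⟩ := up_surj M U a
      rw [up_cns, ih] at ha
      filter_upwards [ha] with k hk
      rw [up_cns'] at hk
      exact ⟨x k, hk⟩
    · intro h
      classical
      have hch : ∀ k, ∃ x : M k, (∃ a, f.sat (S k) (cns a (fun i => w i k))) →
          f.sat (S k) (cns x (fun i => w i k)) := by
        intro k
        by_cases hk : ∃ a, f.sat (S k) (cns a (fun i => w i k))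
        · obtain ⟨a, ha⟩ := hk
          exact ⟨a, fun _ => ha⟩
        · exact ⟨(S k).zero, fun h => absurd h hk⟩
      choose x hx using hch
      refine ⟨upk M U x, ?_⟩
      rw [up_cns, ih]
      filter_upwards [h] with k hk
      rw [up_cns']
      exact hx k hk

theorem up_PA (hS : ∀ k, IsPA (S k)) : IsPA (upT M S U) where
  succ_ne_zero := by
    intro x hx
    obtain ⟨a, rfl⟩ := up_surj M U x
    rw [upT_succ, upT_zero, upk_eq] at hx
    obtain ⟨k, hk⟩ := hx.exists
    exact (hS k).succ_ne_zero _ hk
  succ_inj := by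
    intro x y hxy
    obtain ⟨a, rfl⟩ := up_surj M U x
    obtain ⟨b, rfl⟩ := up_surj M U y
    rw [upT_succ, upT_succ, upk_eq] at hxy
    rw [upk_eq]
    filter_upwards [hxy] with k hk
    exact (hS k).succ_inj _ _ hk
  add_zero := by
    intro x
    obtain ⟨a, rfl⟩ := up_surj M U x
    rw [upT_zero, upT_add]
    congr 1; funext k; exact (hS k).add_zero _
  add_succ := by
    intro x y
    obtain ⟨a, rfl⟩ := up_surj M U x
    obtain ⟨b, rfl⟩ := up_surj M U y
    rw [upT_succ, upT_add, upT_add, upT_succ]
    congr 1; funext k; exact (hS k).add_succ _ _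
  mul_zero := by
    intro x
    obtain ⟨a, rfl⟩ := up_surj M U x
    rw [upT_zero, upT_mul]
    congr 1; funext k; exact (hS k).mul_zero _
  mul_succ := by
    intro x y
    obtain ⟨a, rfl⟩ := up_surj M U x
    obtain ⟨b, rfl⟩ := up_surj M U y
    rw [upT_succ, upT_mul, upT_mul, upT_add]
    congr 1; funext k; exact (hS k).mul_succ _ _
  ind := by
    intro f v h0 hstep x
    obtain ⟨a, rfl⟩ := up_surj M U x
    choose w hw using fun i => up_surj M U (v i)
    have hv : v = fun i => upk M U (w i) := funext hw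
    subst hv
    by_contra hcon
    rw [up_cns, up_los, ← Ultrafilter.eventually_not] at hcon
    rw [upT_zero, up_cns, up_los] at h0
    classical
    have hch : ∀ k, ∃ y : M k, (f.sat (S k) (cns (S k).zero (fun i => w i k)) ∧
        ¬ f.sat (S k) (cns (a k) (fun i => w i k))) →
        f.sat (S k) (cns y (fun i => w i k)) ∧ ¬ f.sat (S k) (cns ((S k).succ y) (fun i => w i k)) := by
      intro k
      by_cases hk : (f.sat (S k) (cns (S k).zero (fun i => w i k)) ∧
        ¬ f.sat (S k) (cns (a k) (fun i => w i k)))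
      · by_contra hno
        push Not at hno
        apply hk.2
        apply (hS k).ind f _ hk.1
        intro y hy
        exact (hno y).2 hy
      · exact ⟨(S k).zero, fun h => absurd h hk⟩
    choose y hy using hch
    have h1 : f.sat (upT M S U) (cns (upk M U y) fun i => upk M U (w i)) := by
      rw [up_cns, up_los]
      filter_upwards [h0, hcon] with k hk1 hk2
      rw [up_cns'] at hk1 hk2 ⊢
      exact (hy k ⟨hk1, hk2⟩).1
    have h2 := hstep _ h1
    rw [upT_succ, up_cns, up_los] at h2
    obtain ⟨k, hk1, hk2, hk3⟩ := (h0.and (hcon.and h2)).exists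
    rw [up_cns'] at hk1 hk2 hk3
    exact (hy k ⟨hk1, hk2⟩).2 hk3

end ultra

/-- Compactness for countable sets of formulas over `PA` (the variables act as constants). -/
theorem compactness (F : ℕ → Fm)
    (h : ∀ k, ∃ (M : Type) (S : Str M), IsPA S ∧ ∃ v : ℕ → M, ∀ i ≤ k, (F i).sat S v) :
    ∃ (M : Type) (S : Str M), IsPA S ∧ ∃ v : ℕ → M, ∀ i, (F i).sat S v := by
  choose M S hS v hv using h
  set U : Ultrafilter ℕ := Filter.hyperfilter ℕ with hU
  refine ⟨CUP M U, upT M S U, up_PA M S U hS, fun i => upk M U (fun k => v k i), ?_⟩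
  intro i
  rw [up_los]
  have h1 : ∀ᶠ k in (U : Filter ℕ), i ≤ k := by
    have h2 : (U : Filter ℕ) ≤ Filter.atTop := by
      rw [← Nat.cofinite_eq_atTop]
      exact Filter.hyperfilter_le_cofinite
    exact h2 (Filter.eventually_ge_atTop i)
  filter_upwards [h1] with k hk
  exact hv k i hk

end Pool.Agent.Helper685.Sol
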