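import Pool.Agent.Helper685.Sol.UDefs

namespace Pool.Agent.Helper685.Sol

/-- data of the diagonal construction at levels `j < n` -/
structure DiagData (n j : ℕ) where
  P1 : ∀ M : Type, Str M → Prop
  P2 : ∀ M : Type, Str M → Prop
  A1 : ∀ M : Type, Str M → M → Prop
  B : ∀ M : Type, Str M → M → Prop
  A2 : ∀ M : Type, Str M → M → Prop
  w1 : ℕ → ℕ × ℕ × ℕ → Prop
  w2 : ℕ → ℕ × ℕ × ℕ → Prop
  w3 : ℕ → ℕ × ℕ × ℕ → Prop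
  sig1 : SigP n (fun M S _ => P1 M S)
  sig2 : SigP n (fun M S _ => P2 M S)
  P1_iff : ∀ (M : Type) (S : Str M), IsPA S →
    (P1 M S ↔ ∃ m, A1 M S m ∧ ∀ m', S.le m' m → ¬ B M S m')
  P2_iff : ∀ (M : Type) (S : Str M), IsPA S →
    (P2 M S ↔ ∃ m1, (A1 M S m1 ∧ ∀ m', S.le m' m1 → ¬ B M S m') ∧ ∃ m2, S.lt m2 m1 ∧ A2 M S m2)
  A1_num : ∀ (M : Type) (S : Str M), IsPA S → ∀ m : ℕ, (A1 M S (S.num m) ↔
    ∃ e1 < m, ∃ e2 < m, ∃ e3 < m,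
      UP S (S.num e1) (S.num e2) (S.num e3) n S.zero S.zero ∧ w1 m (e1, e2, e3))
  B_num : ∀ (M : Type) (S : Str M), IsPA S → ∀ m : ℕ, (B M S (S.num m) ↔
    ∃ e1 < m, ∃ e2 < m, ∃ e3 < m,
      UP S (S.num e1) (S.num e2) (S.num e3) j S.zero S.zero ∧ w2 m (e1, e2, e3))
  A2_num : ∀ (M : Type) (S : Str M), IsPA S → ∀ m : ℕ, (A2 M S (S.num m) ↔
    ∃ e1 < m, ∃ e2 < m, ∃ e3 < m,
      UP S (S.num e1) (S.num e2) (S.num e3) n S.zero S.zero ∧ w3 m (e1, e2, e3))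
  mono1 : ∀ m m' e, m ≤ m' → w1 m e → w1 m' e
  mono2 : ∀ m m' e, m ≤ m' → w2 m e → w2 m' e
  mono3 : ∀ m m' e, m ≤ m' → w3 m e → w3 m' e
  w1_iff : ∀ e1 e2 e3, (∃ m, w1 m (e1, e2, e3)) ↔ ¬ ∃ (M : Type) (S : Str M), IsPA S ∧
    UP S (S.num e1) (S.num e2) (S.num e3) n S.zero S.zero ∧ P1 M S ∧ ¬ P2 M S
  w2_iff : ∀ e1 e2 e3, (∃ m, w2 m (e1, e2, e3)) ↔ ¬ ∃ (M : Type) (S : Str M), IsPA S ∧
    UP S (S.num e1) (S.num e2) (S.num e3) j S.zero S.zero ∧ ¬ P1 M S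
  w3_iff : ∀ e1 e2 e3, (∃ m, w3 m (e1, e2, e3)) ↔ ¬ ∃ (M : Type) (S : Str M), IsPA S ∧
    UP S (S.num e1) (S.num e2) (S.num e3) n S.zero S.zero ∧ P2 M S

/-- every `Q n` sentence true in `S` is true in `S'` -/
def ThLe (n : ℕ) {M N : Type} (S : Str M) (S' : Str N) : Prop :=
  ∀ f : Fm, QS n f → f.IsSentence → (∀ v, f.sat S v) → ∀ v, f.sat S' v

end Pool.Agent.Helper685.Sol
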