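import Pool.Agent.Helper685.Sol.Prog
import Pool.Agent.Helper685.Sol.Compact
import Pool.Agent.Helper685.Sol.DDefs

namespace Pool.Agent.Helper685.Sol

/-- extension by compactness -/
theorem extend {n : ℕ} (hn : 1 ≤ n) {M : Type} {S : Str M} (hS : IsPA S) (f : Fm)
    (hf : ∀ (M : Type) (S : Str M), IsPA S → ∀ v w, (f.sat S v ↔ f.sat S w))
    (h : ∀ e1 e2 e3 : ℕ, UP S (S.num e1) (S.num e2) (S.num e3) n S.zero S.zero →
      ∃ (N : Type) (T : Str N), IsPA T ∧
        UP T (T.num e1) (T.num e2) (T.num e3) n T.zero T.zero ∧ ∀ v, f.sat T v) :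
    ∃ (N : Type) (T : Str N), IsPA T ∧ ThLe n S T ∧ ∀ v, f.sat T v := by
  classical
  let G : Fm → Prop := fun g => QS n g ∧ g.IsSentence ∧ ∀ v, g.sat S v
  let e0 : Fm := .eq .zero .zero
  have he0 : G e0 := ⟨(QS.qf (.eq _ _)).mono (Nat.zero_le n), ⟨trivial, trivial⟩, fun _ => rfl⟩
  let g : ℕ → Fm := fun i => match (Encodable.decode i : Option Fm) with
    | some x => if G x then x else e0
    | none => e0
  have hg : ∀ i, G (g i) := by
    intro i
    show G (match (Encodable.decode i : Option Fm) with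
      | some x => if G x then x else e0
      | none => e0)
    split
    · split_ifs with h1
      · exact h1
      · exact he0
    · exact he0
  have hgs : ∀ x, G x → g (Encodable.encode x) = x := by
    intro x hx
    show (match (Encodable.decode (Encodable.encode x) : Option Fm) with
      | some x => if G x then x else e0
      | none => e0) = x
    rw [Encodable.encodek]
    exact if_pos hx
  -- conjunctions
  have hconj : ∀ k, ∃ c, G c ∧ ∀ (N : Type) (T : Str N) (v : ℕ → N), c.sat T v →
      ∀ i < k, (g i).sat T v := by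
    intro k
    induction k with
    | zero => exact ⟨e0, he0, fun _ _ _ _ i hi => absurd hi (Nat.not_lt_zero i)⟩
    | succ k ih =>
      obtain ⟨c, hc, hcs⟩ := ih
      refine ⟨.and c (g k), ⟨QS.and' hc.1 (hg k).1, ⟨hc.2.1, (hg k).2.1⟩,
        fun v => ⟨hc.2.2 v, (hg k).2.2 v⟩⟩, fun N T v hT i hi => ?_⟩
      rcases Nat.lt_succ_iff_lt_or_eq.mp hi with hi | rfl
      · exact hcs N T v hT.1 i hi
      · exact hT.2
  obtain ⟨N, T, hT, v, hv⟩ := compactness (fun i => if i = 0 then f else g (i - 1)) (by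
    intro k
    obtain ⟨c, hc, hcs⟩ := hconj k
    obtain ⟨e1, e2, e3, he⟩ := univ_sem hn hc.1 hc.2.1
    obtain ⟨N, T, hT, hU, hfT⟩ := h e1 e2 e3 ((he M S hS (fun _ => S.zero)).mp (hc.2.2 _))
    refine ⟨N, T, hT, fun _ => T.zero, fun i hi => ?_⟩
    by_cases h0 : i = 0
    · subst h0; exact hfT _
    · show Fm.sat T _ (if i = 0 then f else g (i - 1))
      rw [if_neg h0]
      exact hcs N T _ ((he N T hT _).mpr hU) (i - 1) (by omega))
  refine ⟨N, T, hT, ?_, ?_⟩
  · intro x hx hxs hxt w
    have h1 := hv (Encodable.encode x + 1)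
    have h2 : (if Encodable.encode x + 1 = 0 then f else g (Encodable.encode x + 1 - 1)) = x := by
      rw [if_neg (Nat.succ_ne_zero _), Nat.add_sub_cancel]
      exact hgs x ⟨hx, hxs, hxt⟩
    have h3 : x.sat T v := by
      have h4 : Fm.sat T v (if Encodable.encode x + 1 = 0 then f
        else g (Encodable.encode x + 1 - 1)) := h1
      rw [h2] at h4
      exact h4
    exact (Fm.sat_congr T (k := 0) (fun i hi => absurd hi (Nat.not_lt_zero i)) hxs).mp h3
  · intro w
    have h1 : f.sat T v := hv 0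
    exact (hf N T hT v w).mp h1

end Pool.Agent.Helper685.Sol
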