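import Pool.Agent.Helper685.Sol.Diag
import Pool.Agent.Helper685.Sol.Extend

namespace Pool.Agent.Helper685.Sol

theorem chain {M : Type} {S : Str M} (hS : IsPA S) {n j : ℕ} (hj : 1 ≤ j) (hjn : j < n) :
    ∃ s0 s1 : Fm, s0.IsSentence ∧ IsSig n s0 ∧ s1.IsSentence ∧ IsSig n s1 ∧
      ∃ (M0 : Type) (S0 : Str M0) (M1 : Type) (S1 : Str M1) (M2 : Type) (S2 : Str M2),
        IsPA S0 ∧ IsPA S1 ∧ IsPA S2 ∧ ThLe j S S0 ∧ ThLe n S0 S1 ∧ ThLe n S1 S2 ∧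
        (∀ v, ¬ s0.sat S0 v) ∧ (∀ v, s0.sat S1 v) ∧ (∀ v, ¬ s1.sat S1 v) ∧
        (∀ v, s0.sat S2 v) ∧ (∀ v, s1.sat S2 v) := by
  obtain ⟨d⟩ := exists_diag n j hj hjn
  obtain ⟨n', rfl⟩ : ∃ n', n = n' + 1 := ⟨n - 1, by omega⟩
  obtain ⟨s0, hs0a, hs0b, hs0⟩ := d.sig1.close (fun _ _ _ _ _ => Iff.rfl)
  obtain ⟨s1, hs1a, hs1b, hs1⟩ := d.sig2.close (fun _ _ _ _ _ => Iff.rfl)
  have F1 : ∀ (M : Type) (S : Str M), IsPA S → ∀ m : ℕ, d.A1 M S (S.num m) →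
      d.P1 M S → d.P2 M S := by
    intro M S hS m hm h1
    by_contra h2
    obtain ⟨e1, -, e2, -, e3, -, hU, hw⟩ := (d.A1_num M S hS m).1 hm
    exact (d.w1_iff e1 e2 e3).1 ⟨m, hw⟩ ⟨M, S, hS, hU, h1, h2⟩
  have F2 : ∀ (M : Type) (S : Str M), IsPA S → ∀ m : ℕ, d.B M S (S.num m) → d.P1 M S := by
    intro M S hS m hm
    by_contra h2
    obtain ⟨e1, -, e2, -, e3, -, hU, hw⟩ := (d.B_num M S hS m).1 hm
    exact (d.w2_iff e1 e2 e3).1 ⟨m, hw⟩ ⟨M, S, hS, hU, h2⟩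
  have F3 : ∀ (M : Type) (S : Str M), IsPA S → ∀ m : ℕ, d.A2 M S (S.num m) → ¬ d.P2 M S := by
    intro M S hS m hm h2
    obtain ⟨e1, -, e2, -, e3, -, hU, hw⟩ := (d.A2_num M S hS m).1 hm
    exact (d.w3_iff e1 e2 e3).1 ⟨m, hw⟩ ⟨M, S, hS, hU, h2⟩
  have F21 : ∀ (M : Type) (S : Str M), IsPA S → d.P2 M S → d.P1 M S := by
    intro M S hS h
    obtain ⟨m1, h1, -⟩ := (d.P2_iff M S hS).1 h
    exact (d.P1_iff M S hS).2 ⟨m1, h1⟩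
  have hlin : ∀ (M : Type) (S : Str M), IsPA S → ∀ x y : M, S.le x y ∨ S.lt y x := by
    intro M S hS x y
    obtain ⟨_, _, _, _, h0, h1, h2, h3, h4, h5, h6, h7⟩ := exists_alg hS
    rw [h5, h6]
    exact le_or_gt x y
  -- the first model
  obtain ⟨M0, S0, hS0, hT0, hv0⟩ := extend hj hS (.neg s0)
    (fun M S hS v w => not_congr ((hs0 M S hS v).trans (hs0 M S hS w).symm)) (by
      intro e1 e2 e3 hU
      by_contra hno
      have hw := (d.w2_iff e1 e2 e3).2 (by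
        rintro ⟨N, T, hT, hUT, hnP⟩
        exact hno ⟨N, T, hT, hUT, fun v hv => hnP ((hs0 N T hT v).1 hv)⟩)
      obtain ⟨m, hm⟩ := hw
      obtain ⟨ms, h1, h2, h3, h4⟩ : ∃ ms : ℕ, m ≤ ms ∧ e1 < ms ∧ e2 < ms ∧ e3 < ms :=
        ⟨m + e1 + e2 + e3 + 1, by omega, by omega, by omega, by omega⟩
      have hB : d.B M S (S.num ms) := (d.B_num M S hS ms).2
        ⟨e1, h2, e2, h3, e3, h4, hU, d.mono2 m ms _ h1 hm⟩
      have hP1 := F2 M S hS ms hB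
      obtain ⟨x, hx1, hx2⟩ := (d.P1_iff M S hS).1 hP1
      have hstd : ∀ x, (∀ m', S.le m' x → ¬ d.B M S m') → ∃ k : ℕ, x = S.num k := by
        intro x hx
        rcases hlin M S hS (S.num ms) x with h | h
        · exact (hx _ h hB).elim
        · obtain ⟨k, -, hk⟩ := (lt_num hS).1 h
          exact ⟨k, hk⟩
      obtain ⟨k, rfl⟩ := hstd x hx2
      have hP2 := F1 M S hS k hx1 hP1
      obtain ⟨m1, ⟨h5, h6⟩, m2, h7, h8⟩ := (d.P2_iff M S hS).1 hP2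
      obtain ⟨k1, rfl⟩ := hstd m1 h6
      obtain ⟨k2, -, rfl⟩ := (lt_num hS).1 h7
      exact F3 M S hS k2 h8 hP2)
  have hnP0 : ¬ d.P1 M0 S0 := fun h => hv0 (fun _ => S0.zero) ((hs0 M0 S0 hS0 _).2 h)
  -- the second model
  obtain ⟨M1, S1, hS1, hT1, hv1⟩ := extend (n := n' + 1) (by omega) hS0 (.and s0 (.neg s1))
    (fun M S hS v w => and_congr ((hs0 M S hS v).trans (hs0 M S hS w).symm)
      (not_congr ((hs1 M S hS v).trans (hs1 M S hS w).symm))) (by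
      intro e1 e2 e3 hU
      by_contra hno
      have hw := (d.w1_iff e1 e2 e3).2 (by
        rintro ⟨N, T, hT, hUT, hP1, hnP2⟩
        exact hno ⟨N, T, hT, hUT, fun v => ⟨(hs0 N T hT v).2 hP1,
          fun hv => hnP2 ((hs1 N T hT v).1 hv)⟩⟩)
      obtain ⟨m, hm⟩ := hw
      obtain ⟨ms, h1, h2, h3, h4⟩ : ∃ ms : ℕ, m ≤ ms ∧ e1 < ms ∧ e2 < ms ∧ e3 < ms :=
        ⟨m + e1 + e2 + e3 + 1, by omega, by omega, by omega, by omega⟩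
      have hA : d.A1 M0 S0 (S0.num ms) := (d.A1_num M0 S0 hS0 ms).2
        ⟨e1, h2, e2, h3, e3, h4, hU, d.mono1 m ms _ h1 hm⟩
      apply hnP0
      rw [d.P1_iff M0 S0 hS0]
      refine ⟨_, hA, fun m' hm' hB => ?_⟩
      obtain ⟨k, -, rfl⟩ := (le_num hS0).1 hm'
      exact hnP0 (F2 M0 S0 hS0 k hB))
  have hP1 : d.P1 M1 S1 := (hs0 M1 S1 hS1 _).1 (hv1 (fun _ => S1.zero)).1
  have hnP2 : ¬ d.P2 M1 S1 := fun h =>
    (hv1 (fun _ => S1.zero)).2 ((hs1 M1 S1 hS1 _).2 h)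
  -- the third model
  obtain ⟨M2, S2, hS2, hT2, hv2⟩ := extend (n := n' + 1) (by omega) hS1 s1
    (fun M S hS v w => (hs1 M S hS v).trans (hs1 M S hS w).symm) (by
      intro e1 e2 e3 hU
      by_contra hno
      have hw := (d.w3_iff e1 e2 e3).2 (by
        rintro ⟨N, T, hT, hUT, hP2⟩
        exact hno ⟨N, T, hT, hUT, fun v => (hs1 N T hT v).2 hP2⟩)
      obtain ⟨m, hm⟩ := hw
      obtain ⟨ms, h1, h2, h3, h4⟩ : ∃ ms : ℕ, m ≤ ms ∧ e1 < ms ∧ e2 < ms ∧ e3 < ms :=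
        ⟨m + e1 + e2 + e3 + 1, by omega, by omega, by omega, by omega⟩
      have hA : d.A2 M1 S1 (S1.num ms) := (d.A2_num M1 S1 hS1 ms).2
        ⟨e1, h2, e2, h3, e3, h4, hU, d.mono3 m ms _ h1 hm⟩
      obtain ⟨x, hx⟩ := (d.P1_iff M1 S1 hS1).1 hP1
      rcases hlin M1 S1 hS1 x (S1.num ms) with h | h
      · obtain ⟨k, -, rfl⟩ := (le_num hS1).1 h
        exact hnP2 (F1 M1 S1 hS1 k hx.1 hP1)
      · exact hnP2 ((d.P2_iff M1 S1 hS1).2 ⟨x, hx, _, h, hA⟩))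
  have hP2 : d.P2 M2 S2 := (hs1 M2 S2 hS2 _).1 (hv2 (fun _ => S2.zero))
  refine ⟨s0, s1, hs0b, hs0a, hs1b, hs1a, M0, S0, M1, S1, M2, S2, hS0, hS1, hS2, hT0, hT1, hT2,
    hv0, fun v => (hv1 v).1, fun v => (hv1 v).2, fun v => ?_, hv2⟩
  exact (hs0 M2 S2 hS2 v).2 (F21 M2 S2 hS2 hP2)

end Pool.Agent.Helper685.Sol
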