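import Pool.Agent.Helper685.Sol.HDefs

namespace Pool.Agent.Helper685.Sol


/-! helper lemmas -/

def h170R (P : (ℕ → Bool) → Prop) : Prop :=
  ∃ cl : ℕ → List (ℕ × Bool), Primrec cl ∧ ∀ H : ℕ → Bool, (P H ↔ ∀ i, ∃ p ∈ cl i, H p.1 = p.2)

theorem h170R_congr {P Q : (ℕ → Bool) → Prop} (h : ∀ H, P H ↔ Q H) (hP : h170R P) : h170R Q := by
  obtain ⟨cl, h1, h2⟩ := hP
  exact ⟨cl, h1, fun H => (h H).symm.trans (h2 H)⟩

theorem h170R_and {P Q : (ℕ → Bool) → Prop} (hP : h170R P) (hQ : h170R Q) : h170R (fun H => P H ∧ Q H) := by
  obtain ⟨cl, h1, h2⟩ := hP
  obtain ⟨cl', h1', h2'⟩ := hQ
  refine ⟨fun n => if n.unpair.1 = 0 then cl n.unpair.2 else cl' n.unpair.2, ?_, fun H => ?_⟩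
  · have hu1 : Primrec (fun n : ℕ => n.unpair.1) := Primrec.fst.comp Primrec.unpair
    have hu2 : Primrec (fun n : ℕ => n.unpair.2) := Primrec.snd.comp Primrec.unpair
    exact Primrec.ite (Primrec.eq.comp hu1 (Primrec.const 0)) (h1.comp hu2) (h1'.comp hu2)
  · show (P H ∧ Q H) ↔ _
    rw [h2 H, h2' H]
    constructor
    · rintro ⟨a, b⟩ i
      simp only
      by_cases h : i.unpair.1 = 0
      · rw [if_pos h]; exact a _
      · rw [if_neg h]; exact b _
    · intro h
      constructor
      · intro i
        have := h (Nat.pair 0 i)
        simp only [Nat.unpair_pair, if_true] at this
        exact this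
      · intro i
        have := h (Nat.pair 1 i)
        simp only [Nat.unpair_pair, one_ne_zero, if_false] at this
        exact this

def h170P0 (q : ℕ) : ℕ := q.unpair.1
def h170P1 (q : ℕ) : ℕ := q.unpair.2.unpair.1
def h170P2 (q : ℕ) : ℕ := q.unpair.2.unpair.2.unpair.1
def h170P3 (q : ℕ) : ℕ := q.unpair.2.unpair.2.unpair.2.unpair.1
def h170P4 (q : ℕ) : ℕ := q.unpair.2.unpair.2.unpair.2.unpair.2.unpair.1

theorem h170u1 : Primrec (fun n : ℕ => n.unpair.1) := Primrec.fst.comp Primrec.unpair
theorem h170u2 : Primrec (fun n : ℕ => n.unpair.2) := Primrec.snd.comp Primrec.unpair
theorem h170P0p : Primrec (fun q => h170P0 q) := h170u1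
theorem h170P1p : Primrec (fun q => h170P1 q) := h170u1.comp h170u2
theorem h170P2p : Primrec (fun q => h170P2 q) := h170u1.comp (h170u2.comp h170u2)
theorem h170P3p : Primrec (fun q => h170P3 q) := h170u1.comp (h170u2.comp (h170u2.comp h170u2))
theorem h170P4p : Primrec (fun q => h170P4 q) := h170u1.comp (h170u2.comp (h170u2.comp (h170u2.comp h170u2)))


theorem h170_f0 (G : List (ℕ × Bool)) (hG : Primrec (fun q : ℕ => G ))
    (φ : (ℕ → Bool) → Prop) (h : ∀ H , φ H  ↔ ∃ p ∈ G , H p.1 = p.2) :
    h170R (fun H => φ H ) := by
  refine ⟨fun q => G , hG, fun H => ?_⟩
  constructor
  · intro hh q
    exact (h H ).1 hh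
  · intro hh 
    have := hh 0
    
    exact (h H ).2 this


theorem h170_f1 (G : ℕ → List (ℕ × Bool)) (hG : Primrec (fun q : ℕ => G (h170P0 q)))
    (φ : (ℕ → Bool) → ℕ → Prop) (h : ∀ H a0, φ H a0 ↔ ∃ p ∈ G a0, H p.1 = p.2) :
    h170R (fun H => ∀ a0, φ H a0) := by
  refine ⟨fun q => G (h170P0 q), hG, fun H => ?_⟩
  constructor
  · intro hh q
    exact (h H _).1 (hh _)
  · intro hh a0
    have := hh (Nat.pair a0 0)
    simp only [h170P0, h170P1, h170P2, h170P3, h170P4, Nat.unpair_pair] at this
    exact (h H a0).2 this


theorem h170_f2 (G : ℕ → ℕ → List (ℕ × Bool)) (hG : Primrec (fun q : ℕ => G (h170P0 q) (h170P1 q)))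
    (φ : (ℕ → Bool) → ℕ → ℕ → Prop) (h : ∀ H a0 a1, φ H a0 a1 ↔ ∃ p ∈ G a0 a1, H p.1 = p.2) :
    h170R (fun H => ∀ a0 a1, φ H a0 a1) := by
  refine ⟨fun q => G (h170P0 q) (h170P1 q), hG, fun H => ?_⟩
  constructor
  · intro hh q
    exact (h H _ _).1 (hh _ _)
  · intro hh a0 a1
    have := hh (Nat.pair a0 (Nat.pair a1 0))
    simp only [h170P0, h170P1, h170P2, h170P3, h170P4, Nat.unpair_pair] at this
    exact (h H a0 a1).2 this


theorem h170_f3 (G : ℕ → ℕ → ℕ → List (ℕ × Bool)) (hG : Primrec (fun q : ℕ => G (h170P0 q) (h170P1 q) (h170P2 q)))
    (φ : (ℕ → Bool) → ℕ → ℕ → ℕ → Prop) (h : ∀ H a0 a1 a2, φ H a0 a1 a2 ↔ ∃ p ∈ G a0 a1 a2, H p.1 = p.2) :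
    h170R (fun H => ∀ a0 a1 a2, φ H a0 a1 a2) := by
  refine ⟨fun q => G (h170P0 q) (h170P1 q) (h170P2 q), hG, fun H => ?_⟩
  constructor
  · intro hh q
    exact (h H _ _ _).1 (hh _ _ _)
  · intro hh a0 a1 a2
    have := hh (Nat.pair a0 (Nat.pair a1 (Nat.pair a2 0)))
    simp only [h170P0, h170P1, h170P2, h170P3, h170P4, Nat.unpair_pair] at this
    exact (h H a0 a1 a2).2 this


theorem h170_f4 (G : ℕ → ℕ → ℕ → ℕ → List (ℕ × Bool)) (hG : Primrec (fun q : ℕ => G (h170P0 q) (h170P1 q) (h170P2 q) (h170P3 q)))
    (φ : (ℕ → Bool) → ℕ → ℕ → ℕ → ℕ → Prop) (h : ∀ H a0 a1 a2 a3, φ H a0 a1 a2 a3 ↔ ∃ p ∈ G a0 a1 a2 a3, H p.1 = p.2) :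
    h170R (fun H => ∀ a0 a1 a2 a3, φ H a0 a1 a2 a3) := by
  refine ⟨fun q => G (h170P0 q) (h170P1 q) (h170P2 q) (h170P3 q), hG, fun H => ?_⟩
  constructor
  · intro hh q
    exact (h H _ _ _ _).1 (hh _ _ _ _)
  · intro hh a0 a1 a2 a3
    have := hh (Nat.pair a0 (Nat.pair a1 (Nat.pair a2 (Nat.pair a3 0))))
    simp only [h170P0, h170P1, h170P2, h170P3, h170P4, Nat.unpair_pair] at this
    exact (h H a0 a1 a2 a3).2 this


theorem h170_f5 (G : ℕ → ℕ → ℕ → ℕ → ℕ → List (ℕ × Bool)) (hG : Primrec (fun q : ℕ => G (h170P0 q) (h170P1 q) (h170P2 q) (h170P3 q) (h170P4 q)))
    (φ : (ℕ → Bool) → ℕ → ℕ → ℕ → ℕ → ℕ → Prop) (h : ∀ H a0 a1 a2 a3 a4, φ H a0 a1 a2 a3 a4 ↔ ∃ p ∈ G a0 a1 a2 a3 a4, H p.1 = p.2) :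
    h170R (fun H => ∀ a0 a1 a2 a3 a4, φ H a0 a1 a2 a3 a4) := by
  refine ⟨fun q => G (h170P0 q) (h170P1 q) (h170P2 q) (h170P3 q) (h170P4 q), hG, fun H => ?_⟩
  constructor
  · intro hh q
    exact (h H _ _ _ _ _).1 (hh _ _ _ _ _)
  · intro hh a0 a1 a2 a3 a4
    have := hh (Nat.pair a0 (Nat.pair a1 (Nat.pair a2 (Nat.pair a3 (Nat.pair a4 0)))))
    simp only [h170P0, h170P1, h170P2, h170P3, h170P4, Nat.unpair_pair] at this
    exact (h H a0 a1 a2 a3 a4).2 this


theorem h170_pnil : Primrec (fun _ : ℕ => ([] : List (ℕ × Bool))) := Primrec.const _
theorem h170_pcons {f : ℕ → ℕ} {F : ℕ → List (ℕ × Bool)} {b : Bool} (hf : Primrec f) (hF : Primrec F) :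
    Primrec (fun q => (f q, b) :: F q) := Primrec.list_cons.comp (hf.pair (Primrec.const b)) hF
theorem h170_ppair {f g : ℕ → ℕ} (hf : Primrec f) (hg : Primrec g) : Primrec (fun q => Nat.pair (f q) (g q)) :=
  Primrec₂.natPair.comp hf hg
theorem h170_pm7 {f : ℕ → ℕ} (hf : Primrec f) : Primrec (fun q => 7 * f q) :=
  Primrec.nat_mul.comp (Primrec.const 7) hf
theorem h170_pad {f : ℕ → ℕ} (c : ℕ) (hf : Primrec f) : Primrec (fun q => f q + c) :=
  Primrec.nat_add.comp hf (Primrec.const c)
theorem h170_pEq {f g : ℕ → ℕ} (hf : Primrec f) (hg : Primrec g) : Primrec (fun q => cEq (f q) (g q)) :=
  h170_pm7 (h170_ppair hf hg)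
theorem h170_pZer {f : ℕ → ℕ} (hf : Primrec f) : Primrec (fun q => cZer (f q)) := h170_pad 1 (h170_pm7 hf)
theorem h170_pSuc {f g : ℕ → ℕ} (hf : Primrec f) (hg : Primrec g) : Primrec (fun q => cSuc (f q) (g q)) :=
  h170_pad 2 (h170_pm7 (h170_ppair hf hg))
theorem h170_pAdd {f g h : ℕ → ℕ} (hf : Primrec f) (hg : Primrec g) (hh : Primrec h) :
    Primrec (fun q => cAdd (f q) (g q) (h q)) := h170_pad 3 (h170_pm7 (h170_ppair hf (h170_ppair hg hh)))
theorem h170_pMul {f g h : ℕ → ℕ} (hf : Primrec f) (hg : Primrec g) (hh : Primrec h) :
    Primrec (fun q => cMul (f q) (g q) (h q)) := h170_pad 4 (h170_pm7 (h170_ppair hf (h170_ppair hg hh)))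
theorem h170_pNand {f g : ℕ → ℕ} (hf : Primrec f) (hg : Primrec g) : Primrec (fun q => cNand (f q) (g q)) :=
  h170_pad 5 (h170_pm7 (h170_ppair hf hg))
theorem h170_pEx {f : ℕ → ℕ} (hf : Primrec f) : Primrec (fun q => cEx (f q)) := h170_pad 6 (h170_pm7 hf)
theorem h170_pconsN {f g : ℕ → ℕ} (hf : Primrec f) (hg : Primrec g) : Primrec (fun q => consN (f q) (g q)) :=
  h170_pad 1 (h170_ppair hf hg)
theorem h170_pone {f : ℕ → ℕ} (hf : Primrec f) : Primrec (fun q => one (f q)) := h170_pconsN hf (Primrec.const 0)
theorem h170_ptwo {f g : ℕ → ℕ} (hf : Primrec f) (hg : Primrec g) : Primrec (fun q => two (f q) (g q)) :=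
  h170_pconsN hf (h170_pone hg)
theorem h170_pthree {f g h : ℕ → ℕ} (hf : Primrec f) (hg : Primrec g) (hh : Primrec h) :
    Primrec (fun q => three (f q) (g q) (h q)) := h170_pconsN hf (h170_ptwo hg hh)
theorem h170_pwit {f g h : ℕ → ℕ} (hf : Primrec f) (hg : Primrec g) (hh : Primrec h) :
    Primrec (fun q => wit (f q) (g q) (h q)) := h170_pad 1 (h170_ppair hf (h170_ppair hg hh))
theorem h170_patm {f g : ℕ → ℕ} (hf : Primrec f) (hg : Primrec g) : Primrec (fun q => atm (f q) (g q)) :=
  h170_ppair hf hg
theorem h170_paE {f g : ℕ → ℕ} (hf : Primrec f) (hg : Primrec g) : Primrec (fun q => aE (f q) (g q)) :=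
  h170_patm (Primrec.const _) (h170_ptwo hf hg)
theorem h170_paZ {f : ℕ → ℕ} (hf : Primrec f) : Primrec (fun q => aZ (f q)) :=
  h170_patm (Primrec.const _) (h170_pone hf)
theorem h170_paS {f g : ℕ → ℕ} (hf : Primrec f) (hg : Primrec g) : Primrec (fun q => aS (f q) (g q)) :=
  h170_patm (Primrec.const _) (h170_ptwo hf hg)
theorem h170_paA {f g h : ℕ → ℕ} (hf : Primrec f) (hg : Primrec g) (hh : Primrec h) :
    Primrec (fun q => aA (f q) (g q) (h q)) := h170_patm (Primrec.const _) (h170_pthree hf hg hh)
theorem h170_paM {f g h : ℕ → ℕ} (hf : Primrec f) (hg : Primrec g) (hh : Primrec h) :
    Primrec (fun q => aM (f q) (g q) (h q)) := h170_patm (Primrec.const _) (h170_pthree hf hg hh)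
theorem h170_ptl : Primrec tlN := h170u2.comp (Primrec.nat_sub.comp Primrec.id (Primrec.const 1))
theorem h170_phd : Primrec hdN := h170u1.comp (Primrec.nat_sub.comp Primrec.id (Primrec.const 1))
theorem h170_pnth {f g : ℕ → ℕ} (hf : Primrec f) (hg : Primrec g) : Primrec (fun q => nth (f q) (g q)) := by
  have h1 : Primrec₂ (fun (_ : ℕ) (x : ℕ) => tlN x) := h170_ptl.comp Primrec.snd
  have h2 : Primrec (fun q => (tlN^[g q]) (f q)) := Primrec.nat_iterate hg hf h1
  exact h170_phd.comp h2

theorem h170_eqA_1 : h170R (fun H => ∀ i j l, H (atm (cEq i j) l) = true → H (aE (nth l i) (nth l j)) = true) :=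
  h170_f3 (fun i j l => [(atm (cEq i j) l, false), (aE (nth l i) (nth l j), true)]) (by repeat (first | with_reducible exact h170P0p | with_reducible exact h170P1p | with_reducible exact h170P2p | with_reducible exact h170P3p | with_reducible exact h170P4p | with_reducible exact h170_pnil | with_reducible exact Primrec.const _ | with_reducible apply h170_pcons | with_reducible apply h170_paE | with_reducible apply h170_paZ | with_reducible apply h170_paS | with_reducible apply h170_paA | with_reducible apply h170_paM | with_reducible apply h170_patm | with_reducible apply h170_pnth | with_reducible apply h170_pconsN | with_reducible apply h170_pwit | with_reducible apply h170_pone | with_reducible apply h170_ptwo | with_reducible apply h170_pEq | with_reducible apply h170_pZer | with_reducible apply h170_pSuc | with_reducible apply h170_pAdd | with_reducible apply h170_pMul | with_reducible apply h170_pNand | with_reducible apply h170_pEx)) (fun H i j l => H (atm (cEq i j) l) = true → H (aE (nth l i) (nth l j)) = true) (by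
    intro H i j l
    simp only [List.mem_cons, List.not_mem_nil, or_false, exists_eq_or_imp, exists_eq_left, ← Bool.not_eq_true]
    try tauto)


theorem h170_eqA_2 : h170R (fun H => ∀ i j l, H (aE (nth l i) (nth l j)) = true → H (atm (cEq i j) l) = true) :=
  h170_f3 (fun i j l => [(aE (nth l i) (nth l j), false), (atm (cEq i j) l, true)]) (by repeat (first | with_reducible exact h170P0p | with_reducible exact h170P1p | with_reducible exact h170P2p | with_reducible exact h170P3p | with_reducible exact h170P4p | with_reducible exact h170_pnil | with_reducible exact Primrec.const _ | with_reducible apply h170_pcons | with_reducible apply h170_paE | with_reducible apply h170_paZ | with_reducible apply h170_paS | with_reducible apply h170_paA | with_reducible apply h170_paM | with_reducible apply h170_patm | with_reducible apply h170_pnth | with_reducible apply h170_pconsN | with_reducible apply h170_pwit | with_reducible apply h170_pone | with_reducible apply h170_ptwo | with_reducible apply h170_pEq | with_reducible apply h170_pZer | with_reducible apply h170_pSuc | with_reducible apply h170_pAdd | with_reducible apply h170_pMul | with_reducible apply h170_pNand | with_reducible apply h170_pEx))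 (fun H i j l => H (aE (nth l i) (nth l j)) = true → H (atm (cEq i j) l) = true) (by
    intro H i j l
    simp only [List.mem_cons, List.not_mem_nil, or_false, exists_eq_or_imp, exists_eq_left, ← Bool.not_eq_true]
    try tauto)


theorem h170_eqA : h170R (fun H => ∀ i j l, (H (atm (cEq i j) l) = true ↔ H (aE (nth l i) (nth l j)) = true)) :=
  h170R_congr (fun H => ⟨fun h i j l => ⟨h.1 i j l, h.2 i j l⟩, fun h => ⟨fun i j l => (h i j l).1, fun i j l => (h i j l).2⟩⟩)
    (h170R_and h170_eqA_1 h170_eqA_2)


theorem h170_zerA_1 : h170R (fun H => ∀ i l, H (atm (cZer i) l) = true → H (aZ (nth l i)) = true) :=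
  h170_f2 (fun i l => [(atm (cZer i) l, false), (aZ (nth l i), true)]) (by repeat (first | with_reducible exact h170P0p | with_reducible exact h170P1p | with_reducible exact h170P2p | with_reducible exact h170P3p | with_reducible exact h170P4p | with_reducible exact h170_pnil | with_reducible exact Primrec.const _ | with_reducible apply h170_pcons | with_reducible apply h170_paE | with_reducible apply h170_paZ | with_reducible apply h170_paS | with_reducible apply h170_paA | with_reducible apply h170_paM | with_reducible apply h170_patm | with_reducible apply h170_pnth | with_reducible apply h170_pconsN | with_reducible apply h170_pwit | with_reducible apply h170_pone | with_reducible apply h170_ptwo | with_reducible apply h170_pEq | with_reducible apply h170_pZer | with_reducible apply h170_pSuc | with_reducible apply h170_pAdd | with_reducible apply h170_pMul | with_reducible apply h170_pNand | with_reducible apply h170_pEx)) (fun H i l => H (atm (cZer i) l) = true → H (aZ (nth l i)) = true) (by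
    intro H i l
    simp only [List.mem_cons, List.not_mem_nil, or_false, exists_eq_or_imp, exists_eq_left, ← Bool.not_eq_true]
    try tauto)


theorem h170_zerA_2 : h170R (fun H => ∀ i l, H (aZ (nth l i)) = true → H (atm (cZer i) l) = true) :=
  h170_f2 (fun i l => [(aZ (nth l i), false), (atm (cZer i) l, true)]) (by repeat (first | with_reducible exact h170P0p | with_reducible exact h170P1p | with_reducible exact h170P2p | with_reducible exact h170P3p | with_reducible exact h170P4p | with_reducible exact h170_pnil | with_reducible exact Primrec.const _ | with_reducible apply h170_pcons | with_reducible apply h170_paE | with_reducible apply h170_paZ | with_reducible apply h170_paS | with_reducible apply h170_paA | with_reducible apply h170_paM | with_reducible apply h170_patm | with_reducible apply h170_pnth | with_reducible apply h170_pconsN | with_reducible apply h170_pwit | with_reducible apply h170_pone | with_reducible apply h170_ptwo | with_reducible apply h170_pEq | with_reducible apply h170_pZer | with_reducible apply h170_pSuc | with_reducible apply h170_pAdd | with_reducible apply h170_pMul | with_reducible apply h170_pNand | with_reducible apply h170_pEx)) (fun H i l => H (aZ (nth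 l i)) = true → H (atm (cZer i) l) = true) (by
    intro H i l
    simp only [List.mem_cons, List.not_mem_nil, or_false, exists_eq_or_imp, exists_eq_left, ← Bool.not_eq_true]
    try tauto)


theorem h170_zerA : h170R (fun H => ∀ i l, (H (atm (cZer i) l) = true ↔ H (aZ (nth l i)) = true)) :=
  h170R_congr (fun H => ⟨fun h i l => ⟨h.1 i l, h.2 i l⟩, fun h => ⟨fun i l => (h i l).1, fun i l => (h i l).2⟩⟩)
    (h170R_and h170_zerA_1 h170_zerA_2)


theorem h170_sucA_1 : h170R (fun H => ∀ i j l, H (atm (cSuc i j) l) = true → H (aS (nth l i) (nth l j)) = true) :=
  h170_f3 (fun i j l => [(atm (cSuc i j) l, false), (aS (nth l i) (nth l j), true)]) (by repeat (first | with_reducible exact h170P0p | with_reducible exact h170P1p | with_reducible exact h170P2p | with_reducible exact h170P3p | with_reducible exact h170P4p | with_reducible exact h170_pnil | with_reducible exact Primrec.const _ | with_reducible apply h170_pcons | with_reducible apply h170_paE | with_reducible apply h170_paZ | with_reducible apply h170_paS | with_reducible apply h170_paA | with_reducible apply h170_paM | with_reducible apply h170_patm | with_reducible apply h170_pnth | with_reducible apply h170_pconsN | with_reducible apply h170_pwit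 | with_reducible apply h170_pone | with_reducible apply h170_ptwo | with_reducible apply h170_pEq | with_reducible apply h170_pZer | with_reducible apply h170_pSuc | with_reducible apply h170_pAdd | with_reducible apply h170_pMul | with_reducible apply h170_pNand | with_reducible apply h170_pEx)) (fun H i j l => H (atm (cSuc i j) l) = true → H (aS (nth l i) (nth l j)) = true) (by
    intro H i j l
    simp only [List.mem_cons, List.not_mem_nil, or_false, exists_eq_or_imp, exists_eq_left, ← Bool.not_eq_true]
    try tauto)


theorem h170_sucA_2 : h170R (fun H => ∀ i j l, H (aS (nth l i) (nth l j)) = true → H (atm (cSuc i j) l) = true) :=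
  h170_f3 (fun i j l => [(aS (nth l i) (nth l j), false), (atm (cSuc i j) l, true)]) (by repeat (first | with_reducible exact h170P0p | with_reducible exact h170P1p | with_reducible exact h170P2p | with_reducible exact h170P3p | with_reducible exact h170P4p | with_reducible exact h170_pnil | with_reducible exact Primrec.const _ | with_reducible apply h170_pcons | with_reducible apply h170_paE | with_reducible apply h170_paZ | with_reducible apply h170_paS | with_reducible apply h170_paA | with_reducible apply h170_paM | with_reducible apply h170_patm | with_reducible apply h170_pnth | with_reducible apply h170_pconsN | with_reducible apply h170_pwit | with_reducible apply h170_pone | with_reducible apply h170_ptwo | with_reducible apply h170_pEq | with_reducible apply h170_pZer | with_reducible apply h170_pSuc | with_reducible apply h170_pAdd | with_reducible apply h170_pMul | with_reducible apply h170_pNand | with_reducible apply h170_pEx)) (fun H i j l => H (aS (nth l i) (nth l j)) = true → H (atm (cSuc i j) l) = true) (by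
    intro H i j l
    simp only [List.mem_cons, List.not_mem_nil, or_false, exists_eq_or_imp, exists_eq_left, ← Bool.not_eq_true]
    try tauto)


theorem h170_sucA : h170R (fun H => ∀ i j l, (H (atm (cSuc i j) l) = true ↔ H (aS (nth l i) (nth l j)) = true)) :=
  h170R_congr (fun H => ⟨fun h i j l => ⟨h.1 i j l, h.2 i j l⟩, fun h => ⟨fun i j l => (h i j l).1, fun i j l => (h i j l).2⟩⟩)
    (h170R_and h170_sucA_1 h170_sucA_2)


theorem h170_addA_1 : h170R (fun H => ∀ i j k l, H (atm (cAdd i j k) l) = true → H (aA (nth l i) (nth l j) (nth l k)) = true) :=
  h170_f4 (fun i j k l => [(atm (cAdd i j k) l, false), (aA (nth l i) (nth l j) (nth l k), true)]) (by repeat (first | with_reducible exact h170P0p | with_reducible exact h170P1p | with_reducible exact h170P2p | with_reducible exact h170P3p | with_reducible exact h170P4p | with_reducible exact h170_pnil | with_reducible exact Primrec.const _ | with_reducible apply h170_pcons | with_reducible apply h170_paE | with_reducible apply h170_paZ | with_reducible apply h170_paS | with_reducible apply h170_paA | with_reducible apply h170_paM | with_reducible apply h170_patm | with_reducible apply h170_pnth | with_reducible apply h170_pconsN | with_reducible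 apply h170_pwit | with_reducible apply h170_pone | with_reducible apply h170_ptwo | with_reducible apply h170_pEq | with_reducible apply h170_pZer | with_reducible apply h170_pSuc | with_reducible apply h170_pAdd | with_reducible apply h170_pMul | with_reducible apply h170_pNand | with_reducible apply h170_pEx)) (fun H i j k l => H (atm (cAdd i j k) l) = true → H (aA (nth l i) (nth l j) (nth l k)) = true) (by
    intro H i j k l
    simp only [List.mem_cons, List.not_mem_nil, or_false, exists_eq_or_imp, exists_eq_left, ← Bool.not_eq_true]
    try tauto)


theorem h170_addA_2 : h170R (fun H => ∀ i j k l, H (aA (nth l i) (nth l j) (nth l k)) = true → H (atm (cAdd i j k) l) = true) :=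
  h170_f4 (fun i j k l => [(aA (nth l i) (nth l j) (nth l k), false), (atm (cAdd i j k) l, true)]) (by repeat (first | with_reducible exact h170P0p | with_reducible exact h170P1p | with_reducible exact h170P2p | with_reducible exact h170P3p | with_reducible exact h170P4p | with_reducible exact h170_pnil | with_reducible exact Primrec.const _ | with_reducible apply h170_pcons | with_reducible apply h170_paE | with_reducible apply h170_paZ | with_reducible apply h170_paS | with_reducible apply h170_paA | with_reducible apply h170_paM | with_reducible apply h170_patm | with_reducible apply h170_pnth | with_reducible apply h170_pconsN | with_reducible apply h170_pwit | with_reducible apply h170_pone | with_reducible apply h170_ptwo | with_reducible apply h170_pEq | with_reducible apply h170_pZer | with_reducible apply h170_pSuc | with_reducible apply h170_pAdd | with_reducible apply h170_pMul | with_reducible apply h170_pNand | with_reducible apply h170_pEx)) (fun H i j k l => H (aA (nth l i) (nth l j) (nth l k)) = true → H (atm (cAdd i j k) l) = true) (by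
    intro H i j k l
    simp only [List.mem_cons, List.not_mem_nil, or_false, exists_eq_or_imp, exists_eq_left, ← Bool.not_eq_true]
    try tauto)


theorem h170_addA : h170R (fun H => ∀ i j k l, (H (atm (cAdd i j k) l) = true ↔ H (aA (nth l i) (nth l j) (nth l k)) = true)) :=
  h170R_congr (fun H => ⟨fun h i j k l => ⟨h.1 i j k l, h.2 i j k l⟩, fun h => ⟨fun i j k l => (h i j k l).1, fun i j k l => (h i j k l).2⟩⟩)
    (h170R_and h170_addA_1 h170_addA_2)


theorem h170_mulA_1 : h170R (fun H => ∀ i j k l, H (atm (cMul i j k) l) = true → H (aM (nth l i) (nth l j) (nth l k)) = true) :=
  h170_f4 (fun i j k l => [(atm (cMul i j k) l, false), (aM (nth l i) (nth l j) (nth l k), true)]) (by repeat (first | with_reducible exact h170P0p | with_reducible exact h170P1p | with_reducible exact h170P2p | with_reducible exact h170P3p | with_reducible exact h170P4p | with_reducible exact h170_pnil | with_reducible exact Primrec.const _ | with_reducible apply h170_pcons | with_reducible apply h170_paE | with_reducible apply h170_paZ | with_reducible apply h170_paS | with_reducible apply h170_paA | with_reducible apply h170_paM | with_reducible apply h170_patm | with_reducible apply h170_pnth | with_reducible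 apply h170_pconsN | with_reducible apply h170_pwit | with_reducible apply h170_pone | with_reducible apply h170_ptwo | with_reducible apply h170_pEq | with_reducible apply h170_pZer | with_reducible apply h170_pSuc | with_reducible apply h170_pAdd | with_reducible apply h170_pMul | with_reducible apply h170_pNand | with_reducible apply h170_pEx)) (fun H i j k l => H (atm (cMul i j k) l) = true → H (aM (nth l i) (nth l j) (nth l k)) = true) (by
    intro H i j k l
    simp only [List.mem_cons, List.not_mem_nil, or_false, exists_eq_or_imp, exists_eq_left, ← Bool.not_eq_true]
    try tauto)


theorem h170_mulA_2 : h170R (fun H => ∀ i j k l, H (aM (nth l i) (nth l j) (nth l k)) = true → H (atm (cMul i j k) l) = true) :=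
  h170_f4 (fun i j k l => [(aM (nth l i) (nth l j) (nth l k), false), (atm (cMul i j k) l, true)]) (by repeat (first | with_reducible exact h170P0p | with_reducible exact h170P1p | with_reducible exact h170P2p | with_reducible exact h170P3p | with_reducible exact h170P4p | with_reducible exact h170_pnil | with_reducible exact Primrec.const _ | with_reducible apply h170_pcons | with_reducible apply h170_paE | with_reducible apply h170_paZ | with_reducible apply h170_paS | with_reducible apply h170_paA | with_reducible apply h170_paM | with_reducible apply h170_patm | with_reducible apply h170_pnth | with_reducible apply h170_pconsN | with_reducible apply h170_pwit | with_reducible apply h170_pone | with_reducible apply h170_ptwo | with_reducible apply h170_pEq | with_reducible apply h170_pZer | with_reducible apply h170_pSuc | with_reducible apply h170_pAdd | with_reducible apply h170_pMul | with_reducible apply h170_pNand | with_reducible apply h170_pEx)) (fun H i j k l => H (aM (nth l i) (nth l j) (nth l k)) = true → H (atm (cMul i j k) l) = true) (by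
    intro H i j k l
    simp only [List.mem_cons, List.not_mem_nil, or_false, exists_eq_or_imp, exists_eq_left, ← Bool.not_eq_true]
    try tauto)


theorem h170_mulA : h170R (fun H => ∀ i j k l, (H (atm (cMul i j k) l) = true ↔ H (aM (nth l i) (nth l j) (nth l k)) = true)) :=
  h170R_congr (fun H => ⟨fun h i j k l => ⟨h.1 i j k l, h.2 i j k l⟩, fun h => ⟨fun i j k l => (h i j k l).1, fun i j k l => (h i j k l).2⟩⟩)
    (h170R_and h170_mulA_1 h170_mulA_2)


theorem h170_refl : h170R (fun H => ∀ a, H (aE a a) = true) :=
  h170_f1 (fun a => [(aE a a, true)]) (by repeat (first | with_reducible exact h170P0p | with_reducible exact h170P1p | with_reducible exact h170P2p | with_reducible exact h170P3p | with_reducible exact h170P4p | with_reducible exact h170_pnil | with_reducible exact Primrec.const _ | with_reducible apply h170_pcons | with_reducible apply h170_paE | with_reducible apply h170_paZ | with_reducible apply h170_paS | with_reducible apply h170_paA | with_reducible apply h170_paM | with_reducible apply h170_patm | with_reducible apply h170_pnth | with_reducible apply h170_pconsN | with_reducible apply h170_pwit | with_reducible apply h170_pone | with_reducible apply h170_ptwo | with_reducible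 apply h170_pEq | with_reducible apply h170_pZer | with_reducible apply h170_pSuc | with_reducible apply h170_pAdd | with_reducible apply h170_pMul | with_reducible apply h170_pNand | with_reducible apply h170_pEx)) (fun H a => H (aE a a) = true) (by
    intro H a
    simp only [List.mem_cons, List.not_mem_nil, or_false, exists_eq_or_imp, exists_eq_left, ← Bool.not_eq_true]
    try tauto)


theorem h170_symm : h170R (fun H => ∀ a b, H (aE a b) = true → H (aE b a) = true) :=
  h170_f2 (fun a b => [(aE a b, false), (aE b a, true)]) (by repeat (first | with_reducible exact h170P0p | with_reducible exact h170P1p | with_reducible exact h170P2p | with_reducible exact h170P3p | with_reducible exact h170P4p | with_reducible exact h170_pnil | with_reducible exact Primrec.const _ | with_reducible apply h170_pcons | with_reducible apply h170_paE | with_reducible apply h170_paZ | with_reducible apply h170_paS | with_reducible apply h170_paA | with_reducible apply h170_paM | with_reducible apply h170_patm | with_reducible apply h170_pnth | with_reducible apply h170_pconsN | with_reducible apply h170_pwit | with_reducible apply h170_pone | with_reducible apply h170_ptwo | with_reducible apply h170_pEq | with_reducible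 apply h170_pZer | with_reducible apply h170_pSuc | with_reducible apply h170_pAdd | with_reducible apply h170_pMul | with_reducible apply h170_pNand | with_reducible apply h170_pEx)) (fun H a b => H (aE a b) = true → H (aE b a) = true) (by
    intro H a b
    simp only [List.mem_cons, List.not_mem_nil, or_false, exists_eq_or_imp, exists_eq_left, ← Bool.not_eq_true]
    try tauto)


theorem h170_trans : h170R (fun H => ∀ a b c, H (aE a b) = true → H (aE b c) = true → H (aE a c) = true) :=
  h170_f3 (fun a b c => [(aE a b, false), (aE b c, false), (aE a c, true)]) (by repeat (first | with_reducible exact h170P0p | with_reducible exact h170P1p | with_reducible exact h170P2p | with_reducible exact h170P3p | with_reducible exact h170P4p | with_reducible exact h170_pnil | with_reducible exact Primrec.const _ | with_reducible apply h170_pcons | with_reducible apply h170_paE | with_reducible apply h170_paZ | with_reducible apply h170_paS | with_reducible apply h170_paA | with_reducible apply h170_paM | with_reducible apply h170_patm | with_reducible apply h170_pnth | with_reducible apply h170_pconsN | with_reducible apply h170_pwit | with_reducible apply h170_pone | with_reducible apply h170_ptwo | with_reducible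 apply h170_pEq | with_reducible apply h170_pZer | with_reducible apply h170_pSuc | with_reducible apply h170_pAdd | with_reducible apply h170_pMul | with_reducible apply h170_pNand | with_reducible apply h170_pEx)) (fun H a b c => H (aE a b) = true → H (aE b c) = true → H (aE a c) = true) (by
    intro H a b c
    simp only [List.mem_cons, List.not_mem_nil, or_false, exists_eq_or_imp, exists_eq_left, ← Bool.not_eq_true]
    try tauto)


theorem h170_cZ : h170R (fun H => ∀ a a', H (aE a a') = true → H (aZ a) = true → H (aZ a') = true) :=
  h170_f2 (fun a a' => [(aE a a', false), (aZ a, false), (aZ a', true)]) (by repeat (first | with_reducible exact h170P0p | with_reducible exact h170P1p | with_reducible exact h170P2p | with_reducible exact h170P3p | with_reducible exact h170P4p | with_reducible exact h170_pnil | with_reducible exact Primrec.const _ | with_reducible apply h170_pcons | with_reducible apply h170_paE | with_reducible apply h170_paZ | with_reducible apply h170_paS | with_reducible apply h170_paA | with_reducible apply h170_paM | with_reducible apply h170_patm | with_reducible apply h170_pnth | with_reducible apply h170_pconsN | with_reducible apply h170_pwit | with_reducible apply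 h170_pone | with_reducible apply h170_ptwo | with_reducible apply h170_pEq | with_reducible apply h170_pZer | with_reducible apply h170_pSuc | with_reducible apply h170_pAdd | with_reducible apply h170_pMul | with_reducible apply h170_pNand | with_reducible apply h170_pEx)) (fun H a a' => H (aE a a') = true → H (aZ a) = true → H (aZ a') = true) (by
    intro H a a'
    simp only [List.mem_cons, List.not_mem_nil, or_false, exists_eq_or_imp, exists_eq_left, ← Bool.not_eq_true]
    try tauto)


theorem h170_cS1 : h170R (fun H => ∀ a a' b, H (aE a a') = true → H (aS a b) = true → H (aS a' b) = true) :=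
  h170_f3 (fun a a' b => [(aE a a', false), (aS a b, false), (aS a' b, true)]) (by repeat (first | with_reducible exact h170P0p | with_reducible exact h170P1p | with_reducible exact h170P2p | with_reducible exact h170P3p | with_reducible exact h170P4p | with_reducible exact h170_pnil | with_reducible exact Primrec.const _ | with_reducible apply h170_pcons | with_reducible apply h170_paE | with_reducible apply h170_paZ | with_reducible apply h170_paS | with_reducible apply h170_paA | with_reducible apply h170_paM | with_reducible apply h170_patm | with_reducible apply h170_pnth | with_reducible apply h170_pconsN | with_reducible apply h170_pwit | with_reducible apply h170_pone | with_reducible apply h170_ptwo | with_reducible apply h170_pEq | with_reducible apply h170_pZer | with_reducible apply h170_pSuc | with_reducible apply h170_pAdd | with_reducible apply h170_pMul | with_reducible apply h170_pNand | with_reducible apply h170_pEx)) (fun H a a' b => H (aE a a') = true → H (aS a b) = true → H (aS a' b) = true) (by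
    intro H a a' b
    simp only [List.mem_cons, List.not_mem_nil, or_false, exists_eq_or_imp, exists_eq_left, ← Bool.not_eq_true]
    try tauto)


theorem h170_cS2 : h170R (fun H => ∀ a b b', H (aE b b') = true → H (aS a b) = true → H (aS a b') = true) :=
  h170_f3 (fun a b b' => [(aE b b', false), (aS a b, false), (aS a b', true)]) (by repeat (first | with_reducible exact h170P0p | with_reducible exact h170P1p | with_reducible exact h170P2p | with_reducible exact h170P3p | with_reducible exact h170P4p | with_reducible exact h170_pnil | with_reducible exact Primrec.const _ | with_reducible apply h170_pcons | with_reducible apply h170_paE | with_reducible apply h170_paZ | with_reducible apply h170_paS | with_reducible apply h170_paA | with_reducible apply h170_paM | with_reducible apply h170_patm | with_reducible apply h170_pnth | with_reducible apply h170_pconsN | with_reducible apply h170_pwit | with_reducible apply h170_pone | with_reducible apply h170_ptwo | with_reducible apply h170_pEq | with_reducible apply h170_pZer | with_reducible apply h170_pSuc | with_reducible apply h170_pAdd | with_reducible apply h170_pMul | with_reducible apply h170_pNand | with_reducible apply h170_pEx)) (fun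 H a b b' => H (aE b b') = true → H (aS a b) = true → H (aS a b') = true) (by
    intro H a b b'
    simp only [List.mem_cons, List.not_mem_nil, or_false, exists_eq_or_imp, exists_eq_left, ← Bool.not_eq_true]
    try tauto)


theorem h170_cA1 : h170R (fun H => ∀ a a' b c, H (aE a a') = true → H (aA a b c) = true → H (aA a' b c) = true) :=
  h170_f4 (fun a a' b c => [(aE a a', false), (aA a b c, false), (aA a' b c, true)]) (by repeat (first | with_reducible exact h170P0p | with_reducible exact h170P1p | with_reducible exact h170P2p | with_reducible exact h170P3p | with_reducible exact h170P4p | with_reducible exact h170_pnil | with_reducible exact Primrec.const _ | with_reducible apply h170_pcons | with_reducible apply h170_paE | with_reducible apply h170_paZ | with_reducible apply h170_paS | with_reducible apply h170_paA | with_reducible apply h170_paM | with_reducible apply h170_patm | with_reducible apply h170_pnth | with_reducible apply h170_pconsN | with_reducible apply h170_pwit | with_reducible apply h170_pone | with_reducible apply h170_ptwo | with_reducible apply h170_pEq | with_reducible apply h170_pZer | with_reducible apply h170_pSuc | with_reducible apply h170_pAdd | with_reducible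 apply h170_pMul | with_reducible apply h170_pNand | with_reducible apply h170_pEx)) (fun H a a' b c => H (aE a a') = true → H (aA a b c) = true → H (aA a' b c) = true) (by
    intro H a a' b c
    simp only [List.mem_cons, List.not_mem_nil, or_false, exists_eq_or_imp, exists_eq_left, ← Bool.not_eq_true]
    try tauto)


theorem h170_cA2 : h170R (fun H => ∀ a b b' c, H (aE b b') = true → H (aA a b c) = true → H (aA a b' c) = true) :=
  h170_f4 (fun a b b' c => [(aE b b', false), (aA a b c, false), (aA a b' c, true)]) (by repeat (first | with_reducible exact h170P0p | with_reducible exact h170P1p | with_reducible exact h170P2p | with_reducible exact h170P3p | with_reducible exact h170P4p | with_reducible exact h170_pnil | with_reducible exact Primrec.const _ | with_reducible apply h170_pcons | with_reducible apply h170_paE | with_reducible apply h170_paZ | with_reducible apply h170_paS | with_reducible apply h170_paA | with_reducible apply h170_paM | with_reducible apply h170_patm | with_reducible apply h170_pnth | with_reducible apply h170_pconsN | with_reducible apply h170_pwit | with_reducible apply h170_pone | with_reducible apply h170_ptwo | with_reducible apply h170_pEq | with_reducible apply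 h170_pZer | with_reducible apply h170_pSuc | with_reducible apply h170_pAdd | with_reducible apply h170_pMul | with_reducible apply h170_pNand | with_reducible apply h170_pEx)) (fun H a b b' c => H (aE b b') = true → H (aA a b c) = true → H (aA a b' c) = true) (by
    intro H a b b' c
    simp only [List.mem_cons, List.not_mem_nil, or_false, exists_eq_or_imp, exists_eq_left, ← Bool.not_eq_true]
    try tauto)


theorem h170_cA3 : h170R (fun H => ∀ a b c c', H (aE c c') = true → H (aA a b c) = true → H (aA a b c') = true) :=
  h170_f4 (fun a b c c' => [(aE c c', false), (aA a b c, false), (aA a b c', true)]) (by repeat (first | with_reducible exact h170P0p | with_reducible exact h170P1p | with_reducible exact h170P2p | with_reducible exact h170P3p | with_reducible exact h170P4p | with_reducible exact h170_pnil | with_reducible exact Primrec.const _ | with_reducible apply h170_pcons | with_reducible apply h170_paE | with_reducible apply h170_paZ | with_reducible apply h170_paS | with_reducible apply h170_paA | with_reducible apply h170_paM | with_reducible apply h170_patm | with_reducible apply h170_pnth | with_reducible apply h170_pconsN | with_reducible apply h170_pwit | with_reducible apply h170_pone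 | with_reducible apply h170_ptwo | with_reducible apply h170_pEq | with_reducible apply h170_pZer | with_reducible apply h170_pSuc | with_reducible apply h170_pAdd | with_reducible apply h170_pMul | with_reducible apply h170_pNand | with_reducible apply h170_pEx)) (fun H a b c c' => H (aE c c') = true → H (aA a b c) = true → H (aA a b c') = true) (by
    intro H a b c c'
    simp only [List.mem_cons, List.not_mem_nil, or_false, exists_eq_or_imp, exists_eq_left, ← Bool.not_eq_true]
    try tauto)


theorem h170_cM1 : h170R (fun H => ∀ a a' b c, H (aE a a') = true → H (aM a b c) = true → H (aM a' b c) = true) :=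
  h170_f4 (fun a a' b c => [(aE a a', false), (aM a b c, false), (aM a' b c, true)]) (by repeat (first | with_reducible exact h170P0p | with_reducible exact h170P1p | with_reducible exact h170P2p | with_reducible exact h170P3p | with_reducible exact h170P4p | with_reducible exact h170_pnil | with_reducible exact Primrec.const _ | with_reducible apply h170_pcons | with_reducible apply h170_paE | with_reducible apply h170_paZ | with_reducible apply h170_paS | with_reducible apply h170_paA | with_reducible apply h170_paM | with_reducible apply h170_patm | with_reducible apply h170_pnth | with_reducible apply h170_pconsN | with_reducible apply h170_pwit | with_reducible apply h170_pone | with_reducible apply h170_ptwo | with_reducible apply h170_pEq | with_reducible apply h170_pZer | with_reducible apply h170_pSuc | with_reducible apply h170_pAdd | with_reducible apply h170_pMul | with_reducible apply h170_pNand | with_reducible apply h170_pEx)) (fun H a a' b c => H (aE a a') = true → H (aM a b c) = true → H (aM a' b c) = true) (by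
    intro H a a' b c
    simp only [List.mem_cons, List.not_mem_nil, or_false, exists_eq_or_imp, exists_eq_left, ← Bool.not_eq_true]
    try tauto)


theorem h170_cM2 : h170R (fun H => ∀ a b b' c, H (aE b b') = true → H (aM a b c) = true → H (aM a b' c) = true) :=
  h170_f4 (fun a b b' c => [(aE b b', false), (aM a b c, false), (aM a b' c, true)]) (by repeat (first | with_reducible exact h170P0p | with_reducible exact h170P1p | with_reducible exact h170P2p | with_reducible exact h170P3p | with_reducible exact h170P4p | with_reducible exact h170_pnil | with_reducible exact Primrec.const _ | with_reducible apply h170_pcons | with_reducible apply h170_paE | with_reducible apply h170_paZ | with_reducible apply h170_paS | with_reducible apply h170_paA | with_reducible apply h170_paM | with_reducible apply h170_patm | with_reducible apply h170_pnth | with_reducible apply h170_pconsN | with_reducible apply h170_pwit | with_reducible apply h170_pone | with_reducible apply h170_ptwo | with_reducible apply h170_pEq | with_reducible apply h170_pZer | with_reducible apply h170_pSuc | with_reducible apply h170_pAdd | with_reducible apply h170_pMul | with_reducible apply h170_pNand | with_reducible apply h170_pEx))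 (fun H a b b' c => H (aE b b') = true → H (aM a b c) = true → H (aM a b' c) = true) (by
    intro H a b b' c
    simp only [List.mem_cons, List.not_mem_nil, or_false, exists_eq_or_imp, exists_eq_left, ← Bool.not_eq_true]
    try tauto)


theorem h170_cM3 : h170R (fun H => ∀ a b c c', H (aE c c') = true → H (aM a b c) = true → H (aM a b c') = true) :=
  h170_f4 (fun a b c c' => [(aE c c', false), (aM a b c, false), (aM a b c', true)]) (by repeat (first | with_reducible exact h170P0p | with_reducible exact h170P1p | with_reducible exact h170P2p | with_reducible exact h170P3p | with_reducible exact h170P4p | with_reducible exact h170_pnil | with_reducible exact Primrec.const _ | with_reducible apply h170_pcons | with_reducible apply h170_paE | with_reducible apply h170_paZ | with_reducible apply h170_paS | with_reducible apply h170_paA | with_reducible apply h170_paM | with_reducible apply h170_patm | with_reducible apply h170_pnth | with_reducible apply h170_pconsN | with_reducible apply h170_pwit | with_reducible apply h170_pone | with_reducible apply h170_ptwo | with_reducible apply h170_pEq | with_reducible apply h170_pZer | with_reducible apply h170_pSuc | with_reducible apply h170_pAdd | with_reducible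 apply h170_pMul | with_reducible apply h170_pNand | with_reducible apply h170_pEx)) (fun H a b c c' => H (aE c c') = true → H (aM a b c) = true → H (aM a b c') = true) (by
    intro H a b c c'
    simp only [List.mem_cons, List.not_mem_nil, or_false, exists_eq_or_imp, exists_eq_left, ← Bool.not_eq_true]
    try tauto)


theorem h170_nand1 : h170R (fun H => ∀ f g l, H (atm (cNand f g) l) = true → H (atm f l) = true → ¬ H (atm g l) = true) :=
  h170_f3 (fun f g l => [(atm (cNand f g) l, false), (atm f l, false), (atm g l, false)]) (by repeat (first | with_reducible exact h170P0p | with_reducible exact h170P1p | with_reducible exact h170P2p | with_reducible exact h170P3p | with_reducible exact h170P4p | with_reducible exact h170_pnil | with_reducible exact Primrec.const _ | with_reducible apply h170_pcons | with_reducible apply h170_paE | with_reducible apply h170_paZ | with_reducible apply h170_paS | with_reducible apply h170_paA | with_reducible apply h170_paM | with_reducible apply h170_patm | with_reducible apply h170_pnth | with_reducible apply h170_pconsN | with_reducible apply h170_pwit | with_reducible apply h170_pone | with_reducible apply h170_ptwo | with_reducible apply h170_pEq | with_reducible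 apply h170_pZer | with_reducible apply h170_pSuc | with_reducible apply h170_pAdd | with_reducible apply h170_pMul | with_reducible apply h170_pNand | with_reducible apply h170_pEx)) (fun H f g l => H (atm (cNand f g) l) = true → H (atm f l) = true → ¬ H (atm g l) = true) (by
    intro H f g l
    simp only [List.mem_cons, List.not_mem_nil, or_false, exists_eq_or_imp, exists_eq_left, ← Bool.not_eq_true]
    try tauto)


theorem h170_nand2 : h170R (fun H => ∀ f g l, H (atm (cNand f g) l) = true ∨ H (atm f l) = true) :=
  h170_f3 (fun f g l => [(atm (cNand f g) l, true), (atm f l, true)]) (by repeat (first | with_reducible exact h170P0p | with_reducible exact h170P1p | with_reducible exact h170P2p | with_reducible exact h170P3p | with_reducible exact h170P4p | with_reducible exact h170_pnil | with_reducible exact Primrec.const _ | with_reducible apply h170_pcons | with_reducible apply h170_paE | with_reducible apply h170_paZ | with_reducible apply h170_paS | with_reducible apply h170_paA | with_reducible apply h170_paM | with_reducible apply h170_patm | with_reducible apply h170_pnth | with_reducible apply h170_pconsN | with_reducible apply h170_pwit | with_reducible apply h170_pone | with_reducible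 apply h170_ptwo | with_reducible apply h170_pEq | with_reducible apply h170_pZer | with_reducible apply h170_pSuc | with_reducible apply h170_pAdd | with_reducible apply h170_pMul | with_reducible apply h170_pNand | with_reducible apply h170_pEx)) (fun H f g l => H (atm (cNand f g) l) = true ∨ H (atm f l) = true) (by
    intro H f g l
    simp only [List.mem_cons, List.not_mem_nil, or_false, exists_eq_or_imp, exists_eq_left, ← Bool.not_eq_true]
    try tauto)


theorem h170_nand3 : h170R (fun H => ∀ f g l, H (atm (cNand f g) l) = true ∨ H (atm g l) = true) :=
  h170_f3 (fun f g l => [(atm (cNand f g) l, true), (atm g l, true)]) (by repeat (first | with_reducible exact h170P0p | with_reducible exact h170P1p | with_reducible exact h170P2p | with_reducible exact h170P3p | with_reducible exact h170P4p | with_reducible exact h170_pnil | with_reducible exact Primrec.const _ | with_reducible apply h170_pcons | with_reducible apply h170_paE | with_reducible apply h170_paZ | with_reducible apply h170_paS | with_reducible apply h170_paA | with_reducible apply h170_paM | with_reducible apply h170_patm | with_reducible apply h170_pnth | with_reducible apply h170_pconsN | with_reducible apply h170_pwit | with_reducible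 apply h170_pone | with_reducible apply h170_ptwo | with_reducible apply h170_pEq | with_reducible apply h170_pZer | with_reducible apply h170_pSuc | with_reducible apply h170_pAdd | with_reducible apply h170_pMul | with_reducible apply h170_pNand | with_reducible apply h170_pEx)) (fun H f g l => H (atm (cNand f g) l) = true ∨ H (atm g l) = true) (by
    intro H f g l
    simp only [List.mem_cons, List.not_mem_nil, or_false, exists_eq_or_imp, exists_eq_left, ← Bool.not_eq_true]
    try tauto)


theorem h170_exI : h170R (fun H => ∀ f a l, H (atm f (consN a l)) = true → H (atm (cEx f) l) = true) :=
  h170_f3 (fun f a l => [(atm f (consN a l), false), (atm (cEx f) l, true)]) (by repeat (first | with_reducible exact h170P0p | with_reducible exact h170P1p | with_reducible exact h170P2p | with_reducible exact h170P3p | with_reducible exact h170P4p | with_reducible exact h170_pnil | with_reducible exact Primrec.const _ | with_reducible apply h170_pcons | with_reducible apply h170_paE | with_reducible apply h170_paZ | with_reducible apply h170_paS | with_reducible apply h170_paA | with_reducible apply h170_paM | with_reducible apply h170_patm | with_reducible apply h170_pnth | with_reducible apply h170_pconsN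 | with_reducible apply h170_pwit | with_reducible apply h170_pone | with_reducible apply h170_ptwo | with_reducible apply h170_pEq | with_reducible apply h170_pZer | with_reducible apply h170_pSuc | with_reducible apply h170_pAdd | with_reducible apply h170_pMul | with_reducible apply h170_pNand | with_reducible apply h170_pEx)) (fun H f a l => H (atm f (consN a l)) = true → H (atm (cEx f) l) = true) (by
    intro H f a l
    simp only [List.mem_cons, List.not_mem_nil, or_false, exists_eq_or_imp, exists_eq_left, ← Bool.not_eq_true]
    try tauto)


theorem h170_exE : h170R (fun H => ∀ f l, H (atm (cEx f) l) = true → H (atm f (consN (wit 0 f l) l)) = true) :=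
  h170_f2 (fun f l => [(atm (cEx f) l, false), (atm f (consN (wit 0 f l) l), true)]) (by repeat (first | with_reducible exact h170P0p | with_reducible exact h170P1p | with_reducible exact h170P2p | with_reducible exact h170P3p | with_reducible exact h170P4p | with_reducible exact h170_pnil | with_reducible exact Primrec.const _ | with_reducible apply h170_pcons | with_reducible apply h170_paE | with_reducible apply h170_paZ | with_reducible apply h170_paS | with_reducible apply h170_paA | with_reducible apply h170_paM | with_reducible apply h170_patm | with_reducible apply h170_pnth | with_reducible apply h170_pconsN | with_reducible apply h170_pwit | with_reducible apply h170_pone | with_reducible apply h170_ptwo | with_reducible apply h170_pEq | with_reducible apply h170_pZer | with_reducible apply h170_pSuc | with_reducible apply h170_pAdd | with_reducible apply h170_pMul | with_reducible apply h170_pNand | with_reducible apply h170_pEx)) (fun H f l => H (atm (cEx f) l) = true → H (atm f (consN (wit 0 f l) l)) = true) (by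
    intro H f l
    simp only [List.mem_cons, List.not_mem_nil, or_false, exists_eq_or_imp, exists_eq_left, ← Bool.not_eq_true]
    try tauto)


theorem h170_zex : h170R (fun H => H (aZ (wit 1 0 0)) = true) :=
  h170_f0 ([(aZ (wit 1 0 0), true)]) (by repeat (first | with_reducible exact h170P0p | with_reducible exact h170P1p | with_reducible exact h170P2p | with_reducible exact h170P3p | with_reducible exact h170P4p | with_reducible exact h170_pnil | with_reducible exact Primrec.const _ | with_reducible apply h170_pcons | with_reducible apply h170_paE | with_reducible apply h170_paZ | with_reducible apply h170_paS | with_reducible apply h170_paA | with_reducible apply h170_paM | with_reducible apply h170_patm | with_reducible apply h170_pnth | with_reducible apply h170_pconsN | with_reducible apply h170_pwit | with_reducible apply h170_pone | with_reducible apply h170_ptwo | with_reducible apply h170_pEq | with_reducible apply h170_pZer | with_reducible apply h170_pSuc | with_reducible apply h170_pAdd | with_reducible apply h170_pMul | with_reducible apply h170_pNand | with_reducible apply h170_pEx)) (fun H  => H (aZ (wit 1 0 0)) = true) (by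
    intro H 
    simp only [List.mem_cons, List.not_mem_nil, or_false, exists_eq_or_imp, exists_eq_left, ← Bool.not_eq_true]
    try tauto)


theorem h170_sex : h170R (fun H => ∀ a, H (aS a (wit 2 0 (one a))) = true) :=
  h170_f1 (fun a => [(aS a (wit 2 0 (one a)), true)]) (by repeat (first | with_reducible exact h170P0p | with_reducible exact h170P1p | with_reducible exact h170P2p | with_reducible exact h170P3p | with_reducible exact h170P4p | with_reducible exact h170_pnil | with_reducible exact Primrec.const _ | with_reducible apply h170_pcons | with_reducible apply h170_paE | with_reducible apply h170_paZ | with_reducible apply h170_paS | with_reducible apply h170_paA | with_reducible apply h170_paM | with_reducible apply h170_patm | with_reducible apply h170_pnth | with_reducible apply h170_pconsN | with_reducible apply h170_pwit | with_reducible apply h170_pone | with_reducible apply h170_ptwo | with_reducible apply h170_pEq | with_reducible apply h170_pZer | with_reducible apply h170_pSuc | with_reducible apply h170_pAdd | with_reducible apply h170_pMul | with_reducible apply h170_pNand | with_reducible apply h170_pEx)) (fun H a => H (aS a (wit 2 0 (one a))) = true) (by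
    intro H a
    simp only [List.mem_cons, List.not_mem_nil, or_false, exists_eq_or_imp, exists_eq_left, ← Bool.not_eq_true]
    try tauto)


theorem h170_aex : h170R (fun H => ∀ a b, H (aA a b (wit 3 0 (two a b))) = true) :=
  h170_f2 (fun a b => [(aA a b (wit 3 0 (two a b)), true)]) (by repeat (first | with_reducible exact h170P0p | with_reducible exact h170P1p | with_reducible exact h170P2p | with_reducible exact h170P3p | with_reducible exact h170P4p | with_reducible exact h170_pnil | with_reducible exact Primrec.const _ | with_reducible apply h170_pcons | with_reducible apply h170_paE | with_reducible apply h170_paZ | with_reducible apply h170_paS | with_reducible apply h170_paA | with_reducible apply h170_paM | with_reducible apply h170_patm | with_reducible apply h170_pnth | with_reducible apply h170_pconsN | with_reducible apply h170_pwit | with_reducible apply h170_pone | with_reducible apply h170_ptwo | with_reducible apply h170_pEq | with_reducible apply h170_pZer | with_reducible apply h170_pSuc | with_reducible apply h170_pAdd | with_reducible apply h170_pMul | with_reducible apply h170_pNand | with_reducible apply h170_pEx)) (fun H a b => H (aA a b (wit 3 0 (two a b))) = true) (by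
    intro H a b
    simp only [List.mem_cons, List.not_mem_nil, or_false, exists_eq_or_imp, exists_eq_left, ← Bool.not_eq_true]
    try tauto)


theorem h170_mex : h170R (fun H => ∀ a b, H (aM a b (wit 4 0 (two a b))) = true) :=
  h170_f2 (fun a b => [(aM a b (wit 4 0 (two a b)), true)]) (by repeat (first | with_reducible exact h170P0p | with_reducible exact h170P1p | with_reducible exact h170P2p | with_reducible exact h170P3p | with_reducible exact h170P4p | with_reducible exact h170_pnil | with_reducible exact Primrec.const _ | with_reducible apply h170_pcons | with_reducible apply h170_paE | with_reducible apply h170_paZ | with_reducible apply h170_paS | with_reducible apply h170_paA | with_reducible apply h170_paM | with_reducible apply h170_patm | with_reducible apply h170_pnth | with_reducible apply h170_pconsN | with_reducible apply h170_pwit | with_reducible apply h170_pone | with_reducible apply h170_ptwo | with_reducible apply h170_pEq | with_reducible apply h170_pZer | with_reducible apply h170_pSuc | with_reducible apply h170_pAdd | with_reducible apply h170_pMul | with_reducible apply h170_pNand | with_reducible apply h170_pEx)) (fun H a b => H (aM a b (wit 4 0 (two a b))) = true)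 (by
    intro H a b
    simp only [List.mem_cons, List.not_mem_nil, or_false, exists_eq_or_imp, exists_eq_left, ← Bool.not_eq_true]
    try tauto)


theorem h170_zu : h170R (fun H => ∀ a b, H (aZ a) = true → H (aZ b) = true → H (aE a b) = true) :=
  h170_f2 (fun a b => [(aZ a, false), (aZ b, false), (aE a b, true)]) (by repeat (first | with_reducible exact h170P0p | with_reducible exact h170P1p | with_reducible exact h170P2p | with_reducible exact h170P3p | with_reducible exact h170P4p | with_reducible exact h170_pnil | with_reducible exact Primrec.const _ | with_reducible apply h170_pcons | with_reducible apply h170_paE | with_reducible apply h170_paZ | with_reducible apply h170_paS | with_reducible apply h170_paA | with_reducible apply h170_paM | with_reducible apply h170_patm | with_reducible apply h170_pnth | with_reducible apply h170_pconsN | with_reducible apply h170_pwit | with_reducible apply h170_pone | with_reducible apply h170_ptwo | with_reducible apply h170_pEq | with_reducible apply h170_pZer | with_reducible apply h170_pSuc | with_reducible apply h170_pAdd | with_reducible apply h170_pMul | with_reducible apply h170_pNand | with_reducible apply h170_pEx)) (fun H a b => H (aZ a)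 = true → H (aZ b) = true → H (aE a b) = true) (by
    intro H a b
    simp only [List.mem_cons, List.not_mem_nil, or_false, exists_eq_or_imp, exists_eq_left, ← Bool.not_eq_true]
    try tauto)


theorem h170_su : h170R (fun H => ∀ a b b', H (aS a b) = true → H (aS a b') = true → H (aE b b') = true) :=
  h170_f3 (fun a b b' => [(aS a b, false), (aS a b', false), (aE b b', true)]) (by repeat (first | with_reducible exact h170P0p | with_reducible exact h170P1p | with_reducible exact h170P2p | with_reducible exact h170P3p | with_reducible exact h170P4p | with_reducible exact h170_pnil | with_reducible exact Primrec.const _ | with_reducible apply h170_pcons | with_reducible apply h170_paE | with_reducible apply h170_paZ | with_reducible apply h170_paS | with_reducible apply h170_paA | with_reducible apply h170_paM | with_reducible apply h170_patm | with_reducible apply h170_pnth | with_reducible apply h170_pconsN | with_reducible apply h170_pwit | with_reducible apply h170_pone | with_reducible apply h170_ptwo | with_reducible apply h170_pEq | with_reducible apply h170_pZer | with_reducible apply h170_pSuc | with_reducible apply h170_pAdd | with_reducible apply h170_pMul | with_reducible apply h170_pNand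 | with_reducible apply h170_pEx)) (fun H a b b' => H (aS a b) = true → H (aS a b') = true → H (aE b b') = true) (by
    intro H a b b'
    simp only [List.mem_cons, List.not_mem_nil, or_false, exists_eq_or_imp, exists_eq_left, ← Bool.not_eq_true]
    try tauto)


theorem h170_au : h170R (fun H => ∀ a b c c', H (aA a b c) = true → H (aA a b c') = true → H (aE c c') = true) :=
  h170_f4 (fun a b c c' => [(aA a b c, false), (aA a b c', false), (aE c c', true)]) (by repeat (first | with_reducible exact h170P0p | with_reducible exact h170P1p | with_reducible exact h170P2p | with_reducible exact h170P3p | with_reducible exact h170P4p | with_reducible exact h170_pnil | with_reducible exact Primrec.const _ | with_reducible apply h170_pcons | with_reducible apply h170_paE | with_reducible apply h170_paZ | with_reducible apply h170_paS | with_reducible apply h170_paA | with_reducible apply h170_paM | with_reducible apply h170_patm | with_reducible apply h170_pnth | with_reducible apply h170_pconsN | with_reducible apply h170_pwit | with_reducible apply h170_pone | with_reducible apply h170_ptwo | with_reducible apply h170_pEq | with_reducible apply h170_pZer | with_reducible apply h170_pSuc | with_reducible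 apply h170_pAdd | with_reducible apply h170_pMul | with_reducible apply h170_pNand | with_reducible apply h170_pEx)) (fun H a b c c' => H (aA a b c) = true → H (aA a b c') = true → H (aE c c') = true) (by
    intro H a b c c'
    simp only [List.mem_cons, List.not_mem_nil, or_false, exists_eq_or_imp, exists_eq_left, ← Bool.not_eq_true]
    try tauto)


theorem h170_mu : h170R (fun H => ∀ a b c c', H (aM a b c) = true → H (aM a b c') = true → H (aE c c') = true) :=
  h170_f4 (fun a b c c' => [(aM a b c, false), (aM a b c', false), (aE c c', true)]) (by repeat (first | with_reducible exact h170P0p | with_reducible exact h170P1p | with_reducible exact h170P2p | with_reducible exact h170P3p | with_reducible exact h170P4p | with_reducible exact h170_pnil | with_reducible exact Primrec.const _ | with_reducible apply h170_pcons | with_reducible apply h170_paE | with_reducible apply h170_paZ | with_reducible apply h170_paS | with_reducible apply h170_paA | with_reducible apply h170_paM | with_reducible apply h170_patm | with_reducible apply h170_pnth | with_reducible apply h170_pconsN | with_reducible apply h170_pwit | with_reducible apply h170_pone | with_reducible apply h170_ptwo | with_reducible apply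 h170_pEq | with_reducible apply h170_pZer | with_reducible apply h170_pSuc | with_reducible apply h170_pAdd | with_reducible apply h170_pMul | with_reducible apply h170_pNand | with_reducible apply h170_pEx)) (fun H a b c c' => H (aM a b c) = true → H (aM a b c') = true → H (aE c c') = true) (by
    intro H a b c c'
    simp only [List.mem_cons, List.not_mem_nil, or_false, exists_eq_or_imp, exists_eq_left, ← Bool.not_eq_true]
    try tauto)


theorem h170_s0 : h170R (fun H => ∀ a b, H (aS a b) = true → ¬ H (aZ b) = true) :=
  h170_f2 (fun a b => [(aS a b, false), (aZ b, false)]) (by repeat (first | with_reducible exact h170P0p | with_reducible exact h170P1p | with_reducible exact h170P2p | with_reducible exact h170P3p | with_reducible exact h170P4p | with_reducible exact h170_pnil | with_reducible exact Primrec.const _ | with_reducible apply h170_pcons | with_reducible apply h170_paE | with_reducible apply h170_paZ | with_reducible apply h170_paS | with_reducible apply h170_paA | with_reducible apply h170_paM | with_reducible apply h170_patm | with_reducible apply h170_pnth | with_reducible apply h170_pconsN | with_reducible apply h170_pwit | with_reducible apply h170_pone | with_reducible apply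 h170_ptwo | with_reducible apply h170_pEq | with_reducible apply h170_pZer | with_reducible apply h170_pSuc | with_reducible apply h170_pAdd | with_reducible apply h170_pMul | with_reducible apply h170_pNand | with_reducible apply h170_pEx)) (fun H a b => H (aS a b) = true → ¬ H (aZ b) = true) (by
    intro H a b
    simp only [List.mem_cons, List.not_mem_nil, or_false, exists_eq_or_imp, exists_eq_left, ← Bool.not_eq_true]
    try tauto)


theorem h170_sinj : h170R (fun H => ∀ a a' b, H (aS a b) = true → H (aS a' b) = true → H (aE a a') = true) :=
  h170_f3 (fun a a' b => [(aS a b, false), (aS a' b, false), (aE a a', true)]) (by repeat (first | with_reducible exact h170P0p | with_reducible exact h170P1p | with_reducible exact h170P2p | with_reducible exact h170P3p | with_reducible exact h170P4p | with_reducible exact h170_pnil | with_reducible exact Primrec.const _ | with_reducible apply h170_pcons | with_reducible apply h170_paE | with_reducible apply h170_paZ | with_reducible apply h170_paS | with_reducible apply h170_paA | with_reducible apply h170_paM | with_reducible apply h170_patm | with_reducible apply h170_pnth | with_reducible apply h170_pconsN | with_reducible apply h170_pwit | with_reducible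 apply h170_pone | with_reducible apply h170_ptwo | with_reducible apply h170_pEq | with_reducible apply h170_pZer | with_reducible apply h170_pSuc | with_reducible apply h170_pAdd | with_reducible apply h170_pMul | with_reducible apply h170_pNand | with_reducible apply h170_pEx)) (fun H a a' b => H (aS a b) = true → H (aS a' b) = true → H (aE a a') = true) (by
    intro H a a' b
    simp only [List.mem_cons, List.not_mem_nil, or_false, exists_eq_or_imp, exists_eq_left, ← Bool.not_eq_true]
    try tauto)


theorem h170_a0 : h170R (fun H => ∀ a b, H (aZ b) = true → H (aA a b a) = true) :=
  h170_f2 (fun a b => [(aZ b, false), (aA a b a, true)]) (by repeat (first | with_reducible exact h170P0p | with_reducible exact h170P1p | with_reducible exact h170P2p | with_reducible exact h170P3p | with_reducible exact h170P4p | with_reducible exact h170_pnil | with_reducible exact Primrec.const _ | with_reducible apply h170_pcons | with_reducible apply h170_paE | with_reducible apply h170_paZ | with_reducible apply h170_paS | with_reducible apply h170_paA | with_reducible apply h170_paM | with_reducible apply h170_patm | with_reducible apply h170_pnth | with_reducible apply h170_pconsN | with_reducible apply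 h170_pwit | with_reducible apply h170_pone | with_reducible apply h170_ptwo | with_reducible apply h170_pEq | with_reducible apply h170_pZer | with_reducible apply h170_pSuc | with_reducible apply h170_pAdd | with_reducible apply h170_pMul | with_reducible apply h170_pNand | with_reducible apply h170_pEx)) (fun H a b => H (aZ b) = true → H (aA a b a) = true) (by
    intro H a b
    simp only [List.mem_cons, List.not_mem_nil, or_false, exists_eq_or_imp, exists_eq_left, ← Bool.not_eq_true]
    try tauto)


theorem h170_aSu : h170R (fun H => ∀ a b b' c c', H (aS b b') = true → H (aA a b c) = true → H (aS c c') = true → H (aA a b' c') = true) :=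
  h170_f5 (fun a b b' c c' => [(aS b b', false), (aA a b c, false), (aS c c', false), (aA a b' c', true)]) (by repeat (first | with_reducible exact h170P0p | with_reducible exact h170P1p | with_reducible exact h170P2p | with_reducible exact h170P3p | with_reducible exact h170P4p | with_reducible exact h170_pnil | with_reducible exact Primrec.const _ | with_reducible apply h170_pcons | with_reducible apply h170_paE | with_reducible apply h170_paZ | with_reducible apply h170_paS | with_reducible apply h170_paA | with_reducible apply h170_paM | with_reducible apply h170_patm | with_reducible apply h170_pnth | with_reducible apply h170_pconsN | with_reducible apply h170_pwit | with_reducible apply h170_pone | with_reducible apply h170_ptwo | with_reducible apply h170_pEq | with_reducible apply h170_pZer | with_reducible apply h170_pSuc | with_reducible apply h170_pAdd | with_reducible apply h170_pMul | with_reducible apply h170_pNand | with_reducible apply h170_pEx)) (fun H a b b' c c' => H (aS b b') = true → H (aA a b c) = true → H (aS c c') = true → H (aA a b' c') = true) (by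
    intro H a b b' c c'
    simp only [List.mem_cons, List.not_mem_nil, or_false, exists_eq_or_imp, exists_eq_left, ← Bool.not_eq_true]
    try tauto)


theorem h170_m0 : h170R (fun H => ∀ a b, H (aZ b) = true → H (aM a b b) = true) :=
  h170_f2 (fun a b => [(aZ b, false), (aM a b b, true)]) (by repeat (first | with_reducible exact h170P0p | with_reducible exact h170P1p | with_reducible exact h170P2p | with_reducible exact h170P3p | with_reducible exact h170P4p | with_reducible exact h170_pnil | with_reducible exact Primrec.const _ | with_reducible apply h170_pcons | with_reducible apply h170_paE | with_reducible apply h170_paZ | with_reducible apply h170_paS | with_reducible apply h170_paA | with_reducible apply h170_paM | with_reducible apply h170_patm | with_reducible apply h170_pnth | with_reducible apply h170_pconsN | with_reducible apply h170_pwit | with_reducible apply h170_pone | with_reducible apply h170_ptwo | with_reducible apply h170_pEq | with_reducible apply h170_pZer | with_reducible apply h170_pSuc | with_reducible apply h170_pAdd | with_reducible apply h170_pMul | with_reducible apply h170_pNand | with_reducible apply h170_pEx)) (fun H a b => H (aZ b) = true → H (aM a b b) = true)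 (by
    intro H a b
    simp only [List.mem_cons, List.not_mem_nil, or_false, exists_eq_or_imp, exists_eq_left, ← Bool.not_eq_true]
    try tauto)


theorem h170_mS : h170R (fun H => ∀ a b b' c d, H (aS b b') = true → H (aM a b c) = true → H (aA c a d) = true → H (aM a b' d) = true) :=
  h170_f5 (fun a b b' c d => [(aS b b', false), (aM a b c, false), (aA c a d, false), (aM a b' d, true)]) (by repeat (first | with_reducible exact h170P0p | with_reducible exact h170P1p | with_reducible exact h170P2p | with_reducible exact h170P3p | with_reducible exact h170P4p | with_reducible exact h170_pnil | with_reducible exact Primrec.const _ | with_reducible apply h170_pcons | with_reducible apply h170_paE | with_reducible apply h170_paZ | with_reducible apply h170_paS | with_reducible apply h170_paA | with_reducible apply h170_paM | with_reducible apply h170_patm | with_reducible apply h170_pnth | with_reducible apply h170_pconsN | with_reducible apply h170_pwit | with_reducible apply h170_pone | with_reducible apply h170_ptwo | with_reducible apply h170_pEq | with_reducible apply h170_pZer | with_reducible apply h170_pSuc | with_reducible apply h170_pAdd | with_reducible apply h170_pMul | with_reducible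 apply h170_pNand | with_reducible apply h170_pEx)) (fun H a b b' c d => H (aS b b') = true → H (aM a b c) = true → H (aA c a d) = true → H (aM a b' d) = true) (by
    intro H a b b' c d
    simp only [List.mem_cons, List.not_mem_nil, or_false, exists_eq_or_imp, exists_eq_left, ← Bool.not_eq_true]
    try tauto)


theorem h170_ind1 : h170R (fun H => ∀ z b f l, H (aZ z) = true → H (atm f (consN z l)) = true → H (atm f (consN b l)) = true ∨ H (aS (wit 5 f (consN b l)) (wit 6 f (consN b l))) = true) :=
  h170_f4 (fun z b f l => [(aZ z, false), (atm f (consN z l), false), (atm f (consN b l), true), (aS (wit 5 f (consN b l)) (wit 6 f (consN b l)), true)]) (by repeat (first | with_reducible exact h170P0p | with_reducible exact h170P1p | with_reducible exact h170P2p | with_reducible exact h170P3p | with_reducible exact h170P4p | with_reducible exact h170_pnil | with_reducible exact Primrec.const _ | with_reducible apply h170_pcons | with_reducible apply h170_paE | with_reducible apply h170_paZ | with_reducible apply h170_paS | with_reducible apply h170_paA | with_reducible apply h170_paM | with_reducible apply h170_patm | with_reducible apply h170_pnth | with_reducible apply h170_pconsN | with_reducible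 apply h170_pwit | with_reducible apply h170_pone | with_reducible apply h170_ptwo | with_reducible apply h170_pEq | with_reducible apply h170_pZer | with_reducible apply h170_pSuc | with_reducible apply h170_pAdd | with_reducible apply h170_pMul | with_reducible apply h170_pNand | with_reducible apply h170_pEx)) (fun H z b f l => H (aZ z) = true → H (atm f (consN z l)) = true → H (atm f (consN b l)) = true ∨ H (aS (wit 5 f (consN b l)) (wit 6 f (consN b l))) = true) (by
    intro H z b f l
    simp only [List.mem_cons, List.not_mem_nil, or_false, exists_eq_or_imp, exists_eq_left, ← Bool.not_eq_true]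
    try tauto)


theorem h170_ind2 : h170R (fun H => ∀ z b f l, H (aZ z) = true → H (atm f (consN z l)) = true → H (atm f (consN b l)) = true ∨ H (atm f (consN (wit 5 f (consN b l)) l)) = true) :=
  h170_f4 (fun z b f l => [(aZ z, false), (atm f (consN z l), false), (atm f (consN b l), true), (atm f (consN (wit 5 f (consN b l)) l), true)]) (by repeat (first | with_reducible exact h170P0p | with_reducible exact h170P1p | with_reducible exact h170P2p | with_reducible exact h170P3p | with_reducible exact h170P4p | with_reducible exact h170_pnil | with_reducible exact Primrec.const _ | with_reducible apply h170_pcons | with_reducible apply h170_paE | with_reducible apply h170_paZ | with_reducible apply h170_paS | with_reducible apply h170_paA | with_reducible apply h170_paM | with_reducible apply h170_patm | with_reducible apply h170_pnth | with_reducible apply h170_pconsN | with_reducible apply h170_pwit | with_reducible apply h170_pone | with_reducible apply h170_ptwo | with_reducible apply h170_pEq | with_reducible apply h170_pZer | with_reducible apply h170_pSuc | with_reducible apply h170_pAdd | with_reducible apply h170_pMul | with_reducible apply h170_pNand | with_reducible apply h170_pEx))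 (fun H z b f l => H (aZ z) = true → H (atm f (consN z l)) = true → H (atm f (consN b l)) = true ∨ H (atm f (consN (wit 5 f (consN b l)) l)) = true) (by
    intro H z b f l
    simp only [List.mem_cons, List.not_mem_nil, or_false, exists_eq_or_imp, exists_eq_left, ← Bool.not_eq_true]
    try tauto)


theorem h170_ind3 : h170R (fun H => ∀ z b f l, H (aZ z) = true → H (atm f (consN z l)) = true → H (atm f (consN b l)) = true ∨ ¬ H (atm f (consN (wit 6 f (consN b l)) l)) = true) :=
  h170_f4 (fun z b f l => [(aZ z, false), (atm f (consN z l), false), (atm f (consN b l), true), (atm f (consN (wit 6 f (consN b l)) l), false)]) (by repeat (first | with_reducible exact h170P0p | with_reducible exact h170P1p | with_reducible exact h170P2p | with_reducible exact h170P3p | with_reducible exact h170P4p | with_reducible exact h170_pnil | with_reducible exact Primrec.const _ | with_reducible apply h170_pcons | with_reducible apply h170_paE | with_reducible apply h170_paZ | with_reducible apply h170_paS | with_reducible apply h170_paA | with_reducible apply h170_paM | with_reducible apply h170_patm | with_reducible apply h170_pnth | with_reducible apply h170_pconsN | with_reducible apply h170_pwit | with_reducible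 apply h170_pone | with_reducible apply h170_ptwo | with_reducible apply h170_pEq | with_reducible apply h170_pZer | with_reducible apply h170_pSuc | with_reducible apply h170_pAdd | with_reducible apply h170_pMul | with_reducible apply h170_pNand | with_reducible apply h170_pEx)) (fun H z b f l => H (aZ z) = true → H (atm f (consN z l)) = true → H (atm f (consN b l)) = true ∨ ¬ H (atm f (consN (wit 6 f (consN b l)) l)) = true) (by
    intro H z b f l
    simp only [List.mem_cons, List.not_mem_nil, or_false, exists_eq_or_imp, exists_eq_left, ← Bool.not_eq_true]
    try tauto)


theorem good_clauses : ∃ cl : ℕ → List (ℕ × Bool), Primrec cl ∧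
    ∀ H : ℕ → Bool, (Good (fun a => H a = true) ↔ ∀ i, ∃ p ∈ cl i, H p.1 = p.2) := by
  have h : h170R (fun H => Good (fun a => H a = true)) := by
    refine h170R_congr (fun H => ⟨?_, ?_⟩) (h170R_and h170_eqA (h170R_and h170_zerA (h170R_and h170_sucA (h170R_and h170_addA (h170R_and h170_mulA (h170R_and h170_refl (h170R_and h170_symm (h170R_and h170_trans (h170R_and h170_cZ (h170R_and h170_cS1 (h170R_and h170_cS2 (h170R_and h170_cA1 (h170R_and h170_cA2 (h170R_and h170_cA3 (h170R_and h170_cM1 (h170R_and h170_cM2 (h170R_and h170_cM3 (h170R_and h170_nand1 (h170R_and h170_nand2 (h170R_and h170_nand3 (h170R_and h170_exI (h170R_and h170_exE (h170R_and h170_zex (h170R_and h170_sex (h170R_and h170_aex (h170R_and h170_mex (h170R_and h170_zu (h170R_and h170_su (h170R_and h170_au (h170R_and h170_mu (h170R_and h170_s0 (h170R_and h170_sinj (h170R_and h170_a0 (h170R_and h170_aSu (h170R_and h170_m0 (h170R_and h170_mS (h170R_and h170_ind1 (h170R_and h170_ind2 h170_ind3))))))))))))))))))))))))))))))))))))))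
    · rintro ⟨x0, x1, x2, x3, x4, x5, x6, x7, x8, x9, x10, x11, x12, x13, x14, x15, x16, x17, x18, x19, x20, x21, x22, x23, x24, x25, x26, x27, x28, x29, x30, x31, x32, x33, x34, x35, x36, x37, x38⟩
      exact ⟨x0, x1, x2, x3, x4, x5, x6, x7, x8, x9, x10, x11, x12, x13, x14, x15, x16, x17, x18, x19, x20, x21, x22, x23, x24, x25, x26, x27, x28, x29, x30, x31, x32, x33, x34, x35, x36, x37, x38⟩
    · rintro ⟨x0, x1, x2, x3, x4, x5, x6, x7, x8, x9, x10, x11, x12, x13, x14, x15, x16, x17, x18, x19, x20, x21, x22, x23, x24, x25, x26, x27, x28, x29, x30, x31, x32, x33, x34, x35, x36, x37, x38⟩
      exact ⟨x0, x1, x2, x3, x4, x5, x6, x7, x8, x9, x10, x11, x12, x13, x14, x15, x16, x17, x18, x19, x20, x21, x22, x23, x24, x25, x26, x27, x28, x29, x30, x31, x32, x33, x34, x35, x36, x37, x38⟩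
  exact h

end Pool.Agent.Helper685.Sol
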