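import Pool.Agent.Helper685.Sol.ClosA

namespace Pool.Agent.Helper685.Sol

theorem j12304_sig_ind {n : ℕ} {motive : Fm → Prop} (hb : ∀ f, IsPi n f → motive f)
    (he : ∀ f, IsSig (n + 1) f → motive f → motive (.ex f)) {f : Fm} (h : IsSig (n + 1) f) :
    motive f := by
  have key : ∀ m f, IsSig m f → m = n + 1 → motive f := by
    intro m f h
    refine IsSig.rec (motive_1 := fun m f _ => m = n + 1 → motive f)
      (motive_2 := fun _ _ _ => True) ?_ ?_ ?_ ?_ ?_ ?_ h
    · intro f _ hm; omega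
    · intro m f hpi _ hm
      have : m = n := by omega
      subst this
      exact hb f hpi
    · intro m f hs ih hm
      have : m = n := by omega
      subst this
      exact he f hs (ih rfl)
    · intros; trivial
    · intros; trivial
    · intros; trivial
  exact key _ _ h rfl

theorem j12304_pi_ind {n : ℕ} {motive : Fm → Prop} (hb : ∀ f, IsSig n f → motive f)
    (he : ∀ f, IsPi (n + 1) f → motive f → motive (.neg (.ex (.neg f)))) {f : Fm}
    (h : IsPi (n + 1) f) : motive f := by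
  have key : ∀ m f, IsPi m f → m = n + 1 → motive f := by
    intro m f h
    refine IsPi.rec (motive_2 := fun m f _ => m = n + 1 → motive f)
      (motive_1 := fun _ _ _ => True) ?_ ?_ ?_ ?_ ?_ ?_ h
    · intros; trivial
    · intros; trivial
    · intros; trivial
    · intro f _ hm; omega
    · intro m f hpi _ hm
      have : m = n := by omega
      subst this
      exact hb f hpi
    · intro m f hs ih hm
      have : m = n := by omega
      subst this
      exact he f hs (ih rfl)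
  exact key _ _ h rfl

theorem j12304_d0_both {f : Fm} (h : IsD0 f) : ∀ n, IsSig n f ∧ IsPi n f
  | 0 => ⟨.zero h, .zero h⟩
  | n + 1 => ⟨.base (j12304_d0_both h n).2, .base (j12304_d0_both h n).1⟩

theorem j12304_shift_ren (t : Tm) (ρ : ℕ → ℕ) : t.shift.ren (upr ρ) = (t.ren ρ).shift := by
  induction t with
  | var i => rfl
  | zero => rfl
  | succ t ih => simp only [Tm.shift, Tm.ren, ih]
  | add s t ih1 ih2 => simp only [Tm.shift, Tm.ren, ih1, ih2]
  | mul s t ih1 ih2 => simp only [Tm.shift, Tm.ren, ih1, ih2]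

theorem j12304_le_ren (s t : Tm) (ρ : ℕ → ℕ) :
    (Fm.le s t).ren ρ = Fm.le (s.ren ρ) (t.ren ρ) := by
  simp only [Fm.le, Fm.ren, Tm.ren, j12304_shift_ren]
  rfl

theorem j12304_bex_ren (t : Tm) (f : Fm) (ρ : ℕ → ℕ) :
    (Fm.bex t f).ren ρ = Fm.bex (t.ren ρ) (f.ren (upr ρ)) := by
  simp only [Fm.bex, Fm.ren, j12304_le_ren, j12304_shift_ren]
  rfl

theorem j12304_d0_ren {f : Fm} (h : IsD0 f) : ∀ ρ, IsD0 (f.ren ρ) := by
  induction h with
  | eq s t => intro ρ; exact .eq _ _
  | neg _ ih => intro ρ; exact .neg (ih ρ)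
  | and _ _ ih1 ih2 => intro ρ; exact .and (ih1 ρ) (ih2 ρ)
  | bex t _ ih => intro ρ; rw [j12304_bex_ren]; exact .bex _ (ih _)

theorem j12304_ren (n : ℕ) : (∀ f, IsSig n f → ∀ ρ, IsSig n (f.ren ρ)) ∧
    (∀ f, IsPi n f → ∀ ρ, IsPi n (f.ren ρ)) := by
  induction n with
  | zero =>
    constructor
    · intro f h ρ
      cases h with | zero h => exact .zero (j12304_d0_ren h ρ)
    · intro f h ρ
      cases h with | zero h => exact .zero (j12304_d0_ren h ρ)
  | succ n ih =>
    constructor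
    · intro f h
      refine j12304_sig_ind (motive := fun f => ∀ ρ, IsSig (n + 1) (f.ren ρ)) ?_ ?_ h
      · intro f hf ρ; exact .base (ih.2 f hf ρ)
      · intro f _ hf ρ; exact .ex (hf (upr ρ))
    · intro f h
      refine j12304_pi_ind (motive := fun f => ∀ ρ, IsPi (n + 1) (f.ren ρ)) ?_ ?_ h
      · intro f hf ρ; exact .base (ih.1 f hf ρ)
      · intro f _ hf ρ; exact .all (hf (upr ρ))

theorem j12304_up (n : ℕ) : (∀ f, IsSig n f → IsSig (n + 1) f) ∧
    (∀ f, IsPi n f → IsPi (n + 1) f) := by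
  induction n with
  | zero =>
    constructor
    · intro f h
      cases h with | zero h => exact .base (.zero h)
    · intro f h
      cases h with | zero h => exact .base (.zero h)
  | succ n ih =>
    constructor
    · intro f h
      refine j12304_sig_ind (motive := fun f => IsSig (n + 1 + 1) f) ?_ ?_ h
      · intro f hf; exact .base (ih.2 f hf)
      · intro f _ hf; exact .ex hf
    · intro f h
      refine j12304_pi_ind (motive := fun f => IsPi (n + 1 + 1) f) ?_ ?_ h
      · intro f hf; exact .base (ih.1 f hf)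
      · intro f _ hf; exact .all hf

theorem j12304_not (n : ℕ) :
    (∀ f, IsSig n f → ∃ g, IsPi n g ∧ ∀ (M : Type) (S : Str M) v, g.sat S v ↔ ¬ f.sat S v) ∧
    (∀ f, IsPi n f → ∃ g, IsSig n g ∧ ∀ (M : Type) (S : Str M) v, g.sat S v ↔ ¬ f.sat S v) := by
  induction n with
  | zero =>
    constructor
    · intro f h
      cases h with | zero h => exact ⟨.neg f, .zero (.neg h), fun M S v => Iff.rfl⟩
    · intro f h
      cases h with | zero h => exact ⟨.neg f, .zero (.neg h), fun M S v => Iff.rfl⟩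
  | succ n ih =>
    constructor
    · intro f h
      refine j12304_sig_ind (motive := fun f => ∃ g, IsPi (n + 1) g ∧
        ∀ (M : Type) (S : Str M) v, g.sat S v ↔ ¬ f.sat S v) ?_ ?_ h
      · intro f hf
        obtain ⟨g, hg, hgs⟩ := ih.2 f hf
        exact ⟨g, .base hg, hgs⟩
      · rintro f _ ⟨g, hg, hgs⟩
        refine ⟨.neg (.ex (.neg g)), .all hg, fun M S v => ?_⟩
        simp only [Fm.sat, hgs, not_not]
    · intro f h
      refine j12304_pi_ind (motive := fun f => ∃ g, IsSig (n + 1) g ∧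
        ∀ (M : Type) (S : Str M) v, g.sat S v ↔ ¬ f.sat S v) ?_ ?_ h
      · intro f hf
        obtain ⟨g, hg, hgs⟩ := ih.1 f hf
        exact ⟨g, .base hg, hgs⟩
      · rintro f _ ⟨g, hg, hgs⟩
        refine ⟨.ex g, .ex hg, fun M S v => ?_⟩
        simp only [Fm.sat, hgs, not_not]

/-- one step of the induction for a connective which commutes with existential quantifiers -/
theorem j12304_step (op : Prop → Prop → Prop)
    (hl : ∀ (M : Type) [Nonempty M] (p : M → Prop) (q : Prop), (∃ a, op (p a) q) ↔ op (∃ a, p a) q)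
    (hr : ∀ (M : Type) [Nonempty M] (p : M → Prop) (q : Prop), (∃ a, op q (p a)) ↔ op q (∃ a, p a))
    (n : ℕ) (hpi : ∀ f g, IsPi n f → IsPi n g → ∃ h, IsPi n h ∧
      ∀ (M : Type) (S : Str M) v, h.sat S v ↔ op (f.sat S v) (g.sat S v)) :
    ∀ f g, IsSig (n + 1) f → IsSig (n + 1) g → ∃ h, IsSig (n + 1) h ∧
      ∀ (M : Type) (S : Str M) v, h.sat S v ↔ op (f.sat S v) (g.sat S v) := by
  have h1 : ∀ g, IsSig (n + 1) g → ∀ f, IsPi n f → ∃ h, IsSig (n + 1) h ∧
      ∀ (M : Type) (S : Str M) v, h.sat S v ↔ op (f.sat S v) (g.sat S v) := by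
    intro g hg
    refine j12304_sig_ind (motive := fun g => ∀ f, IsPi n f → ∃ h, IsSig (n + 1) h ∧
      ∀ (M : Type) (S : Str M) v, h.sat S v ↔ op (f.sat S v) (g.sat S v)) ?_ ?_ hg
    · intro g hg f hf
      obtain ⟨h, hh, hs⟩ := hpi f g hf hg
      exact ⟨h, .base hh, hs⟩
    · intro g _ ih f hf
      obtain ⟨h, hh, hs⟩ := ih (f.ren Nat.succ) ((j12304_ren n).2 f hf _)
      refine ⟨.ex h, .ex hh, fun M S v => ?_⟩
      haveI : Nonempty M := ⟨S.zero⟩
      have e1 : ∀ a : M, (f.ren Nat.succ).sat S (cns a v) ↔ f.sat S v := fun a =>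
        Fm.sat_ren S Nat.succ (cns a v) f
      simp only [Fm.sat, hs]
      rw [← hr]
      refine exists_congr fun a => ?_
      rw [e1]
  intro f g hf hg
  revert g
  refine j12304_sig_ind (motive := fun f => ∀ g, IsSig (n + 1) g → ∃ h, IsSig (n + 1) h ∧
      ∀ (M : Type) (S : Str M) v, h.sat S v ↔ op (f.sat S v) (g.sat S v)) ?_ ?_ hf
  · intro f hf g hg
    exact h1 g hg f hf
  · intro f _ ih g hg
    obtain ⟨h, hh, hs⟩ := ih (g.ren Nat.succ) ((j12304_ren (n + 1)).1 g hg _)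
    refine ⟨.ex h, .ex hh, fun M S v => ?_⟩
    haveI : Nonempty M := ⟨S.zero⟩
    have e1 : ∀ a : M, (g.ren Nat.succ).sat S (cns a v) ↔ g.sat S v := fun a =>
      Fm.sat_ren S Nat.succ (cns a v) g
    simp only [Fm.sat, hs]
    rw [← hl]
    refine exists_congr fun a => ?_
    rw [e1]

theorem j12304_dual (n : ℕ) (op op' : Prop → Prop → Prop)
    (hop : ∀ p q, ¬ op (¬ p) (¬ q) ↔ op' p q)
    (h : ∀ f g, IsSig n f → IsSig n g → ∃ h, IsSig n h ∧
      ∀ (M : Type) (S : Str M) v, h.sat S v ↔ op (f.sat S v) (g.sat S v)) :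
    ∀ f g, IsPi n f → IsPi n g → ∃ h, IsPi n h ∧
      ∀ (M : Type) (S : Str M) v, h.sat S v ↔ op' (f.sat S v) (g.sat S v) := by
  intro f g hf hg
  obtain ⟨f', hf', hfs⟩ := (j12304_not n).2 f hf
  obtain ⟨g', hg', hgs⟩ := (j12304_not n).2 g hg
  obtain ⟨k, hk, hks⟩ := h f' g' hf' hg'
  obtain ⟨k', hk', hks'⟩ := (j12304_not n).1 k hk
  refine ⟨k', hk', fun M S v => ?_⟩
  rw [hks', hks, hfs, hgs, hop]

theorem j12304_bool (n : ℕ) :
    (∀ f g, IsSig n f → IsSig n g → ∃ h, IsSig n h ∧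
      ∀ (M : Type) (S : Str M) v, h.sat S v ↔ And (f.sat S v) (g.sat S v)) ∧
    (∀ f g, IsSig n f → IsSig n g → ∃ h, IsSig n h ∧
      ∀ (M : Type) (S : Str M) v, h.sat S v ↔ Or (f.sat S v) (g.sat S v)) := by
  induction n with
  | zero =>
    constructor
    · intro f g hf hg
      cases hf with | zero hf =>
      cases hg with | zero hg => exact ⟨.and f g, .zero (.and hf hg), fun M S v => Iff.rfl⟩
    · intro f g hf hg
      cases hf with | zero hf =>
      cases hg with | zero hg =>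
        refine ⟨.neg (.and (.neg f) (.neg g)), .zero (.neg (.and (.neg hf) (.neg hg))),
          fun M S v => ?_⟩
        simp only [Fm.sat]
        tauto
  | succ n ih =>
    constructor
    · refine j12304_step And ?_ ?_ n (j12304_dual n Or And (fun p q => by tauto) ih.2)
      · intro M _ p q
        exact exists_and_right
      · intro M _ p q
        exact exists_and_left
    · refine j12304_step Or ?_ ?_ n (j12304_dual n And Or (fun p q => by tauto) ih.1)
      · intro M _ p q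
        rw [exists_or, exists_const]
      · intro M _ p q
        rw [exists_or, exists_const]

/-- the numeral terms -/
def j12304_nm : ℕ → Tm
  | 0 => .zero
  | n + 1 => .succ (j12304_nm n)

theorem j12304_nm_val {M : Type} (S : Str M) (v : ℕ → M) (k : ℕ) :
    (j12304_nm k).val S v = S.num k := by
  induction k with
  | zero => rfl
  | succ k ih =>
    change S.succ ((j12304_nm k).val S v) = S.succ (S.num k)
    rw [ih]

section closure
variable {P Q : Pred} {n : ℕ}

theorem D0P.sig (h : D0P P) (n : ℕ) : SigP n P := by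
  obtain ⟨f, hf, hs⟩ := h
  exact ⟨f, (j12304_d0_both hf n).1, hs⟩
theorem D0P.pi (h : D0P P) (n : ℕ) : PiP n P := by
  obtain ⟨f, hf, hs⟩ := h
  exact ⟨f, (j12304_d0_both hf n).2, hs⟩

theorem SigP.congr (h : SigP n P)
    (hPQ : ∀ (M : Type) (S : Str M), IsPA S → ∀ v, (P M S v ↔ Q M S v)) : SigP n Q := by
  obtain ⟨f, hf, hs⟩ := h
  exact ⟨f, hf, fun M S hS v => (hs M S hS v).trans (hPQ M S hS v)⟩
theorem PiP.congr (h : PiP n P)
    (hPQ : ∀ (M : Type) (S : Str M), IsPA S → ∀ v, (P M S v ↔ Q M S v)) : PiP n Q := by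
  obtain ⟨f, hf, hs⟩ := h
  exact ⟨f, hf, fun M S hS v => (hs M S hS v).trans (hPQ M S hS v)⟩
theorem SigP.ren (h : SigP n P) (ρ : ℕ → ℕ) : SigP n (fun M S v => P M S (fun i => v (ρ i))) := by
  obtain ⟨f, hf, hs⟩ := h
  exact ⟨f.ren ρ, (j12304_ren n).1 f hf ρ, fun M S hS v =>
    (Fm.sat_ren S ρ v f).trans (hs M S hS _)⟩
theorem PiP.ren (h : PiP n P) (ρ : ℕ → ℕ) : PiP n (fun M S v => P M S (fun i => v (ρ i))) := by
  obtain ⟨f, hf, hs⟩ := h
  exact ⟨f.ren ρ, (j12304_ren n).2 f hf ρ, fun M S hS v =>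
    (Fm.sat_ren S ρ v f).trans (hs M S hS _)⟩
theorem SigP.not (h : SigP n P) : PiP n (fun M S v => ¬ P M S v) := by
  obtain ⟨f, hf, hs⟩ := h
  obtain ⟨g, hg, hgs⟩ := (j12304_not n).1 f hf
  exact ⟨g, hg, fun M S hS v => (hgs M S v).trans (not_congr (hs M S hS v))⟩
theorem PiP.not (h : PiP n P) : SigP n (fun M S v => ¬ P M S v) := by
  obtain ⟨f, hf, hs⟩ := h
  obtain ⟨g, hg, hgs⟩ := (j12304_not n).2 f hf
  exact ⟨g, hg, fun M S hS v => (hgs M S v).trans (not_congr (hs M S hS v))⟩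
theorem SigP.and (h : SigP n P) (h' : SigP n Q) : SigP n (fun M S v => P M S v ∧ Q M S v) := by
  obtain ⟨f, hf, hs⟩ := h
  obtain ⟨g, hg, hs'⟩ := h'
  obtain ⟨k, hk, hks⟩ := (j12304_bool n).1 f g hf hg
  exact ⟨k, hk, fun M S hS v => (hks M S v).trans (and_congr (hs M S hS v) (hs' M S hS v))⟩
theorem SigP.or (h : SigP n P) (h' : SigP n Q) : SigP n (fun M S v => P M S v ∨ Q M S v) := by
  obtain ⟨f, hf, hs⟩ := h
  obtain ⟨g, hg, hs'⟩ := h'
  obtain ⟨k, hk, hks⟩ := (j12304_bool n).2 f g hf hg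
  exact ⟨k, hk, fun M S hS v => (hks M S v).trans (or_congr (hs M S hS v) (hs' M S hS v))⟩
theorem PiP.and (h : PiP n P) (h' : PiP n Q) : PiP n (fun M S v => P M S v ∧ Q M S v) := by
  obtain ⟨f, hf, hs⟩ := h
  obtain ⟨g, hg, hs'⟩ := h'
  obtain ⟨k, hk, hks⟩ := j12304_dual n Or And (fun p q => by tauto) (j12304_bool n).2 f g hf hg
  exact ⟨k, hk, fun M S hS v => (hks M S v).trans (and_congr (hs M S hS v) (hs' M S hS v))⟩
theorem PiP.or (h : PiP n P) (h' : PiP n Q) : PiP n (fun M S v => P M S v ∨ Q M S v) := by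
  obtain ⟨f, hf, hs⟩ := h
  obtain ⟨g, hg, hs'⟩ := h'
  obtain ⟨k, hk, hks⟩ := j12304_dual n And Or (fun p q => by tauto) (j12304_bool n).1 f g hf hg
  exact ⟨k, hk, fun M S hS v => (hks M S v).trans (or_congr (hs M S hS v) (hs' M S hS v))⟩
theorem SigP.ex (h : SigP (n + 1) P) : SigP (n + 1) (fun M S v => ∃ x, P M S (cns x v)) := by
  obtain ⟨f, hf, hs⟩ := h
  exact ⟨.ex f, .ex hf, fun M S hS v => exists_congr fun a => hs M S hS (cns a v)⟩
theorem PiP.all (h : PiP (n + 1) P) : PiP (n + 1) (fun M S v => ∀ x, P M S (cns x v)) := by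
  obtain ⟨f, hf, hs⟩ := h
  refine ⟨.neg (.ex (.neg f)), .all hf, fun M S hS v => ?_⟩
  simp only [Fm.sat, hs M S hS, not_exists, not_not]
theorem SigP.mono {m : ℕ} (hnm : n ≤ m) (h : SigP n P) : SigP m P := by
  obtain ⟨f, hf, hs⟩ := h
  refine ⟨f, ?_, hs⟩
  induction hnm with
  | refl => exact hf
  | step _ ih => exact (j12304_up _).1 f ih
theorem PiP.mono {m : ℕ} (hnm : n ≤ m) (h : PiP n P) : PiP m P := by
  obtain ⟨f, hf, hs⟩ := h
  refine ⟨f, ?_, hs⟩
  induction hnm with
  | refl => exact hf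
  | step _ ih => exact (j12304_up _).2 f ih
theorem PiP.sig (h : PiP n P) : SigP (n + 1) P := by
  obtain ⟨f, hf, hs⟩ := h
  exact ⟨f, .base hf, hs⟩
theorem SigP.pi (h : SigP n P) : PiP (n + 1) P := by
  obtain ⟨f, hf, hs⟩ := h
  exact ⟨f, .base hf, hs⟩
/-- substitution of a numeral -/
theorem SigP.num (h : SigP (n + 1) P) (k : ℕ) :
    SigP (n + 1) (fun M S v => P M S (cns (S.num k) v)) := by
  have h1 : SigP (n + 1) (fun M S v => (Tm.var 0).val S v = (j12304_nm k).val S v) :=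
    (D0P.eq (.var 0) (j12304_nm k)).sig (n + 1)
  refine (SigP.ex (h1.and h)).congr fun M S hS v => ?_
  simp only [j12304_nm_val]
  constructor
  · rintro ⟨x, hx, hP⟩
    have hx' : x = S.num k := hx
    rwa [hx'] at hP
  · intro hP
    exact ⟨S.num k, rfl, hP⟩
/-- a predicate which does not depend on the assignment is expressed by a sentence -/
theorem SigP.close (h : SigP (n + 1) P)
    (hP : ∀ (M : Type) (S : Str M), IsPA S → ∀ v w, (P M S v ↔ P M S w)) :
    ∃ f : Fm, IsSig (n + 1) f ∧ f.IsSentence ∧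
      ∀ (M : Type) (S : Str M), IsPA S → ∀ v, (f.sat S v ↔ P M S v) := by
  obtain ⟨f, hf, hs⟩ := h
  refine ⟨.ex (f.ren (fun _ => 0)), .ex ((j12304_ren (n + 1)).1 f hf _), ?_, ?_⟩
  · obtain ⟨k, hk⟩ := f.exists_fvLt
    exact Fm.fvLt_ren (m := 1) (ρ := fun _ => 0) (fun i _ => Nat.zero_lt_one) hk
  · intro M S hS v
    have e1 : ∀ a : M, (f.ren (fun _ => 0)).sat S (cns a v) ↔ P M S v := by
      intro a
      rw [Fm.sat_ren, hs M S hS]
      exact hP M S hS _ _
    constructor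
    · rintro ⟨a, ha⟩
      exact (e1 a).1 ha
    · intro hp
      exact ⟨S.zero, (e1 _).2 hp⟩

end closure

end Pool.Agent.Helper685.Sol
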