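import Pool.Agent.Helper685.Sol.UDefs

namespace Pool.Agent.Helper685.Sol

theorem d0_val_shift {M : Type} (S : Str M) (a : M) (v : ℕ → M) (t : Tm) :
    (t.shift).val S (cns a v) = t.val S v := by
  induction t with
  | var i => rfl
  | zero => rfl
  | succ t ih => simp only [Tm.shift, Tm.val, ih]
  | add s t ih1 ih2 => simp only [Tm.shift, Tm.val, ih1, ih2]
  | mul s t ih1 ih2 => simp only [Tm.shift, Tm.val, ih1, ih2]

theorem d0_shift_ren (ρ : ℕ → ℕ) (t : Tm) : (t.shift).ren (upr ρ) = (t.ren ρ).shift := by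
  induction t with
  | var i => rfl
  | zero => rfl
  | succ t ih => simp only [Tm.shift, Tm.ren, ih]
  | add s t ih1 ih2 => simp only [Tm.shift, Tm.ren, ih1, ih2]
  | mul s t ih1 ih2 => simp only [Tm.shift, Tm.ren, ih1, ih2]

theorem d0_bex_ren (ρ : ℕ → ℕ) (t : Tm) (f : Fm) :
    (Fm.bex t f).ren ρ = Fm.bex (t.ren ρ) (f.ren (upr ρ)) := by
  simp only [Fm.bex, Fm.le, Fm.ren, Tm.ren, Tm.shift, d0_shift_ren, upr]

theorem d0_ren {f : Fm} (hf : IsD0 f) (ρ : ℕ → ℕ) : IsD0 (f.ren ρ) := by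
  induction hf generalizing ρ with
  | eq s t => exact .eq _ _
  | neg _ ih => exact .neg (ih ρ)
  | and _ _ ih1 ih2 => exact .and (ih1 ρ) (ih2 ρ)
  | bex t _ ih =>
    rw [d0_bex_ren]
    exact .bex _ (ih _)

theorem d0_bex_sat {M : Type} (S : Str M) (v : ℕ → M) (t : Tm) (f : Fm) :
    (Fm.bex t f).sat S v ↔ ∃ x, S.le x (t.val S v) ∧ f.sat S (cns x v) := by
  simp only [Fm.bex, Fm.le, Fm.sat, Tm.val, Tm.shift, d0_val_shift, Str.le, cns]

section closure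
variable {P Q : Pred} {n : ℕ}

theorem D0P.congr (h : D0P P) (hPQ : ∀ (M : Type) (S : Str M), IsPA S → ∀ v, (P M S v ↔ Q M S v)) :
    D0P Q := by
  obtain ⟨f, hf, h1⟩ := h
  exact ⟨f, hf, fun M S hS v => (h1 M S hS v).trans (hPQ M S hS v)⟩
theorem D0P.eq (s t : Tm) : D0P (fun _ S v => s.val S v = t.val S v) :=
  ⟨.eq s t, .eq s t, fun _ _ _ _ => Iff.rfl⟩
theorem D0P.not (h : D0P P) : D0P (fun M S v => ¬ P M S v) := by
  obtain ⟨f, hf, h1⟩ := h
  exact ⟨.neg f, .neg hf, fun M S hS v => not_congr (h1 M S hS v)⟩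
theorem D0P.and (h : D0P P) (h' : D0P Q) : D0P (fun M S v => P M S v ∧ Q M S v) := by
  obtain ⟨f, hf, h1⟩ := h
  obtain ⟨g, hg, h2⟩ := h'
  exact ⟨.and f g, .and hf hg, fun M S hS v => and_congr (h1 M S hS v) (h2 M S hS v)⟩
theorem D0P.or (h : D0P P) (h' : D0P Q) : D0P (fun M S v => P M S v ∨ Q M S v) := by
  refine (D0P.not (D0P.and (D0P.not h) (D0P.not h'))).congr ?_
  intro M S _ v
  tauto
theorem D0P.bex (t : Tm) (h : D0P P) :
    D0P (fun M S v => ∃ x, S.le x (t.val S v) ∧ P M S (cns x v)) := by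
  obtain ⟨f, hf, h1⟩ := h
  refine ⟨Fm.bex t f, .bex t hf, fun M S hS v => ?_⟩
  rw [d0_bex_sat]
  exact exists_congr fun x => and_congr Iff.rfl (h1 M S hS _)
theorem D0P.ball (t : Tm) (h : D0P P) :
    D0P (fun M S v => ∀ x, S.le x (t.val S v) → P M S (cns x v)) := by
  refine (D0P.not (D0P.bex t (D0P.not h))).congr ?_
  intro M S _ v
  constructor
  · intro h1 x hx
    by_contra h2
    exact h1 ⟨x, hx, h2⟩
  · rintro h1 ⟨x, hx, h2⟩
    exact h2 (h1 x hx)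
theorem D0P.ren (h : D0P P) (ρ : ℕ → ℕ) : D0P (fun M S v => P M S (fun i => v (ρ i))) := by
  obtain ⟨f, hf, h1⟩ := h
  refine ⟨f.ren ρ, d0_ren hf ρ, fun M S hS v => ?_⟩
  rw [Fm.sat_ren]
  exact h1 M S hS _
end closure

end Pool.Agent.Helper685.Sol
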