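import Pool.Agent.Helper685.Sol.Syn

/-! # Codes of Borel sets of finite rank -/

namespace Pool.Agent.Helper685.Sol

/-- `E` is an open set of oracles. -/
def IsOp (E : Set (Set ℕ)) : Prop :=
  ∀ X ∈ E, ∃ L : Finset ℕ, ∀ Y : Set ℕ, (∀ x ∈ L, (x ∈ Y ↔ x ∈ X)) → Y ∈ E

/-- Codes of sets of oracles of the class boldface `Σ⁰ₙ`, `n ≥ 1`. -/
inductive BC : ℕ → Type
  | op (E : Set (Set ℕ)) : BC 1
  | un {n : ℕ} (c : ℕ → BC n) : BC (n + 1)

/-- The set coded by a code: an open set, or the union of the complements of the sets coded by the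
subcodes. -/
def BC.set : {n : ℕ} → BC n → Set (Set ℕ)
  | _, .op E => E
  | _, .un c => {X | ∃ i, X ∉ (c i).set}

/-- All sets at the leaves are open. -/
def BC.Ok : {n : ℕ} → BC n → Prop
  | _, .op E => IsOp E
  | _, .un c => ∀ i, (c i).Ok

/-- The boldface class `Σ⁰ₙ` of sets of oracles (for `n ≥ 1`). -/
def SigB (n : ℕ) (E : Set (Set ℕ)) : Prop := ∃ c : BC n, c.Ok ∧ c.set = E

/-- first set of oracles used in the diagonalisation -/
def E0 (e n s0 : ℕ) : Set (Set ℕ) :=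
  {X | ∃ i, i ∈ Phi e (jump^[n - 1] X) (Nat.pair n 0) ∧ 0 ∈ Phi i X s0}

/-- second set of oracles used in the diagonalisation -/
def E1 (e n s1 : ℕ) : Set (Set ℕ) :=
  {X | ∃ i i' s, i ≠ i' ∧ i ∈ Phi e (jump^[n - 1] X) (Nat.pair n 0) ∧
    i' ∈ Phi e (jump^[n - 1] X) (Nat.pair n s) ∧ 0 ∈ Phi i' X s1}

end Pool.Agent.Helper685.Sol
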