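import Pool.Agent.Helper685.Sol.Codes

namespace Pool.Agent.Helper685.Sol

/-- The combinatorial end of the diagonalisation. -/
theorem defeat {X : Set ℕ} {T : ℕ → Set ℕ} {t : ℕ → ℕ → ℕ} {e : ℕ}
    (hu : ∀ n ≥ 1, ∀ s, t n s ∈ Phi e (jump^[n - 1] X) (Nat.pair n s))
    (ht : IsSolovayFamily X T t) {n s0 s1 : ℕ} (hn : 1 ≤ n)
    (h : (s0 ∉ T n ∧ X ∉ E0 e n s0) ∨ (s0 ∈ T n ∧ s1 ∉ T n ∧ X ∈ E0 e n s0 ∧ X ∉ E1 e n s1) ∨
      (s1 ∈ T n ∧ X ∈ E1 e n s1)) : ¬ ChangesAtMostOnce (t n) := by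
  classical
  intro hc
  obtain ⟨i, s₀, hlim, hidx⟩ := ht.limit n hn
  have hsub := ht.subset n hn
  have hz : ∀ {j : ℕ} {Y : Set ℕ} {a : ℕ}, IsIndex X j Y → (0 ∈ Phi j X a ↔ a ∉ Y) := by
    intro j Y a hj
    rw [hj a, Part.mem_some_iff]
    by_cases ha : a ∈ Y <;> simp [ha]
  rcases h with ⟨h1, h2⟩ | ⟨h1, h2, h3, h4⟩ | ⟨h1, h2⟩
  · obtain ⟨Y, hY, hYi⟩ := hsub 0
    exact h2 ⟨t n 0, hu n hn 0, (hz hYi).2 (fun h => h1 (hY h))⟩
  · obtain ⟨j, hj, hj0⟩ := h3
    have e1 : j = t n 0 := Part.mem_unique hj (hu n hn 0)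
    subst e1
    have hne : t n 0 ≠ i := by
      intro h0
      rw [h0] at hj0
      exact (hz hidx).1 hj0 h1
    obtain ⟨Y, hY, hYi⟩ := hsub s₀
    refine h4 ⟨t n 0, t n s₀, s₀, ?_, hu n hn 0, hu n hn s₀,
      (hz hYi).2 (fun h => h2 (hY h))⟩
    rw [hlim s₀ le_rfl]; exact hne
  · obtain ⟨j, j', s, hjj, hj, hj', h0⟩ := h2
    have e1 : j = t n 0 := Part.mem_unique hj (hu n hn 0)
    have e2 : j' = t n s := Part.mem_unique hj' (hu n hn s)
    subst e1; subst e2
    have hex : ∃ u < s, t n (u+1) ≠ t n u := by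
      by_contra hno
      push Not at hno
      have hall : ∀ r ≤ s, t n r = t n 0 := by
        intro r hr
        induction r with
        | zero => rfl
        | succ r ih => rw [hno r (by omega), ih (by omega)]
      exact hjj (hall s le_rfl).symm
    obtain ⟨u, hus, hu'⟩ := hex
    have hconst : ∀ r ≥ s, t n r = t n s := by
      intro r hr
      induction r, hr using Nat.le_induction with
      | base => rfl
      | succ r hr ih =>
        by_contra hne
        have h3 : t n (r+1) ≠ t n r := by rw [ih]; exact hne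
        have := hc u r hu' h3
        omega
    have h4 : t n s = i := by
      rw [← hconst (max s s₀) (le_max_left _ _)]
      exact hlim _ (le_max_right _ _)
    rw [h4] at h0
    exact (hz hidx).1 h0 h1

end Pool.Agent.Helper685.Sol
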