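import Mathlib

/-! # Arithmetic, oracle computations and Solovay families: definitions -/

namespace Pool.Agent.Helper685.Sol

/-! ## The language of arithmetic -/

/-- Terms of the language `0, S, +, ·`. Variables are de Bruijn indices. -/
inductive Tm : Type
  | var (i : ℕ)
  | zero
  | succ (t : Tm)
  | add (s t : Tm)
  | mul (s t : Tm)

/-- First-order formulas of the language `0, S, +, ·` with equality. In `ex f` the quantifier
binds the variable `0` of `f`, and the variable `i + 1` of `f` is the variable `i` of `ex f`. -/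
inductive Fm : Type
  | eq (s t : Tm)
  | neg (f : Fm)
  | and (f g : Fm)
  | ex (f : Fm)

/-- The Godel number of a term. -/
def Tm.code : Tm → ℕ
  | .var i => Nat.pair 0 i
  | .zero => Nat.pair 1 0
  | .succ t => Nat.pair 2 t.code
  | .add s t => Nat.pair 3 (Nat.pair s.code t.code)
  | .mul s t => Nat.pair 4 (Nat.pair s.code t.code)

/-- The Godel number of a formula. -/
def Fm.code : Fm → ℕ
  | .eq s t => Nat.pair 0 (Nat.pair s.code t.code)
  | .neg f => Nat.pair 1 f.code
  | .and f g => Nat.pair 2 (Nat.pair f.code g.code)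
  | .ex f => Nat.pair 3 f.code

/-- A structure for the language `0, S, +, ·` with universe `M`. -/
structure Str (M : Type) where
  zero : M
  succ : M → M
  add : M → M → M
  mul : M → M → M

/-- The sequence `a, v 0, v 1, ...`. -/
def cns {M : Type} (a : M) (v : ℕ → M) : ℕ → M
  | 0 => a
  | n + 1 => v n

/-- The value of a term under the assignment `v`. -/
def Tm.val {M : Type} (S : Str M) (v : ℕ → M) : Tm → M
  | .var i => v i
  | .zero => S.zero
  | .succ t => S.succ (t.val S v)
  | .add s t => S.add (s.val S v) (t.val S v)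
  | .mul s t => S.mul (s.val S v) (t.val S v)

/-- Satisfaction of a formula under the assignment `v`. -/
def Fm.sat {M : Type} (S : Str M) : (ℕ → M) → Fm → Prop
  | v, .eq s t => s.val S v = t.val S v
  | v, .neg f => ¬ f.sat S v
  | v, .and f g => f.sat S v ∧ g.sat S v
  | v, .ex f => ∃ a : M, f.sat S (cns a v)

/-- `S` is a model of first-order Peano arithmetic. -/
structure IsPA {M : Type} (S : Str M) : Prop where
  succ_ne_zero : ∀ x, S.succ x ≠ S.zero
  succ_inj : ∀ x y, S.succ x = S.succ y → x = y
  add_zero : ∀ x, S.add x S.zero = x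
  add_succ : ∀ x y, S.add x (S.succ y) = S.succ (S.add x y)
  mul_zero : ∀ x, S.mul x S.zero = S.zero
  mul_succ : ∀ x y, S.mul x (S.succ y) = S.add (S.mul x y) x
  /-- induction for all formulas with parameters -/
  ind : ∀ (f : Fm) (v : ℕ → M), f.sat S (cns S.zero v) →
    (∀ x, f.sat S (cns x v) → f.sat S (cns (S.succ x) v)) → ∀ x, f.sat S (cns x v)

/-- The value of the numeral `n` in `S`. -/
def Str.num {M : Type} (S : Str M) : ℕ → M
  | 0 => S.zero
  | n + 1 => S.succ (S.num n)

/-- `S` is nonstandard: some element is not the value of a numeral. -/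
def Nonstandard {M : Type} (S : Str M) : Prop := ∃ a : M, ∀ n : ℕ, a ≠ S.num n

/-- All variables of the term are smaller than `k`. -/
def Tm.FvLt (k : ℕ) : Tm → Prop
  | .var i => i < k
  | .zero => True
  | .succ t => t.FvLt k
  | .add s t => s.FvLt k ∧ t.FvLt k
  | .mul s t => s.FvLt k ∧ t.FvLt k

/-- All free variables of the formula are smaller than `k`. -/
def Fm.FvLt : ℕ → Fm → Prop
  | k, .eq s t => s.FvLt k ∧ t.FvLt k
  | k, .neg f => f.FvLt k
  | k, .and f g => f.FvLt k ∧ g.FvLt k
  | k, .ex f => f.FvLt (k + 1)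

/-- A sentence is a formula without free variables. -/
def Fm.IsSentence (f : Fm) : Prop := f.FvLt 0

/-- The term with all variables shifted by one (a term brought into the scope of one more
quantifier). -/
def Tm.shift : Tm → Tm
  | .var i => .var (i + 1)
  | .zero => .zero
  | .succ t => .succ t.shift
  | .add s t => .add s.shift t.shift
  | .mul s t => .mul s.shift t.shift

/-- The formula `s ≤ t`, that is `∃ z, z + s = t`. -/
def Fm.le (s t : Tm) : Fm := .ex (.eq (.add (.var 0) s.shift) t.shift)

/-- The bounded quantifier `∃ x ≤ t, f`, that is `∃ x, x ≤ t ∧ f`; here `x` is the variable `0`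
of `f` and does not occur in `t`. -/
def Fm.bex (t : Tm) (f : Fm) : Fm := .ex (.and (Fm.le (.var 0) t.shift) f)

/-- The bounded (`Δ₀`) formulas: the closure of the equations under the connectives and
bounded quantification. -/
inductive IsD0 : Fm → Prop
  | eq (s t : Tm) : IsD0 (.eq s t)
  | neg {f : Fm} : IsD0 f → IsD0 (.neg f)
  | and {f g : Fm} : IsD0 f → IsD0 g → IsD0 (.and f g)
  | bex (t : Tm) {f : Fm} : IsD0 f → IsD0 (Fm.bex t f)

mutual
/-- `Σₙ` formulas: `Σ₀` is `Δ₀`, and the `Σₙ₊₁` formulas are the formulas `∃ x₁ ... ∃ x_r, f` with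
`r ≥ 0` and `f` a `Πₙ` formula. -/
inductive IsSig : ℕ → Fm → Prop
  | zero {f : Fm} : IsD0 f → IsSig 0 f
  | base {n : ℕ} {f : Fm} : IsPi n f → IsSig (n + 1) f
  | ex {n : ℕ} {f : Fm} : IsSig (n + 1) f → IsSig (n + 1) (.ex f)
/-- `Πₙ` formulas: `Π₀` is `Δ₀`, and the `Πₙ₊₁` formulas are the formulas `∀ x₁ ... ∀ x_r, f` with
`r ≥ 0` and `f` a `Σₙ` formula; `∀ x, f` is `¬ ∃ x, ¬ f`. -/
inductive IsPi : ℕ → Fm → Prop
  | zero {f : Fm} : IsD0 f → IsPi 0 f
  | base {n : ℕ} {f : Fm} : IsSig n f → IsPi (n + 1) f
  | all {n : ℕ} {f : Fm} : IsPi (n + 1) f → IsPi (n + 1) (.neg (.ex (.neg f)))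
end

/-! ## Oracle computations -/

/-- Programs with an oracle: the usual codes for partial recursive functions (zero, successor,
projections of the pairing function, pairing, composition, primitive recursion, minimisation)
together with the characteristic function of the oracle. -/
inductive OCode : Type
  | zero
  | succ
  | left
  | right
  | oracle
  | pair (f g : OCode)
  | comp (f g : OCode)
  | prec (f g : OCode)
  | rfind (f : OCode)

/-- The number of a program. -/
def OCode.code : OCode → ℕ
  | .zero => Nat.pair 0 0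
  | .succ => Nat.pair 1 0
  | .left => Nat.pair 2 0
  | .right => Nat.pair 3 0
  | .oracle => Nat.pair 4 0
  | .pair f g => Nat.pair 5 (Nat.pair f.code g.code)
  | .comp f g => Nat.pair 6 (Nat.pair f.code g.code)
  | .prec f g => Nat.pair 7 (Nat.pair f.code g.code)
  | .rfind f => Nat.pair 8 f.code

open Classical in
/-- The partial function computed by a program with oracle `X`. Pairs of numbers are coded by
`Nat.pair`. `prec f g` is the function `h` with `h ⟨a, 0⟩ = f a` and
`h ⟨a, k + 1⟩ = g ⟨a, ⟨k, h ⟨a, k⟩⟩⟩`; `rfind f` maps `a` to the least `k` with `f ⟨a, k⟩ = 0`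
(and `f ⟨a, j⟩` defined and nonzero for all `j < k`). -/
noncomputable def OCode.eval (X : Set ℕ) : OCode → ℕ → Part ℕ
  | .zero => fun _ => Part.some 0
  | .succ => fun a => Part.some (a + 1)
  | .left => fun a => Part.some a.unpair.1
  | .right => fun a => Part.some a.unpair.2
  | .oracle => fun a => Part.some (if a ∈ X then 1 else 0)
  | .pair f g => fun a => (f.eval X a).bind fun x => (g.eval X a).map fun y => Nat.pair x y
  | .comp f g => fun a => (g.eval X a).bind fun x => f.eval X x
  | .prec f g => fun a => Nat.rec (motive := fun _ => Part ℕ) (f.eval X a.unpair.1)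
      (fun k IH => IH.bind fun y => g.eval X (Nat.pair a.unpair.1 (Nat.pair k y))) a.unpair.2
  | .rfind f => fun a => Nat.rfind fun k => (f.eval X (Nat.pair a k)).map fun y => decide (y = 0)

open Classical in
/-- `Φ e X` is the partial function computed with oracle `X` by the program with number `e`
(nowhere defined when `e` is not the number of a program; different programs have different
numbers). -/
noncomputable def Phi (e : ℕ) (X : Set ℕ) (a : ℕ) : Part ℕ :=
  if h : ∃ c : OCode, c.code = e then h.choose.eval X a else Part.none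

/-- The Turing jump of `X`. -/
def jump (X : Set ℕ) : Set ℕ := {e | (Phi e X e).Dom}

open Classical in
/-- `e` is an index for `Y` as a set computable in `X`: `Φ e X` is the characteristic function
of `Y`. -/
def IsIndex (X : Set ℕ) (e : ℕ) (Y : Set ℕ) : Prop :=
  ∀ a : ℕ, Phi e X a = Part.some (if a ∈ Y then 1 else 0)

/-! ## Solovay families -/

/-- A literal is an equation between terms or the negation of one. -/
inductive Fm.IsLiteral : Fm → Prop
  | eq (s t : Tm) : Fm.IsLiteral (.eq s t)
  | ne (s t : Tm) : Fm.IsLiteral (.neg (.eq s t))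

/-- The atomic diagram of a structure with universe `ℕ`, as a set of numbers: the set of the
numbers of all true literals, where the variable `i` is used as the name of the element `i`. -/
def diagram (A : Str ℕ) : Set ℕ :=
  {x | ∃ f : Fm, f.IsLiteral ∧ f.sat A id ∧ x = f.code}

/-- `Th(A) ∩ Σₙ`, as a set of numbers. -/
def thSig (A : Str ℕ) (n : ℕ) : Set ℕ :=
  {x | ∃ f : Fm, f.IsSentence ∧ IsSig n f ∧ f.sat A id ∧ x = f.code}

/-- `t` is a Solovay family for the theory with `Σₙ` parts `T n`, relative to `X`: `t n` is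
computable from the `(n - 1)`-st jump of `X`, uniformly in `n ≥ 1`; the limit of `t n` exists and
is an index for `T n` as a set computable in `X`; every value of `t n` is an index, as a set
computable in `X`, for a subset of `T n`. -/
structure IsSolovayFamily (X : Set ℕ) (T : ℕ → Set ℕ) (t : ℕ → ℕ → ℕ) : Prop where
  uniform : ∃ e, ∀ n ≥ 1, ∀ s, t n s ∈ Phi e (jump^[n - 1] X) (Nat.pair n s)
  limit : ∀ n ≥ 1, ∃ i s₀, (∀ s ≥ s₀, t n s = i) ∧ IsIndex X i (T n)
  subset : ∀ n ≥ 1, ∀ s, ∃ Y ⊆ T n, IsIndex X (t n s) Y

/-- `t` changes value at most once. -/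
def ChangesAtMostOnce (t : ℕ → ℕ) : Prop :=
  ∀ s s', t (s + 1) ≠ t s → t (s' + 1) ≠ t s' → s = s'

end Pool.Agent.Helper685.Sol
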