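import Pool.Agent.Helper685.Sol.Henk

namespace Pool.Agent.Helper685.Sol

/-- a relational formula as a formula -/
def RF.toFm : RF → Fm
  | .eq i j => .eq (.var i) (.var j)
  | .zer i => .eq (.var i) .zero
  | .suc i j => .eq (.var j) (.succ (.var i))
  | .add i j k => .eq (.var k) (.add (.var i) (.var j))
  | .mul i j k => .eq (.var k) (.mul (.var i) (.var j))
  | .nand f g => .neg (.and f.toFm g.toFm)
  | .ex f => .ex f.toFm

theorem RF.sat_toFm {M : Type} (S : Str M) (f : RF) :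
    ∀ v : ℕ → M, f.toFm.sat S v ↔ f.sat S v := by
  induction f with
  | eq i j => intro v; rfl
  | zer i => intro v; rfl
  | suc i j => intro v; rfl
  | add i j k => intro v; rfl
  | mul i j k => intro v; rfl
  | nand f g ih1 ih2 => intro v; simp only [RF.toFm, Fm.sat, RF.sat, ih1, ih2]
  | ex f ih => intro v; simp only [RF.toFm, Fm.sat, RF.sat, ih]

/-- renaming of the free variables of a relational formula -/
def RF.ren : (ℕ → ℕ) → RF → RF
  | ρ, .eq i j => .eq (ρ i) (ρ j)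
  | ρ, .zer i => .zer (ρ i)
  | ρ, .suc i j => .suc (ρ i) (ρ j)
  | ρ, .add i j k => .add (ρ i) (ρ j) (ρ k)
  | ρ, .mul i j k => .mul (ρ i) (ρ j) (ρ k)
  | ρ, .nand f g => .nand (f.ren ρ) (g.ren ρ)
  | ρ, .ex f => .ex (f.ren (upr ρ))

theorem RF.sat_ren {M : Type} (S : Str M) (f : RF) :
    ∀ (ρ : ℕ → ℕ) (v : ℕ → M), (f.ren ρ).sat S v ↔ f.sat S (fun i => v (ρ i)) := by
  induction f with
  | eq i j => intro ρ v; rfl
  | zer i => intro ρ v; rfl
  | suc i j => intro ρ v; rfl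
  | add i j k => intro ρ v; rfl
  | mul i j k => intro ρ v; rfl
  | nand f g ih1 ih2 => intro ρ v; simp only [RF.ren, RF.sat, ih1, ih2]
  | ex f ih => intro ρ v; simp only [RF.ren, RF.sat, ih, cns_upr]

/-- conjunction of relational formulas -/
def RF.cj (f g : RF) : RF := .nand (.nand f g) (.nand f g)

theorem RF.sat_cj {M : Type} (S : Str M) (v : ℕ → M) (f g : RF) :
    (RF.cj f g).sat S v ↔ (f.sat S v ∧ g.sat S v) := by
  simp only [RF.cj, RF.sat]
  tauto

theorem dec_cEq (i j : ℕ) : dec (cEq i j) = .eq i j := by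
  have h1 : (7 * Nat.pair i j) % 7 = 0 := by omega
  have h2 : (7 * Nat.pair i j) / 7 = Nat.pair i j := by omega
  rw [dec, cEq, if_pos h1, h2, Nat.unpair_pair]

theorem dec_cZer (i : ℕ) : dec (cZer i) = .zer i := by
  have h0 : ¬ (7 * i + 1) % 7 = 0 := by omega
  have h1 : (7 * i + 1) % 7 = 1 := by omega
  have h2 : (7 * i + 1) / 7 = i := by omega
  rw [dec, cZer, if_neg h0, if_pos h1, h2]

theorem dec_cSuc (i j : ℕ) : dec (cSuc i j) = .suc i j := by
  have h0 : ¬ (7 * Nat.pair i j + 2) % 7 = 0 := by omega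
  have h1 : ¬ (7 * Nat.pair i j + 2) % 7 = 1 := by omega
  have h2 : (7 * Nat.pair i j + 2) % 7 = 2 := by omega
  have h3 : (7 * Nat.pair i j + 2) / 7 = Nat.pair i j := by omega
  rw [dec, cSuc, if_neg h0, if_neg h1, if_pos h2, h3, Nat.unpair_pair]

theorem dec_cAdd (i j k : ℕ) : dec (cAdd i j k) = .add i j k := by
  have h0 : ¬ (7 * Nat.pair i (Nat.pair j k) + 3) % 7 = 0 := by omega
  have h1 : ¬ (7 * Nat.pair i (Nat.pair j k) + 3) % 7 = 1 := by omega
  have h2 : ¬ (7 * Nat.pair i (Nat.pair j k) + 3) % 7 = 2 := by omega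
  have h3 : (7 * Nat.pair i (Nat.pair j k) + 3) % 7 = 3 := by omega
  have h5 : (7 * Nat.pair i (Nat.pair j k) + 3) / 7 = Nat.pair i (Nat.pair j k) := by omega
  rw [dec, cAdd, if_neg h0, if_neg h1, if_neg h2, if_pos h3, h5, Nat.unpair_pair]
  simp only [Nat.unpair_pair]

theorem dec_cMul (i j k : ℕ) : dec (cMul i j k) = .mul i j k := by
  have h0 : ¬ (7 * Nat.pair i (Nat.pair j k) + 4) % 7 = 0 := by omega
  have h1 : ¬ (7 * Nat.pair i (Nat.pair j k) + 4) % 7 = 1 := by omega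
  have h2 : ¬ (7 * Nat.pair i (Nat.pair j k) + 4) % 7 = 2 := by omega
  have h3 : ¬ (7 * Nat.pair i (Nat.pair j k) + 4) % 7 = 3 := by omega
  have h4 : (7 * Nat.pair i (Nat.pair j k) + 4) % 7 = 4 := by omega
  have h5 : (7 * Nat.pair i (Nat.pair j k) + 4) / 7 = Nat.pair i (Nat.pair j k) := by omega
  rw [dec, cMul, if_neg h0, if_neg h1, if_neg h2, if_neg h3, if_pos h4, h5, Nat.unpair_pair]
  simp only [Nat.unpair_pair]

theorem dec_cNand (a b : ℕ) : dec (cNand a b) = .nand (dec a) (dec b) := by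
  have h0 : ¬ (7 * Nat.pair a b + 5) % 7 = 0 := by omega
  have h1 : ¬ (7 * Nat.pair a b + 5) % 7 = 1 := by omega
  have h2 : ¬ (7 * Nat.pair a b + 5) % 7 = 2 := by omega
  have h3 : ¬ (7 * Nat.pair a b + 5) % 7 = 3 := by omega
  have h4 : ¬ (7 * Nat.pair a b + 5) % 7 = 4 := by omega
  have h5 : (7 * Nat.pair a b + 5) % 7 = 5 := by omega
  have h6 : (7 * Nat.pair a b + 5) / 7 = Nat.pair a b := by omega
  rw [dec, cNand, if_neg h0, if_neg h1, if_neg h2, if_neg h3, if_neg h4, dif_pos h5]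
  simp only [h6, Nat.unpair_pair]

theorem dec_cEx (a : ℕ) : dec (cEx a) = .ex (dec a) := by
  have h0 : ¬ (7 * a + 6) % 7 = 0 := by omega
  have h1 : ¬ (7 * a + 6) % 7 = 1 := by omega
  have h2 : ¬ (7 * a + 6) % 7 = 2 := by omega
  have h3 : ¬ (7 * a + 6) % 7 = 3 := by omega
  have h4 : ¬ (7 * a + 6) % 7 = 4 := by omega
  have h5 : ¬ (7 * a + 6) % 7 = 5 := by omega
  have h6 : (7 * a + 6) / 7 = a := by omega
  have h7 : ¬ (7 * a + 6) = 0 := by omega
  rw [dec, cEx, if_neg h0, if_neg h1, if_neg h2, if_neg h3, if_neg h4, dif_neg h5, dif_neg h7]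
  simp only [h6]

theorem flat_exists_code (g : RF) : ∃ c : ℕ, dec c = g := by
  induction g with
  | eq i j => exact ⟨_, dec_cEq i j⟩
  | zer i => exact ⟨_, dec_cZer i⟩
  | suc i j => exact ⟨_, dec_cSuc i j⟩
  | add i j k => exact ⟨_, dec_cAdd i j k⟩
  | mul i j k => exact ⟨_, dec_cMul i j k⟩
  | nand f g ih1 ih2 =>
    obtain ⟨a, ha⟩ := ih1
    obtain ⟨b, hb⟩ := ih2
    exact ⟨cNand a b, by rw [dec_cNand, ha, hb]⟩
  | ex f ih =>
    obtain ⟨a, ha⟩ := ih
    exact ⟨cEx a, by rw [dec_cEx, ha]⟩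

/-- the renaming `0 ↦ j`, `i + 1 ↦ i + 1 + k` -/
def rnm (j k : ℕ) : ℕ → ℕ
  | 0 => j
  | i + 1 => i + 1 + k

/-- the graph of a term is given by a relational formula -/
theorem exists_graph (t : Tm) : ∃ g : RF, ∀ (M : Type) (S : Str M) (v : ℕ → M),
    g.sat S v ↔ v 0 = t.val S (fun i => v (i + 1)) := by
  induction t with
  | var i => exact ⟨.eq 0 (i + 1), fun M S v => Iff.rfl⟩
  | zero => exact ⟨.zer 0, fun M S v => Iff.rfl⟩
  | succ t ih =>
    obtain ⟨g, hg⟩ := ih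
    refine ⟨.ex (RF.cj (g.ren (rnm 0 1)) (.suc 0 1)), fun M S v => ?_⟩
    have key : ∀ a : M, (RF.cj (g.ren (rnm 0 1)) (.suc 0 1)).sat S (cns a v) ↔
        (a = t.val S (fun i => v (i + 1)) ∧ v 0 = S.succ a) := by
      intro a
      rw [RF.sat_cj, RF.sat_ren, hg]
      exact Iff.rfl
    constructor
    · rintro ⟨a, ha⟩
      obtain ⟨h1, h2⟩ := (key a).1 ha
      rw [h2, h1]
      rfl
    · intro h
      exact ⟨_, (key _).2 ⟨rfl, h⟩⟩
  | add s t ih1 ih2 =>
    obtain ⟨g, hg⟩ := ih1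
    obtain ⟨g', hg'⟩ := ih2
    refine ⟨.ex (.ex (RF.cj (RF.cj (g.ren (rnm 1 2)) (g'.ren (rnm 0 2))) (.add 1 0 2))),
      fun M S v => ?_⟩
    have key : ∀ a b : M, (RF.cj (RF.cj (g.ren (rnm 1 2)) (g'.ren (rnm 0 2))) (.add 1 0 2)).sat S
        (cns b (cns a v)) ↔
        ((a = s.val S (fun i => v (i + 1)) ∧ b = t.val S (fun i => v (i + 1))) ∧
          v 0 = S.add a b) := by
      intro a b
      rw [RF.sat_cj, RF.sat_cj, RF.sat_ren, RF.sat_ren, hg, hg']
      exact Iff.rfl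
    constructor
    · rintro ⟨a, b, hab⟩
      obtain ⟨⟨h1, h2⟩, h3⟩ := (key a b).1 hab
      rw [h3, h1, h2]
      rfl
    · intro h
      exact ⟨_, _, (key _ _).2 ⟨⟨rfl, rfl⟩, h⟩⟩
  | mul s t ih1 ih2 =>
    obtain ⟨g, hg⟩ := ih1
    obtain ⟨g', hg'⟩ := ih2
    refine ⟨.ex (.ex (RF.cj (RF.cj (g.ren (rnm 1 2)) (g'.ren (rnm 0 2))) (.mul 1 0 2))),
      fun M S v => ?_⟩
    have key : ∀ a b : M, (RF.cj (RF.cj (g.ren (rnm 1 2)) (g'.ren (rnm 0 2))) (.mul 1 0 2)).sat S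
        (cns b (cns a v)) ↔
        ((a = s.val S (fun i => v (i + 1)) ∧ b = t.val S (fun i => v (i + 1))) ∧
          v 0 = S.mul a b) := by
      intro a b
      rw [RF.sat_cj, RF.sat_cj, RF.sat_ren, RF.sat_ren, hg, hg']
      exact Iff.rfl
    constructor
    · rintro ⟨a, b, hab⟩
      obtain ⟨⟨h1, h2⟩, h3⟩ := (key a b).1 hab
      rw [h3, h1, h2]
      rfl
    · intro h
      exact ⟨_, _, (key _ _).2 ⟨⟨rfl, rfl⟩, h⟩⟩

/-- every formula is equivalent to a relational formula -/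
theorem exists_RF (f : Fm) : ∃ g : RF, ∀ (M : Type) (S : Str M) (v : ℕ → M),
    g.sat S v ↔ f.sat S v := by
  induction f with
  | eq s t =>
    obtain ⟨g, hg⟩ := exists_graph s
    obtain ⟨g', hg'⟩ := exists_graph t
    refine ⟨.ex (RF.cj g g'), fun M S v => ?_⟩
    have key : ∀ a : M, (RF.cj g g').sat S (cns a v) ↔ (a = s.val S v ∧ a = t.val S v) := by
      intro a
      rw [RF.sat_cj, hg, hg']
      exact Iff.rfl
    constructor
    · rintro ⟨a, ha⟩
      obtain ⟨h1, h2⟩ := (key a).1 ha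
      exact h1.symm.trans h2
    · intro h
      exact ⟨_, (key _).2 ⟨rfl, h⟩⟩
  | neg f ih =>
    obtain ⟨g, hg⟩ := ih
    refine ⟨.nand g g, fun M S v => ?_⟩
    simp only [RF.sat, Fm.sat, hg, and_self]
  | and f f' ih ih' =>
    obtain ⟨g, hg⟩ := ih
    obtain ⟨g', hg'⟩ := ih'
    refine ⟨RF.cj g g', fun M S v => ?_⟩
    rw [RF.sat_cj, hg, hg']
    exact Iff.rfl
  | ex f ih =>
    obtain ⟨g, hg⟩ := ih
    refine ⟨.ex g, fun M S v => ?_⟩
    simp only [RF.sat, Fm.sat, hg]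

/-- every formula is equivalent to a coded relational formula -/
theorem flat (f : Fm) : ∃ c : ℕ, ∀ (M : Type) (S : Str M) (v : ℕ → M),
    (dec c).sat S v ↔ f.sat S v := by
  obtain ⟨g, hg⟩ := exists_RF f
  obtain ⟨c, hc⟩ := flat_exists_code g
  exact ⟨c, fun M S v => by rw [hc]; exact hg M S v⟩


/-- every coded relational formula is equivalent to a formula -/
theorem unflat (c : ℕ) : ∃ f : Fm, ∀ (M : Type) (S : Str M) (v : ℕ → M),
    f.sat S v ↔ (dec c).sat S v :=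
  ⟨(dec c).toFm, fun _ S v => RF.sat_toFm S (dec c) v⟩

end Pool.Agent.Helper685.Sol
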