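import Pool.Agent.Helper685.Sol.Alg
import Pool.Agent.Helper685.Sol.DPRM

namespace Pool.Agent.Helper685.Sol

open Dio (dprm)

/-- the standard structure -/
def repr4_N : Str ℕ := ⟨0, Nat.succ, fun a b => a + b, fun a b => a * b⟩

def repr4_q (a b : ℕ) : ℕ := (a + b) * (a + b) + a

def repr4_d (n : ℕ) : ℕ × ℕ :=
  (n - Nat.sqrt n * Nat.sqrt n, Nat.sqrt n - (n - Nat.sqrt n * Nat.sqrt n))

theorem repr4_d_q (a b : ℕ) : repr4_d (repr4_q a b) = (a, b) := by
  unfold repr4_d repr4_q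
  rw [Nat.sqrt_add_eq (a + b) (by omega)]
  ext
  · simp
  · simp

theorem repr4_d_prim : Primrec repr4_d := by
  have h1 : Primrec (fun n : ℕ => n - Nat.sqrt n * Nat.sqrt n) :=
    Primrec.nat_sub.comp Primrec.id (Primrec.nat_mul.comp Primrec.nat_sqrt Primrec.nat_sqrt)
  exact Primrec.pair h1 (Primrec.nat_sub.comp Primrec.nat_sqrt h1)

def repr4_q4 (z : ℕ × ℕ × ℕ × ℕ) : ℕ :=
  repr4_q z.1 (repr4_q z.2.1 (repr4_q z.2.2.1 z.2.2.2))

def repr4_d4 (n : ℕ) : ℕ × ℕ × ℕ × ℕ :=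
  ((repr4_d n).1, (repr4_d (repr4_d n).2).1, repr4_d (repr4_d (repr4_d n).2).2)

theorem repr4_d4_q4 (z : ℕ × ℕ × ℕ × ℕ) : repr4_d4 (repr4_q4 z) = z := by
  obtain ⟨x, e1, e2, e3⟩ := z
  simp only [repr4_d4, repr4_q4, repr4_d_q]

theorem repr4_d4_comp : Computable repr4_d4 := by
  have h1 : Primrec (fun n => (repr4_d n).2) := Primrec.snd.comp repr4_d_prim
  have h2 : Primrec (fun n => repr4_d (repr4_d n).2) := repr4_d_prim.comp h1
  exact (Primrec.pair (Primrec.fst.comp repr4_d_prim)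
    (Primrec.pair (Primrec.fst.comp h2) (repr4_d_prim.comp (Primrec.snd.comp h2)))).to_comp

theorem repr4_num (k : ℕ) : ∃ t : Tm, ∀ u : ℕ → ℕ, t.val repr4_N u = k := by
  induction k with
  | zero => exact ⟨.zero, fun _ => rfl⟩
  | succ k ih =>
    obtain ⟨t, h2⟩ := ih
    exact ⟨.succ t, fun u => by
      show Nat.succ (t.val repr4_N u) = _
      rw [h2]⟩

theorem repr4_poly {α : Type} {f : (α → ℕ) → ℤ} (hf : IsPoly f) (ρ : α → ℕ) :
    ∃ s t : Tm, ∀ u : ℕ → ℕ, f (fun a => u (ρ a)) =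
      ((s.val repr4_N u : ℕ) : ℤ) - ((t.val repr4_N u : ℕ) : ℤ) := by
  induction hf with
  | proj i => exact ⟨.var (ρ i), .zero, fun u => by simp [Tm.val, repr4_N]⟩
  | const n =>
    obtain ⟨s, hs2⟩ := repr4_num n.toNat
    obtain ⟨t, ht2⟩ := repr4_num (-n).toNat
    exact ⟨s, t, fun u => by rw [hs2, ht2]; exact (Int.toNat_sub_toNat_neg n).symm⟩
  | sub hf hg ih1 ih2 =>
    obtain ⟨s1, t1, h1⟩ := ih1
    obtain ⟨s2, t2, h2⟩ := ih2
    refine ⟨.add s1 t2, .add t1 s2, fun u => ?_⟩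
    have e1 : (Tm.add s1 t2).val repr4_N u = s1.val repr4_N u + t2.val repr4_N u := rfl
    have e2 : (Tm.add t1 s2).val repr4_N u = t1.val repr4_N u + s2.val repr4_N u := rfl
    rw [e1, e2]
    simp only [h1, h2]
    push_cast
    ring
  | mul hf hg ih1 ih2 =>
    obtain ⟨s1, t1, h1⟩ := ih1
    obtain ⟨s2, t2, h2⟩ := ih2
    refine ⟨.add (.mul s1 s2) (.mul t1 t2), .add (.mul s1 t2) (.mul t1 s2), fun u => ?_⟩
    have e1 : (Tm.add (.mul s1 s2) (.mul t1 t2)).val repr4_N u =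
      s1.val repr4_N u * s2.val repr4_N u + t1.val repr4_N u * t2.val repr4_N u := rfl
    have e2 : (Tm.add (.mul s1 t2) (.mul t1 s2)).val repr4_N u =
      s1.val repr4_N u * t2.val repr4_N u + t1.val repr4_N u * s2.val repr4_N u := rfl
    rw [e1, e2]
    simp only [h1, h2]
    push_cast
    ring

theorem repr4_fin {α : Type} {f : (α → ℕ) → ℤ} (hf : IsPoly f) :
    ∃ L : List α, ∀ v v' : α → ℕ, (∀ a ∈ L, v a = v' a) → f v = f v' := by
  induction hf with
  | proj i => exact ⟨[i], fun v v' h => by simp [h i (by simp)]⟩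
  | const n => exact ⟨[], fun _ _ _ => rfl⟩
  | sub _ _ ih1 ih2 =>
    obtain ⟨L1, h1⟩ := ih1
    obtain ⟨L2, h2⟩ := ih2
    exact ⟨L1 ++ L2, fun v v' h => by
      simp only [h1 v v' fun a ha => h a (by simp [ha]), h2 v v' fun a ha => h a (by simp [ha])]⟩
  | mul _ _ ih1 ih2 =>
    obtain ⟨L1, h1⟩ := ih1
    obtain ⟨L2, h2⟩ := ih2
    exact ⟨L1 ++ L2, fun v v' h => by
      simp only [h1 v v' fun a ha => h a (by simp [ha]), h2 v v' fun a ha => h a (by simp [ha])]⟩

theorem repr4_dioph {p : ℕ → Prop} (hp : REPred p) :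
    ∃ (r : ℕ) (s t : Tm), ∀ n, p n ↔ ∃ τ : ℕ → ℕ,
      s.val repr4_N (fun i => if i < r then τ i else n) =
        t.val repr4_N (fun i => if i < r then τ i else n) := by
  classical
  obtain ⟨β, P, hP⟩ := dprm hp
  obtain ⟨L, hL⟩ := repr4_fin P.isPoly
  have hix : ∀ b : β, ∃ k : ℕ, (Sum.inr b : Unit ⊕ β) ∈ L → ∃ h : k < L.length,
      L[k] = Sum.inr b := by
    intro b
    by_cases hb : (Sum.inr b : Unit ⊕ β) ∈ L
    · obtain ⟨k, hk, hk2⟩ := List.mem_iff_getElem.1 hb
      exact ⟨k, fun _ => ⟨hk, hk2⟩⟩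
    · exact ⟨0, fun h => absurd h hb⟩
  choose ix hix using hix
  obtain ⟨ρ, hρ1, hρ2⟩ : ∃ ρ : Unit ⊕ β → ℕ, (∀ a, ρ (.inl a) = L.length) ∧
      ∀ b, ρ (.inr b) = ix b :=
    ⟨Sum.elim (fun _ => L.length) (fun b => ix b), fun _ => rfl, fun _ => rfl⟩
  obtain ⟨s, t, hst⟩ := repr4_poly P.isPoly ρ
  refine ⟨L.length, s, t, fun n => ?_⟩
  have h1 := hP (fun _ => n)
  have key : ∀ τ : ℕ → ℕ, (s.val repr4_N (fun i => if i < L.length then τ i else n) =
      t.val repr4_N (fun i => if i < L.length then τ i else n)) ↔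
      P (fun a => if ρ a < L.length then τ (ρ a) else n) = 0 := by
    intro τ
    have h2 : P (fun a => if ρ a < L.length then τ (ρ a) else n) =
        ((s.val repr4_N (fun i => if i < L.length then τ i else n) : ℕ) : ℤ) -
          ((t.val repr4_N (fun i => if i < L.length then τ i else n) : ℕ) : ℤ) :=
      hst (fun i => if i < L.length then τ i else n)
    rw [h2, sub_eq_zero]
    exact Nat.cast_inj.symm
  constructor
  · intro hpn
    obtain ⟨t', ht'⟩ := h1.1 hpn
    refine ⟨fun i => if h : i < L.length then Sum.elim (fun _ => n) t' L[i] else 0, (key _).2 ?_⟩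
    rw [← ht']
    apply hL
    rintro (a | b) hab
    · rw [hρ1]
      simp
    · obtain ⟨h3, h4⟩ := hix b hab
      rw [hρ2, if_pos h3, dif_pos h3, h4]
  · rintro ⟨τ, hτ⟩
    apply h1.2
    refine ⟨fun b => if ρ (.inr b) < L.length then τ (ρ (.inr b)) else n, ?_⟩
    rw [← (key τ).1 hτ]
    congr 1
    funext a
    rcases a with a | b
    · rw [hρ1]
      simp
    · rfl

def repr4_bx : ℕ → ℕ → Fm → Fm
  | _, 0, g => g
  | k, r + 1, g => Fm.bex (.var k) (repr4_bx (k + 1) r g)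

theorem repr4_bx_D0 (r k : ℕ) {g : Fm} (hg : IsD0 g) : IsD0 (repr4_bx k r g) := by
  induction r generalizing k with
  | zero => exact hg
  | succ r ih => exact IsD0.bex _ (ih (k + 1))

theorem repr4_bex {M : Type} (S : Str M) (k : ℕ) (f : Fm) (v : ℕ → M) :
    (Fm.bex (.var k) f).sat S v ↔ ∃ a, S.le a (v k) ∧ f.sat S (cns a v) := Iff.rfl

def repr4_app {M : Type} (r : ℕ) (τ v : ℕ → M) (i : ℕ) : M := if i < r then τ i else v (i - r)

theorem repr4_app_succ {M : Type} (r : ℕ) (τ v : ℕ → M) :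
    repr4_app (r + 1) τ v = repr4_app r τ (cns (τ r) v) := by
  funext i
  unfold repr4_app
  rcases lt_trichotomy i r with h | h | h
  · rw [if_pos (by omega), if_pos h]
  · subst h
    rw [if_pos (by omega), if_neg (by omega), Nat.sub_self]
    rfl
  · rw [if_neg (by omega), if_neg (by omega)]
    have e : i - r = (i - (r + 1)) + 1 := by omega
    rw [e]
    rfl

theorem repr4_app_congr {M : Type} (r : ℕ) {τ τ' : ℕ → M} (v : ℕ → M) (h : ∀ i < r, τ i = τ' i) :
    repr4_app r τ v = repr4_app r τ' v := by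
  funext i
  unfold repr4_app
  split_ifs with hi
  · exact h i hi
  · rfl

theorem repr4_bx_sat {M : Type} (S : Str M) (g : Fm) : ∀ (r k : ℕ) (v : ℕ → M),
    (repr4_bx k r g).sat S v ↔
      ∃ τ : ℕ → M, (∀ i < r, S.le (τ i) (v k)) ∧ g.sat S (repr4_app r τ v) := by
  intro r
  induction r with
  | zero =>
    intro k v
    have e : ∀ τ : ℕ → M, repr4_app 0 τ v = v := fun τ => by funext i; simp [repr4_app]
    constructor
    · intro h
      refine ⟨v, by simp, ?_⟩
      rw [e]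
      exact h
    · rintro ⟨τ, -, h⟩
      rw [e] at h
      exact h
  | succ r ih =>
    intro k v
    show (Fm.bex (.var k) (repr4_bx (k + 1) r g)).sat S v ↔ _
    rw [repr4_bex]
    constructor
    · rintro ⟨a, ha, h⟩
      obtain ⟨τ, h1, h2⟩ := (ih (k + 1) (cns a v)).1 h
      refine ⟨fun i => if i < r then τ i else a, ?_, ?_⟩
      · intro i hi
        show S.le (if i < r then τ i else a) (v k)
        by_cases h : i < r
        · rw [if_pos h]
          exact h1 i h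
        · rw [if_neg h]
          exact ha
      · rw [repr4_app_succ]
        simp only [lt_self_iff_false, if_false]
        rw [repr4_app_congr r (τ' := τ) (cns a v) (fun i hi => if_pos hi)]
        exact h2
    · rintro ⟨τ, h1, h2⟩
      refine ⟨τ r, h1 r (by omega), (ih (k + 1) _).2 ⟨τ, fun i hi => h1 i (by omega), ?_⟩⟩
      rw [← repr4_app_succ]
      exact h2

def repr4_sub (σ : ℕ → Tm) : Tm → Tm
  | .var i => σ i
  | .zero => .zero
  | .succ t => .succ (repr4_sub σ t)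
  | .add s t => .add (repr4_sub σ s) (repr4_sub σ t)
  | .mul s t => .mul (repr4_sub σ s) (repr4_sub σ t)

theorem repr4_sub_val {M : Type} (S : Str M) (v : ℕ → M) (σ : ℕ → Tm) (t : Tm) :
    (repr4_sub σ t).val S v = t.val S (fun i => (σ i).val S v) := by
  induction t with
  | var i => rfl
  | zero => rfl
  | succ t ih => simp [repr4_sub, Tm.val, ih]
  | add s t ih1 ih2 => simp [repr4_sub, Tm.val, ih1, ih2]
  | mul s t ih1 ih2 => simp [repr4_sub, Tm.val, ih1, ih2]

theorem repr4_val_num {M : Type} {S : Str M} (hS : IsPA S) (u : ℕ → ℕ) (t : Tm) :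
    t.val S (fun i => S.num (u i)) = S.num (t.val repr4_N u) := by
  induction t with
  | var i => rfl
  | zero => rfl
  | succ t ih =>
    show S.succ (t.val S (fun i => S.num (u i))) = S.succ (S.num (t.val repr4_N u))
    rw [ih]
  | add s t ih1 ih2 =>
    show S.add (s.val S (fun i => S.num (u i))) (t.val S (fun i => S.num (u i))) =
      S.num (s.val repr4_N u + t.val repr4_N u)
    rw [ih1, ih2, num_add hS]
  | mul s t ih1 ih2 =>
    show S.mul (s.val S (fun i => S.num (u i))) (t.val S (fun i => S.num (u i))) =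
      S.num (s.val repr4_N u * t.val repr4_N u)
    rw [ih1, ih2, num_mul hS]

def repr4_qT (a b : Tm) : Tm := .add (.mul (.add a b) (.add a b)) a

theorem repr4_qT_val {M : Type} {S : Str M} (hS : IsPA S) (v : ℕ → M) {a b : Tm} {x y : ℕ}
    (ha : a.val S v = S.num x) (hb : b.val S v = S.num y) :
    (repr4_qT a b).val S v = S.num (repr4_q x y) := by
  show S.add (S.mul (S.add (a.val S v) (b.val S v)) (S.add (a.val S v) (b.val S v))) (a.val S v) = _
  rw [ha, hb, ← num_add hS, ← num_mul hS, ← num_add hS]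
  rfl

def repr4_sg (r : ℕ) (i : ℕ) : Tm := if i < r then .var i else
  repr4_qT (.var (r + 1)) (repr4_qT (.var (r + 2)) (repr4_qT (.var (r + 3)) (.var (r + 4))))

theorem repr4_app_ge {M : Type} (r : ℕ) (τ v : ℕ → M) (j : ℕ) : repr4_app r τ v (r + j) = v j := by
  unfold repr4_app
  rw [if_neg (by omega), Nat.add_sub_cancel_left]

theorem repr4_key {M : Type} {S : Str M} (hS : IsPA S) (r : ℕ) (τ : ℕ → M) (τ0 : ℕ → ℕ)
    (hτ : ∀ i < r, τ i = S.num (τ0 i)) (v : ℕ → M) (m x e1 e2 e3 : ℕ) (t : Tm) :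
    (repr4_sub (repr4_sg r) t).val S (repr4_app r τ (cns (S.num m) (cns (S.num x) (cns (S.num e1)
      (cns (S.num e2) (cns (S.num e3) v)))))) =
      S.num (t.val repr4_N (fun i => if i < r then τ0 i else repr4_q4 (x, e1, e2, e3))) := by
  rw [repr4_sub_val, ← repr4_val_num hS]
  congr 1
  funext i
  by_cases hi : i < r
  · simp only [repr4_sg, if_pos hi]
    show repr4_app r τ _ i = _
    unfold repr4_app
    rw [if_pos hi, hτ i hi]
  · simp only [repr4_sg, if_neg hi]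
    exact repr4_qT_val hS _ (repr4_app_ge r τ _ 1) (repr4_qT_val hS _ (repr4_app_ge r τ _ 2)
      (repr4_qT_val hS _ (repr4_app_ge r τ _ 3) (repr4_app_ge r τ _ 4)))

/-- representation of recursively enumerable sets, absolute for standard arguments -/
theorem repr4 {p : ℕ × ℕ × ℕ × ℕ → Prop} (hp : REPred p) :
    ∃ (W : Fm) (w : ℕ → ℕ × ℕ × ℕ × ℕ → Prop), IsD0 W ∧
      (∀ (M : Type) (S : Str M), IsPA S → ∀ (v : ℕ → M) (m x e1 e2 e3 : ℕ),
        (W.sat S (cns (S.num m) (cns (S.num x) (cns (S.num e1) (cns (S.num e2)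
          (cns (S.num e3) v))))) ↔ w m (x, e1, e2, e3))) ∧
      (∀ m m' z, m ≤ m' → w m z → w m' z) ∧ ∀ z, p z ↔ ∃ m, w m z := by
  have hp' : REPred (fun n => p (repr4_d4 n)) := Partrec.comp hp repr4_d4_comp
  obtain ⟨r, s, t, hst⟩ := repr4_dioph hp'
  refine ⟨repr4_bx 0 r (.eq (repr4_sub (repr4_sg r) s) (repr4_sub (repr4_sg r) t)),
    fun m z => ∃ τ : ℕ → ℕ, (∀ i < r, τ i ≤ m) ∧
      s.val repr4_N (fun i => if i < r then τ i else repr4_q4 z) =
        t.val repr4_N (fun i => if i < r then τ i else repr4_q4 z), ?_, ?_, ?_, ?_⟩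
  · exact repr4_bx_D0 r 0 (.eq _ _)
  · intro M S hS v m x e1 e2 e3
    rw [repr4_bx_sat]
    constructor
    · rintro ⟨τ, h1, h2⟩
      have h3 : ∀ i, ∃ k, i < r → k ≤ m ∧ τ i = S.num k := by
        intro i
        by_cases hi : i < r
        · obtain ⟨k, hk1, hk2⟩ := (le_num hS).1 (h1 i hi)
          exact ⟨k, fun _ => ⟨hk1, hk2⟩⟩
        · exact ⟨0, fun h => absurd h hi⟩
      choose τ0 hτ0 using h3
      refine ⟨τ0, fun i hi => (hτ0 i hi).1, ?_⟩
      have h4 : (repr4_sub (repr4_sg r) s).val S _ = (repr4_sub (repr4_sg r) t).val S _ := h2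
      rw [repr4_key hS r τ τ0 (fun i hi => (hτ0 i hi).2),
        repr4_key hS r τ τ0 (fun i hi => (hτ0 i hi).2)] at h4
      exact num_inj hS h4
    · rintro ⟨τ0, h1, h2⟩
      refine ⟨fun i => S.num (τ0 i), fun i hi => (le_num hS).2 ⟨τ0 i, h1 i hi, rfl⟩, ?_⟩
      show (repr4_sub (repr4_sg r) s).val S _ = (repr4_sub (repr4_sg r) t).val S _
      rw [repr4_key hS r _ τ0 (fun i hi => rfl), repr4_key hS r _ τ0 (fun i hi => rfl), h2]
  · rintro m m' z hm ⟨τ, h1, h2⟩
    exact ⟨τ, fun i hi => (h1 i hi).trans hm, h2⟩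
  · intro z
    have h1 := hst (repr4_q4 z)
    simp only [repr4_d4_q4] at h1
    rw [h1]
    constructor
    · rintro ⟨τ, h⟩
      exact ⟨∑ i ∈ Finset.range r, τ i, τ, fun i hi =>
        Finset.single_le_sum (fun _ _ => Nat.zero_le _) (Finset.mem_range.2 hi), h⟩
    · rintro ⟨m, τ, -, h⟩
      exact ⟨τ, h⟩


end Pool.Agent.Helper685.Sol
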