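import Pool.Agent.Helper685.Sol.Clos

namespace Pool.Agent.Helper685.Sol

/-- shift of a term -/
def cxsh (t : Tm) : Tm := t.ren (· + 1)

@[simp] theorem cx_val_sh {M : Type} (S : Str M) (x : M) (v : ℕ → M) (t : Tm) :
    (cxsh t).val S (cns x v) = t.val S v := by
  rw [cxsh, Tm.val_ren]
  rfl

@[simp] theorem cx_cns_zero {M : Type} (x : M) (v : ℕ → M) : cns x v 0 = x := rfl

@[simp] theorem cx_cns_succ {M : Type} (x : M) (v : ℕ → M) (n : ℕ) : cns x v (n + 1) = v n := rfl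

theorem cx_cns_one {M : Type} (x : M) (v : ℕ → M) : cns x v 1 = v 0 := rfl
theorem cx_cns_two {M : Type} (x : M) (v : ℕ → M) : cns x v 2 = v 1 := rfl
theorem cx_cns_three {M : Type} (x : M) (v : ℕ → M) : cns x v 3 = v 2 := rfl
theorem cx_cns_four {M : Type} (x : M) (v : ℕ → M) : cns x v 4 = v 3 := rfl
theorem cx_cns_five {M : Type} (x : M) (v : ℕ → M) : cns x v 5 = v 4 := rfl
theorem cx_cns_six {M : Type} (x : M) (v : ℕ → M) : cns x v 6 = v 5 := rfl

/-- numerals -/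
def cxnum : ℕ → Tm
  | 0 => .zero
  | n + 1 => .succ (cxnum n)

@[simp] theorem cx_val_num {M : Type} (S : Str M) (v : ℕ → M) (n : ℕ) :
    (cxnum n).val S v = S.num n := by
  induction n with
  | zero => rfl
  | succ n ih => simp [cxnum, Tm.val, Str.num, ih]

theorem cx_le_of_add {M : Type} {S : Str M} (hS : IsPA S) {z a b : M} (h : S.add z a = b) :
    S.le z b := by
  obtain ⟨i1, i2, i3, i4, h0, h1, hadd, hmul, hlt1, hle, hlt, hnum⟩ := exists_alg hS
  rw [hle, ← h, ← hadd]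
  exact le_self_add

theorem cx_le_of_mul {M : Type} {S : Str M} (hS : IsPA S) {q m y c : M}
    (h : c = S.add (S.mul q (S.succ m)) y) : S.le q c := by
  obtain ⟨i1, i2, i3, i4, h0, h1, hadd, hmul, hlt1, hle, hlt, hnum⟩ := exists_alg hS
  rw [hle, h, ← hadd, ← hmul, ← h1]
  have e : q * (m + 1) + y = q + (q * m + y) := by ring
  rw [e]
  exact le_self_add

theorem cx_le_of_lt {M : Type} {S : Str M} (hS : IsPA S) {x y : M} (h : S.lt x y) : S.le x y := by
  obtain ⟨i1, i2, i3, i4, h0, h1, hadd, hmul, hlt1, hle, hlt, hnum⟩ := exists_alg hS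
  rw [hle]
  exact ((hlt _ _).1 h).le

theorem d0P_lt (s t : Tm) : D0P (fun _ S v => S.lt (s.val S v) (t.val S v)) := by
  refine ((D0P.eq (.add (.var 0) (.succ (cxsh s))) (cxsh t)).bex t).congr ?_
  intro M S hS v
  simp only [Tm.val, cx_val_sh, cx_cns_zero]
  constructor
  · rintro ⟨z, -, h⟩
    exact ⟨z, h⟩
  · rintro ⟨z, h⟩
    exact ⟨z, cx_le_of_add hS h, h⟩

theorem d0P_ent (c d i y : Tm) :
    D0P (fun _ S v => S.Ent (c.val S v) (d.val S v) (i.val S v) (y.val S v)) := by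
  refine (((D0P.eq (cxsh c) (.add (.mul (.var 0) (.succ (.mul (.succ (cxsh i)) (cxsh d))))
    (cxsh y))).bex c).and (d0P_lt y (.succ (.mul (.succ i) d)))).congr ?_
  intro M S hS v
  simp only [Tm.val, cx_val_sh, cx_cns_zero]
  unfold Str.Ent Str.md
  refine and_congr ?_ Iff.rfl
  constructor
  · rintro ⟨q, -, h⟩
    exact ⟨q, h⟩
  · rintro ⟨q, h⟩
    exact ⟨q, cx_le_of_mul hS h, h⟩

theorem cx_instr (c d op a b r : Tm) :
    D0P (fun _ S v => Instr S (c.val S v) (d.val S v) (op.val S v) (a.val S v) (b.val S v)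
      (r.val S v)) := by
  let s3 : Tm → Tm := fun t => cxsh (cxsh (cxsh t))
  have e1 := d0P_ent (s3 c) (s3 d) (s3 a) (.var 2)
  have e2 := d0P_ent (s3 c) (s3 d) (s3 b) (.var 1)
  have e3 := d0P_ent (s3 c) (s3 d) (s3 r) (.var 0)
  have q0 := (D0P.eq (s3 op) (cxnum 0)).and (D0P.eq (.var 0) (.add (.var 2) (.var 1)))
  have q1 := (D0P.eq (s3 op) (cxnum 1)).and (D0P.eq (.var 0) (.mul (.var 2) (.var 1)))
  have q2 := (D0P.eq (s3 op) (cxnum 2)).and (D0P.eq (.var 0) (.succ (.var 2)))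
  have q3 := (D0P.eq (s3 op) (cxnum 3)).and (D0P.eq (.var 0) .zero)
  have q4 := (D0P.eq (s3 op) (cxnum 4)).and (D0P.eq (.var 0) (.var 2))
  have body := e1.and (e2.and (e3.and (q0.or (q1.or (q2.or (q3.or q4))))))
  refine (((body.bex (cxsh (cxsh c))).bex (cxsh c)).bex c).congr ?_
  intro M S hS v
  simp only [s3, Tm.val, cx_val_sh, cx_cns_zero, cx_cns_one, cx_cns_two, cx_val_num]
  unfold Instr
  constructor
  · rintro ⟨x, -, y, -, z, -, h⟩
    exact ⟨x, y, z, h⟩
  · rintro ⟨x, y, z, h⟩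
    exact ⟨x, ent_le hS h.1, y, ent_le hS h.2.1, z, ent_le hS h.2.2.1, h⟩

theorem cx_run (e1 e2 L c d : Tm) :
    D0P (fun _ S v => Run S (e1.val S v) (e2.val S v) (L.val S v) (c.val S v) (d.val S v)) := by
  let s5 : Tm → Tm := fun t => cxsh (cxsh (cxsh (cxsh (cxsh t))))
  have f1 := d0P_ent (s5 e1) (s5 e2) (.mul (cxnum 4) (.var 4)) (.var 3)
  have f2 := d0P_ent (s5 e1) (s5 e2) (.add (.mul (cxnum 4) (.var 4)) (cxnum 1)) (.var 2)
  have f3 := d0P_ent (s5 e1) (s5 e2) (.add (.mul (cxnum 4) (.var 4)) (cxnum 2)) (.var 1)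
  have f4 := d0P_ent (s5 e1) (s5 e2) (.add (.mul (cxnum 4) (.var 4)) (cxnum 3)) (.var 0)
  have f5 := cx_instr (s5 c) (s5 d) (.var 3) (.var 2) (.var 1) (.var 0)
  have body := f1.and (f2.and (f3.and (f4.and f5)))
  have ex4 := (((body.bex (cxsh (cxsh (cxsh (cxsh e1))))).bex (cxsh (cxsh (cxsh e1)))).bex
    (cxsh (cxsh e1))).bex (cxsh e1)
  have lt := (d0P_lt (.var 0) (cxsh L)).not
  refine ((lt.or ex4).ball L).congr ?_
  intro M S hS v
  simp only [s5, Tm.val, cx_val_sh, cx_cns_zero, cx_cns_one, cx_cns_two, cx_cns_three,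
    cx_cns_four, cx_val_num]
  unfold Run
  constructor
  · intro h i hi
    rcases h i (cx_le_of_lt hS hi) with h1 | h1
    · exact absurd hi h1
    · obtain ⟨op, -, a, -, b, -, r, -, h2⟩ := h1
      exact ⟨op, a, b, r, h2⟩
  · intro h i hi
    by_cases hlt : S.lt i (L.val S v)
    · obtain ⟨op, a, b, r, h2⟩ := h i hlt
      exact Or.inr ⟨op, ent_le hS h2.1, a, ent_le hS h2.2.1, b, ent_le hS h2.2.2.1, r,
        ent_le hS h2.2.2.2.1, h2⟩
    · exact Or.inl hlt

theorem cx_link (L c d c' d' : Tm) :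
    D0P (fun _ S v => Link S (L.val S v) (c.val S v) (d.val S v) (c'.val S v) (d'.val S v)) := by
  let s2 : Tm → Tm := fun t => cxsh (cxsh t)
  have f1 := d0P_ent (s2 c) (s2 d) (.var 1) (.var 0)
  have f2 := d0P_ent (s2 c') (s2 d') (.add (.mul (cxnum 2) (.var 1)) (cxnum 1)) (.var 0)
  have ex1 := (f1.and f2).bex (cxsh c)
  have lt := (d0P_lt (.var 0) (cxsh L)).not
  refine ((lt.or ex1).ball L).congr ?_
  intro M S hS v
  simp only [s2, Tm.val, cx_val_sh, cx_cns_zero, cx_cns_one, cx_val_num]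
  unfold Link
  constructor
  · intro h j hj
    rcases h j (cx_le_of_lt hS hj) with h1 | h1
    · exact absurd hj h1
    · obtain ⟨x, -, h2⟩ := h1
      exact ⟨x, h2⟩
  · intro h j hj
    by_cases hlt : S.lt j (L.val S v)
    · obtain ⟨x, h2⟩ := h j hlt
      exact Or.inr ⟨x, ent_le hS h2.1, h2⟩
    · exact Or.inl hlt

/-- the renaming used in the induction step -/
def cxrho : ℕ → ℕ
  | 0 => 2
  | 1 => 3
  | 2 => 4
  | 3 => 1
  | _ => 0

/-- variables: 0 = e1, 1 = e2, 2 = L, 3 = c, 4 = d -/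
theorem sig_UP (n : ℕ) (hn : 1 ≤ n) :
    SigP n (fun _ S v => UP S (v 0) (v 1) (v 2) n (v 3) (v 4)) := by
  have link := cx_link (.var 4) (.var 5) (.var 6) (.var 1) (.var 0)
  induction n, hn using Nat.le_induction with
  | base =>
    have run := ((cx_run (.var 2) (.var 3) (.var 4) (.var 1) (.var 0)).not).not
    have body := (link.and run).sig 1
    refine (body.ex.ex).congr ?_
    intro M S hS v
    simp only [Tm.val, cx_cns_zero, cx_cns_one, cx_cns_two, cx_cns_three, cx_cns_four,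
      cx_cns_five, cx_cns_six]
    rfl
  | succ n hn ih =>
    have up := ((ih.not).ren cxrho).sig
    have body := (link.sig (n + 1)).and up
    refine (body.ex.ex).congr ?_
    intro M S hS v
    simp only [Tm.val, cxrho, cx_cns_zero, cx_cns_one, cx_cns_two, cx_cns_three, cx_cns_four,
      cx_cns_five, cx_cns_six]
    rfl

end Pool.Agent.Helper685.Sol
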