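import Pool.Agent.Helper685.Sol.DDefs
import Pool.Agent.Helper685.Sol.Pend
import Pool.Agent.Helper685.Sol.Flat
import Pool.Agent.Helper685.Sol.SigUP

namespace Pool.Agent.Helper685.Sol

theorem dg_dec_nand (a b : ℕ) : dec (cNand a b) = .nand (dec a) (dec b) := by
  have h5 : (7 * Nat.pair a b + 5) % 7 = 5 := by omega
  have hd : (7 * Nat.pair a b + 5) / 7 = Nat.pair a b := by omega
  unfold cNand
  rw [dec]
  simp only [h5, hd, Nat.unpair_pair]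
  simp

/-- negation of codes -/
def dgNeg (a : ℕ) : ℕ := cNand a a

/-- conjunction of codes -/
def dgConj (a b : ℕ) : ℕ := cNand (cNand a b) (cNand a b)

theorem dg_neg_sat {M : Type} (S : Str M) (v : ℕ → M) (a : ℕ) :
    (dec (dgNeg a)).sat S v ↔ ¬ (dec a).sat S v := by
  unfold dgNeg
  rw [dg_dec_nand]
  simp only [RF.sat]
  tauto

theorem dg_conj_sat {M : Type} (S : Str M) (v : ℕ → M) (a b : ℕ) :
    (dec (dgConj a b)).sat S v ↔ (dec a).sat S v ∧ (dec b).sat S v := by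
  unfold dgConj
  rw [dg_dec_nand, dg_dec_nand]
  simp only [RF.sat]
  tauto

theorem dg_prim_cNand : Primrec₂ cNand := by
  show Primrec fun p : ℕ × ℕ => 7 * Nat.pair p.1 p.2 + 5
  exact Primrec.nat_add.comp (Primrec.nat_mul.comp (Primrec.const 7)
    (Primrec₂.natPair.comp Primrec.fst Primrec.snd)) (Primrec.const 5)

theorem dg_prim_conj {f g : ℕ → ℕ} (hf : Primrec f) (hg : Primrec g) :
    Primrec fun x => dgConj (f x) (g x) :=
  dg_prim_cNand.comp (dg_prim_cNand.comp hf hg) (dg_prim_cNand.comp hf hg)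

theorem dg_prim_neg {f : ℕ → ℕ} (hf : Primrec f) : Primrec fun x => dgNeg (f x) :=
  dg_prim_cNand.comp hf hf

theorem dg_re {q : ℕ → ℕ} (hq : Primrec q) : REPred (fun z : ℕ × ℕ × ℕ × ℕ =>
    Incon (q z.1) z.1 z.2.1 z.2.2.1 z.2.2.2) := by
  have hf : Computable (fun z : ℕ × ℕ × ℕ × ℕ => (q z.1, z)) :=
    ((hq.comp Primrec.fst).pair Primrec.id).to_comp
  exact Partrec.comp re_incon hf

theorem dg_lt_sig (s t : Tm) (n : ℕ) : SigP n (fun _ S v => S.lt (s.val S v) (t.val S v)) :=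
  (d0P_lt s t).sig n

/-- the universal predicate with variables 1, 2, 3 -/
theorem dg_up (n : ℕ) (hn : 1 ≤ n) :
    SigP n (fun _ S v => UP S (v 1) (v 2) (v 3) n S.zero S.zero) := by
  obtain ⟨n', rfl⟩ : ∃ n', n = n' + 1 := ⟨n - 1, by omega⟩
  have h1 := (sig_UP (n' + 1) hn).ren (fun i => if i = 0 then 2 else if i = 1 then 3 else
    if i = 2 then 4 else 0)
  exact h1.num 0

/-- the predicates `A`, `B` -/
def dgA (W : Fm) (i : ℕ) (M : Type) (S : Str M) (m X : M) : Prop :=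
  ∃ e1 e2 e3 : M, S.lt e1 m ∧ S.lt e2 m ∧ S.lt e3 m ∧ UP S e1 e2 e3 i S.zero S.zero ∧
    W.sat S (cns m (cns X (cns e1 (cns e2 (cns e3 (fun _ => X))))))

theorem dg_A_sig (W : Fm) (hW : IsD0 W) (i : ℕ) (hi : 1 ≤ i) :
    SigP i (fun M S v => dgA W i M S (v 0) (v 1)) := by
  have hup := dg_up i hi
  obtain ⟨i', rfl⟩ : ∃ i', i = i' + 1 := ⟨i - 1, by omega⟩
  have hD : D0P (fun _ S v => W.sat S v) := ⟨W, hW, fun _ _ _ _ => Iff.rfl⟩
  have h1 := (hD.ren (fun i => if i = 0 then 3 else if i = 1 then 4 else if i = 2 then 2 else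
    if i = 3 then 1 else if i = 4 then 0 else 4)).sig (i' + 1)
  have h2 := hup.ren (fun i => if i = 1 then 2 else if i = 2 then 1 else 0)
  have h3 := dg_lt_sig (.var 2) (.var 3) (i' + 1)
  have h4 := dg_lt_sig (.var 1) (.var 3) (i' + 1)
  have h5 := dg_lt_sig (.var 0) (.var 3) (i' + 1)
  have h6 := (h3.and (h4.and (h5.and (h2.and h1)))).ex.ex.ex
  refine h6.congr fun M S _ v => ?_
  unfold dgA
  refine exists_congr fun e1 => exists_congr fun e2 => exists_congr fun e3 => ?_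
  refine and_congr Iff.rfl (and_congr Iff.rfl (and_congr Iff.rfl (and_congr Iff.rfl ?_)))
  have he : (fun i => (cns e3 (cns e2 (cns e1 v))) (if i = 0 then 3 else if i = 1 then 4 else
      if i = 2 then 2 else if i = 3 then 1 else if i = 4 then 0 else 4)) =
      cns (v 0) (cns (v 1) (cns e1 (cns e2 (cns e3 (fun _ => v 1))))) := by
    funext i
    rcases i with _ | _ | _ | _ | _ | i <;> rfl
  rw [he]

/-- `a ≤ b` is `a < b + 1` -/
theorem dg_le_iff {M : Type} {S : Str M} (hS : IsPA S) (x y : M) :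
    S.lt x (S.succ y) ↔ S.le x y := by
  obtain ⟨_, _, _, _, h0, h1, h2, h3, h4, h5, h6, h7⟩ := exists_alg hS
  rw [h6, h5, ← h1, h4]

/-- the inner predicate of `G1` -/
def dgI (W1 W2 : Fm) (n j : ℕ) (M : Type) (S : Str M) (m X : M) : Prop :=
  dgA W1 n M S m X ∧ ∀ m', S.le m' m → ¬ dgA W2 j M S m' X

theorem dg_I_sig (W1 W2 : Fm) (hW1 : IsD0 W1) (hW2 : IsD0 W2) (n j : ℕ) (hj : 1 ≤ j)
    (hjn : j < n) : SigP n (fun M S v => dgI W1 W2 n j M S (v 0) (v 1)) := by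
  have h1 := dg_A_sig W1 hW1 n (by omega)
  have h2 := dg_A_sig W2 hW2 j hj
  obtain ⟨j', rfl⟩ : ∃ j', j = j' + 1 := ⟨j - 1, by omega⟩
  have h3 := (h2.ren (fun i => if i = 0 then 0 else 2)).not
  have h4 := (d0P_lt (.var 0) (.succ (.var 1))).not.pi (j' + 1)
  have h5 := (h4.or h3).all.sig.mono (show j' + 1 + 1 ≤ n by omega)
  refine (h1.and h5).congr fun M S hS v => ?_
  refine and_congr Iff.rfl (forall_congr' fun m' => ?_)
  have h6 : S.lt m' (S.succ (v 0)) ↔ S.le m' (v 0) := dg_le_iff hS _ _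
  show (¬ S.lt m' (S.succ (v 0)) ∨ ¬ dgA W2 (j' + 1) M S m' (v 1)) ↔
    (S.le m' (v 0) → ¬ dgA W2 (j' + 1) M S m' (v 1))
  rw [h6]
  tauto

def dgG1 (W1 W2 : Fm) (n j : ℕ) (M : Type) (S : Str M) (X : M) : Prop :=
  ∃ m, dgI W1 W2 n j M S m X

def dgG2 (W1 W2 W3 : Fm) (n j : ℕ) (M : Type) (S : Str M) (X : M) : Prop :=
  ∃ m1, dgI W1 W2 n j M S m1 X ∧ ∃ m2, S.lt m2 m1 ∧ dgA W3 n M S m2 X

theorem dg_G1_sig (W1 W2 : Fm) (hW1 : IsD0 W1) (hW2 : IsD0 W2) (n j : ℕ) (hj : 1 ≤ j)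
    (hjn : j < n) : SigP n (fun M S v => dgG1 W1 W2 n j M S (v 0)) := by
  have h1 := dg_I_sig W1 W2 hW1 hW2 n j hj hjn
  obtain ⟨n', rfl⟩ : ∃ n', n = n' + 1 := ⟨n - 1, by omega⟩
  exact h1.ex

theorem dg_G2_sig (W1 W2 W3 : Fm) (hW1 : IsD0 W1) (hW2 : IsD0 W2) (hW3 : IsD0 W3) (n j : ℕ)
    (hj : 1 ≤ j) (hjn : j < n) : SigP n (fun M S v => dgG2 W1 W2 W3 n j M S (v 0)) := by
  have h1 := dg_I_sig W1 W2 hW1 hW2 n j hj hjn
  have h2 := dg_A_sig W3 hW3 n (by omega)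
  obtain ⟨n', rfl⟩ : ∃ n', n = n' + 1 := ⟨n - 1, by omega⟩
  have h3 := h2.ren (fun i => if i = 0 then 0 else 2)
  have h4 := ((dg_lt_sig (.var 0) (.var 1) (n' + 1)).and h3).ex
  exact (h1.and h4).ex

theorem dg_A_num {p : ℕ × ℕ × ℕ × ℕ → Prop} {W : Fm} {w : ℕ → ℕ × ℕ × ℕ × ℕ → Prop}
    (hw : ∀ (M : Type) (S : Str M), IsPA S → ∀ (v : ℕ → M) (m x e1 e2 e3 : ℕ),
        (W.sat S (cns (S.num m) (cns (S.num x) (cns (S.num e1) (cns (S.num e2)
          (cns (S.num e3) v))))) ↔ w m (x, e1, e2, e3))) (i x0 : ℕ)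
    (M : Type) (S : Str M) (hS : IsPA S) (m : ℕ) : dgA W i M S (S.num m) (S.num x0) ↔
    ∃ e1 < m, ∃ e2 < m, ∃ e3 < m,
      UP S (S.num e1) (S.num e2) (S.num e3) i S.zero S.zero ∧ w m (x0, e1, e2, e3) := by
  unfold dgA
  constructor
  · rintro ⟨e1, e2, e3, h1, h2, h3, h4, h5⟩
    obtain ⟨k1, hk1, rfl⟩ := (lt_num hS).1 h1
    obtain ⟨k2, hk2, rfl⟩ := (lt_num hS).1 h2
    obtain ⟨k3, hk3, rfl⟩ := (lt_num hS).1 h3
    exact ⟨k1, hk1, k2, hk2, k3, hk3, h4, (hw M S hS _ m x0 k1 k2 k3).1 h5⟩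
  · rintro ⟨k1, hk1, k2, hk2, k3, hk3, h4, h5⟩
    exact ⟨S.num k1, S.num k2, S.num k3, (lt_num hS).2 ⟨k1, hk1, rfl⟩,
      (lt_num hS).2 ⟨k2, hk2, rfl⟩, (lt_num hS).2 ⟨k3, hk3, rfl⟩, h4,
      (hw M S hS _ m x0 k1 k2 k3).2 h5⟩

/-- codes for predicates -/
theorem dg_code {n : ℕ} {P : Pred} (h : SigP n P) : ∃ c : ℕ, ∀ (M : Type) (S : Str M), IsPA S →
    ∀ v, ((dec c).sat S v ↔ P M S v) := by
  obtain ⟨f, -, hf⟩ := h
  obtain ⟨c, hc⟩ := flat f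
  exact ⟨c, fun M S hS v => (hc M S v).trans (hf M S hS v)⟩

theorem dg_incon {c x e1 e2 e3 : ℕ} {Q : ∀ M : Type, Str M → Prop}
    (h : ∀ (M : Type) (S : Str M), IsPA S → ∀ a, ((dec c).sat S (env4 S x e1 e2 e3 a) ↔ Q M S)) :
    Incon c x e1 e2 e3 ↔ ¬ ∃ (M : Type) (S : Str M), IsPA S ∧ Q M S := by
  unfold Incon
  refine not_congr (exists_congr fun M => exists_congr fun S => and_congr_right fun hS => ?_)
  constructor
  · rintro ⟨a, ha⟩
    exact (h M S hS a).1 ha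
  · intro hQ
    exact ⟨S.zero, (h M S hS _).2 hQ⟩

theorem exists_diag (n j : ℕ) (hj : 1 ≤ j) (hjn : j < n) : Nonempty (DiagData n j) := by
  obtain ⟨uN, huN⟩ := dg_code (dg_up n (by omega))
  obtain ⟨uJ, huJ⟩ := dg_code (dg_up j hj)
  have pl : Primrec fun x : ℕ => x.unpair.1 := Primrec.fst.comp Primrec.unpair
  have pr : Primrec fun x : ℕ => x.unpair.2 := Primrec.snd.comp Primrec.unpair
  have hq1 : Primrec fun x : ℕ => dgConj uN (dgConj x.unpair.1 (dgNeg x.unpair.2)) :=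
    dg_prim_conj (Primrec.const uN) (dg_prim_conj pl (dg_prim_neg pr))
  have hq2 : Primrec fun x : ℕ => dgConj uJ (dgNeg x.unpair.1) :=
    dg_prim_conj (Primrec.const uJ) (dg_prim_neg pl)
  have hq3 : Primrec fun x : ℕ => dgConj uN x.unpair.2 :=
    dg_prim_conj (Primrec.const uN) pr
  obtain ⟨W1, w1, hW1, hw1, hm1, hp1⟩ := repr4 (dg_re hq1)
  obtain ⟨W2, w2, hW2, hw2, hm2, hp2⟩ := repr4 (dg_re hq2)
  obtain ⟨W3, w3, hW3, hw3, hm3, hp3⟩ := repr4 (dg_re hq3)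
  have hs1 := dg_G1_sig W1 W2 hW1 hW2 n j hj hjn
  have hs2 := dg_G2_sig W1 W2 W3 hW1 hW2 hW3 n j hj hjn
  obtain ⟨g1, hg1⟩ := dg_code hs1
  obtain ⟨g2, hg2⟩ := dg_code hs2
  obtain ⟨x0, hx0⟩ : ∃ x0, x0 = Nat.pair g1 g2 := ⟨_, rfl⟩
  have hx1 : x0.unpair.1 = g1 := by rw [hx0, Nat.unpair_pair]
  have hx2 : x0.unpair.2 = g2 := by rw [hx0, Nat.unpair_pair]
  refine ⟨{
    P1 := fun M S => dgG1 W1 W2 n j M S (S.num x0)
    P2 := fun M S => dgG2 W1 W2 W3 n j M S (S.num x0)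
    A1 := fun M S m => dgA W1 n M S m (S.num x0)
    B := fun M S m => dgA W2 j M S m (S.num x0)
    A2 := fun M S m => dgA W3 n M S m (S.num x0)
    w1 := fun m e => w1 m (x0, e)
    w2 := fun m e => w2 m (x0, e)
    w3 := fun m e => w3 m (x0, e)
    sig1 := ?_
    sig2 := ?_
    P1_iff := fun M S _ => Iff.rfl
    P2_iff := fun M S _ => Iff.rfl
    A1_num := fun M S hS m => dg_A_num (p := fun _ => True) hw1 n x0 M S hS m
    B_num := fun M S hS m => dg_A_num (p := fun _ => True) hw2 j x0 M S hS m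
    A2_num := fun M S hS m => dg_A_num (p := fun _ => True) hw3 n x0 M S hS m
    mono1 := fun m m' e h h' => hm1 m m' _ h h'
    mono2 := fun m m' e h h' => hm2 m m' _ h h'
    mono3 := fun m m' e h h' => hm3 m m' _ h h'
    w1_iff := ?_
    w2_iff := ?_
    w3_iff := ?_ }⟩
  · obtain ⟨n', rfl⟩ : ∃ n', n = n' + 1 := ⟨n - 1, by omega⟩
    exact hs1.num x0
  · obtain ⟨n', rfl⟩ : ∃ n', n = n' + 1 := ⟨n - 1, by omega⟩
    exact hs2.num x0
  · intro e1 e2 e3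
    refine (hp1 (x0, e1, e2, e3)).symm.trans (dg_incon fun M S hS a => ?_)
    show (dec (dgConj uN (dgConj x0.unpair.1 (dgNeg x0.unpair.2)))).sat S _ ↔ _
    rw [dg_conj_sat, dg_conj_sat, dg_neg_sat, hx1, hx2, huN M S hS, hg1 M S hS, hg2 M S hS]
    exact Iff.rfl
  · intro e1 e2 e3
    refine (hp2 (x0, e1, e2, e3)).symm.trans (dg_incon fun M S hS a => ?_)
    show (dec (dgConj uJ (dgNeg x0.unpair.1))).sat S _ ↔ _
    rw [dg_conj_sat, dg_neg_sat, hx1, huJ M S hS, hg1 M S hS]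
    exact Iff.rfl
  · intro e1 e2 e3
    refine (hp3 (x0, e1, e2, e3)).symm.trans (dg_incon fun M S hS a => ?_)
    show (dec (dgConj uN x0.unpair.2)).sat S _ ↔ _
    rw [dg_conj_sat, hx2, huN M S hS, hg2 M S hS]
    exact Iff.rfl

end Pool.Agent.Helper685.Sol
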