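import Pool.Agent.Helper685.Sol.Defs

/-! # The numberings of terms, formulas and programs are injective -/

namespace Pool.Agent.Helper685.Sol

theorem Tm.code_inj : ∀ s t : Tm, s.code = t.code → s = t := by
  intro s
  induction s with
  | var i => intro t h; cases t <;> simp [Tm.code, Nat.pair_eq_pair] at h ⊢; exact h
  | zero => intro t h; cases t <;> simp [Tm.code, Nat.pair_eq_pair] at h ⊢
  | succ s ih =>
    intro t h
    cases t <;> simp [Tm.code, Nat.pair_eq_pair] at h ⊢
    exact ih _ h
  | add s s' ih ih' =>
    intro t h
    cases t <;> simp [Tm.code, Nat.pair_eq_pair] at h ⊢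
    exact ⟨ih _ h.1, ih' _ h.2⟩
  | mul s s' ih ih' =>
    intro t h
    cases t <;> simp [Tm.code, Nat.pair_eq_pair] at h ⊢
    exact ⟨ih _ h.1, ih' _ h.2⟩

theorem Fm.code_inj : ∀ f g : Fm, f.code = g.code → f = g := by
  intro f
  induction f with
  | eq s s' =>
    intro t h
    cases t <;> simp [Fm.code, Nat.pair_eq_pair] at h ⊢
    exact ⟨Tm.code_inj _ _ h.1, Tm.code_inj _ _ h.2⟩
  | neg s ih =>
    intro t h
    cases t <;> simp [Fm.code, Nat.pair_eq_pair] at h ⊢
    exact ih _ h
  | and s s' ih ih' =>
    intro t h
    cases t <;> simp [Fm.code, Nat.pair_eq_pair] at h ⊢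
    exact ⟨ih _ h.1, ih' _ h.2⟩
  | ex s ih =>
    intro t h
    cases t <;> simp [Fm.code, Nat.pair_eq_pair] at h ⊢
    exact ih _ h

theorem OCode.code_inj : ∀ f g : OCode, f.code = g.code → f = g := by
  intro f
  induction f with
  | zero => intro t h; cases t <;> simp [OCode.code, Nat.pair_eq_pair] at h ⊢
  | succ => intro t h; cases t <;> simp [OCode.code, Nat.pair_eq_pair] at h ⊢
  | left => intro t h; cases t <;> simp [OCode.code, Nat.pair_eq_pair] at h ⊢
  | right => intro t h; cases t <;> simp [OCode.code, Nat.pair_eq_pair] at h ⊢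
  | oracle => intro t h; cases t <;> simp [OCode.code, Nat.pair_eq_pair] at h ⊢
  | pair s s' ih ih' =>
    intro t h
    cases t <;> simp [OCode.code, Nat.pair_eq_pair] at h ⊢
    exact ⟨ih _ h.1, ih' _ h.2⟩
  | comp s s' ih ih' =>
    intro t h
    cases t <;> simp [OCode.code, Nat.pair_eq_pair] at h ⊢
    exact ⟨ih _ h.1, ih' _ h.2⟩
  | prec s s' ih ih' =>
    intro t h
    cases t <;> simp [OCode.code, Nat.pair_eq_pair] at h ⊢
    exact ⟨ih _ h.1, ih' _ h.2⟩
  | rfind s ih =>
    intro t h
    cases t <;> simp [OCode.code, Nat.pair_eq_pair] at h ⊢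
    exact ih _ h

open Classical in
/-- formulas are encodable, by their Godel numbers -/
noncomputable instance instEncFm : Encodable Fm where
  encode := Fm.code
  decode n := if h : ∃ f : Fm, f.code = n then some h.choose else none
  encodek f := by
    have h : ∃ g : Fm, g.code = f.code := ⟨f, rfl⟩
    rw [dif_pos h, Fm.code_inj _ _ h.choose_spec]

open Classical in
/-- terms are encodable, by their Godel numbers -/
noncomputable instance instEncTm : Encodable Tm where
  encode := Tm.code
  decode n := if h : ∃ f : Tm, f.code = n then some h.choose else none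
  encodek f := by
    have h : ∃ g : Tm, g.code = f.code := ⟨f, rfl⟩
    rw [dif_pos h, Tm.code_inj _ _ h.choose_spec]

open Classical in
/-- programs are encodable, by their numbers -/
noncomputable instance instEncOCode : Encodable OCode where
  encode := OCode.code
  decode n := if h : ∃ f : OCode, f.code = n then some h.choose else none
  encodek f := by
    have h : ∃ g : OCode, g.code = f.code := ⟨f, rfl⟩
    rw [dif_pos h, OCode.code_inj _ _ h.choose_spec]

noncomputable instance instDecTm : DecidableEq Tm := Classical.decEq _
noncomputable instance instDecFm : DecidableEq Fm := Classical.decEq _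
noncomputable instance instDecOCode : DecidableEq OCode := Classical.decEq _

theorem Phi_eq (e : ℕ) (X : Set ℕ) (a : ℕ) :
    Phi e X a = match (Encodable.decode e : Option OCode) with
      | some c => c.eval X a
      | none => Part.none := by
  unfold Phi
  by_cases h : ∃ c : OCode, c.code = e
  · have hd : (Encodable.decode e : Option OCode) = some h.choose := dif_pos h
    rw [dif_pos h, hd]
  · have hd : (Encodable.decode e : Option OCode) = none := dif_neg h
    rw [dif_neg h, hd]

end Pool.Agent.Helper685.Sol
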