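import Pool.Agent.Helper685.Sol.Pt

namespace Pool.Agent.Helper685.Sol

/-- the point with one new element -/
def add_witness_pt (P : Pt) (x : P.M) (hx : ∀ i < P.m, P.a i ≠ x) : Pt where
  M := P.M
  S := P.S
  pa := P.pa
  m := P.m + 1
  a := Function.update P.a P.m x
  inj := by
    intro i hi j hj h
    rcases Nat.lt_succ_iff_lt_or_eq.1 hi with hi' | hi' <;>
      rcases Nat.lt_succ_iff_lt_or_eq.1 hj with hj' | hj'
    · rw [Function.update_of_ne hi'.ne, Function.update_of_ne hj'.ne] at h
      exact P.inj i hi' j hj' h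
    · rw [Function.update_of_ne hi'.ne, hj', Function.update_self] at h
      exact absurd h (hx i hi')
    · rw [Function.update_of_ne hj'.ne, hi', Function.update_self] at h
      exact absurd h.symm (hx j hj')
    · rw [hi', hj']

theorem add_witness_pt_ext (P : Pt) (x : P.M) (hx : ∀ i < P.m, P.a i ≠ x) (k : ℕ) :
    Ext k P (add_witness_pt P x hx) := by
  refine ⟨Nat.le_succ _, fun f _ hf => ?_⟩
  exact Fm.sat_congr P.S (fun i hi => (Function.update_of_ne (Nat.ne_of_lt hi) x P.a).symm) hf

theorem add_witness (P : Pt) (f : Fm) (hf : f.FvLt (P.m + 1)) (x : P.M)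
    (hx : f.sat P.S (cns x P.a)) :
    ∃ Q : Pt, (∀ k, Ext k P Q) ∧ ∃ i < Q.m, f.sat Q.S (cns (Q.a i) Q.a) := by
  by_cases h : ∃ i < P.m, P.a i = x
  · obtain ⟨i, hi, rfl⟩ := h
    exact ⟨P, fun k => ⟨le_refl _, fun f _ _ => Iff.rfl⟩, i, hi, hx⟩
  · have h' : ∀ i < P.m, P.a i ≠ x := fun i hi h1 => h ⟨i, hi, h1⟩
    refine ⟨add_witness_pt P x h', add_witness_pt_ext P x h', P.m, Nat.lt_succ_self _, ?_⟩
    show f.sat P.S (cns (Function.update P.a P.m x P.m) (Function.update P.a P.m x))
    rw [Function.update_self]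
    refine (Fm.sat_congr P.S (k := P.m + 1) (fun i hi => ?_) hf).1 hx
    cases i with
    | zero => rfl
    | succ i =>
      show P.a i = Function.update P.a P.m x i
      rw [Function.update_of_ne (by omega)]

theorem add_elem_num {M : Type} (S : Str M) (hS : IsPA S) (i j : ℕ) (h : S.num i = S.num j) :
    i = j := by
  induction i generalizing j with
  | zero =>
    cases j with
    | zero => rfl
    | succ j => exact absurd h.symm (hS.succ_ne_zero _)
  | succ i ih =>
    cases j with
    | zero => exact absurd h (hS.succ_ne_zero _)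
    | succ j => rw [ih j (hS.succ_inj _ _ h)]

theorem add_elem (P : Pt) : ∃ Q : Pt, (∀ k, Ext k P Q) ∧ P.m < Q.m := by
  classical
  have h : ∃ x : P.M, ∀ i < P.m, P.a i ≠ x := by
    have h1 : ((Finset.range P.m).image P.a).card < ((Finset.range (P.m + 1)).image P.S.num).card := by
      rw [Finset.card_image_of_injective _ (fun i j h => add_elem_num P.S P.pa i j h),
        Finset.card_range]
      exact lt_of_le_of_lt Finset.card_image_le (by rw [Finset.card_range]; omega)
    obtain ⟨x, _, hx⟩ := Finset.exists_mem_notMem_of_card_lt_card h1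
    refine ⟨x, fun i hi h2 => hx ?_⟩
    exact Finset.mem_image.2 ⟨i, Finset.mem_range.2 hi, h2⟩
  obtain ⟨x, hx⟩ := h
  exact ⟨add_witness_pt P x hx, add_witness_pt_ext P x hx, Nat.lt_succ_self _⟩

end Pool.Agent.Helper685.Sol
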