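import Pool.Agent.Helper685.Sol.FDec

namespace Pool.Agent.Helper685.Sol

theorem ct_lit {f : Fm} (h : f.IsLiteral) : QF f := by
  cases h with
  | eq s t => exact QF.eq s t
  | ne s t => exact QF.neg (QF.eq s t)

theorem code_truth {C : ℕ → Σ n, BC n} {D : ℕ → Pt → ℕ → Prop} {P : ℕ → Pt} {k : ℕ → ℕ}
    (h : GSeq C D P k) (hok : ∀ j, (C j).2.Ok)
    (hsub : ∀ j n (c : ℕ → BC n), C j = ⟨n + 1, .un c⟩ → ∀ i, ∃ j', C j' = ⟨n, c i⟩)
    {A : Str ℕ} (hA : ∀ i (f : Fm), QS (k i) f → f.FvLt (P i).m →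
      (f.sat A id ↔ f.sat (P i).S (P i).a)) (j i : ℕ) (hji : (C j).1 ≤ k i) :
    ((C j).2.F (P i) → diagram A ∈ (C j).2.set) ∧
    ((∀ R : Pt, Ext (C j).1 (P i) R → ¬ (C j).2.F R) → diagram A ∉ (C j).2.set) := by
  have hk : Monotone k := monotone_nat_of_le_succ h.kmono
  have hExt : ∀ i i', i ≤ i' → Ext (k i) (P i) (P i') := by
    intro i i' hii
    induction i', hii using Nat.le_induction with
    | base => exact Ext.refl _ _
    | succ i' hi' ih => exact ih.trans ((h.ext i').mono (hk hi'))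
  have key : ∀ i x, (P i).Dec x → (x ∈ diagram A ↔ x ∈ (P i).diag) := by
    intro i x hdec
    constructor
    · rintro ⟨f, hlit, hsat, hx⟩
      have hfv := hdec f hlit hx
      exact ⟨f, hlit, hfv, (hA i f ((QS.qf (ct_lit hlit)).mono (Nat.zero_le _)) hfv).1 hsat, hx⟩
    · rintro ⟨f, hlit, hfv, hsat, hx⟩
      exact ⟨f, hlit, (hA i f ((QS.qf (ct_lit hlit)).mono (Nat.zero_le _)) hfv).2 hsat, hx⟩
  have hdecx : ∀ x : ℕ, ∃ i0, ∀ i, i0 ≤ i → (P i).Dec x := by
    intro x
    by_cases hx : ∃ f : Fm, x = Encodable.encode f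
    · obtain ⟨f, hf⟩ := hx
      obtain ⟨m, hm⟩ := f.exists_fvLt
      refine ⟨m, fun i hi g hg hxg => ?_⟩
      have hgf : g = f := Encodable.encode_injective (hxg.symm.trans hf)
      rw [hgf]
      exact hm.mono (hi.trans (h.mge i))
    · exact ⟨0, fun i _ g hg hxg => absurd ⟨g, hxg⟩ hx⟩
  choose i0 hi0 using hdecx
  have main : ∀ {n : ℕ} (c : BC n), ∀ j, C j = ⟨n, c⟩ →
      (diagram A ∈ c.set ↔ ∃ i, n ≤ k i + 1 ∧ c.F (P i)) := by
    intro n c
    induction c with
    | op E =>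
      intro j hj
      have hE : IsOp E := by
        have := hok j
        rw [hj] at this
        exact this
      constructor
      · intro hd
        obtain ⟨L, hL⟩ := hE _ hd
        refine ⟨L.sup i0, by omega, L, fun x hx => hi0 x _ (Finset.le_sup (f := i0) hx), ?_⟩
        intro X hX
        refine hL X (fun x hx => ?_)
        rw [hX x hx, key _ x (hi0 x _ (Finset.le_sup (f := i0) hx))]
      · rintro ⟨i, -, L, hdec, hX⟩
        exact hX _ (fun x hx => key i x (hdec x hx))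
    | @un n c ih =>
      intro j hj
      constructor
      · rintro ⟨l, hl⟩
        obtain ⟨j', hj'⟩ := hsub j n c hj l
        have ihl := ih l j' hj'
        have hno : ¬ ∃ i, n ≤ k i + 1 ∧ (c l).F (P i) := fun h => hl (ihl.2 h)
        obtain ⟨i, hi, hor⟩ := h.dec j'
        rw [hj'] at hi hor
        have hi' : n ≤ k i := hi
        refine ⟨i, by omega, l, ?_⟩
        rcases hor with h1 | h1
        · exact absurd ⟨i, by omega, h1⟩ hno
        · exact h1
      · rintro ⟨i, hi, l, hl⟩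
        refine ⟨l, fun hmem => ?_⟩
        obtain ⟨j', hj'⟩ := hsub j n c hj l
        obtain ⟨i', hi', hF⟩ := (ih l j' hj').1 hmem
        have e1 := F_mono (c l) ((hExt i' (max i i') (le_max_right _ _)).mono
          (show n - 1 ≤ k i' by omega)) hF
        exact hl (P (max i i')) ((hExt i (max i i') (le_max_left _ _)).mono
          (show n ≤ k i by omega)) e1
  rcases hx : C j with ⟨n, c⟩
  rw [hx] at hji
  have hji' : n ≤ k i := hji
  refine ⟨fun hF => (main c j hx).2 ⟨i, by omega, hF⟩, fun hR hmem => ?_⟩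
  obtain ⟨i', hi', hF⟩ := (main c j hx).1 hmem
  have e1 := F_mono c ((hExt i' (max i i') (le_max_right _ _)).mono
    (show n - 1 ≤ k i' by omega)) hF
  exact hR (P (max i i')) ((hExt i (max i i') (le_max_left _ _)).mono
    (show n ≤ k i by omega)) e1

/-- the subcodes -/
def ctSub : (Σ n, BC n) → ℕ → Σ n, BC n
  | ⟨_, .op E⟩, _ => ⟨1, .op E⟩
  | ⟨_, .un (n := n) c⟩, i => ⟨n, c i⟩

theorem ctSub_ok (x : Σ n, BC n) (hx : x.2.Ok) (i : ℕ) : (ctSub x i).2.Ok := by
  rcases x with ⟨n, c⟩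
  cases c with
  | op E => exact hx
  | un c => exact hx i

theorem ctPath_ok (l : List ℕ) (x : Σ n, BC n) (hx : x.2.Ok) : (l.foldl ctSub x).2.Ok := by
  induction l generalizing x with
  | nil => exact hx
  | cons i l ih => exact ih _ (ctSub_ok x hx i)

theorem exists_closure (B : ℕ → Σ n, BC n) (hB : ∀ j, (B j).2.Ok) :
    ∃ C : ℕ → Σ n, BC n, (∀ t, ∃ j, C j = B t) ∧ (∀ j, (C j).2.Ok) ∧
      ∀ j n (c : ℕ → BC n), C j = ⟨n + 1, .un c⟩ → ∀ i, ∃ j', C j' = ⟨n, c i⟩ := by
  refine ⟨fun j => (Denumerable.ofNat (ℕ × List ℕ) j).2.foldl ctSub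
    (B (Denumerable.ofNat (ℕ × List ℕ) j).1), ?_, ?_, ?_⟩
  · intro t
    refine ⟨Encodable.encode (t, ([] : List ℕ)), ?_⟩
    beta_reduce
    rw [Denumerable.ofNat_encode]
    rfl
  · intro j
    exact ctPath_ok _ _ (hB _)
  · intro j n c hj i
    beta_reduce at hj
    refine ⟨Encodable.encode ((Denumerable.ofNat (ℕ × List ℕ) j).1,
      (Denumerable.ofNat (ℕ × List ℕ) j).2 ++ [i]), ?_⟩
    beta_reduce
    rw [Denumerable.ofNat_encode]
    show List.foldl ctSub (B (Denumerable.ofNat (ℕ × List ℕ) j).1)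
      ((Denumerable.ofNat (ℕ × List ℕ) j).2 ++ [i]) = _
    rw [List.foldl_append, hj]
    rfl

end Pool.Agent.Helper685.Sol
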