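import Pool.Agent.Helper685.Sol.Pt
import Pool.Agent.Helper685.Sol.Amalg

namespace Pool.Agent.Helper685.Sol

theorem BC.one_le {n : ℕ} (c : BC n) : 1 ≤ n := by
  cases c with
  | op E => exact le_rfl
  | un c => exact Nat.succ_le_succ (Nat.zero_le _)

theorem Ext.refl (n : ℕ) (P : Pt) : Ext n P P := ⟨le_rfl, fun _ _ _ => Iff.rfl⟩

theorem Ext.trans {n : ℕ} {P Q R : Pt} (h : Ext n P Q) (h' : Ext n Q R) : Ext n P R :=
  ⟨h.1.trans h'.1, fun f hf hv => (h.2 f hf hv).trans (h'.2 f hf (hv.mono h.1))⟩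

theorem Ext.mono {n m : ℕ} (hnm : n ≤ m) {P Q : Pt} (h : Ext m P Q) : Ext n P Q :=
  ⟨h.1, fun f hf hv => h.2 f (hf.mono hnm) hv⟩

theorem literal_QS {f : Fm} (hf : f.IsLiteral) : QS 0 f := by
  cases hf with
  | eq s t => exact .qf (.eq s t)
  | ne s t => exact .qf (.neg (.eq s t))

theorem F_mono {n : ℕ} (c : BC n) {P Q : Pt} (h : Ext (n - 1) P Q) (hF : c.F P) : c.F Q := by
  cases c with
  | op E =>
    obtain ⟨L, hL1, hL2⟩ := hF
    refine ⟨L, ?_, ?_⟩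
    · intro x hx f hf hxf
      exact (hL1 x hx f hf hxf).mono h.1
    · intro X hX
      apply hL2 X
      intro x hx
      rw [hX x hx]
      constructor
      · rintro ⟨f, hf, hv, hs, hxf⟩
        have hv' := hL1 x hx f hf hxf
        exact ⟨f, hf, hv', (h.2 f (literal_QS hf) hv').2 hs, hxf⟩
      · rintro ⟨f, hf, hv, hs, hxf⟩
        exact ⟨f, hf, hv.mono h.1, (h.2 f (literal_QS hf) hv).1 hs, hxf⟩
  | un c =>
    obtain ⟨i, hi⟩ := hF
    exact ⟨i, fun R hR => hi R (Ext.trans h hR)⟩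

theorem decide_code {n : ℕ} (c : BC n) (P : Pt) :
    ∃ Q : Pt, (∀ k, Ext k P Q) ∧ (c.F Q ∨ ∀ R : Pt, Ext n Q R → ¬ c.F R) := by
  by_cases H : ∃ R : Pt, Ext n P R ∧ c.F R
  · obtain ⟨R, hR, hF⟩ := H
    have hn : 1 ≤ n := c.one_le
    have hLe0 : Le n P.m R.S R.a P.S P.a := fun f hf hv hs => (hR.2 f hf hv).2 hs
    obtain ⟨N', T, c', hT, hall, hLe⟩ := amalg hn hR.1 P.pa hLe0
    have hinj : ∀ i < R.m, ∀ j < R.m, c' i = c' j → i = j := by
      intro i hi j hj hij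
      by_contra hne
      have hqs : QS n (Fm.neg (Fm.eq (Tm.var i) (Tm.var j))) :=
        (QS.qf (QF.neg (QF.eq _ _))).mono (Nat.zero_le n)
      have hfv : (Fm.neg (Fm.eq (Tm.var i) (Tm.var j))).FvLt R.m := ⟨hi, hj⟩
      have hs : (Fm.neg (Fm.eq (Tm.var i) (Tm.var j))).sat R.S R.a :=
        fun h => hne (R.inj i hi j hj h)
      exact hLe _ hqs hfv hs hij
    refine ⟨⟨N', T, hT, R.m, c', hinj⟩, fun k => ⟨hR.1, fun f _ hv => hall f hv⟩, Or.inl ?_⟩
    refine F_mono c (P := R) ⟨le_rfl, ?_⟩ hF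
    intro f hf hv
    constructor
    · exact fun hs => hLe f (hf.mono (Nat.sub_le n 1)) hv hs
    · intro hs
      by_contra hcon
      have hqs : QS n (Fm.neg f) := by
        have h1 : QS (n - 1 + 1) (Fm.neg f) := .neg hf
        rwa [Nat.sub_add_cancel hn] at h1
      exact hLe (Fm.neg f) hqs hv hcon hs
  · exact ⟨P, fun k => Ext.refl k P, Or.inr fun R hR hF => H ⟨R, hR, hF⟩⟩

end Pool.Agent.Helper685.Sol
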