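import Pool.Agent.Helper685.Sol.FDec

namespace Pool.Agent.Helper685.Sol

theorem lm_ext_le {C : ℕ → Σ n, BC n} {D : ℕ → Pt → ℕ → Prop} {P : ℕ → Pt} {k : ℕ → ℕ}
    (h : GSeq C D P k) {i j : ℕ} (hij : i ≤ j) : Ext (k i) (P i) (P j) := by
  induction hij with
  | refl => exact ⟨le_rfl, fun _ _ _ => Iff.rfl⟩
  | step hij ih => exact ih.trans ((h.ext _).mono (monotone_nat_of_le_succ h.kmono hij))

theorem lm_transfer {C : ℕ → Σ n, BC n} {D : ℕ → Pt → ℕ → Prop} {P : ℕ → Pt} {k : ℕ → ℕ}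
    (h : GSeq C D P k) {i j : ℕ} (hij : i ≤ j) {f : Fm} {N : ℕ} (hf : QS (k i) f)
    (hN : f.FvLt N) (v : ℕ → ℕ) (hv : ∀ l < N, v l < (P i).m) :
    f.sat (P i).S (fun l => (P i).a (v l)) ↔ f.sat (P j).S (fun l => (P j).a (v l)) := by
  exact (Fm.sat_ren _ v _ f).symm.trans (((lm_ext_le h hij).2 _ (hf.ren v)
    (Fm.fvLt_ren hv hN)).trans (Fm.sat_ren _ v _ f))

theorem lm_wit {C : ℕ → Σ n, BC n} {D : ℕ → Pt → ℕ → Prop} {P : ℕ → Pt} {k : ℕ → ℕ}
    (h : GSeq C D P k) {i : ℕ} {f : Fm} {N : ℕ} (hf : QS (k i) (.ex f))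
    (hN : f.FvLt (N + 1)) (v : ℕ → ℕ) (hv : ∀ l < N, v l < (P i).m)
    (hs : (Fm.ex f).sat (P i).S (fun l => (P i).a (v l))) :
    ∃ j, i ≤ j ∧ ∃ w, w < (P j).m ∧
      f.sat (P j).S (cns ((P j).a w) (fun l => (P j).a (v l))) := by
  obtain ⟨j, hj, hw⟩ := h.wit (f.ren (upr v)) i
  have hjm : (P i).m ≤ (P j).m := (lm_ext_le h hj).1
  have h1 : (f.ren (upr v)).FvLt ((P j).m + 1) := by
    refine Fm.fvLt_ren (k := N + 1) ?_ hN
    intro l hl
    cases l with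
    | zero => exact Nat.succ_pos _
    | succ l => exact Nat.succ_lt_succ (lt_of_lt_of_le (hv l (by omega)) hjm)
  have h2 : (Fm.ex f).sat (P j).S (fun l => (P j).a (v l)) :=
    (lm_transfer h hj hf (show (Fm.ex f).FvLt N from hN) v hv).1 hs
  have key : ∀ x, (f.ren (upr v)).sat (P j).S (cns x (P j).a) ↔
      f.sat (P j).S (cns x (fun l => (P j).a (v l))) := by
    intro x
    rw [Fm.sat_ren, cns_upr]
  obtain ⟨x, hx⟩ := h2
  obtain ⟨w, hw1, hw2⟩ := hw h1 ⟨x, (key x).2 hx⟩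
  exact ⟨j, hj, w, hw1, (key _).1 hw2⟩

/-- the index `z` represents the value of the term `t` -/
def lmRep (P : ℕ → Pt) (t : Tm) (v : ℕ → ℕ) (z : ℕ) : Prop :=
  ∃ J, ∀ j ≥ J, z < (P j).m ∧ (P j).a z = t.val (P j).S (fun l => (P j).a (v l))

theorem lm_large {C : ℕ → Σ n, BC n} {D : ℕ → Pt → ℕ → Prop} {P : ℕ → Pt} {k : ℕ → ℕ}
    (h : GSeq C D P k) (N : ℕ) (v : ℕ → ℕ) (n : ℕ) :
    ∃ i, n ≤ i ∧ ∀ j ≥ i, ∀ l < N, v l < (P j).m := by
  refine ⟨max n ((Finset.range N).sup v + 1), le_max_left _ _, fun j hj l hl => ?_⟩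
  have h1 : v l ≤ (Finset.range N).sup v := Finset.le_sup (Finset.mem_range.2 hl)
  have h2 := h.mge j
  have h3 := (le_max_right n ((Finset.range N).sup v + 1)).trans hj
  omega

theorem lm_cns_comp {M : Type} (a : ℕ → M) (w : ℕ) (v : ℕ → ℕ) :
    (fun l => a (cns w v l)) = cns (a w) (fun l => a (v l)) := by
  funext l; cases l <;> rfl

theorem lm_rep_exists {C : ℕ → Σ n, BC n} {D : ℕ → Pt → ℕ → Prop} {P : ℕ → Pt} {k : ℕ → ℕ}
    (h : GSeq C D P k) (t : Tm) (v : ℕ → ℕ) : ∃ z, lmRep P t v z := by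
  obtain ⟨N, hN⟩ := t.exists_fvLt
  obtain ⟨i, hi1, hi⟩ := lm_large h N v 1
  have hk : 1 ≤ k i := hi1.trans (h.kge i)
  have hqs0 : QS 0 (Fm.eq (.var 0) (t.ren Nat.succ)) := .qf (.eq _ _)
  have hqs : QS (k i) (.ex (Fm.eq (.var 0) (t.ren Nat.succ))) := QS.mono hk (.ex hqs0.up)
  have hfv : (Fm.eq (.var 0) (t.ren Nat.succ)).FvLt (N + 1) :=
    ⟨Nat.succ_pos N, Tm.fvLt_ren (fun i hi => Nat.succ_lt_succ hi) hN⟩
  have hval : ∀ (M : Type) (S : Str M) (x : M) (u : ℕ → M),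
      (Fm.eq (.var 0) (t.ren Nat.succ)).sat S (cns x u) ↔ x = t.val S u := by
    intro M S x u
    show (Tm.var 0).val S (cns x u) = (t.ren Nat.succ).val S (cns x u) ↔ _
    rw [Tm.val_ren]
    rfl
  obtain ⟨j, hj, w, hw, hsat⟩ := lm_wit h hqs hfv v (hi i le_rfl)
    ⟨t.val (P i).S (fun l => (P i).a (v l)), (hval _ _ _ _).2 rfl⟩
  refine ⟨w, j, fun j' hj' => ⟨lt_of_lt_of_le hw (lm_ext_le h hj').1, ?_⟩⟩
  have h1 := lm_transfer h hj' (f := Fm.eq (.var 0) (t.ren Nat.succ)) (N := N + 1)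
    (hqs0.mono (Nat.zero_le _)) hfv (cns w v) (by
      intro l hl
      cases l with
      | zero => exact hw
      | succ l => exact hi j hj l (by omega))
  rw [lm_cns_comp, lm_cns_comp] at h1
  exact (hval _ _ _ _).1 (h1.1 hsat)

theorem lm_rep_val {P : ℕ → Pt} {A : Str ℕ} (hm : ∀ i, i ≤ (P i).m)
    (h0 : ∀ v, lmRep P .zero v A.zero)
    (h1 : ∀ x, lmRep P (.succ (.var 0)) (fun _ => x) (A.succ x))
    (h2 : ∀ x y, lmRep P (.add (.var 0) (.var 1)) (cns x (fun _ => y)) (A.add x y))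
    (h3 : ∀ x y, lmRep P (.mul (.var 0) (.var 1)) (cns x (fun _ => y)) (A.mul x y))
    (t : Tm) (v : ℕ → ℕ) : lmRep P t v (t.val A v) := by
  induction t with
  | var i =>
    refine ⟨v i + 1, fun j hj => ⟨?_, rfl⟩⟩
    have := hm j
    show v i < (P j).m
    omega
  | zero => exact h0 v
  | succ t ih =>
    obtain ⟨J, hJ⟩ := ih
    obtain ⟨J', hJ'⟩ := h1 (t.val A v)
    refine ⟨max J J', fun j hj => ⟨(hJ' j ((le_max_right _ _).trans hj)).1, ?_⟩⟩
    have e1 := (hJ' j ((le_max_right _ _).trans hj)).2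
    have e2 := (hJ j ((le_max_left _ _).trans hj)).2
    show (P j).a (A.succ (t.val A v)) = (P j).S.succ (t.val (P j).S _)
    rw [e1, ← e2]
    rfl
  | add s t ih1 ih2 =>
    obtain ⟨J1, hJ1⟩ := ih1
    obtain ⟨J2, hJ2⟩ := ih2
    obtain ⟨J', hJ'⟩ := h2 (s.val A v) (t.val A v)
    refine ⟨max (max J1 J2) J', fun j hj => ⟨(hJ' j ((le_max_right _ _).trans hj)).1, ?_⟩⟩
    have e0 := (hJ' j ((le_max_right _ _).trans hj)).2
    have e1 := (hJ1 j (((le_max_left _ _).trans (le_max_left _ _)).trans hj)).2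
    have e2 := (hJ2 j (((le_max_right _ _).trans (le_max_left _ _)).trans hj)).2
    show (P j).a (A.add (s.val A v) (t.val A v)) =
      (P j).S.add (s.val (P j).S _) (t.val (P j).S _)
    rw [e0, ← e1, ← e2]
    rfl
  | mul s t ih1 ih2 =>
    obtain ⟨J1, hJ1⟩ := ih1
    obtain ⟨J2, hJ2⟩ := ih2
    obtain ⟨J', hJ'⟩ := h3 (s.val A v) (t.val A v)
    refine ⟨max (max J1 J2) J', fun j hj => ⟨(hJ' j ((le_max_right _ _).trans hj)).1, ?_⟩⟩
    have e0 := (hJ' j ((le_max_right _ _).trans hj)).2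
    have e1 := (hJ1 j (((le_max_left _ _).trans (le_max_left _ _)).trans hj)).2
    have e2 := (hJ2 j (((le_max_right _ _).trans (le_max_left _ _)).trans hj)).2
    show (P j).a (A.mul (s.val A v) (t.val A v)) =
      (P j).S.mul (s.val (P j).S _) (t.val (P j).S _)
    rw [e0, ← e1, ← e2]
    rfl

theorem lm_truth {C : ℕ → Σ n, BC n} {D : ℕ → Pt → ℕ → Prop} {P : ℕ → Pt} {k : ℕ → ℕ}
    (h : GSeq C D P k) {A : Str ℕ} (hA : ∀ t v, lmRep P t v (t.val A v)) (f : Fm) :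
    ∀ (v : ℕ → ℕ) (N i : ℕ), f.FvLt N → QS (k i) f → (∀ l < N, v l < (P i).m) →
      (f.sat A v ↔ f.sat (P i).S (fun l => (P i).a (v l))) := by
  induction f with
  | eq s t =>
    intro v N i hN hf hv
    obtain ⟨J1, hJ1⟩ := hA s v
    obtain ⟨J2, hJ2⟩ := hA t v
    have hj1 : J1 ≤ max i (max J1 J2) := (le_max_left _ _).trans (le_max_right _ _)
    have hj2 : J2 ≤ max i (max J1 J2) := (le_max_right _ _).trans (le_max_right _ _)
    rw [lm_transfer h (le_max_left i (max J1 J2)) hf hN v hv]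
    obtain ⟨a1, a2⟩ := hJ1 _ hj1
    obtain ⟨b1, b2⟩ := hJ2 _ hj2
    show s.val A v = t.val A v ↔ s.val _ _ = t.val _ _
    rw [← a2, ← b2]
    exact ⟨fun e => by rw [e], fun e => (P _).inj _ a1 _ b1 e⟩
  | neg f ih =>
    intro v N i hN hf hv
    exact not_congr (ih v N i hN hf.of_neg hv)
  | and f g ih1 ih2 =>
    intro v N i hN hf hv
    exact and_congr (ih1 v N i hN.1 hf.of_and.1 hv) (ih2 v N i hN.2 hf.of_and.2 hv)
  | ex g ih =>
    intro v N i hN hf hv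
    have hkm : ∀ j, i ≤ j → QS (k j) g := fun j hj =>
      (QS.of_ex hf).mono (monotone_nat_of_le_succ h.kmono hj)
    have hvj : ∀ j, i ≤ j → ∀ w < (P j).m, ∀ l < N + 1, cns w v l < (P j).m := by
      intro j hj w hw l hl
      cases l with
      | zero => exact hw
      | succ l => exact lt_of_lt_of_le (hv l (by omega)) (lm_ext_le h hj).1
    constructor
    · rintro ⟨x, hx⟩
      have hj : i ≤ max i (x + 1) := le_max_left _ _
      have hxm : x < (P (max i (x + 1))).m := by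
        have h1 := h.mge (max i (x + 1))
        have h2 := le_max_right i (x + 1)
        omega
      have h1 := (ih (cns x v) (N + 1) _ hN (hkm _ hj) (hvj _ hj x hxm)).1 hx
      rw [lm_cns_comp] at h1
      exact (lm_transfer h hj hf hN v hv).2 ⟨_, h1⟩
    · intro hs
      obtain ⟨j, hj, w, hw, hsat⟩ := lm_wit h hf hN v hv hs
      refine ⟨w, (ih (cns w v) (N + 1) j hN (hkm _ hj) (hvj _ hj w hw)).2 ?_⟩
      rw [lm_cns_comp]
      exact hsat

theorem lm_univ {C : ℕ → Σ n, BC n} {D : ℕ → Pt → ℕ → Prop} {P : ℕ → Pt} {k : ℕ → ℕ}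
    (h : GSeq C D P k) {A : Str ℕ} (hA : ∀ t v, lmRep P t v (t.val A v)) (f : Fm)
    (hf : ∀ (M : Type) (S : Str M), IsPA S → ∀ v, f.sat S v) (v : ℕ → ℕ) : f.sat A v := by
  obtain ⟨N, hN⟩ := f.exists_fvLt
  obtain ⟨n, hn⟩ := exists_QS f
  obtain ⟨i, hi1, hi⟩ := lm_large h N v n
  exact (lm_truth h hA f v N i hN (hn.mono (hi1.trans (h.kge i))) (hi i le_rfl)).2
    (hf _ _ (P i).pa _)

/-- renaming skipping the variable `1` -/
def lmRho : ℕ → ℕ
  | 0 => 0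
  | i + 1 => i + 2

/-- the induction instance -/
def lmInd (f : Fm) : Fm :=
  .neg (.and (.ex (.and (.eq (.var 0) .zero) f))
    (.and (.neg (.ex (.and f (.neg (.ex (.and (.eq (.var 0) (.succ (.var 1))) (f.ren lmRho)))))))
      (.ex (.neg f))))

theorem lm_ind_sat {M : Type} (S : Str M) (f : Fm) (v : ℕ → M) :
    (lmInd f).sat S v ↔ (f.sat S (cns S.zero v) →
      (∀ x, f.sat S (cns x v) → f.sat S (cns (S.succ x) v)) → ∀ x, f.sat S (cns x v)) := by
  have h1 : (Fm.ex (.and (.eq (.var 0) .zero) f)).sat S v ↔ f.sat S (cns S.zero v) := by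
    constructor
    · rintro ⟨a, ha, hf⟩
      have : a = S.zero := ha
      rw [← this]; exact hf
    · intro hf
      exact ⟨S.zero, rfl, hf⟩
  have h3 : ∀ a b, (fun i => cns b (cns a v) (lmRho i)) = cns b v := by
    intro a b
    funext i; cases i <;> rfl
  have h2 : ∀ a, (Fm.ex (.and (.eq (.var 0) (.succ (.var 1))) (f.ren lmRho))).sat S (cns a v) ↔
      f.sat S (cns (S.succ a) v) := by
    intro a
    constructor
    · rintro ⟨b, hb, hf⟩
      have e : b = S.succ a := hb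
      rw [Fm.sat_ren, h3] at hf
      rw [← e]; exact hf
    · intro hf
      refine ⟨S.succ a, rfl, ?_⟩
      rw [Fm.sat_ren, h3]
      exact hf
  constructor
  · intro hs h0 hst x
    by_contra hx
    refine hs ⟨h1.2 h0, ?_, ⟨x, hx⟩⟩
    rintro ⟨a, ha, hna⟩
    exact hna ((h2 a).2 (hst a ha))
  · rintro hs ⟨h0, hst, ⟨x, hx⟩⟩
    refine hx (hs (h1.1 h0) (fun a ha => ?_) x)
    by_contra hc
    exact hst ⟨a, ha, fun hh => hc ((h2 a).1 hh)⟩

theorem lm_isPA {C : ℕ → Σ n, BC n} {D : ℕ → Pt → ℕ → Prop} {P : ℕ → Pt} {k : ℕ → ℕ}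
    (h : GSeq C D P k) {A : Str ℕ} (hA : ∀ t v, lmRep P t v (t.val A v)) : IsPA A where
  succ_ne_zero x :=
    lm_univ h hA (.neg (.eq (.succ (.var 0)) .zero)) (fun M S hS v => hS.succ_ne_zero (v 0))
      (fun _ => x)
  succ_inj x y hxy := by
    have h1 := lm_univ h hA (.neg (.and (.eq (.succ (.var 0)) (.succ (.var 1)))
      (.neg (.eq (.var 0) (.var 1))))) (fun M S hS v hh => hh.2 (hS.succ_inj (v 0) (v 1) hh.1))
      (cns x (fun _ => y))
    by_contra hne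
    exact h1 ⟨hxy, hne⟩
  add_zero x :=
    lm_univ h hA (.eq (.add (.var 0) .zero) (.var 0)) (fun M S hS v => hS.add_zero (v 0))
      (fun _ => x)
  add_succ x y :=
    lm_univ h hA (.eq (.add (.var 0) (.succ (.var 1))) (.succ (.add (.var 0) (.var 1))))
      (fun M S hS v => hS.add_succ (v 0) (v 1)) (cns x (fun _ => y))
  mul_zero x :=
    lm_univ h hA (.eq (.mul (.var 0) .zero) .zero) (fun M S hS v => hS.mul_zero (v 0))
      (fun _ => x)
  mul_succ x y :=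
    lm_univ h hA (.eq (.mul (.var 0) (.succ (.var 1))) (.add (.mul (.var 0) (.var 1)) (.var 0)))
      (fun M S hS v => hS.mul_succ (v 0) (v 1)) (cns x (fun _ => y))
  ind f v :=
    (lm_ind_sat A f v).1 (lm_univ h hA (lmInd f) (fun M S hS v => (lm_ind_sat S f v).2
      (hS.ind f v)) v)

theorem limit_model {C : ℕ → Σ n, BC n} {D : ℕ → Pt → ℕ → Prop} {P : ℕ → Pt} {k : ℕ → ℕ}
    (h : GSeq C D P k) :
    ∃ A : Str ℕ, IsPA A ∧ ∀ i (f : Fm), QS (k i) f → f.FvLt (P i).m →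
      (f.sat A id ↔ f.sat (P i).S (P i).a) := by
  have hR := lm_rep_exists h
  choose R hR using hR
  let A : Str ℕ :=
    { zero := R .zero (fun _ => 0)
      succ := fun x => R (.succ (.var 0)) (fun _ => x)
      add := fun x y => R (.add (.var 0) (.var 1)) (cns x (fun _ => y))
      mul := fun x y => R (.mul (.var 0) (.var 1)) (cns x (fun _ => y)) }
  have hA : ∀ t v, lmRep P t v (t.val A v) := by
    refine lm_rep_val h.mge (fun v => ?_) (fun x => hR _ _) (fun x y => hR _ _)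
      (fun x y => hR _ _)
    obtain ⟨J, hJ⟩ := hR .zero (fun _ => 0)
    exact ⟨J, fun j hj => hJ j hj⟩
  refine ⟨A, lm_isPA h hA, fun i f hf hm => ?_⟩
  exact lm_truth h hA f id (P i).m i hm hf (fun l hl => hl)

end Pool.Agent.Helper685.Sol
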