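import Pool.Agent.Helper685.Sol.FDec
import Pool.Agent.Helper685.Sol.FAdd

namespace Pool.Agent.Helper685.Sol

theorem h170_step (C : ℕ → Σ n, BC n) (D : ℕ → Pt → ℕ → Prop)
    (hD : ∀ e (P : Pt) (k : ℕ), ∃ (Q : Pt) (k' : ℕ), k ≤ k' ∧ Ext k P Q ∧ D e Q k') (t : ℕ) (P : Pt) (k : ℕ) :
    ∃ (Q : Pt) (k' : ℕ), k + 1 ≤ k' ∧ Ext k P Q ∧ P.m < Q.m ∧
      ((Nat.unpair t).1 % 3 = 0 → ∀ f : Fm, Encodable.decode ((Nat.unpair t).1 / 3) = some f →
        f.FvLt (Q.m + 1) → (∃ x, f.sat Q.S (cns x Q.a)) → ∃ j < Q.m, f.sat Q.S (cns (Q.a j) Q.a)) ∧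
      ((Nat.unpair t).1 % 3 = 1 → (C ((Nat.unpair t).1 / 3)).1 ≤ k' ∧
        ((C ((Nat.unpair t).1 / 3)).2.F Q ∨
          ∀ R : Pt, Ext (C ((Nat.unpair t).1 / 3)).1 Q R → ¬ (C ((Nat.unpair t).1 / 3)).2.F R)) ∧
      ((Nat.unpair t).1 % 3 = 2 → D ((Nat.unpair t).1 / 3) Q k') := by
  obtain ⟨u, hu⟩ : ∃ u, u = (Nat.unpair t).1 := ⟨_, rfl⟩
  rw [← hu]
  obtain ⟨P1, hP1, hm1⟩ := add_elem P
  have h3 : u % 3 = 0 ∨ u % 3 = 1 ∨ u % 3 = 2 := by omega
  rcases h3 with h3 | h3 | h3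
  · cases hdec : (Encodable.decode (u / 3) : Option Fm) with
    | none =>
      refine ⟨P1, k + 1, le_rfl, hP1 k, hm1, fun _ f hf => ?_, fun h => absurd h (by omega), fun h => absurd h (by omega)⟩
      cases hf
    | some f =>
      by_cases hfv : f.FvLt (P1.m + 1)
      · by_cases hx : ∃ x, f.sat P1.S (cns x P1.a)
        · obtain ⟨x, hx⟩ := hx
          obtain ⟨Q, hQ, i, hi, hiQ⟩ := add_witness P1 f hfv x hx
          refine ⟨Q, k + 1, le_rfl, (hP1 k).trans (hQ k), lt_of_lt_of_le hm1 (hQ k).1, fun _ g hg _ _ => ?_,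
            fun h => absurd h (by omega), fun h => absurd h (by omega)⟩
          cases hg
          exact ⟨i, hi, hiQ⟩
        · refine ⟨P1, k + 1, le_rfl, hP1 k, hm1, fun _ g hg _ hx' => ?_, fun h => absurd h (by omega),
            fun h => absurd h (by omega)⟩
          cases hg
          exact absurd hx' hx
      · refine ⟨P1, k + 1, le_rfl, hP1 k, hm1, fun _ g hg hfv' _ => ?_, fun h => absurd h (by omega),
          fun h => absurd h (by omega)⟩
        cases hg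
        exact absurd hfv' hfv
  · obtain ⟨Q, hQ, hdec⟩ := decide_code (C (u / 3)).2 P1
    refine ⟨Q, max (k + 1) (C (u / 3)).1, le_max_left _ _, (hP1 k).trans (hQ k), lt_of_lt_of_le hm1 (hQ k).1,
      fun h => absurd h (by omega), fun _ => ⟨le_max_right _ _, hdec⟩, fun h => absurd h (by omega)⟩
  · obtain ⟨Q, k', hk', hQ, hDQ⟩ := hD (u / 3) P1 (k + 1)
    refine ⟨Q, k', hk', (hP1 k).trans (hQ.mono (Nat.le_succ k)), lt_of_lt_of_le hm1 hQ.1,
      fun h => absurd h (by omega), fun h => absurd h (by omega), fun _ => hDQ⟩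

theorem exists_gseq (C : ℕ → Σ n, BC n) (D : ℕ → Pt → ℕ → Prop)
    (hD : ∀ e (P : Pt) (k : ℕ), ∃ (Q : Pt) (k' : ℕ), k ≤ k' ∧ Ext k P Q ∧ D e Q k') (P0 : Pt) :
    ∃ (P : ℕ → Pt) (k : ℕ → ℕ), P 0 = P0 ∧ GSeq C D P k := by
  choose Qf kf hstep using h170_step C D hD
  let s : ℕ → Pt × ℕ := fun t => Nat.rec (motive := fun _ => Pt × ℕ) (P0, 0)
    (fun t p => (Qf t p.1 p.2, kf t p.1 p.2)) t
  have hs : ∀ t, s (t + 1) = (Qf t (s t).1 (s t).2, kf t (s t).1 (s t).2) := fun t => rfl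
  have hst := fun t => hstep t (s t).1 (s t).2
  have hk : ∀ t, (s t).2 + 1 ≤ (s (t + 1)).2 := fun t => (hst t).1
  have he : ∀ t, Ext (s t).2 (s t).1 (s (t + 1)).1 := fun t => (hst t).2.1
  have hm : ∀ t, (s t).1.m < (s (t + 1)).1.m := fun t => (hst t).2.2.1
  refine ⟨fun t => (s t).1, fun t => (s t).2, rfl, ?_⟩
  constructor
  · intro i
    have := hk i
    show (s i).2 ≤ (s (i + 1)).2
    omega
  · intro i
    show i ≤ (s i).2
    induction i with
    | zero => exact Nat.zero_le _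
    | succ i ih =>
      have := hk i
      omega
  · exact he
  · intro i
    show i ≤ (s i).1.m
    induction i with
    | zero => exact Nat.zero_le _
    | succ i ih =>
      have := hm i
      omega
  · intro f N
    refine ⟨Nat.pair (3 * Encodable.encode f) N + 1, ?_, ?_⟩
    · have := Nat.right_le_pair (3 * Encodable.encode f) N
      omega
    · have h1 := (hst (Nat.pair (3 * Encodable.encode f) N)).2.2.2.1
      rw [Nat.unpair_pair] at h1
      have e1 : 3 * Encodable.encode f / 3 = Encodable.encode f := by omega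
      simp only [e1] at h1
      exact h1 (by omega) f (Encodable.encodek f)
  · intro j
    refine ⟨Nat.pair (3 * j + 1) 0 + 1, ?_⟩
    have h1 := (hst (Nat.pair (3 * j + 1) 0)).2.2.2.2.1
    rw [Nat.unpair_pair] at h1
    have e1 : (3 * j + 1) / 3 = j := by omega
    simp only at h1
    rw [e1] at h1
    exact h1 (by omega)
  · intro e
    refine ⟨Nat.pair (3 * e + 2) 0 + 1, ?_⟩
    have h1 := (hst (Nat.pair (3 * e + 2) 0)).2.2.2.2.2
    rw [Nat.unpair_pair] at h1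
    have e1 : (3 * e + 2) / 3 = e := by omega
    simp only [e1] at h1
    exact h1 (by omega)

end Pool.Agent.Helper685.Sol
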