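import Pool.Agent.Helper685.Sol.Henk

namespace Pool.Agent.Helper685.Sol

/-- relational formulas as formulas -/
def RF.toFmG : RF → Fm
  | .eq i j => .eq (.var i) (.var j)
  | .zer i => .eq (.var i) .zero
  | .suc i j => .eq (.var j) (.succ (.var i))
  | .add i j k => .eq (.var k) (.add (.var i) (.var j))
  | .mul i j k => .eq (.var k) (.mul (.var i) (.var j))
  | .nand f g => .neg (.and f.toFmG g.toFmG)
  | .ex f => .ex f.toFmG

theorem RF.sat_toFmG {M : Type} (S : Str M) (f : RF) (v : ℕ → M) :
    f.toFmG.sat S v ↔ f.sat S v := by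
  induction f generalizing v with
  | eq i j => exact Iff.rfl
  | zer i => exact Iff.rfl
  | suc i j => exact Iff.rfl
  | add i j k => exact Iff.rfl
  | mul i j k => exact Iff.rfl
  | nand f g ih1 ih2 => simp only [RF.toFmG, Fm.sat, RF.sat, ih1, ih2]
  | ex f ih => simp only [RF.toFmG, Fm.sat, RF.sat, ih]

theorem gm_dec_cEq (i j : ℕ) : dec (cEq i j) = .eq i j := by
  have h : cEq i j % 7 = 0 := by unfold cEq; omega
  have h' : cEq i j / 7 = Nat.pair i j := by unfold cEq; omega
  rw [dec, if_pos h, h', Nat.unpair_pair]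

theorem gm_dec_cZer (i : ℕ) : dec (cZer i) = .zer i := by
  have h : cZer i % 7 = 1 := by unfold cZer; omega
  have h' : cZer i / 7 = i := by unfold cZer; omega
  rw [dec, if_neg (by omega), if_pos h, h']

theorem gm_dec_cSuc (i j : ℕ) : dec (cSuc i j) = .suc i j := by
  have h : cSuc i j % 7 = 2 := by unfold cSuc; omega
  have h' : cSuc i j / 7 = Nat.pair i j := by unfold cSuc; omega
  rw [dec, if_neg (by omega), if_neg (by omega), if_pos h, h', Nat.unpair_pair]

theorem gm_dec_cAdd (i j k : ℕ) : dec (cAdd i j k) = .add i j k := by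
  have h : cAdd i j k % 7 = 3 := by unfold cAdd; omega
  have h' : cAdd i j k / 7 = Nat.pair i (Nat.pair j k) := by unfold cAdd; omega
  rw [dec, if_neg (by omega), if_neg (by omega), if_neg (by omega), if_pos h, h',
    Nat.unpair_pair]
  show RF.add i (Nat.pair j k).unpair.1 (Nat.pair j k).unpair.2 = _
  rw [Nat.unpair_pair]

theorem gm_dec_cMul (i j k : ℕ) : dec (cMul i j k) = .mul i j k := by
  have h : cMul i j k % 7 = 4 := by unfold cMul; omega
  have h' : cMul i j k / 7 = Nat.pair i (Nat.pair j k) := by unfold cMul; omega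
  rw [dec, if_neg (by omega), if_neg (by omega), if_neg (by omega), if_neg (by omega),
    if_pos h, h', Nat.unpair_pair]
  show RF.mul i (Nat.pair j k).unpair.1 (Nat.pair j k).unpair.2 = _
  rw [Nat.unpair_pair]

theorem gm_dec_cNand (a b : ℕ) : dec (cNand a b) = .nand (dec a) (dec b) := by
  have h : cNand a b % 7 = 5 := by unfold cNand; omega
  have h' : cNand a b / 7 = Nat.pair a b := by unfold cNand; omega
  rw [dec, if_neg (by omega), if_neg (by omega), if_neg (by omega), if_neg (by omega),
    if_neg (by omega), dif_pos h]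
  show RF.nand (dec (cNand a b / 7).unpair.1) (dec (cNand a b / 7).unpair.2) = _
  rw [h', Nat.unpair_pair]

theorem gm_dec_cEx (a : ℕ) : dec (cEx a) = .ex (dec a) := by
  have h : cEx a % 7 = 6 := by unfold cEx; omega
  have h' : cEx a / 7 = a := by unfold cEx; omega
  rw [dec, if_neg (by omega), if_neg (by omega), if_neg (by omega), if_neg (by omega),
    if_neg (by omega), dif_neg (by omega), dif_neg (by omega)]
  show RF.ex (dec (cEx a / 7)) = _
  rw [h']

theorem nth_zero_consN (a l : ℕ) : nth (consN a l) 0 = a := by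
  show (Nat.pair a l + 1 - 1).unpair.1 = a
  rw [Nat.add_sub_cancel, Nat.unpair_pair]

theorem tlN_consN (a l : ℕ) : tlN (consN a l) = l := by
  show (Nat.pair a l + 1 - 1).unpair.2 = l
  rw [Nat.add_sub_cancel, Nat.unpair_pair]

theorem nth_succ_consN (a l i : ℕ) : nth (consN a l) (i + 1) = nth l i := by
  unfold nth
  rw [Function.iterate_succ_apply, tlN_consN]

theorem tlN_iter_le (i l : ℕ) : tlN^[i] l ≤ l := by
  induction i generalizing l with
  | zero => exact le_refl _
  | succ i ih =>
    rw [Function.iterate_succ_apply]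
    refine (ih _).trans ?_
    unfold tlN
    exact (Nat.unpair_right_le _).trans (Nat.sub_le _ _)

theorem nth_le (l i : ℕ) : nth l i ≤ l := by
  unfold nth hdN
  exact ((Nat.unpair_left_le _).trans (Nat.sub_le _ _)).trans (tlN_iter_le i l)

/-- strong recursion -/
noncomputable def srec {M : Type} (a : M) (G : ℕ → (ℕ → M) → M) : ℕ → M
  | n => G n (fun m => if _h : m < n then srec a G m else a)
termination_by n => n

theorem exists_srec {M : Type} (a : M) (G : ℕ → (ℕ → M) → M)
    (hG : ∀ n v w, (∀ m < n, v m = w m) → G n v = G n w) :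
    ∃ ι : ℕ → M, ∀ n, ι n = G n ι := by
  refine ⟨srec a G, fun n => ?_⟩
  conv_lhs => rw [srec]
  refine hG n _ _ fun m hm => ?_
  show (if _h : m < n then srec a G m else a) = srec a G m
  rw [dif_pos hm]

open Classical in
/-- Skolem function -/
noncomputable def W0 {M : Type} [Nonempty M] (S : Str M) (f : ℕ) (V : ℕ → M) : M :=
  Classical.epsilon (fun x => (dec f).sat S (cns x V))

open Classical in
/-- Skolem function for induction -/
noncomputable def W5 {M : Type} [Nonempty M] (S : Str M) (f : ℕ) (V : ℕ → M) : M :=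
  Classical.epsilon (fun x => (dec f).sat S (cns x V) ∧ ¬ (dec f).sat S (cns (S.succ x) V))

/-- one step of the definition of the interpretation -/
noncomputable def GG {M : Type} [Nonempty M] (S : Str M) (a : M) (n : ℕ) (v : ℕ → M) : M :=
  if n = 0 then a
  else if (n - 1).unpair.1 = 0 then
    W0 S (n - 1).unpair.2.unpair.1 (fun i => v (nth (n - 1).unpair.2.unpair.2 i))
  else if (n - 1).unpair.1 = 1 then S.zero
  else if (n - 1).unpair.1 = 2 then S.succ (v (nth (n - 1).unpair.2.unpair.2 0))
  else if (n - 1).unpair.1 = 3 then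
    S.add (v (nth (n - 1).unpair.2.unpair.2 0)) (v (nth (n - 1).unpair.2.unpair.2 1))
  else if (n - 1).unpair.1 = 4 then
    S.mul (v (nth (n - 1).unpair.2.unpair.2 0)) (v (nth (n - 1).unpair.2.unpair.2 1))
  else if (n - 1).unpair.1 = 5 then
    W5 S (n - 1).unpair.2.unpair.1 (fun i => v (nth (n - 1).unpair.2.unpair.2 (i + 1)))
  else
    S.succ (W5 S (n - 1).unpair.2.unpair.1 (fun i => v (nth (n - 1).unpair.2.unpair.2 (i + 1))))

theorem GG_congr {M : Type} [Nonempty M] (S : Str M) (a : M) (n : ℕ) (v w : ℕ → M)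
    (h : ∀ m < n, v m = w m) : GG S a n v = GG S a n w := by
  by_cases hn : n = 0
  · unfold GG
    rw [if_pos hn, if_pos hn]
  have e : ∀ i, v (nth (n - 1).unpair.2.unpair.2 i) = w (nth (n - 1).unpair.2.unpair.2 i) := by
    intro i
    refine h _ ?_
    have h1 := nth_le (n - 1).unpair.2.unpair.2 i
    have h2 := Nat.unpair_right_le (n - 1).unpair.2
    have h3 := Nat.unpair_right_le (n - 1)
    omega
  unfold GG
  simp only [e]

theorem GG_wit {M : Type} [Nonempty M] (S : Str M) (a : M) (t f l : ℕ) (v : ℕ → M) :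
    GG S a (wit t f l) v =
      if t = 0 then W0 S f (fun i => v (nth l i))
      else if t = 1 then S.zero
      else if t = 2 then S.succ (v (nth l 0))
      else if t = 3 then S.add (v (nth l 0)) (v (nth l 1))
      else if t = 4 then S.mul (v (nth l 0)) (v (nth l 1))
      else if t = 5 then W5 S f (fun i => v (nth l (i + 1)))
      else S.succ (W5 S f (fun i => v (nth l (i + 1)))) := by
  have h0 : ¬ wit t f l = 0 := Nat.succ_ne_zero _
  have h1 : wit t f l - 1 = Nat.pair t (Nat.pair f l) := Nat.add_sub_cancel _ _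
  unfold GG
  rw [if_neg h0, h1]
  simp only [Nat.unpair_pair]

theorem good_of_model {M : Type} {S : Str M} (hS : IsPA S) (a : M) :
    ∃ ι : ℕ → M, ι 0 = a ∧ Good (fun a => (dec a.unpair.1).sat S (fun i => ι (nth a.unpair.2 i))) ∧
      (∀ n, ι (unum n) = S.num n) := by
  haveI : Nonempty M := ⟨a⟩
  obtain ⟨ι, hι⟩ := exists_srec a (GG S a) (GG_congr S a)
  have w0 : ∀ f l, ι (wit 0 f l) = W0 S f (fun i => ι (nth l i)) := by
    intro f l
    rw [hι (wit 0 f l), GG_wit]
    rfl
  have w1 : ∀ f l, ι (wit 1 f l) = S.zero := by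
    intro f l
    rw [hι (wit 1 f l), GG_wit]
    rfl
  have w2 : ∀ f l, ι (wit 2 f l) = S.succ (ι (nth l 0)) := by
    intro f l
    rw [hι (wit 2 f l), GG_wit]
    rfl
  have w3 : ∀ f l, ι (wit 3 f l) = S.add (ι (nth l 0)) (ι (nth l 1)) := by
    intro f l
    rw [hι (wit 3 f l), GG_wit]
    rfl
  have w4 : ∀ f l, ι (wit 4 f l) = S.mul (ι (nth l 0)) (ι (nth l 1)) := by
    intro f l
    rw [hι (wit 4 f l), GG_wit]
    rfl
  have w5 : ∀ f l, ι (wit 5 f l) = W5 S f (fun i => ι (nth l (i + 1))) := by
    intro f l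
    rw [hι (wit 5 f l), GG_wit]
    rfl
  have w6 : ∀ f l, ι (wit 6 f l) = S.succ (W5 S f (fun i => ι (nth l (i + 1)))) := by
    intro f l
    rw [hι (wit 6 f l), GG_wit]
    rfl
  have hc : ∀ x l, (fun i => ι (nth (consN x l) i)) = cns (ι x) (fun i => ι (nth l i)) := by
    intro x l
    funext i
    cases i with
    | zero => exact congrArg ι (nth_zero_consN x l)
    | succ i => exact congrArg ι (nth_succ_consN x l i)
  obtain ⟨H, hH⟩ : ∃ H : ℕ → Prop,
      H = fun x : ℕ => (dec x.unpair.1).sat S (fun i => ι (nth x.unpair.2 i)) := ⟨_, rfl⟩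
  have H0 : ∀ f l, H (atm f l) = (dec f).sat S (fun i => ι (nth l i)) := by
    intro f l
    rw [hH]
    show (dec (Nat.pair f l).unpair.1).sat S (fun i => ι (nth (Nat.pair f l).unpair.2 i)) = _
    rw [Nat.unpair_pair]
  have HE : ∀ x y, H (aE x y) ↔ ι x = ι y := by
    intro x y
    unfold aE two one
    rw [H0, gm_dec_cEq, hc, hc]
    exact Iff.rfl
  have HZ : ∀ x, H (aZ x) ↔ ι x = S.zero := by
    intro x
    unfold aZ one
    rw [H0, gm_dec_cZer, hc]
    exact Iff.rfl
  have HS : ∀ x y, H (aS x y) ↔ ι y = S.succ (ι x) := by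
    intro x y
    unfold aS two one
    rw [H0, gm_dec_cSuc, hc, hc]
    exact Iff.rfl
  have HA : ∀ x y z, H (aA x y z) ↔ ι z = S.add (ι x) (ι y) := by
    intro x y z
    unfold aA three two one
    rw [H0, gm_dec_cAdd, hc, hc, hc]
    exact Iff.rfl
  have HM : ∀ x y z, H (aM x y z) ↔ ι z = S.mul (ι x) (ι y) := by
    intro x y z
    unfold aM three two one
    rw [H0, gm_dec_cMul, hc, hc, hc]
    exact Iff.rfl
  have hind : ∀ z b f l, H (aZ z) → H (atm f (consN z l)) → ¬ H (atm f (consN b l)) →
      (dec f).sat S (cns (W5 S f (fun i => ι (nth l i))) (fun i => ι (nth l i))) ∧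
      ¬ (dec f).sat S (cns (S.succ (W5 S f (fun i => ι (nth l i)))) (fun i => ι (nth l i))) := by
    intro z b f l hz hf hb
    have hex : ∃ x, (dec f).sat S (cns x (fun i => ι (nth l i))) ∧
        ¬ (dec f).sat S (cns (S.succ x) (fun i => ι (nth l i))) := by
      by_contra hno
      apply hb
      rw [H0, hc]
      rw [H0, hc, (HZ z).1 hz] at hf
      have h1 := hS.ind (dec f).toFmG (fun i => ι (nth l i)) ((RF.sat_toFmG S _ _).2 hf)
        (fun x hx => by
          rw [RF.sat_toFmG] at hx ⊢
          by_contra hx'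
          exact hno ⟨x, hx, hx'⟩) (ι b)
      rwa [RF.sat_toFmG] at h1
    exact Classical.epsilon_spec hex
  have hcs : ∀ x l, (fun i => ι (nth (consN x l) (i + 1))) = (fun i => ι (nth l i)) := by
    intro x l
    funext i
    rw [nth_succ_consN]
  refine ⟨ι, ?_, ?_, ?_⟩
  · rw [hι 0]
    exact if_pos rfl
  · rw [← hH]
    refine
      { eqA := ?_, zerA := ?_, sucA := ?_, addA := ?_, mulA := ?_, refl := ?_, symm := ?_,
        trans := ?_, cZ := ?_, cS1 := ?_, cS2 := ?_, cA1 := ?_, cA2 := ?_, cA3 := ?_,
        cM1 := ?_, cM2 := ?_, cM3 := ?_, nand1 := ?_, nand2 := ?_, nand3 := ?_, exI := ?_,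
        exE := ?_, zex := ?_, sex := ?_, aex := ?_, mex := ?_, zu := ?_, su := ?_, au := ?_,
        mu := ?_, s0 := ?_, sinj := ?_, a0 := ?_, aSu := ?_, m0 := ?_, mS := ?_, ind1 := ?_,
        ind2 := ?_, ind3 := ?_ }
    · intro i j l
      rw [H0, HE, gm_dec_cEq]
      exact Iff.rfl
    · intro i l
      rw [H0, HZ, gm_dec_cZer]
      exact Iff.rfl
    · intro i j l
      rw [H0, HS, gm_dec_cSuc]
      exact Iff.rfl
    · intro i j k l
      rw [H0, HA, gm_dec_cAdd]
      exact Iff.rfl
    · intro i j k l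
      rw [H0, HM, gm_dec_cMul]
      exact Iff.rfl
    · intro x
      rw [HE]
    · intro x y h
      rw [HE] at h ⊢
      exact h.symm
    · intro x y z h h'
      rw [HE] at h h' ⊢
      exact h.trans h'
    · intro x y h h'
      rw [HE] at h
      rw [HZ] at h' ⊢
      rw [← h, h']
    · intro x x' y h h'
      rw [HE] at h
      rw [HS] at h' ⊢
      rw [← h, h']
    · intro x y y' h h'
      rw [HE] at h
      rw [HS] at h' ⊢
      rw [← h, h']
    · intro x x' y z h h'
      rw [HE] at h
      rw [HA] at h' ⊢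
      rw [← h, h']
    · intro x y y' z h h'
      rw [HE] at h
      rw [HA] at h' ⊢
      rw [← h, h']
    · intro x y z z' h h'
      rw [HE] at h
      rw [HA] at h' ⊢
      rw [← h, h']
    · intro x x' y z h h'
      rw [HE] at h
      rw [HM] at h' ⊢
      rw [← h, h']
    · intro x y y' z h h'
      rw [HE] at h
      rw [HM] at h' ⊢
      rw [← h, h']
    · intro x y z z' h h'
      rw [HE] at h
      rw [HM] at h' ⊢
      rw [← h, h']
    · intro f g l h h1 h2
      rw [H0] at h1 h2
      rw [H0, gm_dec_cNand] at h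
      exact h ⟨h1, h2⟩
    · intro f g l
      rw [H0, H0, gm_dec_cNand]
      by_cases h : (dec f).sat S (fun i => ι (nth l i))
      · exact Or.inr h
      · exact Or.inl fun h' => h h'.1
    · intro f g l
      rw [H0, H0, gm_dec_cNand]
      by_cases h : (dec g).sat S (fun i => ι (nth l i))
      · exact Or.inr h
      · exact Or.inl fun h' => h h'.2
    · intro f x l h
      rw [H0, hc] at h
      rw [H0, gm_dec_cEx]
      exact ⟨ι x, h⟩
    · intro f l h
      rw [H0, gm_dec_cEx] at h
      rw [H0, hc, w0]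
      exact Classical.epsilon_spec h
    · rw [HZ, w1]
    · intro x
      rw [HS, w2]
      unfold one
      rw [nth_zero_consN]
    · intro x y
      rw [HA, w3]
      unfold two one
      rw [nth_zero_consN, nth_succ_consN, nth_zero_consN]
    · intro x y
      rw [HM, w4]
      unfold two one
      rw [nth_zero_consN, nth_succ_consN, nth_zero_consN]
    · intro x y hx hy
      rw [HZ] at hx hy
      rw [HE, hx, hy]
    · intro x y y' h h'
      rw [HS] at h h'
      rw [HE, h, h']
    · intro x y z z' h h'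
      rw [HA] at h h'
      rw [HE, h, h']
    · intro x y z z' h h'
      rw [HM] at h h'
      rw [HE, h, h']
    · intro x y h h'
      rw [HS] at h
      rw [HZ, h] at h'
      exact hS.succ_ne_zero _ h'
    · intro x x' y h h'
      rw [HS] at h h'
      rw [HE]
      exact hS.succ_inj _ _ (h.symm.trans h')
    · intro x y h
      rw [HZ] at h
      rw [HA, h, hS.add_zero]
    · intro x y y' z z' h1 h2 h3
      rw [HS] at h1 h3
      rw [HA] at h2 ⊢
      rw [h1, h3, h2, hS.add_succ]
    · intro x y h
      rw [HZ] at h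
      rw [HM, h, hS.mul_zero]
    · intro x y y' z d h1 h2 h3
      rw [HS] at h1
      rw [HM] at h2 ⊢
      rw [HA] at h3
      rw [h1, h3, h2, hS.mul_succ]
    · intro z b f l _ _
      right
      rw [HS, w5, w6]
    · intro z b f l hz hf
      by_cases hb : H (atm f (consN b l))
      · exact Or.inl hb
      · right
        have h := (hind z b f l hz hf hb).1
        rw [H0, hc, w5, hcs]
        exact h
    · intro z b f l hz hf
      by_cases hb : H (atm f (consN b l))
      · exact Or.inl hb
      · right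
        have h := (hind z b f l hz hf hb).2
        rw [H0, hc, w6, hcs]
        exact h
  · intro n
    induction n with
    | zero => exact w1 0 0
    | succ n ih =>
      show ι (wit 2 0 (one (unum n))) = S.succ (S.num n)
      rw [w2]
      unfold one
      rw [nth_zero_consN, ih]

end Pool.Agent.Helper685.Sol
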