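import Pool.Agent.Helper685.Sol.Henk

namespace Pool.Agent.Helper685.Sol

/-- the assignment `x, e1, e2, e3, a, a, ...` -/
def env4 {M : Type} (S : Str M) (x e1 e2 e3 : ℕ) (a : M) : ℕ → M :=
  cns (S.num x) (cns (S.num e1) (cns (S.num e2) (cns (S.num e3) (fun _ => a))))

/-- no model of `PA` satisfies the formula with code `c` at `x, e1, e2, e3` -/
def Incon (c x e1 e2 e3 : ℕ) : Prop :=
  ¬ ∃ (M : Type) (S : Str M), IsPA S ∧ ∃ a : M, (dec c).sat S (env4 S x e1 e2 e3 a)

end Pool.Agent.Helper685.Sol
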