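import Pool.Agent.Helper685.Sol.Flat

namespace Pool.Agent.Helper685.Sol

theorem j12600_dec_cEq (i j : ℕ) : dec (cEq i j) = .eq i j := by
  have h : cEq i j % 7 = 0 := by unfold cEq; omega
  have h' : cEq i j / 7 = Nat.pair i j := by unfold cEq; omega
  rw [dec, if_pos h, h', Nat.unpair_pair]

theorem j12600_dec_cZer (i : ℕ) : dec (cZer i) = .zer i := by
  have h : cZer i % 7 = 1 := by unfold cZer; omega
  have h' : cZer i / 7 = i := by unfold cZer; omega
  rw [dec, if_neg (by omega), if_pos h, h']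

theorem j12600_dec_cSuc (i j : ℕ) : dec (cSuc i j) = .suc i j := by
  have h : cSuc i j % 7 = 2 := by unfold cSuc; omega
  have h' : cSuc i j / 7 = Nat.pair i j := by unfold cSuc; omega
  rw [dec, if_neg (by omega), if_neg (by omega), if_pos h, h', Nat.unpair_pair]

theorem j12600_dec_cAdd (i j k : ℕ) : dec (cAdd i j k) = .add i j k := by
  have h : cAdd i j k % 7 = 3 := by unfold cAdd; omega
  have h' : cAdd i j k / 7 = Nat.pair i (Nat.pair j k) := by unfold cAdd; omega
  rw [dec, if_neg (by omega), if_neg (by omega), if_neg (by omega), if_pos h, h',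
    Nat.unpair_pair]
  show RF.add i (Nat.pair j k).unpair.1 (Nat.pair j k).unpair.2 = _
  rw [Nat.unpair_pair]

theorem j12600_dec_cMul (i j k : ℕ) : dec (cMul i j k) = .mul i j k := by
  have h : cMul i j k % 7 = 4 := by unfold cMul; omega
  have h' : cMul i j k / 7 = Nat.pair i (Nat.pair j k) := by unfold cMul; omega
  rw [dec, if_neg (by omega), if_neg (by omega), if_neg (by omega), if_neg (by omega),
    if_pos h, h', Nat.unpair_pair]
  show RF.mul i (Nat.pair j k).unpair.1 (Nat.pair j k).unpair.2 = _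
  rw [Nat.unpair_pair]

theorem j12600_dec_cNand (a b : ℕ) : dec (cNand a b) = .nand (dec a) (dec b) := by
  have h : cNand a b % 7 = 5 := by unfold cNand; omega
  have h' : cNand a b / 7 = Nat.pair a b := by unfold cNand; omega
  rw [dec, if_neg (by omega), if_neg (by omega), if_neg (by omega), if_neg (by omega),
    if_neg (by omega), dif_pos h]
  show RF.nand (dec (cNand a b / 7).unpair.1) (dec (cNand a b / 7).unpair.2) = _
  rw [h', Nat.unpair_pair]

theorem j12600_dec_cEx (a : ℕ) : dec (cEx a) = .ex (dec a) := by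
  have h : cEx a % 7 = 6 := by unfold cEx; omega
  have h' : cEx a / 7 = a := by unfold cEx; omega
  rw [dec, if_neg (by omega), if_neg (by omega), if_neg (by omega), if_neg (by omega),
    if_neg (by omega), dif_neg (by omega), dif_neg (by omega)]
  show RF.ex (dec (cEx a / 7)) = _
  rw [h']

theorem j12600_nth_zero (a l : ℕ) : nth (consN a l) 0 = a := by
  show (Nat.pair a l + 1 - 1).unpair.1 = a
  rw [Nat.add_sub_cancel, Nat.unpair_pair]

theorem j12600_tlN_consN (a l : ℕ) : tlN (consN a l) = l := by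
  show (Nat.pair a l + 1 - 1).unpair.2 = l
  rw [Nat.add_sub_cancel, Nat.unpair_pair]

theorem j12600_nth_succ (a l i : ℕ) : nth (consN a l) (i + 1) = nth l i := by
  unfold nth
  rw [Function.iterate_succ_apply, j12600_tlN_consN]

theorem j12600_cases (f : ℕ) : (∃ i j, f = cEq i j) ∨ (∃ i, f = cZer i) ∨ (∃ i j, f = cSuc i j) ∨
    (∃ i j k, f = cAdd i j k) ∨ (∃ i j k, f = cMul i j k) ∨
    (∃ a b, f = cNand a b ∧ a < f ∧ b < f) ∨ (∃ a, f = cEx a ∧ a < f) := by
  have h7 : f % 7 < 7 := Nat.mod_lt _ (by norm_num)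
  have hd := Nat.div_add_mod f 7
  have hcase : f % 7 = 0 ∨ f % 7 = 1 ∨ f % 7 = 2 ∨ f % 7 = 3 ∨ f % 7 = 4 ∨ f % 7 = 5 ∨
    f % 7 = 6 := by omega
  rcases hcase with h | h | h | h | h | h | h
  · refine Or.inl ⟨(f / 7).unpair.1, (f / 7).unpair.2, ?_⟩
    unfold cEq
    rw [Nat.pair_unpair]
    omega
  · refine Or.inr (Or.inl ⟨f / 7, ?_⟩)
    unfold cZer
    omega
  · refine Or.inr (Or.inr (Or.inl ⟨(f / 7).unpair.1, (f / 7).unpair.2, ?_⟩))
    unfold cSuc
    rw [Nat.pair_unpair]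
    omega
  · refine Or.inr (Or.inr (Or.inr (Or.inl ⟨(f / 7).unpair.1, (f / 7).unpair.2.unpair.1,
      (f / 7).unpair.2.unpair.2, ?_⟩)))
    unfold cAdd
    rw [Nat.pair_unpair, Nat.pair_unpair]
    omega
  · refine Or.inr (Or.inr (Or.inr (Or.inr (Or.inl ⟨(f / 7).unpair.1, (f / 7).unpair.2.unpair.1,
      (f / 7).unpair.2.unpair.2, ?_⟩))))
    unfold cMul
    rw [Nat.pair_unpair, Nat.pair_unpair]
    omega
  · refine Or.inr (Or.inr (Or.inr (Or.inr (Or.inr (Or.inl ⟨(f / 7).unpair.1,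
      (f / 7).unpair.2, ?_, ?_, ?_⟩)))))
    · unfold cNand
      rw [Nat.pair_unpair]
      omega
    · have := Nat.unpair_left_le (f / 7)
      omega
    · have := Nat.unpair_right_le (f / 7)
      omega
  · refine Or.inr (Or.inr (Or.inr (Or.inr (Or.inr (Or.inr ⟨f / 7, ?_, ?_⟩)))))
    · unfold cEx
      omega
    · omega

theorem j12600_quot {H : ℕ → Prop} (hH : Good H) :
    ∃ (M : Type) (ι : ℕ → M), (∀ x, ∃ a, ι a = x) ∧ ∀ a b, ι a = ι b ↔ H (aE a b) := by
  let st : Setoid ℕ := ⟨fun a b => H (aE a b), ⟨hH.refl, fun {a b} h => hH.symm a b h,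
    fun {a b c} h h' => hH.trans a b c h h'⟩⟩
  exact ⟨Quotient st, Quotient.mk st, Quotient.exists_rep,
    fun a b => ⟨fun h => Quotient.exact h, fun h => Quotient.sound h⟩⟩

theorem j12600_list {M : Type} (ι : ℕ → M) (hs : ∀ x, ∃ a, ι a = x) (N : ℕ) :
    ∀ v : ℕ → M, ∃ l, ∀ i < N, ι (nth l i) = v i := by
  induction N with
  | zero => exact fun v => ⟨0, fun i hi => absurd hi (Nat.not_lt_zero i)⟩
  | succ N ih =>
    intro v
    obtain ⟨l, hl⟩ := ih (fun i => v (i + 1))
    obtain ⟨b, hb⟩ := hs (v 0)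
    refine ⟨consN b l, fun i hi => ?_⟩
    cases i with
    | zero => rw [j12600_nth_zero, hb]
    | succ i => rw [j12600_nth_succ, hl i (by omega)]

theorem model_of_good {H : ℕ → Prop} (hH : Good H) :
    ∃ (M : Type) (S : Str M) (ι : ℕ → M), IsPA S ∧ (∀ n, ι (unum n) = S.num n) ∧
      ∀ f l, ((dec f).sat S (fun i => ι (nth l i)) ↔ H (atm f l)) := by
  obtain ⟨M, ι, hsurj, hE⟩ := j12600_quot hH
  choose r hr using hsurj
  have hsurj : ∀ x, ∃ a, ι a = x := fun x => ⟨r x, hr x⟩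
  obtain ⟨S, hS0, hSs, hSa, hSm⟩ : ∃ S : Str M, S.zero = ι (wit 1 0 0) ∧
      (∀ x, S.succ x = ι (wit 2 0 (one (r x)))) ∧
      (∀ x y, S.add x y = ι (wit 3 0 (two (r x) (r y)))) ∧
      (∀ x y, S.mul x y = ι (wit 4 0 (two (r x) (r y)))) :=
    ⟨⟨ι (wit 1 0 0), fun x => ι (wit 2 0 (one (r x))),
      fun x y => ι (wit 3 0 (two (r x) (r y))), fun x y => ι (wit 4 0 (two (r x) (r y)))⟩,
      rfl, fun _ => rfl, fun _ _ => rfl, fun _ _ => rfl⟩
  have HZ : ∀ a, H (aZ a) ↔ ι a = S.zero := by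
    intro a
    rw [hS0, hE]
    exact ⟨fun h => hH.zu _ _ h hH.zex, fun h => hH.cZ _ _ (hH.symm _ _ h) hH.zex⟩
  have hra : ∀ a, H (aE a (r (ι a))) := fun a => (hE _ _).1 (hr (ι a)).symm
  have hra' : ∀ a, H (aE (r (ι a)) a) := fun a => (hE _ _).1 (hr (ι a))
  have HS : ∀ a b, H (aS a b) ↔ ι b = S.succ (ι a) := by
    intro a b
    rw [hSs, hE]
    constructor
    · intro h
      exact hH.su _ _ _ (hH.cS1 _ _ _ (hra a) h) (hH.sex _)
    · intro h
      exact hH.cS1 _ _ _ (hra' a) (hH.cS2 _ _ _ (hH.symm _ _ h) (hH.sex _))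
  have HA : ∀ a b c, H (aA a b c) ↔ ι c = S.add (ι a) (ι b) := by
    intro a b c
    rw [hSa, hE]
    constructor
    · intro h
      exact hH.au _ _ _ _ (hH.cA1 _ _ _ _ (hra a) (hH.cA2 _ _ _ _ (hra b) h)) (hH.aex _ _)
    · intro h
      exact hH.cA1 _ _ _ _ (hra' a) (hH.cA2 _ _ _ _ (hra' b)
        (hH.cA3 _ _ _ _ (hH.symm _ _ h) (hH.aex _ _)))
  have HM : ∀ a b c, H (aM a b c) ↔ ι c = S.mul (ι a) (ι b) := by
    intro a b c
    rw [hSm, hE]
    constructor
    · intro h
      exact hH.mu _ _ _ _ (hH.cM1 _ _ _ _ (hra a) (hH.cM2 _ _ _ _ (hra b) h)) (hH.mex _ _)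
    · intro h
      exact hH.cM1 _ _ _ _ (hra' a) (hH.cM2 _ _ _ _ (hra' b)
        (hH.cM3 _ _ _ _ (hH.symm _ _ h) (hH.mex _ _)))
  have hc : ∀ x l, (fun i => ι (nth (consN x l) i)) = cns (ι x) (fun i => ι (nth l i)) := by
    intro x l
    funext i
    cases i with
    | zero => exact congrArg ι (j12600_nth_zero x l)
    | succ i => exact congrArg ι (j12600_nth_succ x l i)
  have truth : ∀ f l, ((dec f).sat S (fun i => ι (nth l i)) ↔ H (atm f l)) := by
    intro f
    induction f using Nat.strong_induction_on with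
    | _ f ih =>
      intro l
      rcases j12600_cases f with ⟨i, j, h⟩ | ⟨i, h⟩ | ⟨i, j, h⟩ | ⟨i, j, k, h⟩ | ⟨i, j, k, h⟩ |
        ⟨a, b, h, ha, hb⟩ | ⟨a, h, ha⟩
      · rw [h, j12600_dec_cEq, hH.eqA, ← hE]
        exact Iff.rfl
      · rw [h, j12600_dec_cZer, hH.zerA, HZ]
        exact Iff.rfl
      · rw [h, j12600_dec_cSuc, hH.sucA, HS]
        exact Iff.rfl
      · rw [h, j12600_dec_cAdd, hH.addA, HA]
        exact Iff.rfl
      · rw [h, j12600_dec_cMul, hH.mulA, HM]
        exact Iff.rfl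
      · have iha := ih a ha l
        have ihb := ih b hb l
        rw [h, j12600_dec_cNand]
        show ¬ ((dec a).sat S _ ∧ (dec b).sat S _) ↔ _
        rw [iha, ihb]
        constructor
        · intro hn
          rcases hH.nand2 a b l with h2 | h2
          · exact h2
          · rcases hH.nand3 a b l with h3 | h3
            · exact h3
            · exact absurd ⟨h2, h3⟩ hn
        · intro hn hab
          exact hH.nand1 _ _ _ hn hab.1 hab.2
      · rw [h, j12600_dec_cEx]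
        show (∃ x : M, (dec a).sat S (cns x _)) ↔ _
        constructor
        · rintro ⟨x, hx⟩
          obtain ⟨b, rfl⟩ := hsurj x
          rw [← hc] at hx
          exact hH.exI _ _ _ ((ih a ha _).1 hx)
        · intro hx
          refine ⟨ι (wit 0 a l), ?_⟩
          rw [← hc]
          exact (ih a ha _).2 (hH.exE _ _ hx)
  have hz0 : H (aZ (wit 1 0 0)) := hH.zex
  refine ⟨M, S, ι, ?_, ?_, truth⟩
  · refine
      { succ_ne_zero := ?_, succ_inj := ?_, add_zero := ?_, add_succ := ?_, mul_zero := ?_,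
        mul_succ := ?_, ind := ?_ }
    · intro x hx
      obtain ⟨a, rfl⟩ := hsurj x
      obtain ⟨b, hb⟩ := hsurj (S.succ (ι a))
      exact hH.s0 a b ((HS a b).2 hb) ((HZ b).2 (hb.trans hx))
    · intro x y hxy
      obtain ⟨a, rfl⟩ := hsurj x
      obtain ⟨a', rfl⟩ := hsurj y
      obtain ⟨b, hb⟩ := hsurj (S.succ (ι a))
      exact (hE _ _).2 (hH.sinj a a' b ((HS a b).2 hb) ((HS a' b).2 (hb.trans hxy)))
    · intro x
      obtain ⟨a, rfl⟩ := hsurj x
      have h := (HA _ _ _).1 (hH.a0 a _ hz0)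
      rw [← hS0] at h
      exact h.symm
    · intro x y
      obtain ⟨a, rfl⟩ := hsurj x
      obtain ⟨b, rfl⟩ := hsurj y
      obtain ⟨b', hb'⟩ := hsurj (S.succ (ι b))
      obtain ⟨c, hc1⟩ := hsurj (S.add (ι a) (ι b))
      obtain ⟨c', hc'⟩ := hsurj (S.succ (ι c))
      have h := (HA _ _ _).1 (hH.aSu a b b' c c' ((HS _ _).2 hb') ((HA _ _ _).2 hc1)
        ((HS _ _).2 hc'))
      rw [← hb', ← hc1, ← hc', h]
    · intro x
      obtain ⟨a, rfl⟩ := hsurj x
      have h := (HM _ _ _).1 (hH.m0 a _ hz0)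
      rw [← hS0] at h
      exact h.symm
    · intro x y
      obtain ⟨a, rfl⟩ := hsurj x
      obtain ⟨b, rfl⟩ := hsurj y
      obtain ⟨b', hb'⟩ := hsurj (S.succ (ι b))
      obtain ⟨c, hc1⟩ := hsurj (S.mul (ι a) (ι b))
      obtain ⟨d, hd⟩ := hsurj (S.add (ι c) (ι a))
      have h := (HM _ _ _).1 (hH.mS a b b' c d ((HS _ _).2 hb') ((HM _ _ _).2 hc1)
        ((HA _ _ _).2 hd))
      rw [← hb', ← hc1, ← hd, h]
    · intro f v h0 hs x
      obtain ⟨c, hcf⟩ := flat f
      obtain ⟨N, hN⟩ := f.exists_fvLt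
      have hN1 : f.FvLt (N + 1) := Fm.FvLt.mono (Nat.le_succ N) hN
      obtain ⟨l, hl⟩ := j12600_list ι hsurj N v
      have K : ∀ b, f.sat S (cns (ι b) v) ↔ H (atm c (consN b l)) := by
        intro b
        rw [← truth, hc, hcf]
        refine Fm.sat_congr S ?_ hN1
        intro i hi
        cases i with
        | zero => rfl
        | succ i => exact (hl i (by omega)).symm
      obtain ⟨b, rfl⟩ := hsurj x
      by_contra hx
      have hb : ¬ H (atm c (consN b l)) := fun h => hx ((K b).2 h)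
      have hzc : H (atm c (consN (wit 1 0 0) l)) := by
        rw [← K, ← hS0]
        exact h0
      rcases hH.ind1 _ b c l hz0 hzc with h | h1
      · exact hb h
      rcases hH.ind2 _ b c l hz0 hzc with h | h2
      · exact hb h
      rcases hH.ind3 _ b c l hz0 hzc with h | h3
      · exact hb h
      apply h3
      rw [← K, (HS _ _).1 h1]
      exact hs _ ((K _).2 h2)
  · intro n
    induction n with
    | zero => exact hS0.symm
    | succ n ih =>
      show ι (wit 2 0 (one (unum n))) = S.succ (S.num n)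
      rw [← ih]
      exact (HS _ _).1 (hH.sex (unum n))

end Pool.Agent.Helper685.Sol
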