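import Pool.Agent.Helper685.Sol.Syn

namespace Pool.Agent.Helper685.Sol

/-- the bit `a` of `s` -/
def re_unsat_bit (s a : ℕ) : Bool := decide (s / 2 ^ a % 2 = 1)

theorem re_unsat_bit_eq (s a : ℕ) : re_unsat_bit s a = s.testBit a := by
  unfold re_unsat_bit
  rw [Nat.testBit_eq_decide_div_mod_eq]

theorem re_unsat_exists (m : ℕ) (H : ℕ → Bool) : ∃ s < 2 ^ m, ∀ a < m, re_unsat_bit s a = H a := by
  refine ⟨Nat.ofBits (fun i : Fin m => H i), Nat.ofBits_lt_two_pow _, ?_⟩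
  intro a ha
  rw [re_unsat_bit_eq, Nat.testBit_ofBits_lt _ _ ha]

/-- the assignment `s` is refuted at level `m` -/
def re_unsat_ref (cl : ℕ → List (ℕ × Bool)) (s : ℕ) (um : ℕ × ℕ) : Prop :=
  (um.1 < um.2 ∧ re_unsat_bit s um.1 = false) ∨
    ∃ i < um.2, ∀ p ∈ cl i, p.1 < um.2 ∧ re_unsat_bit s p.1 ≠ p.2

theorem re_unsat_pow : Primrec₂ (fun a b : ℕ => a ^ b) := by
  refine (Primrec.nat_rec (f := fun _ : ℕ => 1) (g := fun a (p : ℕ × ℕ) => p.2 * a)
    (Primrec.const 1) ?_).of_eq ?_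
  · exact (Primrec.nat_mul.comp (Primrec.snd.comp Primrec.snd) Primrec.fst)
  · intro a n
    induction n with
    | zero => rfl
    | succ n ih => rw [pow_succ, ← ih]

theorem re_unsat_bit_prim : Primrec₂ re_unsat_bit := by
  have h1 : Primrec₂ (fun s a : ℕ => s / 2 ^ a % 2) :=
    Primrec.nat_mod.comp (Primrec.nat_div.comp Primrec.fst
      (re_unsat_pow.comp (Primrec.const 2) Primrec.snd)) (Primrec.const 2)
  have h2 : PrimrecPred (fun p : ℕ × ℕ => p.1 / 2 ^ p.2 % 2 = 1) :=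
    Primrec.eq.comp h1 (Primrec.const 1)
  exact h2.decide

theorem re_unsat_ref_prim {cl : ℕ → List (ℕ × Bool)} (hcl : Primrec cl) :
    PrimrecRel (re_unsat_ref cl) := by
  -- the innermost relation
  have hT : PrimrecRel (fun (p : ℕ × Bool) (ms : ℕ × ℕ) =>
      p.1 < ms.1 ∧ re_unsat_bit ms.2 p.1 ≠ p.2) := by
    have h1 : PrimrecPred (fun q : (ℕ × Bool) × (ℕ × ℕ) => q.1.1 < q.2.1) :=
      Primrec.nat_lt.comp (Primrec.fst.comp Primrec.fst) (Primrec.fst.comp Primrec.snd)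
    have h2 : PrimrecPred (fun q : (ℕ × Bool) × (ℕ × ℕ) => re_unsat_bit q.2.2 q.1.1 = q.1.2) :=
      Primrec.eq.comp (re_unsat_bit_prim.comp (Primrec.snd.comp Primrec.snd)
        (Primrec.fst.comp Primrec.fst)) (Primrec.snd.comp Primrec.fst)
    exact h1.and h2.not
  have hQ0 : PrimrecRel (fun (L : List (ℕ × Bool)) (ms : ℕ × ℕ) =>
      ∀ p ∈ L, p.1 < ms.1 ∧ re_unsat_bit ms.2 p.1 ≠ p.2) := hT.forall_mem_list
  have hQ : PrimrecRel (fun (i : ℕ) (ms : ℕ × ℕ) =>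
      ∀ p ∈ cl i, p.1 < ms.1 ∧ re_unsat_bit ms.2 p.1 ≠ p.2) :=
    hQ0.comp (hcl.comp Primrec.fst) Primrec.snd
  have hE : PrimrecRel (fun (n : ℕ) (ms : ℕ × ℕ) =>
      ∃ i < n, ∀ p ∈ cl i, p.1 < ms.1 ∧ re_unsat_bit ms.2 p.1 ≠ p.2) :=
    (hQ.exists_mem_list.comp (Primrec.list_range.comp Primrec.fst) Primrec.snd).of_eq
      (fun q => by simp)
  have h3 : PrimrecPred (fun q : ℕ × (ℕ × ℕ) =>
      ∃ i < q.2.2, ∀ p ∈ cl i, p.1 < q.2.2 ∧ re_unsat_bit q.1 p.1 ≠ p.2) :=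
    hE.comp (Primrec.snd.comp Primrec.snd)
      (Primrec.pair (Primrec.snd.comp Primrec.snd) Primrec.fst)
  have h4 : PrimrecPred (fun q : ℕ × (ℕ × ℕ) => q.2.1 < q.2.2) :=
    Primrec.nat_lt.comp (Primrec.fst.comp Primrec.snd) (Primrec.snd.comp Primrec.snd)
  have h5 : PrimrecPred (fun q : ℕ × (ℕ × ℕ) => re_unsat_bit q.1 q.2.1 = false) :=
    Primrec.eq.comp (re_unsat_bit_prim.comp Primrec.fst (Primrec.fst.comp Primrec.snd))
      (Primrec.const false)
  exact (h4.and h5).or h3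

theorem re_unsat_all_prim {cl : ℕ → List (ℕ × Bool)} (hcl : Primrec cl) :
    PrimrecRel (fun u m : ℕ => ∀ s < 2 ^ m, re_unsat_ref cl s (u, m)) := by
  have h1 : PrimrecRel (fun (n : ℕ) (um : ℕ × ℕ) => ∀ s < n, re_unsat_ref cl s um) :=
    ((re_unsat_ref_prim hcl).forall_mem_list.comp (Primrec.list_range.comp Primrec.fst)
      Primrec.snd).of_eq (fun q => by simp)
  have h2 : PrimrecPred (fun q : ℕ × ℕ => ∀ s < 2 ^ q.2, re_unsat_ref cl s q) :=
    h1.comp (re_unsat_pow.comp (Primrec.const 2) Primrec.snd) Primrec.id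
  exact h2

open Filter in
theorem re_unsat_iff (cl : ℕ → List (ℕ × Bool)) (u : ℕ) :
    (¬ ∃ H : ℕ → Bool, H u = true ∧ ∀ i, ∃ p ∈ cl i, H p.1 = p.2) ↔
      ∃ m, ∀ s < 2 ^ m, re_unsat_ref cl s (u, m) := by
  constructor
  · intro h
    by_contra hcon
    push Not at hcon
    apply h
    choose s hs hns using hcon
    let U : Ultrafilter ℕ := hyperfilter ℕ
    have hat : ∀ k : ℕ, ∀ᶠ m in (U : Filter ℕ), k < m := by
      intro k
      have h1 : ∀ᶠ m in atTop, k < m := eventually_gt_atTop k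
      have h2 : (U : Filter ℕ) ≤ atTop := by
        rw [← Nat.cofinite_eq_atTop]
        exact hyperfilter_le_cofinite
      exact h2 h1
    -- the limit
    have hlim : ∀ a : ℕ, ∃ b : Bool, ∀ᶠ m in (U : Filter ℕ), re_unsat_bit (s m) a = b := by
      intro a
      by_cases hc : ∀ᶠ m in (U : Filter ℕ), re_unsat_bit (s m) a = true
      · exact ⟨true, hc⟩
      · refine ⟨false, ?_⟩
        have h1 := Ultrafilter.eventually_not.2 hc
        filter_upwards [h1] with m hm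
        exact Bool.eq_false_iff.2 hm
    choose H hH using hlim
    refine ⟨H, ?_, ?_⟩
    · obtain ⟨m, h1, h2⟩ := ((hat u).and (hH u)).exists
      have h3 := hns m
      unfold re_unsat_ref at h3
      push Not at h3
      have h4 := h3.1 h1
      rw [h2] at h4
      simpa using h4
    · intro i
      have hatom : ∀ᶠ m in (U : Filter ℕ), ∀ p ∈ {p | p ∈ cl i},
          p.1 < m ∧ re_unsat_bit (s m) p.1 = H p.1 := by
        rw [eventually_all_finite (cl i).finite_toSet]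
        intro p _
        exact (hat p.1).and (hH p.1)
      obtain ⟨m, h1, h2⟩ := ((hat i).and hatom).exists
      have h3 := hns m
      unfold re_unsat_ref at h3
      push Not at h3
      obtain ⟨p, hp, h4⟩ := h3.2 i h1
      obtain ⟨h5, h6⟩ := h2 p hp
      exact ⟨p, hp, by rw [← h6]; exact h4 h5⟩
  · rintro ⟨m, hm⟩ ⟨H, hu, hcl⟩
    obtain ⟨s, hs, hsb⟩ := re_unsat_exists m H
    rcases hm s hs with ⟨h1, h2⟩ | ⟨i, hi, h1⟩
    · rw [hsb u h1, hu] at h2
      exact absurd h2 (by decide)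
    · obtain ⟨p, hp, hpH⟩ := hcl i
      obtain ⟨h2, h3⟩ := h1 p hp
      exact h3 (by rw [hsb p.1 h2, hpH])

theorem re_unsat {cl : ℕ → List (ℕ × Bool)} (hcl : Primrec cl) :
    REPred (fun u : ℕ => ¬ ∃ H : ℕ → Bool, H u = true ∧ ∀ i, ∃ p ∈ cl i, H p.1 = p.2) := by
  classical
  have h1 := (re_unsat_all_prim hcl).decide
  have h2 : Computable₂ (fun u m : ℕ => decide (∀ s < 2 ^ m, re_unsat_ref cl s (u, m))) :=
    h1.to_comp
  have h3 : Partrec₂ (fun u m : ℕ =>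
      (Part.some (decide (∀ s < 2 ^ m, re_unsat_ref cl s (u, m))) : Part Bool)) := h2.partrec₂
  have h4 := (Partrec.rfind h3).dom_re
  refine h4.of_eq ?_
  intro u
  rw [re_unsat_iff, Nat.rfind_dom]
  constructor
  · rintro ⟨m, hm, -⟩
    refine ⟨m, ?_⟩
    simpa using hm
  · rintro ⟨m, hm⟩
    refine ⟨m, ?_, ?_⟩
    · simpa using hm
    · intro k _
      trivial

end Pool.Agent.Helper685.Sol
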