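import Pool.Agent.Helper685.Sol.Clauses
import Pool.Agent.Helper685.Sol.GModel
import Pool.Agent.Helper685.Sol.Term
import Pool.Agent.Helper685.Sol.Unsat

namespace Pool.Agent.Helper685.Sol

theorem ri_nth_zero (a l : ℕ) : nth (consN a l) 0 = a := by
  show ((Nat.pair a l + 1 - 1).unpair).1 = a
  rw [Nat.add_sub_cancel, Nat.unpair_pair]

theorem ri_nth_succ (a l i : ℕ) : nth (consN a l) (i + 1) = nth l i := by
  show hdN (tlN^[i] (tlN (consN a l))) = hdN (tlN^[i] l)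
  have : tlN (consN a l) = l := by
    show ((Nat.pair a l + 1 - 1).unpair).2 = l
    rw [Nat.add_sub_cancel, Nat.unpair_pair]
  rw [this]

theorem ri_nth_nil (i : ℕ) : nth 0 i = 0 := by
  have h : ∀ i, tlN^[i] 0 = 0 := by
    intro i
    induction i with
    | zero => rfl
    | succ i ih =>
      rw [Function.iterate_succ_apply]
      have : tlN 0 = 0 := by simp [tlN, Nat.unpair_zero]
      rw [this, ih]
  unfold nth
  rw [h i]
  simp [hdN, Nat.unpair_zero]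

/-- the coded assignment `x, e1, e2, e3` -/
def ri_l (x e1 e2 e3 : ℕ) : ℕ :=
  consN (unum x) (consN (unum e1) (consN (unum e2) (consN (unum e3) 0)))

theorem ri_env {M : Type} (S : Str M) (ι : ℕ → M) (h : ∀ n, ι (unum n) = S.num n)
    (x e1 e2 e3 : ℕ) :
    (fun i => ι (nth (ri_l x e1 e2 e3) i)) = env4 S x e1 e2 e3 (ι 0) := by
  funext i
  unfold ri_l env4
  rcases i with _ | _ | _ | _ | i
  · rw [ri_nth_zero]; exact h x
  · rw [ri_nth_succ, ri_nth_zero]; exact h e1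
  · rw [ri_nth_succ, ri_nth_succ, ri_nth_zero]; exact h e2
  · rw [ri_nth_succ, ri_nth_succ, ri_nth_succ, ri_nth_zero]; exact h e3
  · rw [ri_nth_succ, ri_nth_succ, ri_nth_succ, ri_nth_succ, ri_nth_nil]; rfl

theorem ri_consN : Primrec₂ consN :=
  Primrec.succ.comp (Primrec₂.natPair.comp Primrec.fst Primrec.snd)

theorem ri_unum : Primrec unum := by
  have h : Primrec₂ (fun (_ : ℕ) (y : ℕ) => wit 2 0 (one y)) := by
    show Primrec fun p : ℕ × ℕ => Nat.pair 2 (Nat.pair 0 (consN p.2 0)) + 1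
    exact Primrec.succ.comp (Primrec₂.natPair.comp (Primrec.const 2)
      (Primrec₂.natPair.comp (Primrec.const 0) (ri_consN.comp Primrec.snd (Primrec.const 0))))
  refine (Primrec.nat_rec₁ (wit 1 0 0) h).of_eq ?_
  intro n
  induction n with
  | zero => rfl
  | succ n ih =>
    show wit 2 0 (one _) = wit 2 0 (one (unum n))
    rw [← ih]

theorem re_incon : REPred (fun z : ℕ × ℕ × ℕ × ℕ × ℕ =>
    Incon z.1 z.2.1 z.2.2.1 z.2.2.2.1 z.2.2.2.2) := by
  classical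
  obtain ⟨cl, hcl, hgood⟩ := good_clauses
  have hre := re_unsat hcl
  have hf : Computable (fun z : ℕ × ℕ × ℕ × ℕ × ℕ =>
      atm z.1 (ri_l z.2.1 z.2.2.1 z.2.2.2.1 z.2.2.2.2)) := by
    have h1 : Primrec fun z : ℕ × ℕ × ℕ × ℕ × ℕ => z.1 := Primrec.fst
    have h2 : Primrec fun z : ℕ × ℕ × ℕ × ℕ × ℕ => z.2.1 := Primrec.fst.comp Primrec.snd
    have h3 : Primrec fun z : ℕ × ℕ × ℕ × ℕ × ℕ => z.2.2.1 :=
      Primrec.fst.comp (Primrec.snd.comp Primrec.snd)
    have h4 : Primrec fun z : ℕ × ℕ × ℕ × ℕ × ℕ => z.2.2.2.1 :=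
      Primrec.fst.comp (Primrec.snd.comp (Primrec.snd.comp Primrec.snd))
    have h5 : Primrec fun z : ℕ × ℕ × ℕ × ℕ × ℕ => z.2.2.2.2 :=
      Primrec.snd.comp (Primrec.snd.comp (Primrec.snd.comp Primrec.snd))
    exact (Primrec₂.natPair.comp h1 (ri_consN.comp (ri_unum.comp h2) (ri_consN.comp
      (ri_unum.comp h3) (ri_consN.comp (ri_unum.comp h4) (ri_consN.comp (ri_unum.comp h5)
        (Primrec.const 0)))))).to_comp
  have hcomp : REPred (fun z : ℕ × ℕ × ℕ × ℕ × ℕ => ¬ ∃ H : ℕ → Bool,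
      H (atm z.1 (ri_l z.2.1 z.2.2.1 z.2.2.2.1 z.2.2.2.2)) = true ∧
        ∀ i, ∃ p ∈ cl i, H p.1 = p.2) := Partrec.comp hre hf
  refine REPred.of_eq hcomp ?_
  rintro ⟨c, x, e1, e2, e3⟩
  show (¬ ∃ H : ℕ → Bool, H (atm c (ri_l x e1 e2 e3)) = true ∧
    ∀ i, ∃ p ∈ cl i, H p.1 = p.2) ↔ Incon c x e1 e2 e3
  unfold Incon
  refine not_congr ⟨?_, ?_⟩
  · rintro ⟨H, hu, hH⟩
    obtain ⟨M, S, ι, hS, hnum, hsat⟩ := model_of_good ((hgood H).2 hH)
    refine ⟨M, S, hS, ι 0, ?_⟩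
    rw [← ri_env S ι hnum]
    exact (hsat c _).2 hu
  · rintro ⟨M, S, hS, a, hsat⟩
    obtain ⟨ι, h0, hG, hnum⟩ := good_of_model hS a
    refine ⟨fun b => decide ((dec b.unpair.1).sat S (fun i => ι (nth b.unpair.2 i))), ?_,
      (hgood (fun b => decide ((dec b.unpair.1).sat S (fun i => ι (nth b.unpair.2 i))))).1 ?_⟩
    · rw [decide_eq_true_iff]
      show (dec (Nat.pair c (ri_l x e1 e2 e3)).unpair.1).sat S
        (fun i => ι (nth (Nat.pair c (ri_l x e1 e2 e3)).unpair.2 i))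
      rw [Nat.unpair_pair]
      show (dec c).sat S (fun i => ι (nth (ri_l x e1 e2 e3) i))
      rw [ri_env S ι hnum, h0]
      exact hsat
    · simp only [decide_eq_true_iff]
      exact hG

end Pool.Agent.Helper685.Sol
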