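import Pool.Agent.Helper685.Sol.Syn

/-! # Relational formulas coded by numbers and Henkin valuations -/

namespace Pool.Agent.Helper685.Sol

/-- relational formulas (de Bruijn) -/
inductive RF : Type
  | eq (i j : ℕ)
  | zer (i : ℕ)
  | suc (i j : ℕ)
  | add (i j k : ℕ)
  | mul (i j k : ℕ)
  | nand (f g : RF)
  | ex (f : RF)

/-- satisfaction of relational formulas -/
def RF.sat {M : Type} (S : Str M) : (ℕ → M) → RF → Prop
  | v, .eq i j => v i = v j
  | v, .zer i => v i = S.zero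
  | v, .suc i j => v j = S.succ (v i)
  | v, .add i j k => v k = S.add (v i) (v j)
  | v, .mul i j k => v k = S.mul (v i) (v j)
  | v, .nand f g => ¬ (f.sat S v ∧ g.sat S v)
  | v, .ex f => ∃ a : M, f.sat S (cns a v)

/-! codes of relational formulas; every number is a code -/

def cEq (i j : ℕ) : ℕ := 7 * Nat.pair i j
def cZer (i : ℕ) : ℕ := 7 * i + 1
def cSuc (i j : ℕ) : ℕ := 7 * Nat.pair i j + 2
def cAdd (i j k : ℕ) : ℕ := 7 * Nat.pair i (Nat.pair j k) + 3
def cMul (i j k : ℕ) : ℕ := 7 * Nat.pair i (Nat.pair j k) + 4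
def cNand (a b : ℕ) : ℕ := 7 * Nat.pair a b + 5
def cEx (a : ℕ) : ℕ := 7 * a + 6

/-- decoding -/
def dec (n : ℕ) : RF :=
  if n % 7 = 0 then .eq (n / 7).unpair.1 (n / 7).unpair.2
  else if n % 7 = 1 then .zer (n / 7)
  else if n % 7 = 2 then .suc (n / 7).unpair.1 (n / 7).unpair.2
  else if n % 7 = 3 then
    .add (n / 7).unpair.1 (n / 7).unpair.2.unpair.1 (n / 7).unpair.2.unpair.2
  else if n % 7 = 4 then
    .mul (n / 7).unpair.1 (n / 7).unpair.2.unpair.1 (n / 7).unpair.2.unpair.2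
  else if h : n % 7 = 5 then
    have : (n / 7).unpair.1 < n := by
      have := Nat.unpair_left_le (n / 7); omega
    have : (n / 7).unpair.2 < n := by
      have := Nat.unpair_right_le (n / 7); omega
    .nand (dec (n / 7).unpair.1) (dec (n / 7).unpair.2)
  else
    if h0 : n = 0 then .zer 0 else
    have : n / 7 < n := by omega
    .ex (dec (n / 7))
termination_by n

/-! codes of finite assignments -/

/-- `a` followed by the coded assignment `l` -/
def consN (a l : ℕ) : ℕ := Nat.pair a l + 1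
def hdN (l : ℕ) : ℕ := (l - 1).unpair.1
def tlN (l : ℕ) : ℕ := (l - 1).unpair.2
/-- the `i`-th entry of a coded assignment -/
def nth (l i : ℕ) : ℕ := hdN (tlN^[i] l)

def one (a : ℕ) : ℕ := consN a 0
def two (a b : ℕ) : ℕ := consN a (one b)
def three (a b c : ℕ) : ℕ := consN a (two b c)

/-- Henkin constants -/
def wit (t f l : ℕ) : ℕ := Nat.pair t (Nat.pair f l) + 1

/-- numerals as Henkin constants -/
def unum : ℕ → ℕ
  | 0 => wit 1 0 0
  | n + 1 => wit 2 0 (one (unum n))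

/-! atoms of the propositional language: `at f l` says that `f` holds at the assignment `l`. -/
def atm (f l : ℕ) : ℕ := Nat.pair f l
def aE (a b : ℕ) : ℕ := atm (cEq 0 1) (two a b)
def aZ (a : ℕ) : ℕ := atm (cZer 0) (one a)
def aS (a b : ℕ) : ℕ := atm (cSuc 0 1) (two a b)
def aA (a b c : ℕ) : ℕ := atm (cAdd 0 1 2) (three a b c)
def aM (a b c : ℕ) : ℕ := atm (cMul 0 1 2) (three a b c)

/-- the conditions on a Henkin valuation `H` of the atoms -/
structure Good (H : ℕ → Prop) : Prop where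
  eqA : ∀ i j l, H (atm (cEq i j) l) ↔ H (aE (nth l i) (nth l j))
  zerA : ∀ i l, H (atm (cZer i) l) ↔ H (aZ (nth l i))
  sucA : ∀ i j l, H (atm (cSuc i j) l) ↔ H (aS (nth l i) (nth l j))
  addA : ∀ i j k l, H (atm (cAdd i j k) l) ↔ H (aA (nth l i) (nth l j) (nth l k))
  mulA : ∀ i j k l, H (atm (cMul i j k) l) ↔ H (aM (nth l i) (nth l j) (nth l k))
  refl : ∀ a, H (aE a a)
  symm : ∀ a b, H (aE a b) → H (aE b a)
  trans : ∀ a b c, H (aE a b) → H (aE b c) → H (aE a c)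
  cZ : ∀ a a', H (aE a a') → H (aZ a) → H (aZ a')
  cS1 : ∀ a a' b, H (aE a a') → H (aS a b) → H (aS a' b)
  cS2 : ∀ a b b', H (aE b b') → H (aS a b) → H (aS a b')
  cA1 : ∀ a a' b c, H (aE a a') → H (aA a b c) → H (aA a' b c)
  cA2 : ∀ a b b' c, H (aE b b') → H (aA a b c) → H (aA a b' c)
  cA3 : ∀ a b c c', H (aE c c') → H (aA a b c) → H (aA a b c')
  cM1 : ∀ a a' b c, H (aE a a') → H (aM a b c) → H (aM a' b c)
  cM2 : ∀ a b b' c, H (aE b b') → H (aM a b c) → H (aM a b' c)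
  cM3 : ∀ a b c c', H (aE c c') → H (aM a b c) → H (aM a b c')
  nand1 : ∀ f g l, H (atm (cNand f g) l) → H (atm f l) → ¬ H (atm g l)
  nand2 : ∀ f g l, H (atm (cNand f g) l) ∨ H (atm f l)
  nand3 : ∀ f g l, H (atm (cNand f g) l) ∨ H (atm g l)
  exI : ∀ f a l, H (atm f (consN a l)) → H (atm (cEx f) l)
  exE : ∀ f l, H (atm (cEx f) l) → H (atm f (consN (wit 0 f l) l))
  zex : H (aZ (wit 1 0 0))
  sex : ∀ a, H (aS a (wit 2 0 (one a)))
  aex : ∀ a b, H (aA a b (wit 3 0 (two a b)))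
  mex : ∀ a b, H (aM a b (wit 4 0 (two a b)))
  zu : ∀ a b, H (aZ a) → H (aZ b) → H (aE a b)
  su : ∀ a b b', H (aS a b) → H (aS a b') → H (aE b b')
  au : ∀ a b c c', H (aA a b c) → H (aA a b c') → H (aE c c')
  mu : ∀ a b c c', H (aM a b c) → H (aM a b c') → H (aE c c')
  s0 : ∀ a b, H (aS a b) → ¬ H (aZ b)
  sinj : ∀ a a' b, H (aS a b) → H (aS a' b) → H (aE a a')
  a0 : ∀ a b, H (aZ b) → H (aA a b a)
  aSu : ∀ a b b' c c', H (aS b b') → H (aA a b c) → H (aS c c') → H (aA a b' c')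
  m0 : ∀ a b, H (aZ b) → H (aM a b b)
  mS : ∀ a b b' c d, H (aS b b') → H (aM a b c) → H (aA c a d) → H (aM a b' d)
  ind1 : ∀ z b f l, H (aZ z) → H (atm f (consN z l)) →
    H (atm f (consN b l)) ∨ H (aS (wit 5 f (consN b l)) (wit 6 f (consN b l)))
  ind2 : ∀ z b f l, H (aZ z) → H (atm f (consN z l)) →
    H (atm f (consN b l)) ∨ H (atm f (consN (wit 5 f (consN b l)) l))
  ind3 : ∀ z b f l, H (aZ z) → H (atm f (consN z l)) →
    H (atm f (consN b l)) ∨ ¬ H (atm f (consN (wit 6 f (consN b l)) l))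

end Pool.Agent.Helper685.Sol
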