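import Pool.Agent.Helper685.Sol.Three
import Pool.Agent.Helper685.Sol.FSeq
import Pool.Agent.Helper685.Sol.FLim
import Pool.Agent.Helper685.Sol.FCode
import Pool.Agent.Helper685.Sol.Bold
import Pool.Agent.Helper685.Sol.Defeat

namespace Pool.Agent.Helper685.Sol

/-- a code of the set `E0 e (n+1) s` -/
noncomputable def code0 (e n s : ℕ) : BC (n + 1) :=
  Classical.choose (sigB_E0 e (n + 1) s (Nat.succ_le_succ (Nat.zero_le n)))

/-- a code of the set `E1 e (n+1) s` -/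
noncomputable def code1 (e n s : ℕ) : BC (n + 1) :=
  Classical.choose (sigB_E1 e (n + 1) s (Nat.succ_le_succ (Nat.zero_le n)))

theorem code0_ok (e n s : ℕ) : (code0 e n s).Ok :=
  (Classical.choose_spec (sigB_E0 e (n + 1) s (Nat.succ_le_succ (Nat.zero_le n)))).1

theorem code0_set (e n s : ℕ) : (code0 e n s).set = E0 e (n + 1) s :=
  (Classical.choose_spec (sigB_E0 e (n + 1) s (Nat.succ_le_succ (Nat.zero_le n)))).2

theorem code1_ok (e n s : ℕ) : (code1 e n s).Ok :=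
  (Classical.choose_spec (sigB_E1 e (n + 1) s (Nat.succ_le_succ (Nat.zero_le n)))).1

theorem code1_set (e n s : ℕ) : (code1 e n s).set = E1 e (n + 1) s :=
  (Classical.choose_spec (sigB_E1 e (n + 1) s (Nat.succ_le_succ (Nat.zero_le n)))).2

/-- packed code -/
noncomputable def pk0 (e n s : ℕ) : Σ n, BC n := ⟨n + 1, code0 e n s⟩

/-- packed code -/
noncomputable def pk1 (e n s : ℕ) : Σ n, BC n := ⟨n + 1, code1 e n s⟩

/-- the enumeration of all codes used -/
noncomputable def fam (j : ℕ) : Σ n, BC n :=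
  if j.unpair.1 = 0 then
    pk0 j.unpair.2.unpair.1 j.unpair.2.unpair.2.unpair.1 j.unpair.2.unpair.2.unpair.2
  else
    pk1 j.unpair.2.unpair.1 j.unpair.2.unpair.2.unpair.1 j.unpair.2.unpair.2.unpair.2

theorem fam_ok (j : ℕ) : (fam j).2.Ok := by
  unfold fam
  by_cases h : j.unpair.1 = 0
  · rw [if_pos h]
    exact code0_ok _ _ _
  · rw [if_neg h]
    exact code1_ok _ _ _

theorem fam_code0 (e n s : ℕ) : ∃ j, fam j = ⟨n + 1, code0 e n s⟩ := by
  refine ⟨Nat.pair 0 (Nat.pair e (Nat.pair n s)), ?_⟩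
  unfold fam
  rw [Nat.unpair_pair, if_pos rfl, Nat.unpair_pair, Nat.unpair_pair]
  rfl

theorem fam_code1 (e n s : ℕ) : ∃ j, fam j = ⟨n + 1, code1 e n s⟩ := by
  refine ⟨Nat.pair 1 (Nat.pair e (Nat.pair n s)), ?_⟩
  unfold fam
  rw [Nat.unpair_pair, if_neg (by norm_num), Nat.unpair_pair, Nat.unpair_pair]
  rfl

/-- the requirement for the program with number `e` -/
def Req (e : ℕ) (Q : Pt) (k : ℕ) : Prop :=
  ∃ (n : ℕ) (s0 s1 : Fm), n + 1 ≤ k ∧ QS k s0 ∧ QS k s1 ∧ s0.IsSentence ∧ IsSig (n + 1) s0 ∧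
    s1.IsSentence ∧ IsSig (n + 1) s1 ∧
    ((¬ s0.sat Q.S Q.a ∧ ∀ R : Pt, Ext (n + 1) Q R → ¬ (code0 e n (Encodable.encode s0)).F R) ∨
     (s0.sat Q.S Q.a ∧ ¬ s1.sat Q.S Q.a ∧ (code0 e n (Encodable.encode s0)).F Q ∧
        ∀ R : Pt, Ext (n + 1) Q R → ¬ (code1 e n (Encodable.encode s1)).F R) ∨
     (s1.sat Q.S Q.a ∧ (code1 e n (Encodable.encode s1)).F Q))

theorem req_dense (e : ℕ) (P : Pt) (k : ℕ) :
    ∃ (Q : Pt) (k' : ℕ), k ≤ k' ∧ Ext k P Q ∧ Req e Q k' := by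
  obtain ⟨s0, s1, h1, h2, h3, h4, h⟩ := three_way P k
  obtain ⟨Q, hQ, hc⟩ := h (code0 e (k + 1) (Encodable.encode s0))
    (code1 e (k + 1) (Encodable.encode s1))
  obtain ⟨r0, hr0⟩ := exists_QS s0
  obtain ⟨r1, hr1⟩ := exists_QS s1
  refine ⟨Q, max (k + 2) (max r0 r1), by omega, hQ, k + 1, s0, s1, by omega,
    hr0.mono (by omega), hr1.mono (by omega), h1, h2, h3, h4, hc⟩

/-- numeral terms -/
def numTm : ℕ → Tm
  | 0 => .zero
  | n + 1 => .succ (numTm n)

theorem numTm_val {M : Type} (S : Str M) (v : ℕ → M) (n : ℕ) : (numTm n).val S v = S.num n := by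
  induction n with
  | zero => rfl
  | succ n ih => simp [numTm, Tm.val, Str.num, ih]

theorem numTm_fvLt (n k : ℕ) : (numTm n).FvLt k := by
  induction n with
  | zero => trivial
  | succ n ih => exact ih

/-- the standard model -/
def Nst : Str ℕ := ⟨0, Nat.succ, (· + ·), (· * ·)⟩

theorem Nst_pa : IsPA Nst where
  succ_ne_zero := Nat.succ_ne_zero
  succ_inj := fun _ _ h => Nat.succ.inj h
  add_zero := Nat.add_zero
  add_succ := Nat.add_succ
  mul_zero := Nat.mul_zero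
  mul_succ := Nat.mul_succ
  ind := fun f v h0 hs x => Nat.rec h0 hs x

theorem Nst_num (n : ℕ) : Nst.num n = n := by
  induction n with
  | zero => rfl
  | succ n ih => show Nat.succ (Nst.num n) = n + 1; rw [ih]

theorem exists_start : ∃ P : Pt, P.m = 1 ∧ ∀ n : ℕ, P.a 0 ≠ P.S.num n := by
  obtain ⟨M, S, hS, v, hv⟩ := compactness (fun i => .neg (.eq (.var 0) (numTm i))) (by
    intro k
    refine ⟨ℕ, Nst, Nst_pa, fun _ => k + 1, fun i hi => ?_⟩
    show ¬ (k + 1 = (numTm i).val Nst _)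
    rw [numTm_val, Nst_num]
    omega)
  refine ⟨⟨M, S, hS, 1, v, fun i hi j hj _ => by omega⟩, rfl, fun n => ?_⟩
  have := hv n
  intro h
  apply this
  show v 0 = (numTm n).val S v
  rw [numTm_val]
  exact h

theorem mem_thSig {A : Str ℕ} {n : ℕ} {s : Fm} (h1 : s.IsSentence) (h2 : IsSig n s) :
    Encodable.encode s ∈ thSig A n ↔ s.sat A id := by
  constructor
  · rintro ⟨f, _, _, hf, he⟩
    rw [Encodable.encode_injective he]
    exact hf
  · intro h
    exact ⟨s, h1, h2, h, rfl⟩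

theorem main : ∃ A : Str ℕ, IsPA A ∧ Nonstandard A ∧
    ∀ t : ℕ → ℕ → ℕ, IsSolovayFamily (diagram A) (thSig A) t →
      ∃ n ≥ 1, ¬ ChangesAtMostOnce (t n) := by
  obtain ⟨C, hC, hok, hsub⟩ := exists_closure fam fam_ok
  obtain ⟨P0, hm0, hns⟩ := exists_start
  obtain ⟨P, k, hP0, hG⟩ := exists_gseq C Req req_dense P0
  obtain ⟨A, hA, hAt⟩ := limit_model hG
  refine ⟨A, hA, ⟨0, fun n h => ?_⟩, ?_⟩
  · have hf : Fm.sat A id (.neg (.eq (.var 0) (numTm n))) := by
      rw [hAt 0 _ ((QS.qf (.neg (.eq _ _))).mono (Nat.zero_le _)) (by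
        rw [hP0, hm0]
        exact ⟨Nat.zero_lt_one, numTm_fvLt _ _⟩)]
      show ¬ ((P 0).a 0 = (numTm n).val (P 0).S (P 0).a)
      rw [numTm_val, hP0]
      exact hns n
    apply hf
    show (0 : ℕ) = (numTm n).val A id
    rw [numTm_val]
    exact h
  · intro t ht
    obtain ⟨e, he⟩ := ht.uniform
    obtain ⟨i, n, s0, s1, hn, q0, q1, h1, h2, h3, h4, hc⟩ := hG.req e
    refine ⟨n + 1, by omega, ?_⟩
    have t0 : Encodable.encode s0 ∈ thSig A (n + 1) ↔ s0.sat (P i).S (P i).a :=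
      (mem_thSig h1 h2).trans (hAt i _ q0 (Fm.FvLt.mono (Nat.zero_le _) h1))
    have t1 : Encodable.encode s1 ∈ thSig A (n + 1) ↔ s1.sat (P i).S (P i).a :=
      (mem_thSig h3 h4).trans (hAt i _ q1 (Fm.FvLt.mono (Nat.zero_le _) h3))
    obtain ⟨j0', hj0'⟩ := fam_code0 e n (Encodable.encode s0)
    obtain ⟨j0, hj0⟩ := hC j0'
    obtain ⟨j1', hj1'⟩ := fam_code1 e n (Encodable.encode s1)
    obtain ⟨j1, hj1⟩ := hC j1'
    have k0 : ((code0 e n (Encodable.encode s0)).F (P i) →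
          diagram A ∈ E0 e (n + 1) (Encodable.encode s0)) ∧
        ((∀ R : Pt, Ext (n + 1) (P i) R → ¬ (code0 e n (Encodable.encode s0)).F R) →
          diagram A ∉ E0 e (n + 1) (Encodable.encode s0)) := by
      have := code_truth hG hok hsub hAt j0 i (by rw [hj0, hj0']; exact hn)
      rw [hj0, hj0'] at this
      rw [← code0_set]
      exact this
    have k1 : ((code1 e n (Encodable.encode s1)).F (P i) →
          diagram A ∈ E1 e (n + 1) (Encodable.encode s1)) ∧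
        ((∀ R : Pt, Ext (n + 1) (P i) R → ¬ (code1 e n (Encodable.encode s1)).F R) →
          diagram A ∉ E1 e (n + 1) (Encodable.encode s1)) := by
      have := code_truth hG hok hsub hAt j1 i (by rw [hj1, hj1']; exact hn)
      rw [hj1, hj1'] at this
      rw [← code1_set]
      exact this
    apply defeat he ht (by omega : 1 ≤ n + 1) (s0 := Encodable.encode s0)
      (s1 := Encodable.encode s1)
    rcases hc with ⟨ha, hb⟩ | ⟨ha, hb, hc, hd⟩ | ⟨ha, hb⟩
    · exact Or.inl ⟨fun h => ha (t0.mp h), k0.2 hb⟩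
    · exact Or.inr (Or.inl ⟨t0.mpr ha, fun h => hb (t1.mp h), k0.1 hc, k1.2 hd⟩)
    · exact Or.inr (Or.inr ⟨t1.mpr ha, k1.1 hb⟩)

end Pool.Agent.Helper685.Sol
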