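import Pool.Agent.Helper685.Sol.UDefs

namespace Pool.Agent.Helper685.Sol

/-- predicates on assignments in all structures -/
abbrev Prd : Type 1 := ∀ (M : Type) (_ : Str M), (ℕ → M) → Prop

/-- the predicates with a normal form of level `n` over all models of `PA` -/
def InN (n : ℕ) (P : Prd) : Prop :=
  ∃ s t : Tm, ∀ (M : Type) (S : Str M), IsPA S → ∀ v, (P M S v ↔ NP S s t n v)

theorem InN.congr {n : ℕ} {P Q : Prd} (hP : InN n P)
    (h : ∀ (M : Type) (S : Str M), IsPA S → ∀ v, (Q M S v ↔ P M S v)) : InN n Q := by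
  obtain ⟨s, t, hst⟩ := hP
  exact ⟨s, t, fun M S hS v => (h M S hS v).trans (hst M S hS v)⟩

theorem InN.succ {n : ℕ} {P : Prd} (hP : InN (n + 1) P) :
    ∃ Q : Prd, InN n Q ∧ ∀ (M : Type) (S : Str M), IsPA S → ∀ v,
      (P M S v ↔ ∃ y : ℕ → M, ¬ Q M S (ilv y v)) := by
  obtain ⟨s, t, hst⟩ := hP
  exact ⟨fun M S v => NP S s t n v, ⟨s, t, fun M S _ v => Iff.rfl⟩,
    fun M S hS v => hst M S hS v⟩

theorem InN.of_succ {n : ℕ} {P Q : Prd} (hQ : InN n Q)
    (h : ∀ (M : Type) (S : Str M), IsPA S → ∀ v, (P M S v ↔ ∃ y : ℕ → M, ¬ Q M S (ilv y v))) :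
    InN (n + 1) P := by
  obtain ⟨s, t, hst⟩ := hQ
  refine ⟨s, t, fun M S hS v => (h M S hS v).trans ?_⟩
  exact exists_congr fun y => not_congr (hst M S hS _)

/-- renaming under an interleaving -/
def ilr (ρ : ℕ → ℕ) (k : ℕ) : ℕ := if k % 2 = 0 then k else 2 * ρ (k / 2) + 1

theorem ilv_even {M : Type} (y v : ℕ → M) (k : ℕ) : ilv y v (2 * k) = y k := by
  unfold ilv
  rw [if_pos (by omega)]
  congr 1
  omega

theorem ilv_odd {M : Type} (y v : ℕ → M) (k : ℕ) : ilv y v (2 * k + 1) = v k := by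
  unfold ilv
  rw [if_neg (by omega)]
  congr 1
  omega

theorem ilv_ext {M : Type} (y v w : ℕ → M) (h1 : ∀ k, w (2 * k) = y k)
    (h2 : ∀ k, w (2 * k + 1) = v k) : ilv y v = w := by
  funext k
  rcases Nat.even_or_odd' k with ⟨m, rfl | rfl⟩
  · rw [ilv_even, h1]
  · rw [ilv_odd, h2]

theorem ilv_ilr {M : Type} (y v : ℕ → M) (ρ : ℕ → ℕ) :
    ilv y (fun i => v (ρ i)) = fun k => ilv y v (ilr ρ k) := by
  refine ilv_ext _ _ _ (fun k => ?_) (fun k => ?_)
  · have : ilr ρ (2 * k) = 2 * k := by unfold ilr; rw [if_pos (by omega)]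
    rw [this, ilv_even]
  · have : ilr ρ (2 * k + 1) = 2 * ρ k + 1 := by
      unfold ilr
      rw [if_neg (by omega)]
      have : (2 * k + 1) / 2 = k := by omega
      rw [this]
    rw [this, ilv_odd]

theorem InN.reindex {n : ℕ} {P : Prd} (hP : InN n P) (ρ : ℕ → ℕ) :
    InN n (fun M S v => P M S (fun i => v (ρ i))) := by
  induction n generalizing P ρ with
  | zero =>
    obtain ⟨s, t, hst⟩ := hP
    refine ⟨s.ren ρ, t.ren ρ, fun M S hS v => (hst M S hS _).trans ?_⟩
    show s.val S _ ≠ t.val S _ ↔ (s.ren ρ).val S v ≠ (t.ren ρ).val S v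
    rw [Tm.val_ren, Tm.val_ren]
  | succ n ih =>
    obtain ⟨Q, hQ, h⟩ := hP.succ
    refine InN.of_succ (ih hQ (ilr ρ)) fun M S hS v => (h M S hS _).trans ?_
    refine exists_congr fun y => not_congr ?_
    rw [ilv_ilr]

theorem alg_and {M : Type} [CommSemiring M] [LinearOrder M] [IsStrictOrderedRing M]
    [CanonicallyOrderedAdd M] (s t s' t' : M) :
    (s ≠ t ∧ s' ≠ t') ↔ s * s' + t * t' ≠ s * t' + t * s' := by
  have key : s * s' + t * t' = s * t' + t * s' ↔ s = t ∨ s' = t' := by
    constructor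
    · intro h
      rcases le_total t s with h1 | h1 <;> rcases le_total t' s' with h2 | h2 <;>
        obtain ⟨d, rfl⟩ := exists_add_of_le h1 <;> obtain ⟨e, rfl⟩ := exists_add_of_le h2
      · have h3 : (t * t' + t * e + d * t' + t * t') + d * e =
            (t * t' + t * e + d * t' + t * t') + 0 := by
          calc _ = (t + d) * (t' + e) + t * t' := by ring
            _ = _ := by rw [h]; ring
        have h4 := add_left_cancel h3
        rcases mul_eq_zero.1 h4 with h5 | h5
        · left; rw [h5, add_zero]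
        · right; rw [h5, add_zero]
      · have h3 : (t * s' + t * s' + d * s' + t * e) + d * e =
            (t * s' + t * s' + d * s' + t * e) + 0 := by
          calc _ = (t + d) * (s' + e) + t * s' := by ring
            _ = _ := by rw [← h]; ring
        have h4 := add_left_cancel h3
        rcases mul_eq_zero.1 h4 with h5 | h5
        · left; rw [h5, add_zero]
        · right; rw [h5, add_zero]
      · have h3 : (s * t' + s * t' + d * t' + s * e) + d * e =
            (s * t' + s * t' + d * t' + s * e) + 0 := by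
          calc _ = s * t' + (s + d) * (t' + e) := by ring
            _ = _ := by rw [← h]; ring
        have h4 := add_left_cancel h3
        rcases mul_eq_zero.1 h4 with h5 | h5
        · left; rw [h5, add_zero]
        · right; rw [h5, add_zero]
      · have h3 : (s * s' + s * s' + d * s' + s * e) + d * e =
            (s * s' + s * s' + d * s' + s * e) + 0 := by
          calc _ = s * s' + (s + d) * (s' + e) := by ring
            _ = _ := by rw [h]; ring
        have h4 := add_left_cancel h3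
        rcases mul_eq_zero.1 h4 with h5 | h5
        · left; rw [h5, add_zero]
        · right; rw [h5, add_zero]
    · rintro (rfl | rfl) <;> ring
  rw [Ne, Ne, Ne, key]
  tauto

theorem alg_sq {M : Type} [CommSemiring M] [LinearOrder M] [IsStrictOrderedRing M]
    [CanonicallyOrderedAdd M] (s t : M) :
    ∃ d, s * s + t * t = s * t + s * t + d * d ∧ (d = 0 ↔ s = t) := by
  rcases le_total t s with h1 | h1 <;> obtain ⟨d, rfl⟩ := exists_add_of_le h1
  · refine ⟨d, by ring, ?_⟩
    constructor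
    · rintro rfl; rw [add_zero]
    · intro h
      have : t + d = t + 0 := by rw [add_zero]; exact h
      exact add_left_cancel this
  · refine ⟨d, by ring, ?_⟩
    constructor
    · rintro rfl; rw [add_zero]
    · intro h
      have : s + 0 = s + d := by rw [add_zero]; exact h
      exact (add_left_cancel this).symm

theorem alg_or {M : Type} [CommSemiring M] [LinearOrder M] [IsStrictOrderedRing M]
    [CanonicallyOrderedAdd M] (s t s' t' : M) :
    (s ≠ t ∨ s' ≠ t') ↔ (s * s + t * t) + (s' * s' + t' * t') ≠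
      (s * t + s * t) + (s' * t' + s' * t') := by
  obtain ⟨d, hd, hd'⟩ := alg_sq s t
  obtain ⟨e, he, he'⟩ := alg_sq s' t'
  have key : (s * s + t * t) + (s' * s' + t' * t') =
      (s * t + s * t) + (s' * t' + s' * t') ↔ s = t ∧ s' = t' := by
    rw [← hd', ← he', hd, he]
    constructor
    · intro h
      have h3 : (s * t + s * t) + (s' * t' + s' * t') + (d * d + e * e) =
          (s * t + s * t) + (s' * t' + s' * t') + 0 := by
        rw [add_zero]
        calc _ = s * t + s * t + d * d + (s' * t' + s' * t' + e * e) := by ring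
          _ = _ := h
      have h4 := add_left_cancel h3
      have h5 := (add_eq_zero_iff_of_nonneg zero_le zero_le).1 h4
      exact ⟨mul_self_eq_zero.1 h5.1, mul_self_eq_zero.1 h5.2⟩
    · rintro ⟨rfl, rfl⟩
      simp
  rw [Ne, Ne, Ne, key]
  tauto

theorem InN.zero_and {P Q : Prd} (hP : InN 0 P) (hQ : InN 0 Q) :
    InN 0 (fun M S v => P M S v ∧ Q M S v) := by
  obtain ⟨s, t, h⟩ := hP
  obtain ⟨s', t', h'⟩ := hQ
  refine ⟨.add (.mul s s') (.mul t t'), .add (.mul s t') (.mul t s'), fun M S hS v => ?_⟩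
  obtain ⟨_, _, _, _, h0, h1, ha, hm, _⟩ := exists_alg hS
  refine (and_congr (h M S hS v) (h' M S hS v)).trans ?_
  show (s.val S v ≠ t.val S v ∧ s'.val S v ≠ t'.val S v) ↔
    S.add (S.mul (s.val S v) (s'.val S v)) (S.mul (t.val S v) (t'.val S v)) ≠
    S.add (S.mul (s.val S v) (t'.val S v)) (S.mul (t.val S v) (s'.val S v))
  simp only [← ha, ← hm]
  exact alg_and _ _ _ _

theorem InN.zero_or {P Q : Prd} (hP : InN 0 P) (hQ : InN 0 Q) :
    InN 0 (fun M S v => P M S v ∨ Q M S v) := by
  obtain ⟨s, t, h⟩ := hP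
  obtain ⟨s', t', h'⟩ := hQ
  refine ⟨.add (.add (.mul s s) (.mul t t)) (.add (.mul s' s') (.mul t' t')),
    .add (.add (.mul s t) (.mul s t)) (.add (.mul s' t') (.mul s' t')), fun M S hS v => ?_⟩
  obtain ⟨_, _, _, _, h0, h1, ha, hm, _⟩ := exists_alg hS
  refine (or_congr (h M S hS v) (h' M S hS v)).trans ?_
  show (s.val S v ≠ t.val S v ∨ s'.val S v ≠ t'.val S v) ↔
    S.add (S.add (S.mul (s.val S v) (s.val S v)) (S.mul (t.val S v) (t.val S v)))
      (S.add (S.mul (s'.val S v) (s'.val S v)) (S.mul (t'.val S v) (t'.val S v))) ≠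
    S.add (S.add (S.mul (s.val S v) (t.val S v)) (S.mul (s.val S v) (t.val S v)))
      (S.add (S.mul (s'.val S v) (t'.val S v)) (S.mul (s'.val S v) (t'.val S v)))
  simp only [← ha, ← hm]
  exact alg_or _ _ _ _

/-- renaming to the even entries of the quantified part -/
def re1 (k : ℕ) : ℕ := if k % 2 = 0 then 2 * k else k

/-- renaming to the odd entries of the quantified part -/
def re2 (k : ℕ) : ℕ := if k % 2 = 0 then 2 * k + 2 else k

theorem ilv_re1 {M : Type} (z v : ℕ → M) :
    ilv (fun i => z (2 * i)) v = fun k => ilv z v (re1 k) := by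
  refine ilv_ext _ _ _ (fun k => ?_) (fun k => ?_)
  · have : re1 (2 * k) = 2 * (2 * k) := by unfold re1; rw [if_pos (by omega)]
    rw [this, ilv_even]
  · have : re1 (2 * k + 1) = 2 * k + 1 := by unfold re1; rw [if_neg (by omega)]
    rw [this, ilv_odd]

theorem ilv_re2 {M : Type} (z v : ℕ → M) :
    ilv (fun i => z (2 * i + 1)) v = fun k => ilv z v (re2 k) := by
  refine ilv_ext _ _ _ (fun k => ?_) (fun k => ?_)
  · have : re2 (2 * k) = 2 * (2 * k + 1) := by unfold re2; rw [if_pos (by omega)]; ring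
    rw [this, ilv_even]
  · have : re2 (2 * k + 1) = 2 * k + 1 := by unfold re2; rw [if_neg (by omega)]
    rw [this, ilv_odd]

theorem InN.and_or {n : ℕ} : ∀ {P Q : Prd}, InN n P → InN n Q →
    InN n (fun M S v => P M S v ∧ Q M S v) ∧ InN n (fun M S v => P M S v ∨ Q M S v) := by
  induction n with
  | zero => exact fun hP hQ => ⟨hP.zero_and hQ, hP.zero_or hQ⟩
  | succ n ih =>
    intro P Q hP hQ
    obtain ⟨P', hP', h⟩ := hP.succ
    obtain ⟨Q', hQ', h'⟩ := hQ.succ
    have hc := ih (hP'.reindex re1) (hQ'.reindex re2)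
    constructor
    · refine InN.of_succ hc.2 fun M S hS v => ?_
      rw [h M S hS v, h' M S hS v]
      constructor
      · rintro ⟨⟨y, hy⟩, ⟨y', hy'⟩⟩
        refine ⟨ilv y y', ?_⟩
        have e1 := ilv_re1 (ilv y y') v
        have e2 := ilv_re2 (ilv y y') v
        simp only [ilv_even, ilv_odd] at e1 e2
        rintro (hc | hc)
        · exact hy (by rw [e1]; exact hc)
        · exact hy' (by rw [e2]; exact hc)
      · rintro ⟨z, hz⟩
        rw [not_or, ← ilv_re1, ← ilv_re2] at hz
        exact ⟨⟨_, hz.1⟩, ⟨_, hz.2⟩⟩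
    · refine InN.of_succ hc.1 fun M S hS v => ?_
      rw [h M S hS v, h' M S hS v]
      constructor
      · rintro (⟨y, hy⟩ | ⟨y, hy⟩)
        · refine ⟨ilv y y, ?_⟩
          have e1 := ilv_re1 (ilv y y) v
          simp only [ilv_even] at e1
          rintro ⟨hc, _⟩
          exact hy (by rw [e1]; exact hc)
        · refine ⟨ilv y y, ?_⟩
          have e1 := ilv_re2 (ilv y y) v
          simp only [ilv_odd] at e1
          rintro ⟨_, hc⟩
          exact hy (by rw [e1]; exact hc)
      · rintro ⟨z, hz⟩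
        rw [not_and_or, ← ilv_re1, ← ilv_re2] at hz
        rcases hz with hz | hz
        · exact Or.inl ⟨_, hz⟩
        · exact Or.inr ⟨_, hz⟩

theorem InN.neg {n : ℕ} {P : Prd} (hP : InN n P) : InN (n + 1) (fun M S v => ¬ P M S v) := by
  refine InN.of_succ (hP.reindex (fun k => 2 * k + 1)) fun M S hS v => ?_
  simp only [ilv_odd]
  exact ⟨fun h => ⟨v, h⟩, fun ⟨_, h⟩ => h⟩

theorem alg_ne {M : Type} [CommSemiring M] [LinearOrder M] [IsStrictOrderedRing M]
    [CanonicallyOrderedAdd M] (hd : ∀ x y : M, x < y + 1 ↔ x ≤ y) (s t : M) :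
    s ≠ t ↔ ∃ u, (s + u + 1 = t ∨ t + u + 1 = s) := by
  constructor
  · intro h
    rcases lt_or_gt_of_ne h with h1 | h1
    · obtain ⟨d, rfl⟩ := exists_add_of_le h1.le
      have hd0 : d ≠ 0 := by
        rintro rfl
        simp at h
      have h2 : (1 : M) ≤ d := by
        by_contra hcon
        push Not at hcon
        have := (hd d 0).1 (by rw [zero_add]; exact hcon)
        exact hd0 (le_antisymm this zero_le)
      obtain ⟨e, rfl⟩ := exists_add_of_le h2
      exact ⟨e, Or.inl (by ring)⟩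
    · obtain ⟨d, rfl⟩ := exists_add_of_le h1.le
      have hd0 : d ≠ 0 := by
        rintro rfl
        simp at h
      have h2 : (1 : M) ≤ d := by
        by_contra hcon
        push Not at hcon
        have := (hd d 0).1 (by rw [zero_add]; exact hcon)
        exact hd0 (le_antisymm this zero_le)
      obtain ⟨e, rfl⟩ := exists_add_of_le h2
      exact ⟨e, Or.inr (by ring)⟩
  · rintro ⟨u, rfl | rfl⟩ h
    · have h2 : s + 0 = s + (u + 1) := by rw [add_zero, ← add_assoc]; exact h
      have h3 := add_left_cancel h2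
      have h4 : (0 : M) < u + 1 := lt_of_lt_of_le zero_lt_one (by simp)
      exact h4.ne h3
    · have h2 : t + (u + 1) = t + 0 := by rw [add_zero, ← add_assoc]; exact h
      have h3 := add_left_cancel h2
      have h4 : (0 : M) < u + 1 := lt_of_lt_of_le zero_lt_one (by simp)
      exact h4.ne' h3

theorem InN.up {n : ℕ} : ∀ {P : Prd}, InN n P → InN (n + 1) P := by
  induction n with
  | zero =>
    intro P hP
    obtain ⟨s, t, h⟩ := hP
    obtain ⟨s', hs'⟩ : ∃ s' : Tm, s' = s.ren (fun k => 2 * k + 1) := ⟨_, rfl⟩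
    obtain ⟨t', ht'⟩ : ∃ t' : Tm, t' = t.ren (fun k => 2 * k + 1) := ⟨_, rfl⟩
    have hQ1 : InN 0 (fun M S v => (Tm.succ (.add s' (.var 0))).val S v ≠ t'.val S v) :=
      ⟨_, _, fun M S _ v => Iff.rfl⟩
    have hQ2 : InN 0 (fun M S v => (Tm.succ (.add t' (.var 0))).val S v ≠ s'.val S v) :=
      ⟨_, _, fun M S _ v => Iff.rfl⟩
    refine InN.of_succ (hQ1.zero_and hQ2) fun M S hS v => (h M S hS v).trans ?_
    obtain ⟨_, _, _, _, h0, h1, ha, hm, hd, _⟩ := exists_alg hS
    have es : ∀ y : ℕ → M, s'.val S (ilv y v) = s.val S v := by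
      intro y
      rw [hs', Tm.val_ren]
      simp only [ilv_odd]
    have et : ∀ y : ℕ → M, t'.val S (ilv y v) = t.val S v := by
      intro y
      rw [ht', Tm.val_ren]
      simp only [ilv_odd]
    show s.val S v ≠ t.val S v ↔ _
    rw [alg_ne hd]
    constructor
    · rintro ⟨u, hu⟩
      refine ⟨fun _ => u, ?_⟩
      rw [not_and_or, not_ne_iff, not_ne_iff]
      simp only [Tm.val, es, et, ← h1, ← ha]
      exact hu
    · rintro ⟨y, hy⟩
      rw [not_and_or, not_ne_iff, not_ne_iff] at hy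
      simp only [Tm.val, es, et, ← h1, ← ha] at hy
      exact ⟨_, hy⟩
  | succ n ih =>
    intro P hP
    obtain ⟨Q, hQ, h⟩ := hP.succ
    exact InN.of_succ (ih hQ) h

/-- renaming for an existential quantifier -/
def re3 (k : ℕ) : ℕ := if k % 2 = 0 then k + 2 else if k = 1 then 0 else k - 2

theorem ilv_re3 {M : Type} (z v : ℕ → M) :
    ilv (fun i => z (i + 1)) (cns (z 0) v) = fun k => ilv z v (re3 k) := by
  refine ilv_ext _ _ _ (fun k => ?_) (fun k => ?_)
  · have : re3 (2 * k) = 2 * (k + 1) := by unfold re3; rw [if_pos (by omega)]; ring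
    rw [this, ilv_even]
  · cases k with
    | zero =>
      have : re3 (2 * 0 + 1) = 2 * 0 := by unfold re3; simp
      rw [this, ilv_even]
      rfl
    | succ k =>
      have : re3 (2 * (k + 1) + 1) = 2 * k + 1 := by
        unfold re3; rw [if_neg (by omega), if_neg (by omega)]; omega
      rw [this, ilv_odd]
      rfl

theorem InN.ex {n : ℕ} {P : Prd} (hP : InN (n + 1) P) :
    InN (n + 1) (fun M S v => ∃ a : M, P M S (cns a v)) := by
  obtain ⟨Q, hQ, h⟩ := hP.succ
  refine InN.of_succ (hQ.reindex re3) fun M S hS v => ?_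
  constructor
  · rintro ⟨a, ha⟩
    obtain ⟨y, hy⟩ := (h M S hS _).1 ha
    refine ⟨cns a y, ?_⟩
    rw [← ilv_re3]
    exact hy
  · rintro ⟨z, hz⟩
    rw [← ilv_re3] at hz
    exact ⟨z 0, (h M S hS _).2 ⟨_, hz⟩⟩

theorem InN.qf {f : Fm} (hf : QF f) :
    InN 1 (fun _ S v => f.sat S v) ∧ InN 1 (fun _ S v => ¬ f.sat S v) := by
  induction hf with
  | eq s t =>
    have h0 : InN 0 (fun M S v => s.val S v ≠ t.val S v) := ⟨s, t, fun M S _ v => Iff.rfl⟩
    exact ⟨h0.neg.congr fun M S _ v => (not_ne_iff (a := s.val S v)).symm, h0.up⟩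
  | neg _ ih => exact ⟨ih.2, ih.1.congr fun M S _ v => not_not⟩
  | and _ _ ih1 ih2 =>
    exact ⟨(InN.and_or ih1.1 ih2.1).1, (InN.and_or ih1.2 ih2.2).2.congr fun M S _ v =>
      not_and_or⟩

theorem InN.qs {n : ℕ} {f : Fm} (hf : QS n f) :
    (n = 0 → InN 1 (fun _ S v => f.sat S v) ∧ InN 1 (fun _ S v => ¬ f.sat S v)) ∧
      (1 ≤ n → InN n (fun _ S v => f.sat S v)) := by
  induction hf with
  | qf h => exact ⟨fun _ => InN.qf h, fun h => absurd h (by omega)⟩
  | @up n f _ ih =>
    refine ⟨fun h => absurd h (by omega), fun _ => ?_⟩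
    rcases Nat.eq_zero_or_pos n with rfl | hn
    · exact (ih.1 rfl).1
    · exact (ih.2 hn).up
  | @neg n f _ ih =>
    refine ⟨fun h => absurd h (by omega), fun _ => ?_⟩
    rcases Nat.eq_zero_or_pos n with rfl | hn
    · exact (ih.1 rfl).2
    · exact (ih.2 hn).neg
  | @and n f g _ _ ih1 ih2 =>
    refine ⟨fun h => absurd h (by omega), fun _ => ?_⟩
    exact (InN.and_or (ih1.2 (by omega)) (ih2.2 (by omega))).1
  | @ex n f _ ih =>
    refine ⟨fun h => absurd h (by omega), fun _ => ?_⟩
    exact (ih.2 (by omega)).ex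

theorem normal_form {n : ℕ} (hn : 1 ≤ n) {f : Fm} (hf : QS n f) :
    ∃ s t : Tm, ∀ (M : Type) (S : Str M), IsPA S → ∀ v, (f.sat S v ↔ NP S s t n v) :=
  (InN.qs hf).2 hn

end Pool.Agent.Helper685.Sol
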