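import Pool.Agent.Helper685.Sol.NF

namespace Pool.Agent.Helper685.Sol

/-! ### compilation of terms -/

/-- instructions -/
abbrev Ins := ℕ × ℕ × ℕ × ℕ

/-- the instruction is satisfied by the sequence -/
def holds {M : Type} (S : Str M) (w : ℕ → M) (p : Ins) : Prop :=
  (p.1 = 0 ∧ w p.2.2.2 = S.add (w p.2.1) (w p.2.2.1)) ∨
  (p.1 = 1 ∧ w p.2.2.2 = S.mul (w p.2.1) (w p.2.2.1)) ∨
  (p.1 = 2 ∧ w p.2.2.2 = S.succ (w p.2.1)) ∨
  (p.1 = 3 ∧ w p.2.2.2 = S.zero) ∨ (p.1 = 4 ∧ w p.2.2.2 = w p.2.1)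

def okr (J k r : ℕ) : Prop := r < 2 * J ∨ ∃ i < k, r = 2 * (J + i)

theorem okr_mono {J k k' r : ℕ} (h : k ≤ k') (hr : okr J k r) : okr J k' r := by
  rcases hr with hr | ⟨i, hi, hr⟩
  · exact Or.inl hr
  · exact Or.inr ⟨i, by omega, hr⟩

theorem okr_ne {J k m r : ℕ} (hr : okr J k r) (h : k ≤ m) : r ≠ 2 * (J + m) := by
  rcases hr with hr | ⟨i, hi, hr⟩ <;> omega

def okI (J k : ℕ) (I : List Ins) : Prop :=
  ∀ p ∈ I, okr J k p.2.1 ∧ okr J k p.2.2.1 ∧ okr J k p.2.2.2

theorem okI_mono {J k k' : ℕ} (h : k ≤ k') {I : List Ins} (hI : okI J k I) : okI J k' I :=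
  fun p hp => ⟨okr_mono h (hI p hp).1, okr_mono h (hI p hp).2.1, okr_mono h (hI p hp).2.2⟩

theorem holds_congr {M : Type} {S : Str M} {w w' : ℕ → M} {p : Ins} (h1 : w' p.2.1 = w p.2.1)
    (h2 : w' p.2.2.1 = w p.2.2.1) (h3 : w' p.2.2.2 = w p.2.2.2) (h : holds S w p) :
    holds S w' p := by
  unfold holds at h ⊢
  rw [h1, h2, h3]
  exact h

theorem holds_okI {M : Type} {S : Str M} {J k : ℕ} {I : List Ins} (hI : okI J k I)
    {w w' : ℕ → M} (hw : ∀ i, okr J k i → w' i = w i) (h : ∀ p ∈ I, holds S w p) :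
    ∀ p ∈ I, holds S w' p := fun p hp =>
  holds_congr (hw _ (hI p hp).1) (hw _ (hI p hp).2.1) (hw _ (hI p hp).2.2) (h p hp)

theorem upd_ok {M : Type} {J k m : ℕ} (h : k ≤ m) (w : ℕ → M) (z : M) (i : ℕ)
    (hi : okr J k i ∨ i % 2 = 1) : Function.update w (2 * (J + m)) z i = w i := by
  rcases hi with hi | hi
  · exact Function.update_of_ne (okr_ne hi h) _ _
  · exact Function.update_of_ne (by omega) _ _

theorem compile (J : ℕ) (s : Tm) (hs : s.FvLt (2 * J)) : ∀ k, ∃ (I : List Ins) (r k' : ℕ),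
    k ≤ k' ∧ okI J k' I ∧ okr J k' r ∧
    (∀ (M : Type) (S : Str M) (w : ℕ → M), (∀ p ∈ I, holds S w p) → w r = s.val S w) ∧
    (∀ (M : Type) (S : Str M) (w : ℕ → M), ∃ w' : ℕ → M,
      (∀ i, (okr J k i ∨ i % 2 = 1) → w' i = w i) ∧ ∀ p ∈ I, holds S w' p) := by
  induction s with
  | var i =>
    intro k
    refine ⟨[], i, k, le_rfl, fun p hp => absurd hp (List.not_mem_nil), Or.inl hs,
      fun M S w _ => rfl, fun M S w => ⟨w, fun i _ => rfl, fun p hp => absurd hp (List.not_mem_nil)⟩⟩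
  | zero =>
    intro k
    have hr : okr J (k + 1) (2 * (J + k)) := Or.inr ⟨k, Nat.lt_succ_self k, rfl⟩
    refine ⟨[(3, 2 * (J + k), 2 * (J + k), 2 * (J + k))], 2 * (J + k), k + 1, Nat.le_succ k, ?_, hr,
      ?_, ?_⟩
    · intro p hp
      rw [List.mem_singleton] at hp
      subst hp
      exact ⟨hr, hr, hr⟩
    · intro M S w h
      have := h _ (List.mem_singleton.2 rfl)
      show w (2 * (J + k)) = S.zero
      simpa [holds] using this
    · intro M S w
      refine ⟨Function.update w (2 * (J + k)) S.zero, fun i hi => upd_ok le_rfl w _ i hi, ?_⟩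
      intro p hp
      rw [List.mem_singleton] at hp
      subst hp
      simp [holds]
  | succ t ih =>
    intro k
    obtain ⟨I, r, k1, h1, h2, h3, h4, h5⟩ := ih hs k
    have hr : okr J (k1 + 1) (2 * (J + k1)) := Or.inr ⟨k1, Nat.lt_succ_self k1, rfl⟩
    refine ⟨I ++ [(2, r, r, 2 * (J + k1))], 2 * (J + k1), k1 + 1, by omega, ?_, hr, ?_, ?_⟩
    · intro p hp
      rcases List.mem_append.1 hp with hp | hp
      · exact okI_mono (Nat.le_succ k1) h2 p hp
      · rw [List.mem_singleton] at hp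
        subst hp
        exact ⟨okr_mono (Nat.le_succ k1) h3, okr_mono (Nat.le_succ k1) h3, hr⟩
    · intro M S w h
      have e1 := h4 M S w fun p hp => h p (List.mem_append.2 (Or.inl hp))
      have e2 := h _ (List.mem_append.2 (Or.inr (List.mem_singleton.2 rfl)))
      simp only [holds] at e2
      simp only [Tm.val, ← e1]
      simpa using e2
    · intro M S w
      obtain ⟨w1, g1, g2⟩ := h5 M S w
      refine ⟨Function.update w1 (2 * (J + k1)) (S.succ (w1 r)), fun i hi => ?_, ?_⟩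
      · rw [upd_ok (k := k) h1 w1 _ i hi, g1 i hi]
      · intro p hp
        rcases List.mem_append.1 hp with hp | hp
        · exact holds_okI h2 (fun i hi => upd_ok le_rfl w1 _ i (Or.inl hi)) g2 p hp
        · rw [List.mem_singleton] at hp
          subst hp
          have e3 := upd_ok (M := M) (le_refl k1) w1 (S.succ (w1 r)) r (Or.inl h3)
          simp only [holds]
          rw [e3]
          simp
  | add s t ih1 ih2 =>
    intro k
    obtain ⟨I, r, k1, h1, h2, h3, h4, h5⟩ := ih1 hs.1 k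
    obtain ⟨I', r', k2, h1', h2', h3', h4', h5'⟩ := ih2 hs.2 k1
    have hr : okr J (k2 + 1) (2 * (J + k2)) := Or.inr ⟨k2, Nat.lt_succ_self k2, rfl⟩
    refine ⟨(I ++ I') ++ [(0, r, r', 2 * (J + k2))], 2 * (J + k2), k2 + 1, by omega, ?_, hr, ?_, ?_⟩
    · intro p hp
      rcases List.mem_append.1 hp with hp | hp
      · rcases List.mem_append.1 hp with hp | hp
        · exact okI_mono (by omega) h2 p hp
        · exact okI_mono (by omega) h2' p hp
      · rw [List.mem_singleton] at hp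
        subst hp
        exact ⟨okr_mono (by omega) h3, okr_mono (by omega) h3', hr⟩
    · intro M S w h
      have e1 := h4 M S w fun p hp => h p (List.mem_append.2 (Or.inl (List.mem_append.2 (Or.inl hp))))
      have e1' := h4' M S w
        fun p hp => h p (List.mem_append.2 (Or.inl (List.mem_append.2 (Or.inr hp))))
      have e2 := h _ (List.mem_append.2 (Or.inr (List.mem_singleton.2 rfl)))
      simp only [holds] at e2
      simp only [Tm.val, ← e1, ← e1']
      simpa using e2
    · intro M S w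
      obtain ⟨w1, g1, g2⟩ := h5 M S w
      obtain ⟨w2, g1', g2'⟩ := h5' M S w1
      refine ⟨Function.update w2 (2 * (J + k2)) (S.add (w2 r) (w2 r')), fun i hi => ?_, ?_⟩
      · rw [upd_ok (k := k) (by omega) w2 _ i hi, g1' i (hi.imp (okr_mono h1) id), g1 i hi]
      · intro p hp
        rcases List.mem_append.1 hp with hp | hp
        · have g3 : ∀ p ∈ I ++ I', holds S w2 p := by
            intro p hp
            rcases List.mem_append.1 hp with hp | hp
            · exact holds_okI h2 (fun i hi => g1' i (Or.inl hi)) g2 p hp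
            · exact g2' p hp
          have g4 : okI J k2 (I ++ I') := by
            intro p hp
            rcases List.mem_append.1 hp with hp | hp
            · exact okI_mono h1' h2 p hp
            · exact h2' p hp
          exact holds_okI g4 (fun i hi => upd_ok le_rfl w2 _ i (Or.inl hi)) g3 p hp
        · rw [List.mem_singleton] at hp
          subst hp
          have e3 := upd_ok (M := M) (le_refl k2) w2 (S.add (w2 r) (w2 r')) r
            (Or.inl (okr_mono h1' h3))
          have e3' := upd_ok (M := M) (le_refl k2) w2 (S.add (w2 r) (w2 r')) r' (Or.inl h3')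
          simp only [holds]
          rw [e3, e3']
          simp
  | mul s t ih1 ih2 =>
    intro k
    obtain ⟨I, r, k1, h1, h2, h3, h4, h5⟩ := ih1 hs.1 k
    obtain ⟨I', r', k2, h1', h2', h3', h4', h5'⟩ := ih2 hs.2 k1
    have hr : okr J (k2 + 1) (2 * (J + k2)) := Or.inr ⟨k2, Nat.lt_succ_self k2, rfl⟩
    refine ⟨(I ++ I') ++ [(1, r, r', 2 * (J + k2))], 2 * (J + k2), k2 + 1, by omega, ?_, hr, ?_, ?_⟩
    · intro p hp
      rcases List.mem_append.1 hp with hp | hp
      · rcases List.mem_append.1 hp with hp | hp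
        · exact okI_mono (by omega) h2 p hp
        · exact okI_mono (by omega) h2' p hp
      · rw [List.mem_singleton] at hp
        subst hp
        exact ⟨okr_mono (by omega) h3, okr_mono (by omega) h3', hr⟩
    · intro M S w h
      have e1 := h4 M S w fun p hp => h p (List.mem_append.2 (Or.inl (List.mem_append.2 (Or.inl hp))))
      have e1' := h4' M S w
        fun p hp => h p (List.mem_append.2 (Or.inl (List.mem_append.2 (Or.inr hp))))
      have e2 := h _ (List.mem_append.2 (Or.inr (List.mem_singleton.2 rfl)))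
      simp only [holds] at e2
      simp only [Tm.val, ← e1, ← e1']
      simpa using e2
    · intro M S w
      obtain ⟨w1, g1, g2⟩ := h5 M S w
      obtain ⟨w2, g1', g2'⟩ := h5' M S w1
      refine ⟨Function.update w2 (2 * (J + k2)) (S.mul (w2 r) (w2 r')), fun i hi => ?_, ?_⟩
      · rw [upd_ok (k := k) (by omega) w2 _ i hi, g1' i (hi.imp (okr_mono h1) id), g1 i hi]
      · intro p hp
        rcases List.mem_append.1 hp with hp | hp
        · have g3 : ∀ p ∈ I ++ I', holds S w2 p := by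
            intro p hp
            rcases List.mem_append.1 hp with hp | hp
            · exact holds_okI h2 (fun i hi => g1' i (Or.inl hi)) g2 p hp
            · exact g2' p hp
          have g4 : okI J k2 (I ++ I') := by
            intro p hp
            rcases List.mem_append.1 hp with hp | hp
            · exact okI_mono h1' h2 p hp
            · exact h2' p hp
          exact holds_okI g4 (fun i hi => upd_ok le_rfl w2 _ i (Or.inl hi)) g3 p hp
        · rw [List.mem_singleton] at hp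
          subst hp
          have e3 := upd_ok (M := M) (le_refl k2) w2 (S.mul (w2 r) (w2 r')) r
            (Or.inl (okr_mono h1' h3))
          have e3' := upd_ok (M := M) (le_refl k2) w2 (S.mul (w2 r) (w2 r')) r' (Or.inl h3')
          simp only [holds]
          rw [e3, e3']
          simp

theorem pilv_odd {M : Type} (y v : ℕ → M) {i : ℕ} (h : i % 2 = 1) : ilv y v i = v (i / 2) := by
  unfold ilv
  rw [if_neg (by omega)]

theorem pilv_even {M : Type} (y v : ℕ → M) {i : ℕ} (h : i % 2 = 0) : ilv y v i = y (i / 2) := by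
  unfold ilv
  rw [if_pos h]

/-- the program of an equation -/
theorem prog_list (s t : Tm) : ∃ I : List Ins, ∀ (M : Type) (S : Str M) (v : ℕ → M),
    ((∃ y : ℕ → M, s.val S (ilv y v) = t.val S (ilv y v)) ↔
      ∃ y : ℕ → M, ∀ p ∈ I, holds S (ilv y v) p) := by
  obtain ⟨k, hk⟩ := s.exists_fvLt
  obtain ⟨m, hm⟩ := t.exists_fvLt
  obtain ⟨I, r, k1, h1, h2, h3, h4, h5⟩ := compile (max k m) s (hk.mono (by omega)) 0
  obtain ⟨I', r', k2, h1', h2', h3', h4', h5'⟩ := compile (max k m) t (hm.mono (by omega)) k1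
  refine ⟨(I ++ I') ++ [(4, r, r, r')], fun M S v => ⟨?_, ?_⟩⟩
  · rintro ⟨y, hy⟩
    obtain ⟨w1, g1, g2⟩ := h5 M S (ilv y v)
    obtain ⟨w2, g1', g2'⟩ := h5' M S w1
    have hw2 : ∀ i, (okr (max k m) 0 i ∨ i % 2 = 1) → w2 i = ilv y v i := fun i hi => by
      rw [g1' i (hi.imp (okr_mono h1) id), g1 i hi]
    refine ⟨fun j => w2 (2 * j), ?_⟩
    have hil : ilv (fun j => w2 (2 * j)) v = w2 := by
      funext i
      rcases Nat.mod_two_eq_zero_or_one i with hi | hi
      · rw [pilv_even _ _ hi]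
        show w2 (2 * (i / 2)) = w2 i
        congr 1
        omega
      · rw [pilv_odd _ _ hi, hw2 i (Or.inr hi), pilv_odd _ _ hi]
    rw [hil]
    have hI : ∀ p ∈ I, holds S w2 p := holds_okI h2 (fun i hi => g1' i (Or.inl hi)) g2
    have hvs : s.val S w2 = s.val S (ilv y v) :=
      Tm.val_congr S (fun i hi => hw2 i (Or.inl (Or.inl (by omega)))) hk
    have hvt : t.val S w2 = t.val S (ilv y v) :=
      Tm.val_congr S (fun i hi => hw2 i (Or.inl (Or.inl (by omega)))) hm
    intro p hp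
    rcases List.mem_append.1 hp with hp | hp
    · rcases List.mem_append.1 hp with hp | hp
      · exact hI p hp
      · exact g2' p hp
    · rw [List.mem_singleton] at hp
      subst hp
      have e1 := h4 M S w2 hI
      have e2 := h4' M S w2 g2'
      have e3 : w2 r' = w2 r := by rw [e1, e2, hvs, hvt, hy]
      simp only [holds]
      right; right; right; right
      exact ⟨trivial, e3⟩
  · rintro ⟨y, hy⟩
    refine ⟨y, ?_⟩
    have e1 := h4 M S (ilv y v)
      fun p hp => hy p (List.mem_append.2 (Or.inl (List.mem_append.2 (Or.inl hp))))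
    have e2 := h4' M S (ilv y v)
      fun p hp => hy p (List.mem_append.2 (Or.inl (List.mem_append.2 (Or.inr hp))))
    have e3 := hy _ (List.mem_append.2 (Or.inr (List.mem_singleton.2 rfl)))
    simp only [holds] at e3
    rw [← e1, ← e2]
    have e4 : ilv y v r' = ilv y v r := by simpa using e3
    exact e4.symm

theorem bound_list (I : List Ins) : ∃ L, 1 ≤ L ∧ I.length ≤ L ∧
    ∀ p ∈ I, p.2.1 < L ∧ p.2.2.1 < L ∧ p.2.2.2 < L := by
  induction I with
  | nil => exact ⟨1, le_rfl, by simp, fun p hp => absurd hp (List.not_mem_nil)⟩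
  | cons q I ih =>
    obtain ⟨L, h1, h2, h3⟩ := ih
    refine ⟨L + 1 + q.2.1 + q.2.2.1 + q.2.2.2, by omega, by simp only [List.length_cons]; omega, ?_⟩
    intro p hp
    rcases List.mem_cons.1 hp with hp | hp
    · subst hp
      omega
    · have := h3 p hp
      omega

theorem exists_code (g : ℕ → ℕ) (n : ℕ) : ∃ e1 e2 : ℕ, ∀ i < n, g i = e1 % ((i + 1) * e2 + 1) := by
  refine ⟨(Nat.unbeta ((List.range n).map g)).unpair.1,
    (Nat.unbeta ((List.range n).map g)).unpair.2, fun i hi => ?_⟩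
  have h := Nat.beta_unbeta_coe ((List.range n).map g) ⟨i, by simpa using hi⟩
  rw [Nat.beta] at h
  rw [h]
  simp

theorem ent_iff {M : Type} {S : Str M} (hS : IsPA S) {c d i y : M} (h : S.Ent c d i y) (z : M) :
    S.Ent c d i z ↔ z = y := ⟨fun h' => ent_unique hS h' h, fun h' => h' ▸ h⟩

theorem instr_iff {M : Type} {S : Str M} (hS : IsPA S) {c d : M} {w : ℕ → M} {n : ℕ}
    (hw : ∀ j < n, S.Ent c d (S.num j) (w j)) (p : Ins) (h1 : p.2.1 < n) (h2 : p.2.2.1 < n)
    (h3 : p.2.2.2 < n) :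
    Instr S c d (S.num p.1) (S.num p.2.1) (S.num p.2.2.1) (S.num p.2.2.2) ↔ holds S w p := by
  have hn : ∀ a b : ℕ, S.num a = S.num b ↔ a = b := fun a b => ⟨num_inj hS, fun h => by rw [h]⟩
  unfold Instr holds
  simp only [hn]
  constructor
  · rintro ⟨x, y, z, hx, hy, hz, h⟩
    rw [ent_iff hS (hw _ h1)] at hx
    rw [ent_iff hS (hw _ h2)] at hy
    rw [ent_iff hS (hw _ h3)] at hz
    subst hx hy hz
    exact h
  · intro h
    exact ⟨_, _, _, hw _ h1, hw _ h2, hw _ h3, h⟩

theorem run_iff {M : Type} {S : Str M} (hS : IsPA S) (g : ℕ → Ins) (e1 e2 L : ℕ)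
    (h0 : ∀ i < L, (g i).1 = e1 % ((4 * i + 1) * e2 + 1))
    (h1 : ∀ i < L, (g i).2.1 = e1 % ((4 * i + 1 + 1) * e2 + 1))
    (h2 : ∀ i < L, (g i).2.2.1 = e1 % ((4 * i + 2 + 1) * e2 + 1))
    (h3 : ∀ i < L, (g i).2.2.2 = e1 % ((4 * i + 3 + 1) * e2 + 1)) {c d : M} :
    Run S (S.num e1) (S.num e2) (S.num L) c d ↔
      ∀ i < L, Instr S c d (S.num (g i).1) (S.num (g i).2.1) (S.num (g i).2.2.1)
        (S.num (g i).2.2.2) := by
  unfold Run
  constructor
  · intro h i hi
    obtain ⟨op, a, b, r, g0, g1, g2, g3, g4⟩ := h (S.num i) ((lt_num hS).2 ⟨i, hi, rfl⟩)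
    rw [← num_mul hS] at g0
    rw [← num_mul hS, ← num_add hS] at g1 g2 g3
    rw [ent_iff hS ((ent_num hS _ _ _ _).2 (h0 i hi))] at g0
    rw [ent_iff hS ((ent_num hS _ _ _ _).2 (h1 i hi))] at g1
    rw [ent_iff hS ((ent_num hS _ _ _ _).2 (h2 i hi))] at g2
    rw [ent_iff hS ((ent_num hS _ _ _ _).2 (h3 i hi))] at g3
    rw [← g0, ← g1, ← g2, ← g3]
    exact g4
  · intro h i hi
    obtain ⟨k, hk, rfl⟩ := (lt_num hS).1 hi
    refine ⟨_, _, _, _, ?_, ?_, ?_, ?_, h k hk⟩
    · rw [← num_mul hS]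
      exact (ent_num hS _ _ _ _).2 (h0 k hk)
    · rw [← num_mul hS, ← num_add hS]
      exact (ent_num hS _ _ _ _).2 (h1 k hk)
    · rw [← num_mul hS, ← num_add hS]
      exact (ent_num hS _ _ _ _).2 (h2 k hk)
    · rw [← num_mul hS, ← num_add hS]
      exact (ent_num hS _ _ _ _).2 (h3 k hk)

theorem link_exists {M : Type} {S : Str M} (hS : IsPA S) {L : ℕ} {v : ℕ → M} {c d : M}
    (hcd : ∀ j < L, S.Ent c d (S.num j) (v j)) (y : ℕ → M) :
    ∃ c' d', Link S (S.num L) c d c' d' ∧ ∀ j < 2 * L, S.Ent c' d' (S.num j) (ilv y v j) := by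
  obtain ⟨c', d', h⟩ := beta hS (ilv y v) (2 * L)
  refine ⟨c', d', fun j hj => ?_, h⟩
  obtain ⟨k, hk, rfl⟩ := (lt_num hS).1 hj
  refine ⟨v k, hcd k hk, ?_⟩
  rw [← num_mul hS, ← num_add hS]
  have := h (2 * k + 1) (by omega)
  rw [pilv_odd _ _ (by omega : (2 * k + 1) % 2 = 1)] at this
  have e : (2 * k + 1) / 2 = k := by omega
  rwa [e] at this

theorem link_read {M : Type} {S : Str M} (hS : IsPA S) {L : ℕ} {v : ℕ → M} {c d c' d' : M}
    (hcd : ∀ j < L, S.Ent c d (S.num j) (v j)) (hl : Link S (S.num L) c d c' d') :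
    ∃ y : ℕ → M, ∀ j < 2 * L, S.Ent c' d' (S.num j) (ilv y v j) := by
  choose y hy using fun j : ℕ => ent_exists hS c' d' (S.num (2 * j))
  refine ⟨y, fun j hj => ?_⟩
  rcases Nat.mod_two_eq_zero_or_one j with h | h
  · rw [pilv_even _ _ h]
    have := hy (j / 2)
    have e : 2 * (j / 2) = j := by omega
    rwa [e] at this
  · rw [pilv_odd _ _ h]
    obtain ⟨x, hx, hx'⟩ := hl (S.num (j / 2)) ((lt_num hS).2 ⟨j / 2, by omega, rfl⟩)
    rw [ent_iff hS (hcd _ (by omega))] at hx
    subst hx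
    rw [← num_mul hS, ← num_add hS] at hx'
    have e : 2 * (j / 2) + 1 = j := by omega
    rwa [e] at hx'

theorem prog (s t : Tm) : ∃ e1 e2 L : ℕ, ∀ (M : Type) (S : Str M), IsPA S →
    ∀ (v : ℕ → M) (c d : M), (∀ j < L, S.Ent c d (S.num j) (v j)) →
      ((∃ y : ℕ → M, s.val S (ilv y v) = t.val S (ilv y v)) ↔
        UP S (S.num e1) (S.num e2) (S.num L) 1 c d) := by
  obtain ⟨I, hI⟩ := prog_list s t
  obtain ⟨L, hL1, hL2, hL3⟩ := bound_list I
  let g : ℕ → Ins := fun i => I.getD i (4, 0, 0, 0)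
  have hg : ∀ i, (g i).2.1 < L ∧ (g i).2.2.1 < L ∧ (g i).2.2.2 < L := by
    intro i
    by_cases hi : i < I.length
    · have : g i ∈ I := by
        simp only [g]
        rw [List.getD_eq_getElem _ _ hi]
        exact List.getElem_mem hi
      exact hL3 _ this
    · have : g i = (4, 0, 0, 0) := List.getD_eq_default _ _ (by omega)
      rw [this]
      exact ⟨hL1, hL1, hL1⟩
  have hgI : ∀ (M : Type) (S : Str M) (w : ℕ → M),
      (∀ p ∈ I, holds S w p) ↔ ∀ i < L, holds S w (g i) := by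
    intro M S w
    constructor
    · intro h i _
      by_cases hi : i < I.length
      · have : g i ∈ I := by
          simp only [g]
          rw [List.getD_eq_getElem _ _ hi]
          exact List.getElem_mem hi
        exact h _ this
      · have : g i = (4, 0, 0, 0) := List.getD_eq_default _ _ (by omega)
        rw [this]
        simp [holds]
    · intro h p hp
      obtain ⟨i, hi, rfl⟩ := List.mem_iff_getElem.1 hp
      have := h i (by omega)
      simp only [g] at this
      rwa [List.getD_eq_getElem _ _ hi] at this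
  obtain ⟨e1, e2, he⟩ := exists_code (fun m => if m % 4 = 0 then (g (m / 4)).1
    else if m % 4 = 1 then (g (m / 4)).2.1 else if m % 4 = 2 then (g (m / 4)).2.2.1
    else (g (m / 4)).2.2.2) (4 * L)
  have h0 : ∀ i < L, (g i).1 = e1 % ((4 * i + 1) * e2 + 1) := by
    intro i hi
    rw [← he (4 * i) (by omega)]
    rw [if_pos (by omega)]
    congr 2
    omega
  have h1 : ∀ i < L, (g i).2.1 = e1 % ((4 * i + 1 + 1) * e2 + 1) := by
    intro i hi
    rw [← he (4 * i + 1) (by omega)]
    rw [if_neg (by omega), if_pos (by omega)]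
    congr 3
    omega
  have h2 : ∀ i < L, (g i).2.2.1 = e1 % ((4 * i + 2 + 1) * e2 + 1) := by
    intro i hi
    rw [← he (4 * i + 2) (by omega)]
    rw [if_neg (by omega), if_neg (by omega), if_pos (by omega)]
    congr 4
    omega
  have h3 : ∀ i < L, (g i).2.2.2 = e1 % ((4 * i + 3 + 1) * e2 + 1) := by
    intro i hi
    rw [← he (4 * i + 3) (by omega)]
    rw [if_neg (by omega), if_neg (by omega), if_neg (by omega)]
    congr 4
    omega
  refine ⟨e1, e2, L, fun M S hS v c d hcd => ?_⟩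
  rw [hI M S v]
  have key : ∀ (c' d' : M) (y : ℕ → M), (∀ j < 2 * L, S.Ent c' d' (S.num j) (ilv y v j)) →
      (Run S (S.num e1) (S.num e2) (S.num L) c' d' ↔ ∀ p ∈ I, holds S (ilv y v) p) := by
    intro c' d' y hw
    rw [run_iff hS g e1 e2 L h0 h1 h2 h3, hgI]
    refine forall₂_congr fun i _ => ?_
    have := hg i
    exact instr_iff hS hw (g i) (by omega) (by omega) (by omega)
  constructor
  · rintro ⟨y, hy⟩
    obtain ⟨c', d', hl, hw⟩ := link_exists hS hcd y
    refine ⟨c', d', hl, ?_⟩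
    show ¬ ¬ _
    rw [not_not]
    exact (key c' d' y hw).2 hy
  · rintro ⟨c', d', hl, hrun⟩
    have hrun' : Run S (S.num e1) (S.num e2) (S.num L) c' d' := by
      by_contra hcon
      exact hrun hcon
    obtain ⟨y, hw⟩ := link_read hS hcd hl
    exact ⟨y, (key c' d' y hw).1 hrun'⟩

theorem UP_correct {s t : Tm} {e1 e2 L : ℕ} {M : Type} {S : Str M} (hS : IsPA S)
    (h : ∀ (v : ℕ → M) (c d : M), (∀ j < L, S.Ent c d (S.num j) (v j)) →
      ((∃ y : ℕ → M, s.val S (ilv y v) = t.val S (ilv y v)) ↔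
        UP S (S.num e1) (S.num e2) (S.num L) 1 c d)) (n : ℕ) (hn : 1 ≤ n)
    (v : ℕ → M) (c d : M) (hcd : ∀ j < L, S.Ent c d (S.num j) (v j)) :
    NP S s t n v ↔ UP S (S.num e1) (S.num e2) (S.num L) n c d := by
  induction n, hn using Nat.le_induction generalizing v c d with
  | base =>
    rw [← h v c d hcd]
    simp only [NP, ne_eq, not_not]
  | succ n hn ih =>
    constructor
    · rintro ⟨y, hy⟩
      obtain ⟨c', d', hl, hw⟩ := link_exists hS hcd y
      refine ⟨c', d', hl, fun hup => hy ?_⟩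
      exact (ih (ilv y v) c' d' fun j hj => hw j (by omega)).2 hup
    · rintro ⟨c', d', hl, hup⟩
      obtain ⟨y, hw⟩ := link_read hS hcd hl
      refine ⟨y, fun hnp => hup ?_⟩
      exact (ih (ilv y v) c' d' fun j hj => hw j (by omega)).1 hnp

theorem univ_sem {n : ℕ} (hn : 1 ≤ n) {f : Fm} (hf : QS n f) (hs : f.IsSentence) :
    ∃ e1 e2 L : ℕ, ∀ (M : Type) (S : Str M), IsPA S → ∀ v,
      (f.sat S v ↔ UP S (S.num e1) (S.num e2) (S.num L) n S.zero S.zero) := by
  obtain ⟨s, t, hst⟩ := normal_form hn hf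
  obtain ⟨e1, e2, L, hp⟩ := prog s t
  refine ⟨e1, e2, L, fun M S hS v => ?_⟩
  have h1 : f.sat S v ↔ f.sat S (fun _ => S.zero) :=
    Fm.sat_congr S (k := 0) (fun i hi => absurd hi (Nat.not_lt_zero i)) hs
  rw [h1, hst M S hS]
  refine UP_correct hS (hp M S hS) n hn _ _ _ fun j _ => ?_
  have := (ent_num hS 0 0 j 0).2 (by simp)
  exact this

end Pool.Agent.Helper685.Sol
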