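import Pool.Agent.Helper685.Sol.Codes

/-! # Forcing conditions -/

namespace Pool.Agent.Helper685.Sol

/-- A point: a model of `PA` with a finite injective tuple `a 0, ..., a (m-1)`. -/
structure Pt : Type 1 where
  M : Type
  S : Str M
  pa : IsPA S
  m : ℕ
  a : ℕ → M
  inj : ∀ i < m, ∀ j < m, a i = a j → i = j

/-- The tuples of `P` and `Q` satisfy the same `Q n` formulas with free variables `< m`. -/
def Eqv (n m : ℕ) (P Q : Pt) : Prop :=
  ∀ f : Fm, QS n f → f.FvLt m → (f.sat P.S P.a ↔ f.sat Q.S Q.a)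

/-- `Q` has a longer tuple, and the restriction has the same `Q n` type. -/
def Ext (n : ℕ) (P Q : Pt) : Prop := P.m ≤ Q.m ∧ Eqv n P.m P Q

/-- the part of the atomic diagram known at `P` -/
def Pt.diag (P : Pt) : Set ℕ :=
  {x | ∃ f : Fm, f.IsLiteral ∧ f.FvLt P.m ∧ f.sat P.S P.a ∧ x = Encodable.encode f}

/-- `x` is decided by `P`: it is not the number of a literal, or it is the number of a literal
with variables `< m`. -/
def Pt.Dec (P : Pt) (x : ℕ) : Prop :=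
  ∀ f : Fm, f.IsLiteral → x = Encodable.encode f → f.FvLt P.m

/-- strong forcing -/
def BC.F : {n : ℕ} → BC n → Pt → Prop
  | _, .op E, P => ∃ L : Finset ℕ, (∀ x ∈ L, P.Dec x) ∧
      ∀ X : Set ℕ, (∀ x ∈ L, (x ∈ X ↔ x ∈ P.diag)) → X ∈ E
  | _, .un (n := n) c, P => ∃ i, ∀ Q : Pt, Ext n P Q → ¬ (c i).F Q

/-- generic sequences -/
structure GSeq (C : ℕ → Σ n, BC n) (D : ℕ → Pt → ℕ → Prop) (P : ℕ → Pt) (k : ℕ → ℕ) : Prop where
  kmono : ∀ i, k i ≤ k (i + 1)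
  kge : ∀ i, i ≤ k i
  ext : ∀ i, Ext (k i) (P i) (P (i + 1))
  mge : ∀ i, i ≤ (P i).m
  wit : ∀ (f : Fm) (N : ℕ), ∃ i ≥ N, f.FvLt ((P i).m + 1) →
    (∃ x, f.sat (P i).S (cns x (P i).a)) → ∃ j < (P i).m, f.sat (P i).S (cns ((P i).a j) (P i).a)
  dec : ∀ j, ∃ i, (C j).1 ≤ k i ∧
    ((C j).2.F (P i) ∨ ∀ R : Pt, Ext (C j).1 (P i) R → ¬ (C j).2.F R)
  req : ∀ e, ∃ i, D e (P i) (k i)

end Pool.Agent.Helper685.Sol
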