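import Pool.Agent.Helper685.Sol.Enc

/-! # Renaming, free variables, quantifier classes -/

namespace Pool.Agent.Helper685.Sol

/-- renaming of the variables of a term -/
def Tm.ren (ρ : ℕ → ℕ) : Tm → Tm
  | .var i => .var (ρ i)
  | .zero => .zero
  | .succ t => .succ (t.ren ρ)
  | .add s t => .add (s.ren ρ) (t.ren ρ)
  | .mul s t => .mul (s.ren ρ) (t.ren ρ)

/-- lifting of a renaming under a binder -/
def upr (ρ : ℕ → ℕ) : ℕ → ℕ
  | 0 => 0
  | i + 1 => ρ i + 1

/-- renaming of the free variables of a formula -/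
def Fm.ren : (ℕ → ℕ) → Fm → Fm
  | ρ, .eq s t => .eq (s.ren ρ) (t.ren ρ)
  | ρ, .neg f => .neg (f.ren ρ)
  | ρ, .and f g => .and (f.ren ρ) (g.ren ρ)
  | ρ, .ex f => .ex (f.ren (upr ρ))

section
variable {M : Type} (S : Str M)

theorem Tm.val_ren (ρ : ℕ → ℕ) (v : ℕ → M) (t : Tm) :
    (t.ren ρ).val S v = t.val S (fun i => v (ρ i)) := by
  induction t with
  | var i => rfl
  | zero => rfl
  | succ t ih => simp [Tm.ren, Tm.val, ih]
  | add s t ih1 ih2 => simp [Tm.ren, Tm.val, ih1, ih2]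
  | mul s t ih1 ih2 => simp [Tm.ren, Tm.val, ih1, ih2]

theorem cns_upr (ρ : ℕ → ℕ) (a : M) (v : ℕ → M) :
    (fun i => cns a v (upr ρ i)) = cns a (fun i => v (ρ i)) := by
  funext i; cases i <;> rfl

theorem Fm.sat_ren (ρ : ℕ → ℕ) (v : ℕ → M) (f : Fm) :
    (f.ren ρ).sat S v ↔ f.sat S (fun i => v (ρ i)) := by
  induction f generalizing ρ v with
  | eq s t => simp [Fm.ren, Fm.sat, Tm.val_ren]
  | neg f ih => simp [Fm.ren, Fm.sat, ih]
  | and f g ih1 ih2 => simp [Fm.ren, Fm.sat, ih1, ih2]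
  | ex f ih => simp only [Fm.ren, Fm.sat, ih, cns_upr]

theorem Tm.val_congr {k : ℕ} {v w : ℕ → M} (h : ∀ i < k, v i = w i) {t : Tm} (ht : t.FvLt k) :
    t.val S v = t.val S w := by
  induction t with
  | var i => exact h i ht
  | zero => rfl
  | succ t ih => simp [Tm.val, ih ht]
  | add s t ih1 ih2 => simp [Tm.val, ih1 ht.1, ih2 ht.2]
  | mul s t ih1 ih2 => simp [Tm.val, ih1 ht.1, ih2 ht.2]

theorem Fm.sat_congr {k : ℕ} {v w : ℕ → M} (h : ∀ i < k, v i = w i) {f : Fm} (hf : f.FvLt k) :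
    f.sat S v ↔ f.sat S w := by
  induction f generalizing k v w with
  | eq s t => simp [Fm.sat, Tm.val_congr S h hf.1, Tm.val_congr S h hf.2]
  | neg f ih => simp [Fm.sat, ih h hf]
  | and f g ih1 ih2 => simp [Fm.sat, ih1 h hf.1, ih2 h hf.2]
  | ex f ih =>
    simp only [Fm.sat]
    refine exists_congr fun a => ih (k := k + 1) ?_ hf
    intro i hi
    cases i with
    | zero => rfl
    | succ i => exact h i (by omega)

end

theorem Tm.FvLt.mono {k m : ℕ} (h : k ≤ m) {t : Tm} (ht : t.FvLt k) : t.FvLt m := by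
  induction t with
  | var i => exact lt_of_lt_of_le ht h
  | zero => trivial
  | succ t ih => exact ih ht
  | add s t ih1 ih2 => exact ⟨ih1 ht.1, ih2 ht.2⟩
  | mul s t ih1 ih2 => exact ⟨ih1 ht.1, ih2 ht.2⟩

theorem Fm.FvLt.mono {k m : ℕ} (h : k ≤ m) {f : Fm} (hf : f.FvLt k) : f.FvLt m := by
  induction f generalizing k m with
  | eq s t => exact ⟨hf.1.mono h, hf.2.mono h⟩
  | neg f ih => exact ih h hf
  | and f g ih1 ih2 => exact ⟨ih1 h hf.1, ih2 h hf.2⟩
  | ex f ih => exact ih (Nat.succ_le_succ h) hf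

theorem Tm.exists_fvLt (t : Tm) : ∃ k, t.FvLt k := by
  induction t with
  | var i => exact ⟨i + 1, Nat.lt_succ_self i⟩
  | zero => exact ⟨0, trivial⟩
  | succ t ih => exact ih
  | add s t ih1 ih2 =>
    obtain ⟨k, hk⟩ := ih1
    obtain ⟨m, hm⟩ := ih2
    exact ⟨max k m, hk.mono (le_max_left _ _), hm.mono (le_max_right _ _)⟩
  | mul s t ih1 ih2 =>
    obtain ⟨k, hk⟩ := ih1
    obtain ⟨m, hm⟩ := ih2
    exact ⟨max k m, hk.mono (le_max_left _ _), hm.mono (le_max_right _ _)⟩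

theorem Fm.exists_fvLt (f : Fm) : ∃ k, f.FvLt k := by
  induction f with
  | eq s t =>
    obtain ⟨k, hk⟩ := s.exists_fvLt
    obtain ⟨m, hm⟩ := t.exists_fvLt
    exact ⟨max k m, hk.mono (le_max_left _ _), hm.mono (le_max_right _ _)⟩
  | neg f ih => exact ih
  | and f g ih1 ih2 =>
    obtain ⟨k, hk⟩ := ih1
    obtain ⟨m, hm⟩ := ih2
    exact ⟨max k m, hk.mono (le_max_left _ _), hm.mono (le_max_right _ _)⟩
  | ex f ih =>
    obtain ⟨k, hk⟩ := ih
    exact ⟨k, Fm.FvLt.mono (Nat.le_succ k) hk⟩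

theorem Tm.fvLt_ren {k m : ℕ} {ρ : ℕ → ℕ} (h : ∀ i < k, ρ i < m) {t : Tm} (ht : t.FvLt k) :
    (t.ren ρ).FvLt m := by
  induction t with
  | var i => exact h i ht
  | zero => trivial
  | succ t ih => exact ih ht
  | add s t ih1 ih2 => exact ⟨ih1 ht.1, ih2 ht.2⟩
  | mul s t ih1 ih2 => exact ⟨ih1 ht.1, ih2 ht.2⟩

theorem Fm.fvLt_ren {k m : ℕ} {ρ : ℕ → ℕ} (h : ∀ i < k, ρ i < m) {f : Fm} (hf : f.FvLt k) :
    (f.ren ρ).FvLt m := by
  induction f generalizing k m ρ with
  | eq s t => exact ⟨Tm.fvLt_ren h hf.1, Tm.fvLt_ren h hf.2⟩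
  | neg f ih => exact ih h hf
  | and f g ih1 ih2 => exact ⟨ih1 h hf.1, ih2 h hf.2⟩
  | ex f ih =>
    refine ih (k := k + 1) (m := m + 1) ?_ hf
    intro i hi
    cases i with
    | zero => exact Nat.succ_pos m
    | succ i => exact Nat.succ_lt_succ (h i (by omega))

/-- quantifier-free formulas -/
inductive QF : Fm → Prop
  | eq (s t : Tm) : QF (.eq s t)
  | neg {f : Fm} : QF f → QF (.neg f)
  | and {f g : Fm} : QF f → QF g → QF (.and f g)

/-- The class `Q n`: `Q 0` are the quantifier-free formulas; `Q (n+1)` is the closure of `Q n` and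
the negations of formulas of `Q n` under conjunction and existential quantification. -/
inductive QS : ℕ → Fm → Prop
  | qf {f : Fm} : QF f → QS 0 f
  | up {n : ℕ} {f : Fm} : QS n f → QS (n + 1) f
  | neg {n : ℕ} {f : Fm} : QS n f → QS (n + 1) (.neg f)
  | and {n : ℕ} {f g : Fm} : QS (n + 1) f → QS (n + 1) g → QS (n + 1) (.and f g)
  | ex {n : ℕ} {f : Fm} : QS (n + 1) f → QS (n + 1) (.ex f)

theorem QS.mono {n m : ℕ} (h : n ≤ m) {f : Fm} (hf : QS n f) : QS m f := by
  induction h with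
  | refl => exact hf
  | step _ ih => exact ih.up

theorem QS.and' {n : ℕ} {f g : Fm} (hf : QS n f) (hg : QS n g) : QS n (.and f g) := by
  cases n with
  | zero => cases hf with | qf hf => cases hg with | qf hg => exact .qf (.and hf hg)
  | succ n => exact .and hf hg

theorem QF.ren {f : Fm} (hf : QF f) (ρ : ℕ → ℕ) : QF (f.ren ρ) := by
  induction hf generalizing ρ with
  | eq s t => exact .eq _ _
  | neg _ ih => exact .neg (ih ρ)
  | and _ _ ih1 ih2 => exact .and (ih1 ρ) (ih2 ρ)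

theorem QS.ren {n : ℕ} {f : Fm} (hf : QS n f) (ρ : ℕ → ℕ) : QS n (f.ren ρ) := by
  induction hf generalizing ρ with
  | qf h => exact .qf (h.ren ρ)
  | up _ ih => exact .up (ih ρ)
  | neg _ ih => exact .neg (ih ρ)
  | and _ _ ih1 ih2 => exact .and (ih1 ρ) (ih2 ρ)
  | ex _ ih => exact .ex (ih _)

theorem exists_QS (f : Fm) : ∃ n, QS n f := by
  induction f with
  | eq s t => exact ⟨0, .qf (.eq s t)⟩
  | neg f ih =>
    obtain ⟨n, hn⟩ := ih
    exact ⟨n + 1, .neg hn⟩
  | and f g ih1 ih2 =>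
    obtain ⟨n, hn⟩ := ih1
    obtain ⟨m, hm⟩ := ih2
    exact ⟨max n m + 1, .and (hn.mono (by omega)) (hm.mono (by omega))⟩
  | ex f ih =>
    obtain ⟨n, hn⟩ := ih
    exact ⟨n + 1, .ex hn.up⟩

theorem QS.of_neg {n : ℕ} {f : Fm} (h : QS n (.neg f)) : QS n f := by
  generalize hg : Fm.neg f = g at h
  induction h with
  | qf h => subst hg; cases h with | neg h => exact .qf h
  | up _ ih => exact .up (ih hg)
  | neg h _ => cases hg; exact .up h
  | and _ _ _ _ => cases hg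
  | ex _ _ => cases hg

theorem QS.of_and {n : ℕ} {f g : Fm} (h : QS n (.and f g)) : QS n f ∧ QS n g := by
  generalize hk : Fm.and f g = k at h
  induction h with
  | qf h => subst hk; cases h with | and h1 h2 => exact ⟨.qf h1, .qf h2⟩
  | up _ ih => exact ⟨.up (ih hk).1, .up (ih hk).2⟩
  | neg h _ => cases hk
  | and h1 h2 _ _ => cases hk; exact ⟨h1, h2⟩
  | ex _ _ => cases hk

theorem QS.of_ex {n : ℕ} {f : Fm} (h : QS n (.ex f)) : QS n f := by
  generalize hk : Fm.ex f = k at h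
  induction h with
  | qf h => subst hk; cases h
  | up _ ih => exact .up (ih hk)
  | neg h _ => cases hk
  | and _ _ _ _ => cases hk
  | ex h _ => cases hk; exact h

/-- Every `Q n` formula with free variables `< m` true at `a` in `S` is true at `b` in `S'`. -/
def Le (n m : ℕ) {M N : Type} (S : Str M) (a : ℕ → M) (S' : Str N) (b : ℕ → N) : Prop :=
  ∀ f : Fm, QS n f → f.FvLt m → f.sat S a → f.sat S' b

end Pool.Agent.Helper685.Sol
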