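import Pool.Agent.Helper685.Sol.FDec
import Pool.Agent.Helper685.Sol.Chain

namespace Pool.Agent.Helper685.Sol

theorem sat_sentence {M : Type} {S : Str M} {f : Fm} (hf : f.IsSentence) (v w : ℕ → M) :
    f.sat S v ↔ f.sat S w :=
  Fm.sat_congr S (k := 0) (fun i hi => absurd hi (Nat.not_lt_zero i)) hf

/-- one step: move the tuple of `R` to a model above `S'` -/
theorem lift_step (R : Pt) {n : ℕ} (hn : 1 ≤ n) {N : Type} {S' : Str N} (hS' : IsPA S')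
    (h : ∀ f : Fm, QS n f → f.IsSentence → f.sat R.S R.a → ∀ v, f.sat S' v) :
    ∃ Q : Pt, Ext (n - 1) R Q ∧ ∀ f : Fm, f.IsSentence → (f.sat Q.S Q.a ↔ ∀ v, f.sat S' v) := by
  have hle : Le n 0 R.S R.a S' (fun _ => S'.zero) := fun f hf hv hs => h f hf hv hs _
  obtain ⟨T', T, c, hT, hel, hLe⟩ := amalg hn (Nat.zero_le R.m) hS' hle
  have hinj : ∀ i < R.m, ∀ j < R.m, c i = c j → i = j := by
    intro i hi j hj hc
    by_contra hne
    have h1 : Fm.sat R.S R.a (.neg (.eq (.var i) (.var j))) := fun he => hne (R.inj i hi j hj he)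
    have hv : (Fm.neg (.eq (.var i) (.var j))).FvLt R.m := ⟨hi, hj⟩
    have h2 := hLe _ ((QS.qf (.neg (.eq _ _))).mono (Nat.zero_le n)) hv h1
    exact h2 hc
  refine ⟨⟨T', T, hT, R.m, c, hinj⟩, ⟨le_rfl, fun f hf hv => ⟨fun hs => ?_, fun hs => ?_⟩⟩, ?_⟩
  · exact hLe f (hf.mono (Nat.sub_le n 1)) hv hs
  · by_contra hns
    have h2 := hLe (.neg f) (by
      obtain ⟨n, rfl⟩ : ∃ n', n = n' + 1 := ⟨n - 1, by omega⟩
      exact .neg hf) hv hns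
    exact h2 hs
  · intro f hf
    have h1 := hel f hf
    constructor
    · intro hs v
      exact (sat_sentence hf _ _).mp (h1.mpr hs)
    · intro hs
      exact h1.mp (hs _)

theorem three_way (P : Pt) (k : ℕ) :
    ∃ s0 s1 : Fm, s0.IsSentence ∧ IsSig (k + 2) s0 ∧ s1.IsSentence ∧ IsSig (k + 2) s1 ∧
      ∀ c0 c1 : BC (k + 2), ∃ Q : Pt, Ext k P Q ∧
        ((¬ s0.sat Q.S Q.a ∧ ∀ R : Pt, Ext (k + 2) Q R → ¬ c0.F R) ∨
         (s0.sat Q.S Q.a ∧ ¬ s1.sat Q.S Q.a ∧ c0.F Q ∧ ∀ R : Pt, Ext (k + 2) Q R → ¬ c1.F R) ∨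
         (s1.sat Q.S Q.a ∧ c1.F Q)) := by
  obtain ⟨s0, s1, h1, h2, h3, h4, M0, S0, M1, S1, M2, S2, p0, p1, p2, l0, l1, l2, t0, t1, t2, t3,
    t4⟩ := chain P.pa (n := k + 2) (j := k + 1) (by omega) (by omega)
  refine ⟨s0, s1, h1, h2, h3, h4, fun c0 c1 => ?_⟩
  obtain ⟨Q0, hQ0, e0⟩ := lift_step P (n := k + 1) (by omega) p0
    (fun f hf hv hs => l0 f hf hv (fun v => (sat_sentence hv _ _).mp hs))
  have hQ0' : Ext k P Q0 := hQ0
  have n0 : ¬ s0.sat Q0.S Q0.a := fun h => t0 (fun _ => S0.zero) ((e0 s0 h1).mp h _)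
  by_cases hA : ∃ R : Pt, Ext (k + 2) Q0 R ∧ c0.F R
  · obtain ⟨R, hR, hF⟩ := hA
    obtain ⟨Q1, hQ1, e1⟩ := lift_step R (n := k + 2) (by omega) p1 (by
      intro f hf hv hs
      refine l1 f hf hv ?_
      exact (e0 f hv).mp ((hR.2 f hf (Fm.FvLt.mono (Nat.zero_le _) hv)).mpr hs))
    have hF1 : c0.F Q1 := F_mono c0 hQ1 hF
    have hP1 : Ext k P Q1 := (hQ0'.trans (hR.mono (by omega))).trans (hQ1.mono (by omega))
    have s1t : s0.sat Q1.S Q1.a := (e1 s0 h1).mpr t1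
    have s1f : ¬ s1.sat Q1.S Q1.a := fun h => t2 (fun _ => S1.zero) ((e1 s1 h3).mp h _)
    by_cases hB : ∃ R : Pt, Ext (k + 2) Q1 R ∧ c1.F R
    · obtain ⟨R', hR', hF'⟩ := hB
      obtain ⟨Q2, hQ2, e2⟩ := lift_step R' (n := k + 2) (by omega) p2 (by
        intro f hf hv hs
        refine l2 f hf hv ?_
        exact (e1 f hv).mp ((hR'.2 f hf (Fm.FvLt.mono (Nat.zero_le _) hv)).mpr hs))
      exact ⟨Q2, (hP1.trans (hR'.mono (by omega))).trans (hQ2.mono (by omega)),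
        Or.inr (Or.inr ⟨(e2 s1 h3).mpr t4, F_mono c1 hQ2 hF'⟩)⟩
    · exact ⟨Q1, hP1, Or.inr (Or.inl ⟨s1t, s1f, hF1, fun R hR h => hB ⟨R, hR, h⟩⟩)⟩
  · exact ⟨Q0, hQ0', Or.inl ⟨n0, fun R hR h => hA ⟨R, hR, h⟩⟩⟩

end Pool.Agent.Helper685.Sol
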