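import Pool.Agent.Helper685.Sol.Alg

/-! # Normal forms and the universal predicates -/

namespace Pool.Agent.Helper685.Sol

/-- interleaving of two sequences: the even entries are those of `y`, the odd ones those of `v` -/
def ilv {M : Type} (y v : ℕ → M) : ℕ → M := fun k => if k % 2 = 0 then y (k / 2) else v (k / 2)

/-- prenex normal forms: `n` alternating quantifiers over sequences in front of an (in)equation -/
def NP {M : Type} (S : Str M) (s t : Tm) : ℕ → (ℕ → M) → Prop
  | 0, v => s.val S v ≠ t.val S v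
  | n + 1, v => ∃ y : ℕ → M, ¬ NP S s t n (ilv y v)

/-- The instruction `op, a, b, r` is satisfied by the sequence coded by `c, d`. -/
def Instr {M : Type} (S : Str M) (c d op a b r : M) : Prop :=
  ∃ x y z, S.Ent c d a x ∧ S.Ent c d b y ∧ S.Ent c d r z ∧
    ((op = S.num 0 ∧ z = S.add x y) ∨ (op = S.num 1 ∧ z = S.mul x y) ∨
      (op = S.num 2 ∧ z = S.succ x) ∨ (op = S.num 3 ∧ z = S.zero) ∨ (op = S.num 4 ∧ z = x))

/-- All `L` instructions of the program coded by `e1, e2` are satisfied by the sequence coded by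
`c, d`. -/
def Run {M : Type} (S : Str M) (e1 e2 L c d : M) : Prop :=
  ∀ i, S.lt i L → ∃ op a b r, S.Ent e1 e2 (S.mul (S.num 4) i) op ∧
    S.Ent e1 e2 (S.add (S.mul (S.num 4) i) (S.num 1)) a ∧
    S.Ent e1 e2 (S.add (S.mul (S.num 4) i) (S.num 2)) b ∧
    S.Ent e1 e2 (S.add (S.mul (S.num 4) i) (S.num 3)) r ∧ Instr S c d op a b r

/-- For `j < L` the entry `2 j + 1` of the sequence coded by `c', d'` is the entry `j` of the
sequence coded by `c, d`. -/
def Link {M : Type} (S : Str M) (L c d c' d' : M) : Prop :=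
  ∀ j, S.lt j L → ∃ x, S.Ent c d j x ∧ S.Ent c' d' (S.add (S.mul (S.num 2) j) (S.num 1)) x

/-- the universal predicates -/
def UP {M : Type} (S : Str M) (e1 e2 L : M) : ℕ → M → M → Prop
  | 0, c, d => ¬ Run S e1 e2 L c d
  | n + 1, c, d => ∃ c' d', Link S L c d c' d' ∧ ¬ UP S e1 e2 L n c' d'

/-- predicates on models with assignments -/
abbrev Pred := ∀ M : Type, Str M → (ℕ → M) → Prop

/-- expressed by a `Δ₀` formula in all models of `PA` -/
def D0P (P : Pred) : Prop :=
  ∃ f : Fm, IsD0 f ∧ ∀ (M : Type) (S : Str M), IsPA S → ∀ v, (f.sat S v ↔ P M S v)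

/-- expressed by a `Σₙ` formula in all models of `PA` -/
def SigP (n : ℕ) (P : Pred) : Prop :=
  ∃ f : Fm, IsSig n f ∧ ∀ (M : Type) (S : Str M), IsPA S → ∀ v, (f.sat S v ↔ P M S v)

/-- expressed by a `Πₙ` formula in all models of `PA` -/
def PiP (n : ℕ) (P : Pred) : Prop :=
  ∃ f : Fm, IsPi n f ∧ ∀ (M : Type) (S : Str M), IsPA S → ∀ v, (f.sat S v ↔ P M S v)

end Pool.Agent.Helper685.Sol
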