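import Pool.Agent.Helper685.Sol.Codes

namespace Pool.Agent.Helper685.Sol

/-- The use principle. -/
theorem OCode.use (c : OCode) (X : Set ℕ) (a y : ℕ) (h : y ∈ c.eval X a) :
    ∃ L : Finset ℕ, ∀ Y : Set ℕ, (∀ x ∈ L, (x ∈ Y ↔ x ∈ X)) → y ∈ c.eval Y a := by
  classical
  induction c generalizing a y with
  | zero => exact ⟨∅, fun Y _ => h⟩
  | succ => exact ⟨∅, fun Y _ => h⟩
  | left => exact ⟨∅, fun Y _ => h⟩
  | right => exact ⟨∅, fun Y _ => h⟩
  | oracle =>
    refine ⟨{a}, fun Y hY => ?_⟩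
    have hYX := hY a (Finset.mem_singleton_self a)
    simp only [OCode.eval, Part.mem_some_iff] at h ⊢
    rw [h]
    simp only [hYX]
  | pair f g ihf ihg =>
    simp only [OCode.eval, Part.mem_bind_iff, Part.mem_map_iff] at h
    obtain ⟨u, hu, v, hv, rfl⟩ := h
    obtain ⟨L1, h1⟩ := ihf a u hu
    obtain ⟨L2, h2⟩ := ihg a v hv
    refine ⟨L1 ∪ L2, fun Y hY => ?_⟩
    simp only [OCode.eval, Part.mem_bind_iff, Part.mem_map_iff]
    exact ⟨u, h1 Y (fun x hx => hY x (Finset.mem_union_left _ hx)), v,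
      h2 Y (fun x hx => hY x (Finset.mem_union_right _ hx)), rfl⟩
  | comp f g ihf ihg =>
    simp only [OCode.eval, Part.mem_bind_iff] at h
    obtain ⟨u, hu, hv⟩ := h
    obtain ⟨L1, h1⟩ := ihg a u hu
    obtain ⟨L2, h2⟩ := ihf u y hv
    refine ⟨L1 ∪ L2, fun Y hY => ?_⟩
    simp only [OCode.eval, Part.mem_bind_iff]
    exact ⟨u, h1 Y (fun x hx => hY x (Finset.mem_union_left _ hx)),
      h2 Y (fun x hx => hY x (Finset.mem_union_right _ hx))⟩
  | prec f g ihf ihg =>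
    simp only [OCode.eval] at h ⊢
    generalize a.unpair.1 = b at h ⊢
    generalize a.unpair.2 = k at h ⊢
    induction k generalizing y with
    | zero => exact ihf b y h
    | succ k ihk =>
      simp only [Part.mem_bind_iff] at h
      obtain ⟨u, hu, hv⟩ := h
      obtain ⟨L1, h1⟩ := ihk u hu
      obtain ⟨L2, h2⟩ := ihg _ y hv
      refine ⟨L1 ∪ L2, fun Y hY => ?_⟩
      simp only [Part.mem_bind_iff]
      exact ⟨u, h1 Y (fun x hx => hY x (Finset.mem_union_left _ hx)),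
        h2 Y (fun x hx => hY x (Finset.mem_union_right _ hx))⟩
  | rfind f ih =>
    simp only [OCode.eval] at h ⊢
    obtain ⟨h1, h2⟩ := Nat.mem_rfind.1 h
    rw [Part.mem_map_iff] at h1
    obtain ⟨z, hz, hz0⟩ := h1
    have h3 : ∀ j : ℕ, ∃ L : Finset ℕ, j < y → ∃ w : ℕ, decide (w = 0) = false ∧
        ∀ Y : Set ℕ, (∀ x ∈ L, (x ∈ Y ↔ x ∈ X)) → w ∈ f.eval Y (Nat.pair a j) := by
      intro j
      by_cases hj : j < y
      · have h4 := h2 hj
        rw [Part.mem_map_iff] at h4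
        obtain ⟨w, hw, hw0⟩ := h4
        obtain ⟨L, hL⟩ := ih _ w hw
        exact ⟨L, fun _ => ⟨w, by simpa using hw0, hL⟩⟩
      · exact ⟨∅, fun h => absurd h hj⟩
    choose L hL using h3
    obtain ⟨L0, hL0⟩ := ih _ z hz
    refine ⟨L0 ∪ (Finset.range y).biUnion L, fun Y hY => ?_⟩
    refine Nat.mem_rfind.2 ⟨?_, ?_⟩
    · rw [Part.mem_map_iff]
      exact ⟨z, hL0 Y (fun x hx => hY x (Finset.mem_union_left _ hx)), hz0⟩
    · intro m hm
      obtain ⟨w, hw0, hw⟩ := hL m hm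
      rw [Part.mem_map_iff]
      refine ⟨w, hw Y (fun x hx => hY x (Finset.mem_union_right _
        (Finset.mem_biUnion.2 ⟨m, Finset.mem_range.2 hm, hx⟩))), by simpa using hw0⟩

end Pool.Agent.Helper685.Sol
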